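import Mathlib
import Pool.Agent.Lib.MP_1fca17_co.Q.Defs
import Pool.Agent.Lib.MP_1fca17_co.Q.MapDefs

/-!
# MP_1fca17_co : all k-planar graphs are O(k^(13/14))-quasiplanar

Definitions and the statements of the modules.  Complete proofs: team store `QP_full58.md`.
Every module takes the statements that it uses as hypotheses.
-/

namespace Pool.Agent.Lib.MP_1fca17_co.F

open Finset
open scoped Classical
open Pool.Agent.Lib.MP_1fca17_co (sg GenPos Btw LC MonoFam StCount StNum1)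
open Pool.Agent.Lib.MP_1fca17_co.Q (PlaneMap KPlanar Par Anti edgeSeg BaseD StGP)

noncomputable section

/-! ## 1. Rooted trees -/

/-- a rooted tree: root, parent, depth -/
structure RTree (I : Type) where
  r : I
  par : I → I
  dep : I → ℕ
  dep_r : dep r = 0
  dep_par : ∀ i, i ≠ r → dep (par i) + 1 = dep i

/-- adjacent nodes -/
def RTree.Adj {I : Type} (T : RTree I) (i j : I) : Prop :=
  (i ≠ T.r ∧ j = T.par i) ∨ (j ≠ T.r ∧ i = T.par j)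

/-- `S` is a nonempty subtree: it has a top `t`, and the parent of every other element is in `S` -/
def RTree.Sub {I : Type} (T : RTree I) (S : Set I) : Prop :=
  ∃ t ∈ S, ∀ i ∈ S, i ≠ t → i ≠ T.r ∧ T.par i ∈ S

/-- the nodes outside `S` whose parent is in `S` -/
def RTree.low {I : Type} [Fintype I] (T : RTree I) (S : Set I) : Finset I :=
  univ.filter (fun j => j ≠ T.r ∧ j ∉ S ∧ T.par j ∈ S)

/-- a region: empty, or a subtree with at most one lower boundary node -/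
def RTree.Reg {I : Type} [Fintype I] (T : RTree I) (S : Set I) : Prop :=
  S = ∅ ∨ (T.Sub S ∧ (T.low S).card ≤ 1)

/-- at most three children -/
def RTree.Ch3 {I : Type} [Fintype I] (T : RTree I) : Prop :=
  ∀ j, (univ.filter (fun i => i ≠ T.r ∧ T.par i = j)).card ≤ 3

/-- SUB: elementary facts -/
def StSub : Prop := ∀ (I : Type) [Fintype I] (T : RTree I),
  -- a nonempty set connected inside itself is a subtree
  (∀ S : Set I, S.Nonempty → (∀ i ∈ S, ∀ j ∈ S,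
    Relation.ReflTransGen (fun x y => x ∈ S ∧ y ∈ S ∧ T.Adj x y) i j) → T.Sub S) ∧
  -- a subtree is connected inside itself
  (∀ S : Set I, T.Sub S → ∀ i ∈ S, ∀ j ∈ S,
    Relation.ReflTransGen (fun x y => x ∈ S ∧ y ∈ S ∧ T.Adj x y) i j) ∧
  -- crossing
  (∀ (S : Set I) (p : I → Prop), T.Sub S → (∃ i ∈ S, p i) → (∃ j ∈ S, ¬ p j) →
    ∃ i ∈ S, ∃ j ∈ S, T.Adj i j ∧ p i ∧ ¬ p j) ∧
  -- union of subtrees that meet a given one
  (∀ (S : Set I) (U : Set (Set I)), T.Sub S → (∀ Y ∈ U, T.Sub Y ∧ (S ∩ Y).Nonempty) →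
    T.Sub (S ∪ ⋃₀ U)) ∧
  -- intersection
  (∀ S Y : Set I, T.Sub S → T.Sub Y → (S ∩ Y).Nonempty → T.Sub (S ∩ Y))

/-! ## 2. The structure of a window -/

/-- the ordered adjacent pairs inside `W` -/
def prs {V : Type} (G : SimpleGraph V) (W : Finset V) : Finset (V × V) :=
  (W ×ˢ W).filter (fun e => G.Adj e.1 e.2)

/-- a `(c,K)`-structure of `G[W]`: subtrees `Z v` for the vertices and `S u v` for the edges; every
node lies in at most `c` sets `Z v` and in at most `K` sets `S u v` (ordered pairs). -/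
structure CK {V : Type} (c K : ℕ) (G : SimpleGraph V) (W : Finset V) (I : Type)
    [Fintype I] where
  T : RTree I
  Z : V → Set I
  S : V → V → Set I
  child : T.Ch3
  subZ : ∀ v ∈ W, T.Sub (Z v)
  subS : ∀ u ∈ W, ∀ v ∈ W, G.Adj u v → T.Sub (S u v)
  symS : ∀ u v, S u v = S v u
  meet : ∀ u ∈ W, ∀ v ∈ W, G.Adj u v → (S u v ∩ Z u).Nonempty
  cntZ : ∀ i, (W.filter (fun v => i ∈ Z v)).card ≤ c
  cntS : ∀ i, ((prs G W).filter (fun e => i ∈ S e.1 e.2)).card ≤ K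

/-- DEG: few edges inside every set -/
def StDeg : Prop := ∀ (V I : Type) [Fintype V] [Fintype I] (G : SimpleGraph V) (W : Finset V)
  (c K t : ℕ) (_ : CK c K G W I), c ≤ t → 3 * K < (t + 1 - c) ^ 2 →
  ∀ U ⊆ W, (prs G U).card ≤ 4 * t * U.card

/-! ## 3. Cuts and addresses -/

/-- BAL -/
def StBal : Prop := ∀ (I : Type) [Fintype I] (T : RTree I) (R : Finset I) (ω : I → ℕ) (t : ℕ),
  1 ≤ t → (R = ∅ ∨ T.Sub (R : Set I)) →
  ∃ C ⊆ R, C.card * t ≤ 2 * ∑ i ∈ R, ω i + (T.low (R : Set I)).card * t ∧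
    ∀ S : Finset I, S ⊆ R \ C → T.Sub (S : Set I) → ∑ i ∈ S, ω i < t ∧
      ((T.low (S : Set I)).filter (fun j => j ∈ C ∨ j ∉ R)).card ≤ 1

/-- the class number `x` -/
def cls {I : Type} (R C : Finset I) (f : I → ℕ) (x : ℕ) : Set I := {i | i ∈ R ∧ i ∉ C ∧ f i = x}

/-- CUT -/
def StCut : Prop := ∀ (V I : Type) [Fintype V] [Fintype I] (T : RTree I) (W : Finset V)
  (Z : V → Set I) (R : Finset I) (w : V → ℕ) (q : ℕ), 1 ≤ q → T.Ch3 → R.Nonempty →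
  T.Reg (R : Set I) → (∀ v ∈ W, T.Sub (Z v)) →
  ∃ (C : Finset I) (f : I → ℕ), C ⊆ R ∧ C.Nonempty ∧ C.card ≤ 4 * q + 2 ∧
    (∀ i, f i < 3 * (4 * q + 2)) ∧
    (∀ i ∈ R, ∀ j ∈ R, i ∉ C → j ∉ C → T.Adj i j → f i = f j) ∧
    (∀ x, T.Reg (cls R C f x)) ∧
    ∀ x, 2 * q * ∑ v ∈ W.filter (fun v => Z v ⊆ cls R C f x), w v ≤
      ∑ v ∈ W.filter (fun v => Z v ⊆ (R : Set I)), w v

/-- all the nodes touched by `v` and its edges inside `W` -/
def CK.Zh {V : Type} {c K : ℕ} {G : SimpleGraph V} {W : Finset V} {I : Type} [Fintype I]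
    (X : CK c K G W I) (v : V) : Set I := X.Z v ∪ ⋃₀ {Y | ∃ u ∈ W, G.Adj v u ∧ Y = X.S v u}

/-- the nodes whose address extends `l` (child of the region `l`: `x :: l`) -/
def reg {I : Type} (a : I → List ℕ) (l : List ℕ) : Set I := {i | l <:+ a i}

/-- the address function `a` has all the properties that we need -/
structure RecOK {V : Type} {c K : ℕ} {G : SimpleGraph V} {W : Finset V} {I : Type} [Fintype I]
    (X : CK c K G W I) (q : ℕ) (a : I → List ℕ) : Prop where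
  cmp : ∀ i j, X.T.Adj i j → a i <:+ a j ∨ a j <:+ a i
  regs : ∀ l, X.T.Reg (reg a l)
  cnt : ∀ l, (univ.filter (fun i => a i = l)).card ≤ 4 * q + 2
  idx : ∀ i, ∀ x ∈ a i, x < 3 * (4 * q + 2)
  decay : ∀ l0 l, l0 <:+ l → l0 ≠ l → q ^ (l.length - l0.length - 1) *
    (W.filter (fun v => (∀ i ∈ X.Zh v, l0 <:+ a i) ∧ (∃ i ∈ X.Zh v, a i = l0) ∧
      ∀ i ∈ X.Z v, l <:+ a i)).card ≤ 4 * K

/-- REC -/
def StRec : Prop := ∀ (V I : Type) [Fintype V] [Fintype I] (G : SimpleGraph V) (W : Finset V)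
  (c K q : ℕ) (X : CK c K G W I), 1 ≤ q → ∃ a : I → List ℕ, RecOK X q a

/-! ## 4. Blocks -/

/-- The block structure of `G[W]`.  `h v` is the region (address) in which `v` is placed, `b v` the
region in which `v` becomes a hub, `hub l` the hubs on the boundary of the region `l`. -/
structure Blk {V : Type} (G : SimpleGraph V) (W : Finset V) (m s qq s1 s2 s3 : ℕ) where
  h : V → List ℕ
  b : V → List ℕ
  hub : List ℕ → Finset V
  hb : ∀ v ∈ W, h v <:+ b v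
  len : ∀ v ∈ W, (b v).length < (h v).length + s
  idx : ∀ v ∈ W, ∀ x ∈ b v, x < qq
  hubW : ∀ l, hub l ⊆ W
  hubm : ∀ l, (hub l).card ≤ m
  hublt : ∀ l, ∀ v ∈ hub l, b v <:+ l ∧ b v ≠ l
  hubmono : ∀ l, ∀ v ∈ hub l, ∀ l', l' <:+ l → (b v).length < l'.length → v ∈ hub l'
  edge : ∀ v ∈ W, ∀ u ∈ W, G.Adj v u → (h v).length ≤ (h u).length →
    h v = h u ∨ (h v <:+ h u ∧ h v ≠ h u ∧ (h u <:+ b v ∨ v ∈ hub (h u)))
  blk : ∀ l, (W.filter (fun v => h v = l)).card ≤ s1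
  bir : ∀ l, (W.filter (fun v => b v = l)).card ≤ s2
  grp3 : ∀ l x y, (W.filter (fun v => h v = l ∧ (y :: x :: l) <:+ b v)).card ≤ s3

/-- BLK -/
def StBlk : Prop := ∀ (V I : Type) [Fintype V] [Fintype I] (G : SimpleGraph V) (W : Finset V)
  (c K q s : ℕ) (X : CK c K G W I) (a : I → List ℕ), 1 ≤ q → 1 ≤ s → 4 * K < q ^ (s - 1) →
  RecOK X q a →
  Nonempty (Blk G W (2 * c) s (3 * (4 * q + 2)) ((c + K) * (4 * q + 2)) (c * (4 * q + 2))
    (4 * K / q))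

/-! ## 5. Types and ranks of the regions -/

section Ord

variable {V : Type} (hub : List ℕ → Finset V) (b : V → List ℕ) (m : ℕ)

/-- `stt l i` is the length of the longest nonempty suffix of `l` whose type is at least `i`
(0 if there is none) -/
def stt : List ℕ → ℕ → ℕ
  | [] => fun _ => 0
  | (x :: l) => fun i => if i ≤ Nat.findGreatest (fun i => ∀ v ∈ hub (x :: l),
      ¬ (stt l (i + 1) ≤ (b v).length ∧ (b v).length < stt l i)) m then l.length + 1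
      else stt l i

/-- the type of a region -/
def typ : List ℕ → ℕ
  | [] => 0
  | (x :: l) => Nat.findGreatest (fun i => ∀ v ∈ hub (x :: l),
      ¬ (stt hub b m l (i + 1) ≤ (b v).length ∧ (b v).length < stt hub b m l i)) m

end Ord

/-- the types of the regions on the way from `l.drop g` (excluded) down to `l` (included), in
this order -/
def way (t : List ℕ → ℕ) : ℕ → List ℕ → List ℕ
  | 0, _ => []
  | g + 1, l => way t g l.tail ++ [t l]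

/-- the possible ways from the birth of a hub to a region where it is alive -/
def Zp : ℕ → List ℕ → Prop
  | 0, _ => False
  | i + 1, z => ((∀ x ∈ z, x ≤ i) ∧ Zp i z) ∨
      ∃ z' z'', z = z' ++ (i + 1) :: z'' ∧ (∀ x ∈ z', x ≤ i) ∧ (∀ x ∈ z'', x ≤ i) ∧
        (z' = [] ∨ Zp i z')

/-- the properties of the hubs -/
structure HubOK {V : Type} (hub : List ℕ → Finset V) (b : V → List ℕ) (m : ℕ) : Prop where
  hubm : ∀ l, (hub l).card ≤ m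
  hublt : ∀ l, ∀ v ∈ hub l, b v <:+ l ∧ b v ≠ l
  hubmono : ∀ l, ∀ v ∈ hub l, ∀ l', l' <:+ l → (b v).length < l'.length → v ∈ hub l'

/-- TYP -/
def StTyp : Prop := ∀ (V : Type) (hub : List ℕ → Finset V) (b : V → List ℕ) (m : ℕ),
  HubOK hub b m → (∀ l, typ hub b m l ≤ m) ∧
  ∀ l, ∀ v ∈ hub l, Zp m (way (typ hub b m) (l.length - (b v).length) l)

/-- the digits of the address `l` at the levels `0, 1, …` for the types `t` and the bases `M` -/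
def dig (t : List ℕ → ℕ) (M : ℕ → ℕ) (qq : ℕ) : List ℕ → ℕ → ℕ
  | [] => fun _ => 1
  | (x :: l) => fun i => if i < t (x :: l) then 1
      else if i = t (x :: l) then (∑ j ∈ range (i + 1), dig t M qq l j * M j) * qq + x
      else dig t M qq l i

/-- the rank at level `i` -/
def rnk (t : List ℕ → ℕ) (M : ℕ → ℕ) (qq : ℕ) (l : List ℕ) (i : ℕ) : ℕ :=
  ∑ j ∈ range (i + 1), dig t M qq l j * M j

/-- the addresses that can occur -/
def Adm (n qq : ℕ) (l : List ℕ) : Prop := l.length ≤ n ∧ ∀ x ∈ l, x < qq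

/-- the bases are large -/
def Bases (t : List ℕ → ℕ) (M : ℕ → ℕ) (qq n : ℕ) : Prop :=
  M 0 = 1 ∧ ∀ i, ∀ l, Adm n qq l → rnk t M qq l i < M (i + 1)

/-- BASES -/
def StBases : Prop := ∀ (t : List ℕ → ℕ) (qq n : ℕ), ∃ M, Bases t M qq n

/-- RNK -/
def StRnk : Prop := ∀ (t : List ℕ → ℕ) (M : ℕ → ℕ) (m qq n : ℕ), 2 ≤ qq → (∀ l, t l ≤ m) →
  Bases t M qq n →
  (∀ l l' x x', Adm n qq (x :: l) → Adm n qq (x' :: l') → t (x :: l) = t (x' :: l') →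
    rnk t M qq l m < rnk t M qq l' m → rnk t M qq (x :: l) m < rnk t M qq (x' :: l') m) ∧
  (∀ l x x', Adm n qq (x :: l) → Adm n qq (x' :: l) → t (x :: l) = t (x' :: l) → x < x' →
    rnk t M qq (x :: l) m < rnk t M qq (x' :: l) m) ∧
  (∀ l l', Adm n qq l → Adm n qq l' → rnk t M qq l m = rnk t M qq l' m → l = l')

/-- KP3 -/
def StKp3 : Prop := ∀ (t : List ℕ → ℕ) (M : ℕ → ℕ) (qq n : ℕ), 2 ≤ qq → Bases t M qq n →
  ∀ (i : ℕ) (F : Finset (List ℕ × List ℕ)),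
  (∀ e ∈ F, e.1 <:+ e.2 ∧ Adm n qq e.2 ∧ Zp i (way t (e.2.length - e.1.length) e.2)) →
  (∀ e ∈ F, ∀ f ∈ F, e ≠ f →
    (rnk t M qq e.1 i < rnk t M qq f.1 i ∧ rnk t M qq f.2 i ≤ rnk t M qq e.2 i) ∨
    (rnk t M qq f.1 i < rnk t M qq e.1 i ∧ rnk t M qq e.2 i ≤ rnk t M qq f.2 i)) →
  F.card + 1 ≤ 2 ^ i

/-- the order `ρ` of the regions with the types `t` has all the properties that we need -/
structure OrdOK {V : Type} (hub : List ℕ → Finset V) (b : V → List ℕ) (m qq n : ℕ)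
    (t ρ : List ℕ → ℕ) : Prop where
  tm : ∀ l, t l ≤ m
  kp1 : ∀ l l' x x', Adm n qq (x :: l) → Adm n qq (x' :: l') → t (x :: l) = t (x' :: l') →
    ρ l < ρ l' → ρ (x :: l) < ρ (x' :: l')
  kp2 : ∀ l x x', Adm n qq (x :: l) → Adm n qq (x' :: l) → t (x :: l) = t (x' :: l) → x < x' →
    ρ (x :: l) < ρ (x' :: l)
  inj : ∀ l l', Adm n qq l → Adm n qq l' → ρ l = ρ l' → l = l'
  kp3 : ∀ F : Finset (List ℕ × List ℕ),
    (∀ e ∈ F, Adm n qq e.2 ∧ ∃ v, b v = e.1 ∧ v ∈ hub e.2) →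
    (∀ e ∈ F, ∀ f ∈ F, e ≠ f → (ρ e.1 < ρ f.1 ∧ ρ f.2 ≤ ρ e.2) ∨ (ρ f.1 < ρ e.1 ∧ ρ e.2 ≤ ρ f.2)) →
    F.card ≤ 2 ^ m

/-- ORD (from TYP, BASES, RNK, KP3) -/
def StOrd : Prop := ∀ (V : Type) (hub : List ℕ → Finset V) (b : V → List ℕ) (m qq n : ℕ),
  2 ≤ qq → HubOK hub b m → ∃ t ρ : List ℕ → ℕ, OrdOK hub b m qq n t ρ

/-- PAT: the order is preserved along equal patterns of types -/
def StPat : Prop := ∀ (V : Type) (hub : List ℕ → Finset V) (b : V → List ℕ) (m qq n : ℕ)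
  (t ρ : List ℕ → ℕ), OrdOK hub b m qq n t ρ → ∀ (g : ℕ) (l l' : List ℕ), Adm n qq l →
  Adm n qq l' → g ≤ l.length → g ≤ l'.length → way t g l = way t g l' →
  ρ (l.drop g) < ρ (l'.drop g) → ρ l < ρ l'

/-- COL: greedy colouring -/
def StCol : Prop := ∀ (N : ℕ) (adj : List ℕ → Finset (List ℕ)), (∀ l, (adj l).card < N) →
  (∀ l, ∀ l' ∈ adj l, l'.length < l.length) →
  ∃ col : List ℕ → ℕ, (∀ l, col l < N) ∧ ∀ l, ∀ l' ∈ adj l, col l' ≠ col l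

/-! ## 6. The order of the vertices -/

/-- the code of the first two steps from `h` to `b` -/
def grp (qq : ℕ) (h b : List ℕ) : ℕ :=
  match b.reverse.drop h.length with
  | [] => 0
  | [x] => (x + 1) * (qq + 1)
  | x :: y :: _ => (x + 1) * (qq + 1) + (y + 1)

/-- the order of the vertices: block, group, label, name -/
def key {V : Type} (ρ : List ℕ → ℕ) (qq m0 n : ℕ) (h b : V → List ℕ) (lab id : V → ℕ)
    (v : V) : ℕ :=
  ((ρ (h v) * (qq + 1) ^ 2 + grp qq (h v) (b v)) * m0 + lab v) * n + id v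

/-- pairs (vertex `u` of `C` in a child block, vertex `v` of `A` in the block `l`, group `γ`), the
child lies above `b v` -/
def ED {V : Type} [Fintype V] (G : SimpleGraph V) (A C : Finset V) (h b : V → List ℕ) (qq : ℕ)
    (l : List ℕ) (γ : ℕ) : Finset (V × V) :=
  univ.filter (fun e => G.Adj e.1 e.2 ∧ e.1 ∈ C ∧ e.2 ∈ A ∧ h e.2 = l ∧
    grp qq (h e.2) (b e.2) = γ ∧ ∃ x, h e.1 = x :: l ∧ (x :: l) <:+ b e.2)

/-- pairs (vertex `u` of `C`, vertex `v` of `A`, group `γ`), both in the block `l` -/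
def ES {V : Type} [Fintype V] (G : SimpleGraph V) (A C : Finset V) (h b : V → List ℕ) (qq : ℕ)
    (l : List ℕ) (γ : ℕ) : Finset (V × V) :=
  univ.filter (fun e => G.Adj e.1 e.2 ∧ e.1 ∈ C ∧ e.2 ∈ A ∧ h e.2 = l ∧
    grp qq (h e.2) (b e.2) = γ ∧ h e.1 = l)

/-- no family of `m0` pairs of `E` is monotone -/
def NoMono {V : Type} (s : V → ℤ) (X : V → ℕ) (m0 : ℕ) (E : Finset (V × V)) : Prop :=
  ∀ F ⊆ E, F.card = m0 → ¬ MonoFam s X F

/-- the labels are good -/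
structure LabOK {V : Type} [Fintype V] (G : SimpleGraph V) (A B : Finset V) (h b : V → List ℕ)
    (ρ : List ℕ → ℕ) (qq m0 n : ℕ) (τ id : V → ℕ) (lab : V → Fin m0) : Prop where
  aa : ∀ l γ, NoMono (fun v => - ((key ρ qq m0 n h b (fun u => (lab u : ℕ)) id v : ℕ) : ℤ))
    (fun v => (lab v : ℕ)) m0 (ED G A A h b qq l γ)
  ab : ∀ l γ, NoMono (fun v => - ((key ρ qq m0 n h b (fun u => (lab u : ℕ)) id v : ℕ) : ℤ))
    (fun v => (lab v : ℕ)) m0 (ED G A B h b qq l γ)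
  ba : ∀ l γ, NoMono (fun v => - ((key ρ qq m0 n h b (fun u => (lab u : ℕ)) id v : ℕ) : ℤ))
    (fun v => (lab v : ℕ)) m0 (ED G B A h b qq l γ)
  sb : ∀ l γ, NoMono (fun v => - ((key ρ qq m0 n h b (fun u => (lab u : ℕ)) id v : ℕ) : ℤ))
    (fun v => (lab v : ℕ)) m0 (ES G A B h b qq l γ)
  sp : ∀ l γ, NoMono (fun v => (τ v : ℤ)) (fun v => (lab v : ℕ)) m0 (ES G A A h b qq l γ)
  sm : ∀ l γ, NoMono (fun v => - (τ v : ℤ)) (fun v => (lab v : ℕ)) m0 (ES G A A h b qq l γ)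

/-- LAB2 (uses COUNT, NUM1) -/
def StLab2 : Prop := ∀ (V : Type) [Fintype V] (G : SimpleGraph V) (A B : Finset V)
  (m s qq s1 s2 s3 t m0 n : ℕ) (X : Blk G (A ∪ B) m s qq s1 s2 s3) (ρ : List ℕ → ℕ)
  (τ id : V → ℕ), Disjoint A B → (∀ U ⊆ A ∪ B, (prs G U).card ≤ 4 * t * U.card) →
  48 * (8 * t * s1 + 4) ≤ m0 ^ 2 →
  ∃ lab : V → Fin m0, LabOK G A B X.h X.b ρ qq m0 n τ id lab

/-- the common data of the family lemmas -/
structure Frm {V : Type} [Fintype V] (G : SimpleGraph V) (A B : Finset V)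
    (m s qq s1 s2 s3 m0 n : ℕ) (X : Blk G (A ∪ B) m s qq s1 s2 s3) (t ρ : List ℕ → ℕ)
    (τ id : V → ℕ) (lab : V → Fin m0) : Prop where
  qq2 : 2 ≤ qq
  dis : Disjoint A B
  adm : ∀ v ∈ A ∪ B, Adm n qq (X.b v)
  ord : OrdOK X.hub X.b m qq n t ρ
  idn : ∀ v, id v < n
  idi : Function.Injective id
  good : LabOK G A B X.h X.b ρ qq m0 n τ id lab

/-- F0: A-B-edges inside the blocks -/
def StF0 : Prop := ∀ (V : Type) [Fintype V] (G : SimpleGraph V) (A B : Finset V)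
  (m s qq s1 s2 s3 m0 n : ℕ) (X : Blk G (A ∪ B) m s qq s1 s2 s3) (t ρ : List ℕ → ℕ)
  (τ id : V → ℕ) (lab : V → Fin m0), Frm G A B m s qq s1 s2 s3 m0 n X t ρ τ id lab →
  ∀ F : Finset (V × V), (∀ e ∈ F, G.Adj e.1 e.2 ∧ e.1 ∈ A ∧ e.2 ∈ B ∧ X.h e.1 = X.h e.2) →
  Anti (key ρ qq m0 n X.h X.b (fun u => (lab u : ℕ)) id)
    (key ρ qq m0 n X.h X.b (fun u => (lab u : ℕ)) id) F → F.card ≤ (qq + 1) ^ 2 * m0

/-- FI: inner edges (older end first) of one pattern -/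
def StFI : Prop := ∀ (V : Type) [Fintype V] (G : SimpleGraph V) (A B : Finset V)
  (m s qq s1 s2 s3 m0 n : ℕ) (X : Blk G (A ∪ B) m s qq s1 s2 s3) (t ρ : List ℕ → ℕ)
  (τ id : V → ℕ) (lab : V → Fin m0), Frm G A B m s qq s1 s2 s3 m0 n X t ρ τ id lab →
  ∀ (A' C : Finset V), ((A' = A ∧ C = A) ∨ (A' = A ∧ C = B) ∨ (A' = B ∧ C = A)) →
  ∀ (z : List ℕ) (F : Finset (V × V)), (∀ e ∈ F, G.Adj e.1 e.2 ∧ e.1 ∈ A' ∧ e.2 ∈ C ∧
    X.h e.1 ≠ X.h e.2 ∧ X.h e.1 <:+ X.h e.2 ∧ X.h e.2 <:+ X.b e.1 ∧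
    way t ((X.h e.2).length - (X.h e.1).length) (X.h e.2) = z) →
  Anti (key ρ qq m0 n X.h X.b (fun u => (lab u : ℕ)) id)
    (key ρ qq m0 n X.h X.b (fun u => (lab u : ℕ)) id) F → F.card ≤ (qq + 1) ^ 2 * m0 + s3

/-- FH: hub edges (hub first) of one pattern -/
def StFH : Prop := ∀ (V : Type) [Fintype V] (G : SimpleGraph V) (A B : Finset V)
  (m s qq s1 s2 s3 m0 n : ℕ) (X : Blk G (A ∪ B) m s qq s1 s2 s3) (t ρ : List ℕ → ℕ)
  (τ id : V → ℕ) (lab : V → Fin m0), Frm G A B m s qq s1 s2 s3 m0 n X t ρ τ id lab →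
  ∀ (z : List ℕ) (F : Finset (V × V)), (∀ e ∈ F, e.1 ∈ A ∪ B ∧ e.2 ∈ A ∪ B ∧
    e.1 ∈ X.hub (X.h e.2) ∧
    way t ((X.b e.1).length - (X.h e.1).length) (X.b e.1) = z) →
  Anti (key ρ qq m0 n X.h X.b (fun u => (lab u : ℕ)) id)
    (key ρ qq m0 n X.h X.b (fun u => (lab u : ℕ)) id) F → F.card ≤ 2 ^ m * (s2 + s3)

/-- F3: L-crossing families inside the blocks -/
def StF3 : Prop := ∀ (V : Type) [Fintype V] (G : SimpleGraph V) (A B : Finset V)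
  (m s qq s1 s2 s3 m0 n : ℕ) (X : Blk G (A ∪ B) m s qq s1 s2 s3) (t ρ : List ℕ → ℕ)
  (τ id : V → ℕ) (lab : V → Fin m0), Frm G A B m s qq s1 s2 s3 m0 n X t ρ τ id lab →
  ∀ F : Finset (V × V), (∀ e ∈ F, G.Adj e.1 e.2 ∧ e.1 ∈ A ∧ e.2 ∈ A ∧ X.h e.1 = X.h e.2 ∧
    τ e.1 < τ e.2) →
  (∀ e ∈ F, ∀ f ∈ F, e ≠ f →
    LC (key ρ qq m0 n X.h X.b (fun u => (lab u : ℕ)) id) τ f e ∨
    LC (key ρ qq m0 n X.h X.b (fun u => (lab u : ℕ)) id) τ e f) →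
  F.card ≤ 2 * ((qq + 1) ^ 2 * m0)

/-- the bound in one window -/
def bnd (m s qq s2 s3 m0 : ℕ) : ℕ := 8 * (m + 2) ^ s * 2 ^ m * ((qq + 1) ^ 2 * m0 + s2 + s3)

/-- WIN2 (from LAB2, ORD, COL, F0, FI, FH, F3) -/
def StWin2 : Prop := ∀ (V : Type) [Fintype V] (G : SimpleGraph V) (A B : Finset V)
  (m s qq s1 s2 s3 t m0 : ℕ) (_ : Blk G (A ∪ B) m s qq s1 s2 s3) (τ : V → ℕ),
  2 ≤ qq → 1 ≤ s → Disjoint A B → (∀ U ⊆ A ∪ B, (prs G U).card ≤ 4 * t * U.card) →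
  48 * (8 * t * s1 + 4) ≤ m0 ^ 2 →
  ∃ σ c : V → ℕ, Function.Injective σ ∧ (∀ v, c v < s + m) ∧
    (∀ F : Finset (V × V), (∀ e ∈ F, G.Adj e.1 e.2 ∧ e.1 ∈ A ∧ e.2 ∈ B) → Anti σ σ F →
      F.card ≤ bnd m s qq s2 s3 m0) ∧
    (∀ F : Finset (V × V), (∀ e ∈ F, G.Adj e.1 e.2 ∧ e.1 ∈ A ∧ e.2 ∈ A ∧ c e.1 ≠ c e.2) →
      Anti σ σ F → F.card ≤ bnd m s qq s2 s3 m0) ∧
    (∀ F : Finset (V × V), (∀ e ∈ F, G.Adj e.1 e.2 ∧ e.1 ∈ A ∧ e.2 ∈ A ∧ c e.1 = c e.2 ∧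
      τ e.1 < τ e.2) → (∀ e ∈ F, ∀ f ∈ F, e ≠ f → LC σ τ f e ∨ LC σ τ e f) →
      F.card ≤ bnd m s qq s2 s3 m0)

/-! ## 7. Geometry with `N` colours, assembly of the windows -/

/-- GN: the decoupling lemma with `N` colours -/
def StGeomN : Prop := ∀ (V : Type) [Fintype V] (G : SimpleGraph V) (N : ℕ)
  (ℓ β τ c : V → ℕ) (M1 M2 M3 : ℕ), (∀ v, c v < N) →
  (∀ u v, G.Adj u v → ℓ u ≤ ℓ v + 1) →
  (∀ u v, ℓ u = ℓ v → β u = β v → u = v) →
  (∀ u v, ℓ u = ℓ v → τ u = τ v → u = v) →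
  (∀ (j a : ℕ) (F : Finset (V × V)),
    (∀ e ∈ F, G.Adj e.1 e.2 ∧ ℓ e.1 = j ∧ ℓ e.2 = j + 1 ∧ c e.2 = a) → Par β τ F →
    F.card ≤ M1) →
  (∀ (j a a' : ℕ) (F : Finset (V × V)), a < a' →
    (∀ e ∈ F, G.Adj e.1 e.2 ∧ ℓ e.1 = j ∧ ℓ e.2 = j ∧ c e.1 = a ∧ c e.2 = a') →
    Anti β β F → F.card ≤ M2) →
  (∀ (j a : ℕ) (F : Finset (V × V)),
    (∀ e ∈ F, G.Adj e.1 e.2 ∧ ℓ e.1 = j ∧ ℓ e.2 = j ∧ c e.1 = a ∧ c e.2 = a ∧
      τ e.1 < τ e.2) →
    (∀ e ∈ F, ∀ f ∈ F, e ≠ f → LC β τ f e ∨ LC β τ e f) → F.card ≤ M3) →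
  ∃ P : V → ℝ × ℝ, GenPos P ∧ ∀ F : Finset (Sym2 V), (∀ e ∈ F, e ∈ G.edgeSet) →
    (∀ e ∈ F, ∀ f ∈ F, e ≠ f → (edgeSeg P e ∩ edgeSeg P f).Nonempty) →
    F.card ≤ 2 * N * M1 + N ^ 2 * M2 + N * M3

/-- the window `j` -/
def win {V : Type} [Fintype V] (ℓ : V → ℕ) (j : ℕ) : Finset V :=
  univ.filter (fun v => ℓ v = j) ∪ univ.filter (fun v => ℓ v = j + 1)

/-- ASM2 (from WIN2, GN) -/
def StAsm2 : Prop := ∀ (V : Type) [Fintype V] (G : SimpleGraph V) (ℓ : V → ℕ)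
  (m s qq s1 s2 s3 t m0 : ℕ), 2 ≤ qq → 1 ≤ s → (∀ u v, G.Adj u v → ℓ u ≤ ℓ v + 1) →
  (∀ j, Nonempty (Blk G (win ℓ j) m s qq s1 s2 s3)) →
  (∀ j, ∀ U ⊆ win ℓ j, (prs G U).card ≤ 4 * t * U.card) →
  48 * (8 * t * s1 + 4) ≤ m0 ^ 2 →
  ∃ P : V → ℝ × ℝ, GenPos P ∧ ∀ F : Finset (Sym2 V), (∀ e ∈ F, e ∈ G.edgeSet) →
    (∀ e ∈ F, ∀ f ∈ F, e ≠ f → (edgeSeg P e ∩ edgeSeg P f).Nonempty) →
    F.card ≤ 4 * (s + m) ^ 2 * bnd m s qq s2 s3 m0

/-! ## 8. Plane maps with weights -/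

/-- weighted search tree of a plane map: `dist (up x) + w x = dist x` -/
structure WBFS {X D : Type} [Fintype X] [Fintype D] (M : PlaneMap X D) (w : X → ℕ) where
  r : X
  dist : X → ℕ
  pd : X → D
  dist_r : dist r = 0
  pd_tail : ∀ x, x ≠ r → M.vert (pd x) = x
  pd_head : ∀ x, x ≠ r → dist (M.vert (M.α (pd x))) + w x = dist x
  lip : ∀ x y, M.Adj x y → dist y ≤ dist x + w y

/-- WB1: weighted search trees exist -/
def StWBfs : Prop := ∀ (X D : Type) [Fintype X] [Fintype D] (M : PlaneMap X D) (w : X → ℕ),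
  (∀ x, 1 ≤ w x) → Nonempty (WBFS M w)

/-- WMAP: the tree decomposition on the darts for a weighted search tree (as in 92's MAP), with
at most three neighbours of every dart.  `path` = the root paths: `on x y` = `x` lies on the path
from `y` to the root. -/
def StWMap : Prop := ∀ (X D : Type) [Fintype X] [Fintype D] (M : PlaneMap X D) (w : X → ℕ),
  (∀ x, 1 ≤ w x) →
  ∃ (dist : X → ℕ) (on : X → X → Prop) (T : RTree D) (bag : D → Set X),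
    (∀ x y, M.Adj x y → dist y ≤ dist x + w y) ∧
    -- two different points on one root path have distances that differ by at least the weight
    -- of the lower one (larger distance)
    (∀ x x' y, on x y → on x' y → x ≠ x' → dist x + w x' ≤ dist x' ∨ dist x' + w x ≤ dist x) ∧
    (∀ d, ∃ y1 y2 y3, ∀ x ∈ bag d, on x y1 ∨ on x y2 ∨ on x y3) ∧
    T.Ch3 ∧
    (∀ d, M.vert d ∈ bag d ∧ M.vert (M.α d) ∈ bag d) ∧
    ∀ x, T.Sub {d | x ∈ bag d}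

/-- KPL2: k-planar graphs have a layering whose windows have `(12, 84(k+1)+144)`-structures -/
def StKpl2 : Prop := ∀ (V : Type) [Fintype V] (G : SimpleGraph V) (k : ℕ), KPlanar k G →
  ∃ ℓ : V → ℕ, (∀ u v, G.Adj u v → ℓ u ≤ ℓ v + 1) ∧
    ∀ j, ∃ (I : Type) (_ : Fintype I), Nonempty (CK 12 (84 * (k + 1) + 144) G (win ℓ j) I)

/-! ## 9. Main theorem -/

/-- NUM: the choice of the parameters for a given `k` -/
def StNumF : Prop := ∃ C : ℕ, ∀ k : ℕ, 1 ≤ k → ∃ q t m0 : ℕ, 1 ≤ q ∧ 12 ≤ t ∧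
  3 * (84 * (k + 1) + 144) < (t + 1 - 12) ^ 2 ∧
  4 * (84 * (k + 1) + 144) < q ^ (40 - 1) ∧
  48 * (8 * t * ((12 + (84 * (k + 1) + 144)) * (4 * q + 2)) + 4) ≤ m0 ^ 2 ∧
  ((4 * (40 + 24) ^ 2 * bnd 24 40 (3 * (4 * q + 2)) (12 * (4 * q + 2))
    (4 * (84 * (k + 1) + 144) / q) m0 : ℕ) : ℝ) ≤ C * (k : ℝ) ^ ((13 : ℝ) / 14)

/-- FULL: k-planar graphs have straight-line drawings with `O(k^(13/14))` pairwise crossing
edges -/
def StFull : Prop := ∃ C : ℕ, ∀ (V : Type) [Fintype V] (k : ℕ), 1 ≤ k → ∀ G : SimpleGraph V,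
  KPlanar k G →
  ∃ P : V → ℝ × ℝ, GenPos P ∧ ∀ F : Finset (Sym2 V), (∀ e ∈ F, e ∈ G.edgeSet) →
    (∀ e ∈ F, ∀ f ∈ F, e ≠ f → (edgeSeg P e ∩ edgeSeg P f).Nonempty) →
    (F.card : ℝ) ≤ C * (k : ℝ) ^ ((13 : ℝ) / 14)

end

end Pool.Agent.Lib.MP_1fca17_co.F
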