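import Mathlib
import Pool.Agent.Lib.MP_1fca17_co.F.Defs

/-!
# MP_1fca17_co : the assembly of the windows with `N` colours

The windows are laid out one after another: the second order of the level `j + 1` is the reverse
of the order `κ` of the window `j`.
-/

namespace Pool.Agent.Lib.MP_1fca17_co.F

open Finset
open scoped Classical
open Pool.Agent.Lib.MP_1fca17_co (sg GenPos Btw LC MonoFam StCount StNum1)
open Pool.Agent.Lib.MP_1fca17_co.Q (Par Anti edgeSeg StGP)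

noncomputable section

/-- the conclusion for the window of the levels `j`, `j + 1` of the layering `ℓ`, with the given
order `τ` on the level `j`: orders `β` (for the level `j`), `κ` (for the level `j + 1`) and the
colours `c` (of the level `j`) -/
def WinCon {V : Type} (G : SimpleGraph V) (ℓ : V → ℕ) (N M1 M2 M3 j : ℕ)
    (τ β κ c : V → ℕ) : Prop :=
  Function.Injective β ∧ Function.Injective κ ∧ (∀ v, c v < N) ∧
    (∀ F : Finset (V × V), (∀ e ∈ F, G.Adj e.1 e.2 ∧ ℓ e.1 = j ∧ ℓ e.2 = j + 1) → Anti β κ F →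
      F.card ≤ M1) ∧
    (∀ (x y : ℕ) (F : Finset (V × V)), x < y → (∀ e ∈ F, G.Adj e.1 e.2 ∧ ℓ e.1 = j ∧ ℓ e.2 = j ∧
      c e.1 = x ∧ c e.2 = y) → Anti β β F → F.card ≤ M2) ∧
    (∀ (x : ℕ) (F : Finset (V × V)), (∀ e ∈ F, G.Adj e.1 e.2 ∧ ℓ e.1 = j ∧ ℓ e.2 = j ∧
      c e.1 = x ∧ c e.2 = x ∧ τ e.1 < τ e.2) →
      (∀ e ∈ F, ∀ f ∈ F, e ≠ f → LC β τ f e ∨ LC β τ e f) → F.card ≤ M3)

theorem asm2 (hg : StGeomN) {V : Type} [Fintype V] (G : SimpleGraph V) (ℓ : V → ℕ)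
    (N M1 M2 M3 : ℕ) (hℓ : ∀ u v, G.Adj u v → ℓ u ≤ ℓ v + 1)
    (hw : ∀ (j : ℕ) (τ : V → ℕ), Function.Injective τ →
      ∃ β κ c : V → ℕ, WinCon G ℓ N M1 M2 M3 j τ β κ c) :
    ∃ P : V → ℝ × ℝ, GenPos P ∧ ∀ F : Finset (Sym2 V), (∀ e ∈ F, e ∈ G.edgeSet) →
      (∀ e ∈ F, ∀ f ∈ F, e ≠ f → (edgeSeg P e ∩ edgeSeg P f).Nonempty) →
      F.card ≤ 2 * N * M1 + N ^ 2 * M2 + N * M3 := by
  have hstep : ∀ (j : ℕ) (τ : {τ : V → ℕ // Function.Injective τ}),
      ∃ β κ c : V → ℕ, WinCon G ℓ N M1 M2 M3 j τ.1 β κ c := fun j τ => hw j τ.1 τ.2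
  choose β κ c hc using hstep
  have hN : ∀ f : V → ℕ, ∀ v, f v ≤ ∑ u, f u := fun f v =>
    Finset.single_le_sum (f := f) (fun _ _ => Nat.zero_le _) (Finset.mem_univ v)
  have hrev : ∀ f : V → ℕ, Function.Injective f →
      Function.Injective (fun v => (∑ u, f u) - f v) := by
    intro f hf u v huv
    apply hf
    have h1 := hN f u
    have h2 := hN f v
    simp only at huv
    omega
  obtain ⟨τ0, hτ0⟩ : ∃ τ0 : V → ℕ, Function.Injective τ0 :=
    ⟨fun v => (Fintype.equivFin V v : ℕ), fun u v h => (Fintype.equivFin V).injective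
      (Fin.ext h)⟩
  let T : ℕ → {τ : V → ℕ // Function.Injective τ} := fun j => Nat.rec ⟨τ0, hτ0⟩
    (fun j τ => ⟨fun v => (∑ u, κ j τ u) - κ j τ v, hrev _ (hc j τ).2.1⟩) j
  have hT : ∀ j v, (T (j + 1)).1 v = (∑ u, κ j (T j) u) - κ j (T j) v := fun j v => rfl
  refine hg V G N ℓ (fun v => β (ℓ v) (T (ℓ v)) v) (fun v => (T (ℓ v)).1 v)
    (fun v => c (ℓ v) (T (ℓ v)) v) M1 M2 M3 (fun v => (hc _ _).2.2.1 v) hℓ ?_ ?_ ?_ ?_ ?_
  · intro u v h1 h2
    rw [h1] at h2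
    exact (hc _ _).1 h2
  · intro u v h1 h2
    rw [h1] at h2
    exact (T _).2 h2
  · intro j x F hF hpar
    refine (hc j (T j)).2.2.2.1 F (fun e he => ⟨(hF e he).1, (hF e he).2.1, (hF e he).2.2.1⟩) ?_
    intro e he f hf hne
    obtain ⟨-, e1, e2, -⟩ := hF e he
    obtain ⟨-, f1, f2, -⟩ := hF f hf
    have h := hpar e he f hf hne
    simp only [e1, e2, f1, f2, hT] at h
    have n1 := hN (κ j (T j)) e.2
    have n2 := hN (κ j (T j)) f.2
    rcases h with ⟨h1, h2⟩ | ⟨h1, h2⟩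
    · left
      exact ⟨h1, by omega⟩
    · right
      exact ⟨h1, by omega⟩
  · intro j x y F hxy hF hanti
    refine (hc j (T j)).2.2.2.2.1 x y F hxy (fun e he => ?_) ?_
    · obtain ⟨h1, h2, h3, h4, h5⟩ := hF e he
      simp only [h2, h3] at h4 h5
      exact ⟨h1, h2, h3, h4, h5⟩
    · intro e he f hf hne
      obtain ⟨-, e1, e2, -⟩ := hF e he
      obtain ⟨-, f1, f2, -⟩ := hF f hf
      have h := hanti e he f hf hne
      simp only [e1, e2, f1, f2] at h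
      exact h
  · intro j x F hF hlc
    refine (hc j (T j)).2.2.2.2.2 x F (fun e he => ?_) ?_
    · obtain ⟨h1, h2, h3, h4, h5, h6⟩ := hF e he
      simp only [h2, h3] at h4 h5 h6
      exact ⟨h1, h2, h3, h4, h5, h6⟩
    · intro e he f hf hne
      obtain ⟨-, e1, e2, -⟩ := hF e he
      obtain ⟨-, f1, f2, -⟩ := hF f hf
      have h := hlc e he f hf hne
      simp only [LC, Btw, e1, e2, f1, f2] at h
      exact h

theorem stAsm2 (hw : StWin2) (hg : StGeomN) : StAsm2 := by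
  intro V _ G ℓ m s qq s1 s2 s3 t m0 hqq hs hℓ hB hD hm
  have hwin : ∀ (j : ℕ) (τ : V → ℕ), Function.Injective τ →
      ∃ β κ c : V → ℕ, WinCon G ℓ (s + m) (bnd m s qq s2 s3 m0) (bnd m s qq s2 s3 m0)
        (bnd m s qq s2 s3 m0) j τ β κ c := by
    intro j τ hτ
    obtain ⟨X⟩ := hB j
    obtain ⟨σ, c, h1, h2, h3, h4, h5⟩ := hw V G (univ.filter (fun v => ℓ v = j))
      (univ.filter (fun v => ℓ v = j + 1)) m s qq s1 s2 s3 t m0 X τ hqq hs
      (by
        rw [Finset.disjoint_left]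
        intro v hv hv'
        simp only [mem_filter, mem_univ, true_and] at hv hv'
        omega) (hD j) hm
    refine ⟨σ, σ, c, h1, h1, h2, ?_, ?_, ?_⟩
    · intro F hF hA
      refine h3 F (fun e he => ?_) hA
      obtain ⟨a1, a2, a3⟩ := hF e he
      exact ⟨a1, by simp [a2], by simp [a3]⟩
    · intro x y F hxy hF hA
      refine h4 F (fun e he => ?_) hA
      obtain ⟨a1, a2, a3, a4, a5⟩ := hF e he
      exact ⟨a1, by simp [a2], by simp [a3], by omega⟩
    · intro x F hF hA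
      refine h5 F (fun e he => ?_) hA
      obtain ⟨a1, a2, a3, a4, a5, a6⟩ := hF e he
      exact ⟨a1, by simp [a2], by simp [a3], by omega, a6⟩
  obtain ⟨P, hP, h⟩ := asm2 hg G ℓ (s + m) _ _ _ hℓ hwin
  refine ⟨P, hP, fun F hF1 hF2 => (h F hF1 hF2).trans ?_⟩
  have hN : 1 ≤ s + m := by omega
  set N := s + m
  set M := bnd m s qq s2 s3 m0
  nlinarith [Nat.zero_le M, Nat.mul_le_mul hN (Nat.mul_le_mul hN (Nat.zero_le M)),
    Nat.mul_le_mul_right M (Nat.mul_le_mul_left N hN)]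

end

end Pool.Agent.Lib.MP_1fca17_co.F
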