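import Mathlib

/-!
# MP_1fca17_co : balanced cuts of a rooted tree (sections BAL, CUTC)
-/

namespace Pool.Agent.Lib.MP_1fca17_co.F.Bal21

open Finset
open scoped Classical

noncomputable section

set_option linter.unusedSectionVars false

variable {I : Type}

/-- one step upwards inside `S` -/
def Step (r : I) (par : I → I) (S : Finset I) (a b : I) : Prop :=
  a ≠ r ∧ a ∈ S ∧ b ∈ S ∧ b = par a

/-- chain upwards inside `S` -/
def Up (r : I) (par : I → I) (S : Finset I) (x y : I) : Prop :=
  x ∈ S ∧ Relation.ReflTransGen (Step r par S) x y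

/-- nonempty connected set of nodes -/
def Sub (r : I) (par : I → I) (S : Finset I) : Prop :=
  ∃ t ∈ S, ∀ i ∈ S, i ≠ t → i ≠ r ∧ par i ∈ S

variable {r : I} {par : I → I} {dep : I → ℕ}

lemma Up.mem_right {S : Finset I} {x y : I} (h : Up r par S x y) : y ∈ S := by
  obtain ⟨hx, h⟩ := h
  induction h with
  | refl => exact hx
  | tail _ h2 _ => exact h2.2.2.1

lemma Up.refl {S : Finset I} {x : I} (h : x ∈ S) : Up r par S x x :=
  ⟨h, Relation.ReflTransGen.refl⟩

lemma Up.trans {S : Finset I} {x y z : I} (h : Up r par S x y) (h' : Up r par S y z) :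
    Up r par S x z := ⟨h.1, h.2.trans h'.2⟩

lemma Up.mono {S S' : Finset I} (hS : S ⊆ S') {x y : I} (h : Up r par S x y) :
    Up r par S' x y := by
  refine ⟨hS h.1, ?_⟩
  have h' := h.2
  clear h
  induction h' with
  | refl => exact Relation.ReflTransGen.refl
  | tail _ h2 ih => exact ih.tail ⟨h2.1, hS h2.2.1, hS h2.2.2.1, h2.2.2.2⟩

lemma Up.step {S : Finset I} {x y : I} (h : Up r par S x y) (hy : y ≠ r)
    (hp : par y ∈ S) : Up r par S x (par y) :=
  ⟨h.1, h.2.tail ⟨hy, h.mem_right, hp, rfl⟩⟩

lemma Up.head {S : Finset I} {x y : I} (h : Up r par S x y) (hxy : x ≠ y) :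
    x ≠ r ∧ par x ∈ S ∧ Up r par S (par x) y := by
  obtain ⟨hx, h⟩ := h
  rcases Relation.ReflTransGen.cases_head h with h | ⟨z, hz, h⟩
  · exact absurd h hxy
  · obtain ⟨h1, h2, h3, h4⟩ := hz
    subst h4
    exact ⟨h1, h3, h3, h⟩

lemma Up.dep_le (hpar : ∀ i, i ≠ r → dep i ≠ 0 ∧ dep (par i) + 1 = dep i) {S : Finset I}
    {x y : I} (h : Up r par S x y) : dep y ≤ dep x := by
  obtain ⟨hx, h⟩ := h
  induction h with
  | refl => exact le_rfl
  | tail _ h2 ih =>
    have := hpar _ h2.1
    have h4 := h2.2.2.2
    subst h4
    omega

/-- the elements of a connected set climb to its top -/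
lemma Sub.up (hpar : ∀ i, i ≠ r → dep i ≠ 0 ∧ dep (par i) + 1 = dep i) {S : Finset I} {t : I}
    (ht : t ∈ S) (h : ∀ i ∈ S, i ≠ t → i ≠ r ∧ par i ∈ S) :
    ∀ x ∈ S, Up r par S x t := by
  have key : ∀ n, ∀ x ∈ S, dep x = n → Up r par S x t := by
    intro n
    induction n using Nat.strong_induction_on with
    | _ n ih =>
      intro x hx hn
      by_cases hxt : x = t
      · subst hxt
        exact Up.refl hx
      · obtain ⟨h1, h2⟩ := h x hx hxt
        have h3 := hpar x h1
        have h4 := ih (dep (par x)) (by omega) (par x) h2 rfl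
        refine ⟨hx, Relation.ReflTransGen.head ⟨h1, hx, h2, rfl⟩ h4.2⟩
  intro x hx
  exact key _ x hx rfl

/-- comparability of two chains from one point: the first ends on the second or conversely -/
lemma Up.cases {S S' : Finset I} {x y z : I}
    (h : Up r par S x y) (h' : Up r par S' x z) : Up r par S y z ∨ Up r par S' y z ∨
      Up r par S z y := by
  obtain ⟨hx, h⟩ := h
  revert h'
  induction h using Relation.ReflTransGen.head_induction_on with
  | refl => intro h'; exact Or.inr (Or.inl h')
  | head hab hbc ih =>
    rename_i a b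
    intro h'
    by_cases haz : a = z
    · subst haz
      exact Or.inr (Or.inr ⟨hx, Relation.ReflTransGen.head hab hbc⟩)
    · obtain ⟨h1, h2, h3⟩ := h'.head haz
      obtain ⟨k1, k2, k3, k4⟩ := hab
      subst k4
      exact ih k3 h3

/-- the descendants of `i` inside `R` -/
def Dn (r : I) (par : I → I) (R : Finset I) (i : I) : Finset I :=
  R.filter (fun x => Up r par R x i)

lemma mem_Dn {R : Finset I} {i x : I} : x ∈ Dn r par R i ↔ Up r par R x i := by
  unfold Dn
  rw [mem_filter]
  exact ⟨fun h => h.2, fun h => ⟨h.1, h⟩⟩

/-- BAL -/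
theorem bal [Fintype I] (hpar : ∀ i, i ≠ r → dep i ≠ 0 ∧ dep (par i) + 1 = dep i) (om : I → ℕ) (T : ℕ)
    (R Bd : Finset I) :
    ∃ C ⊆ R, C.card * T ≤ 2 * ∑ i ∈ R, om i + Bd.card * T ∧
      ∀ S : Finset I, Sub r par S → S ⊆ R \ C → (∑ i ∈ S, om i < T ∨ T = 0) ∧
        ∀ j ∈ C ∪ Bd, ∀ j' ∈ C ∪ Bd, j ≠ r → j' ≠ r → par j ∈ S → par j' ∈ S → j = j' := by
  induction hn : R.card using Nat.strong_induction_on generalizing R Bd with
  | _ n ih =>
    -- bad nodes
    set bad : I → Prop := fun i => i ∈ R ∧ (T ≤ ∑ x ∈ Dn r par R i, om x ∨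
      2 ≤ (Bd.filter (fun j => j ≠ r ∧ par j ∈ Dn r par R i)).card) with hbad
    by_cases hex : ∃ i, bad i
    · -- a bad node of maximal depth
      obtain ⟨i, hi, himax⟩ : ∃ i, bad i ∧ ∀ j, bad j → dep j ≤ dep i := by
        have hne : (univ.filter bad).Nonempty := by
          obtain ⟨i, hi⟩ := hex
          exact ⟨i, by simpa using hi⟩
        obtain ⟨i, hi, hmax⟩ := exists_max_image (univ.filter bad) dep hne
        refine ⟨i, by simpa using hi, ?_⟩
        intro j hj
        exact hmax j (by simpa using hj)
      obtain ⟨hiR, hib⟩ := hi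
      set D := Dn r par R i with hD
      have hiD : i ∈ D := mem_Dn.2 (Up.refl hiR)
      have hDR : D ⊆ R := filter_subset _ _
      set R' := R \ D with hR'
      set Bd' := (Bd.filter (fun j => ¬ (j ≠ r ∧ par j ∈ D))) ∪ {i} with hBd'
      have hcard : R'.card < n := by
        rw [← hn]
        apply card_lt_card
        refine ⟨sdiff_subset, fun h => ?_⟩
        have := h hiR
        rw [hR', mem_sdiff] at this
        exact this.2 hiD
      obtain ⟨C', hC'R, hC'c, hC's⟩ := ih R'.card hcard R' Bd' rfl
      refine ⟨insert i C', ?_, ?_, ?_⟩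
      · intro x hx
        rw [mem_insert] at hx
        rcases hx with hx | hx
        · subst hx; exact hiR
        · have := hC'R hx
          rw [hR', mem_sdiff] at this
          exact this.1
      · have h1 : (insert i C').card ≤ C'.card + 1 := card_insert_le _ _
        have h2 : ∑ x ∈ R, om x = ∑ x ∈ R', om x + ∑ x ∈ D, om x := by
          rw [hR', sum_sdiff hDR]
        have h3 : Bd'.card ≤ (Bd.filter (fun j => ¬ (j ≠ r ∧ par j ∈ D))).card + 1 := by
          rw [hBd']
          refine (card_union_le _ _).trans ?_
          simp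
        have h4 : (Bd.filter (fun j => j ≠ r ∧ par j ∈ D)).card +
            (Bd.filter (fun j => ¬ (j ≠ r ∧ par j ∈ D))).card = Bd.card :=
          card_filter_add_card_filter_not _
        rw [h2]
        rcases hib with hb | hb
        · have h5 : Bd'.card ≤ Bd.card + 1 := by omega
          calc (insert i C').card * T ≤ (C'.card + 1) * T := Nat.mul_le_mul_right _ h1
            _ = C'.card * T + T := by ring
            _ ≤ 2 * ∑ x ∈ R', om x + Bd'.card * T + T := by omega
            _ ≤ 2 * ∑ x ∈ R', om x + (Bd.card + 1) * T + T := by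
              have := Nat.mul_le_mul_right T h5
              omega
            _ = 2 * ∑ x ∈ R', om x + 2 * T + Bd.card * T := by ring
            _ ≤ 2 * (∑ x ∈ R', om x + ∑ x ∈ D, om x) + Bd.card * T := by
              have : T ≤ ∑ x ∈ D, om x := hb
              omega
        · have h5 : Bd'.card + 1 ≤ Bd.card := by
            have : 2 ≤ (Bd.filter (fun j => j ≠ r ∧ par j ∈ D)).card := hb
            omega
          calc (insert i C').card * T ≤ (C'.card + 1) * T := Nat.mul_le_mul_right _ h1
            _ = C'.card * T + T := by ring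
            _ ≤ 2 * ∑ x ∈ R', om x + Bd'.card * T + T := by omega
            _ = 2 * ∑ x ∈ R', om x + (Bd'.card + 1) * T := by ring
            _ ≤ 2 * ∑ x ∈ R', om x + Bd.card * T := by
              have := Nat.mul_le_mul_right T h5
              omega
            _ ≤ 2 * (∑ x ∈ R', om x + ∑ x ∈ D, om x) + Bd.card * T := by omega
      · intro S hS hSR
        obtain ⟨t, htS, htS'⟩ := hS
        have hup := Sub.up hpar htS htS'
        have hSR1 : S ⊆ R := fun x hx => (mem_sdiff.1 (hSR hx)).1
        have hSi : i ∉ S := fun h => (mem_sdiff.1 (hSR h)).2 (mem_insert_self _ _)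
        by_cases htD : t ∈ D
        · -- below i
          have hti : t ≠ i := fun h => hSi (h ▸ htS)
          have hUt : Up r par R t i := mem_Dn.1 htD
          -- the child of i above t
          obtain ⟨c, hc1, hc2, hc3⟩ : ∃ c, Up r par R t c ∧ c ≠ r ∧ par c = i := by
            obtain ⟨hx, h⟩ := hUt
            rcases Relation.ReflTransGen.cases_tail h with h | ⟨z, hz, h2⟩
            · exact absurd h.symm hti
            · exact ⟨z, ⟨hx, hz⟩, h2.1, h2.2.2.2.symm⟩
          have hcR : c ∈ R := hc1.mem_right
          have hcnb : ¬ bad c := by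
            intro hb
            have := himax c hb
            have h3 := hpar c hc2
            rw [hc3] at h3
            omega
          have hSc : S ⊆ Dn r par R c := by
            intro x hx
            exact mem_Dn.2 (((hup x hx).mono hSR1).trans hc1)
          have hSD : S ⊆ D := by
            intro x hx
            exact mem_Dn.2 (((hup x hx).mono hSR1).trans hUt)
          have hcnb' : ¬ (T ≤ ∑ x ∈ Dn r par R c, om x) ∧
              ¬ 2 ≤ (Bd.filter (fun j => j ≠ r ∧ par j ∈ Dn r par R c)).card := by
            constructor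
            · intro h; exact hcnb ⟨hcR, Or.inl h⟩
            · intro h; exact hcnb ⟨hcR, Or.inr h⟩
          refine ⟨Or.inl ?_, ?_⟩
          · have : ∑ x ∈ S, om x ≤ ∑ x ∈ Dn r par R c, om x :=
              sum_le_sum_of_subset hSc
            omega
          · have hin : ∀ j ∈ insert i C' ∪ Bd, j ≠ r → par j ∈ S →
                j ∈ Bd.filter (fun j => j ≠ r ∧ par j ∈ Dn r par R c) := by
              intro j hj hjr hjS
              rw [mem_union, mem_insert] at hj
              rcases hj with (hj | hj) | hj
              · exfalso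
                subst hj
                -- par i ∈ D contradicts the depth
                have h1 : Up r par R (par j) j := mem_Dn.1 (hSD hjS)
                have h2 := h1.dep_le hpar
                have h3 := hpar j hjr
                omega
              · exfalso
                have hj' := hC'R hj
                rw [hR', mem_sdiff] at hj'
                apply hj'.2
                have h1 : Up r par R (par j) i := mem_Dn.1 (hSD hjS)
                exact mem_Dn.2 ⟨hj'.1, Relation.ReflTransGen.head
                  ⟨hjr, hj'.1, h1.1, rfl⟩ h1.2⟩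
              · rw [mem_filter]
                exact ⟨hj, hjr, hSc hjS⟩
            intro j hj j' hj' hjr hj'r hjS hj'S
            by_contra hne
            apply hcnb'.2
            rw [← card_pair hne]
            apply card_le_card
            intro x hx
            rw [mem_insert, mem_singleton] at hx
            rcases hx with hx | hx
            · subst hx; exact hin _ hj hjr hjS
            · subst hx; exact hin _ hj' hj'r hj'S
        · -- outside D
          have hSR' : S ⊆ R' \ C' := by
            intro x hx
            rw [mem_sdiff, hR', mem_sdiff]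
            refine ⟨⟨hSR1 hx, ?_⟩, fun h => (mem_sdiff.1 (hSR hx)).2 (mem_insert_of_mem h)⟩
            intro hxD
            have h1 : Up r par R x i := mem_Dn.1 hxD
            have h2 : Up r par S x t := hup x hx
            rcases h2.cases h1 with h | h | h
            · exact hSi h.mem_right
            · exact htD (mem_Dn.2 h)
            · exact hSi h.1
          obtain ⟨g1, g2⟩ := hC's S ⟨t, htS, htS'⟩ hSR'
          refine ⟨g1, ?_⟩
          have hin : ∀ j ∈ insert i C' ∪ Bd, j ≠ r → par j ∈ S → j ∈ C' ∪ Bd' := by
            intro j hj hjr hjS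
            rw [mem_union, mem_insert] at hj
            rw [mem_union, hBd', mem_union, mem_singleton, mem_filter]
            rcases hj with (hj | hj) | hj
            · exact Or.inr (Or.inr hj)
            · exact Or.inl hj
            · refine Or.inr (Or.inl ⟨hj, ?_⟩)
              rintro ⟨-, h⟩
              have := hSR' hjS
              rw [mem_sdiff, hR', mem_sdiff] at this
              exact this.1.2 h
          intro j hj j' hj' hjr hj'r hjS hj'S
          exact g2 j (hin j hj hjr hjS) j' (hin j' hj' hj'r hj'S) hjr hj'r hjS hj'S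
    · -- no bad node
      refine ⟨∅, empty_subset _, by simp, ?_⟩
      intro S hS hSR
      obtain ⟨t, htS, htS'⟩ := hS
      have hup := Sub.up hpar htS htS'
      have hSR1 : S ⊆ R := fun x hx => (mem_sdiff.1 (hSR hx)).1
      have htR := hSR1 htS
      have hnb : ¬ (T ≤ ∑ x ∈ Dn r par R t, om x) ∧
          ¬ 2 ≤ (Bd.filter (fun j => j ≠ r ∧ par j ∈ Dn r par R t)).card := by
        constructor
        · intro h; exact hex ⟨t, htR, Or.inl h⟩
        · intro h; exact hex ⟨t, htR, Or.inr h⟩
      have hSD : S ⊆ Dn r par R t := by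
        intro x hx
        exact mem_Dn.2 ((hup x hx).mono hSR1)
      refine ⟨Or.inl ?_, ?_⟩
      · have : ∑ x ∈ S, om x ≤ ∑ x ∈ Dn r par R t, om x := sum_le_sum_of_subset hSD
        omega
      · intro j hj j' hj' hjr hj'r hjS hj'S
        by_contra hne
        apply hnb.2
        rw [empty_union] at hj hj'
        rw [← card_pair hne]
        apply card_le_card
        intro x hx
        rw [mem_insert, mem_singleton] at hx
        rcases hx with hx | hx
        · subst hx; exact mem_filter.2 ⟨hj, hjr, hSD hjS⟩
        · subst hx; exact mem_filter.2 ⟨hj', hj'r, hSD hj'S⟩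

end

end Pool.Agent.Lib.MP_1fca17_co.F.Bal21
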