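import Mathlib
import Pool.Agent.Lib.MP_1fca17_co.F.Bal21

/-!
# MP_1fca17_co : blocks of the vertices of one window (section BLK)
-/

set_option autoImplicit false

namespace Pool.Agent.Lib.MP_1fca17_co.F.Blk72

open Finset
open scoped Classical
open Pool.Agent.Lib.MP_1fca17_co.F.Bal21 (Step Up Sub)

noncomputable section

variable {I V : Type}

/-- a region: empty, or connected with at most one lower neighbour -/
def RegOK (r : I) (par : I → I) (S : Finset I) : Prop :=
  S = ∅ ∨ (Sub r par S ∧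
    ∀ j j', j ∉ S → j' ∉ S → j ≠ r → j' ≠ r → par j ∈ S → par j' ∈ S → j = j')

/-- the nodes whose address has the suffix `l` -/
def reg [Fintype I] (addr : I → List ℕ) (l : List ℕ) : Finset I :=
  univ.filter (fun i => l <:+ addr i)

lemma mem_reg [Fintype I] {addr : I → List ℕ} {l : List ℕ} {i : I} :
    i ∈ reg addr l ↔ l <:+ addr i := by
  simp [reg]

/-- the nodes outside `S` that are adjacent to a node of `S` -/
def bd [Fintype I] (r : I) (par : I → I) (S : Finset I) : Finset I :=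
  univ.filter (fun j => j ∉ S ∧ ((j ≠ r ∧ par j ∈ S) ∨ ∃ i ∈ S, i ≠ r ∧ par i = j))

lemma mem_bd [Fintype I] {r : I} {par : I → I} {S : Finset I} {j : I} :
    j ∈ bd r par S ↔ j ∉ S ∧ ((j ≠ r ∧ par j ∈ S) ∨ ∃ i ∈ S, i ≠ r ∧ par i = j) := by
  simp [bd]

/-- the extended node set of a vertex -/
def Zh (W : Finset V) (G : SimpleGraph V) (Z : V → Finset I) (S : V → V → Finset I) (v : V) :
    Finset I :=
  Z v ∪ (W.filter (fun u => G.Adj v u)).biUnion (fun u => S v u)

/-- the vertices of the window with a node next to the region of `l` -/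
def hub [Fintype I] (r : I) (par : I → I) (addr : I → List ℕ) (W : Finset V) (Z : V → Finset I)
    (l : List ℕ) : Finset V :=
  W.filter (fun v => (Z v ∩ bd r par (reg addr l)).Nonempty)

variable {r : I} {par : I → I} {dep : I → ℕ}

/-- a property that is invariant along the links of a connected set is constant on it -/
lemma Sub_const (hpar : ∀ i, i ≠ r → dep i ≠ 0 ∧ dep (par i) + 1 = dep i) {S : Finset I}
    (hS : Sub r par S) (p : I → Prop)
    (hp : ∀ i ∈ S, i ≠ r → par i ∈ S → (p i ↔ p (par i))) {x y : I} (hx : x ∈ S) (hy : y ∈ S)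
    (h : p x) : p y := by
  obtain ⟨t, ht, ht'⟩ := hS
  have hup := Bal21.Sub.up hpar ht ht'
  have key : ∀ z, Up r par S z t → (p z ↔ p t) := by
    rintro z ⟨hz, hz'⟩
    induction hz' using Relation.ReflTransGen.head_induction_on with
    | refl => exact Iff.rfl
    | head hab hbc ih =>
      obtain ⟨k1, k2, k3, k4⟩ := hab
      subst k4
      exact (hp _ k2 k1 k3).trans (ih k3)
  exact (key y (hup y hy)).2 ((key x (hup x hx)).1 h)

/-- a connected set that meets a set and its complement has a crossing link -/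
lemma Sub_cross (hpar : ∀ i, i ≠ r → dep i ≠ 0 ∧ dep (par i) + 1 = dep i) {S R : Finset I}
    (hS : Sub r par S) {x y : I} (hx : x ∈ S) (hxR : x ∈ R) (hy : y ∈ S) (hyR : y ∉ R) :
    ∃ i ∈ S, i ≠ r ∧ par i ∈ S ∧ ((i ∈ R ∧ par i ∉ R) ∨ (i ∉ R ∧ par i ∈ R)) := by
  by_contra hno
  push Not at hno
  apply hyR
  refine Sub_const hpar hS (fun i => i ∈ R) ?_ hx hy hxR
  intro i hi hir hpi
  obtain ⟨h1, h2⟩ := hno i hi hir hpi
  constructor
  · intro h
    exact h1 h
  · intro h
    by_contra h'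
    exact h2 h' h

/-- a connected set that meets `R` and its complement has an element in `bd R` -/
lemma Sub_meets_bd [Fintype I] (hpar : ∀ i, i ≠ r → dep i ≠ 0 ∧ dep (par i) + 1 = dep i)
    {S R : Finset I} (hS : Sub r par S) {x y : I} (hx : x ∈ S) (hxR : x ∈ R) (hy : y ∈ S)
    (hyR : y ∉ R) : (S ∩ bd r par R).Nonempty := by
  obtain ⟨i, hi, hir, hpi, h⟩ := Sub_cross hpar hS hx hxR hy hyR
  rcases h with ⟨h1, h2⟩ | ⟨h1, h2⟩
  · exact ⟨par i, mem_inter.2 ⟨hpi, mem_bd.2 ⟨h2, Or.inr ⟨i, h1, hir, rfl⟩⟩⟩⟩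
  · exact ⟨i, mem_inter.2 ⟨hi, mem_bd.2 ⟨h1, Or.inl ⟨hir, h2⟩⟩⟩⟩

/-- the union of two connected sets that meet is connected -/
lemma Sub_union (hpar : ∀ i, i ≠ r → dep i ≠ 0 ∧ dep (par i) + 1 = dep i) {A B : Finset I}
    (hA : Sub r par A) (hB : Sub r par B) (hAB : (A ∩ B).Nonempty) : Sub r par (A ∪ B) := by
  obtain ⟨tA, hA1, hA2⟩ := hA
  obtain ⟨tB, hB1, hB2⟩ := hB
  obtain ⟨x, hx⟩ := hAB
  rw [mem_inter] at hx
  have hkey : tA ∈ B ∨ tB ∈ A := by
    rcases (Bal21.Sub.up hpar hA1 hA2 x hx.1).cases (Bal21.Sub.up hpar hB1 hB2 x hx.2) with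
      h | h | h
    · exact Or.inr h.mem_right
    · exact Or.inl h.1
    · exact Or.inr h.1
  rcases hkey with h | h
  · refine ⟨tB, mem_union_right _ hB1, ?_⟩
    intro i hi hit
    by_cases hiB : i ∈ B
    · obtain ⟨h1, h2⟩ := hB2 i hiB hit
      exact ⟨h1, mem_union_right _ h2⟩
    · have hiA : i ∈ A := by
        rcases mem_union.1 hi with h' | h'
        · exact h'
        · exact absurd h' hiB
      have : i ≠ tA := fun h' => hiB (h' ▸ h)
      obtain ⟨h1, h2⟩ := hA2 i hiA this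
      exact ⟨h1, mem_union_left _ h2⟩
  · refine ⟨tA, mem_union_left _ hA1, ?_⟩
    intro i hi hit
    by_cases hiA : i ∈ A
    · obtain ⟨h1, h2⟩ := hA2 i hiA hit
      exact ⟨h1, mem_union_left _ h2⟩
    · have hiB : i ∈ B := by
        rcases mem_union.1 hi with h' | h'
        · exact absurd h' hiA
        · exact h'
      have : i ≠ tB := fun h' => hiA (h' ▸ h)
      obtain ⟨h1, h2⟩ := hB2 i hiB this
      exact ⟨h1, mem_union_right _ h2⟩

/-- the extended node set is connected -/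
lemma Sub_Zh (hpar : ∀ i, i ≠ r → dep i ≠ 0 ∧ dep (par i) + 1 = dep i)
    {W : Finset V} {G : SimpleGraph V} {Z : V → Finset I} {S : V → V → Finset I}
    (hZ : ∀ v ∈ W, Sub r par (Z v))
    (hS : ∀ u ∈ W, ∀ v ∈ W, G.Adj u v →
      Sub r par (S u v) ∧ S u v = S v u ∧ (S u v ∩ Z u).Nonempty)
    {v : V} (hv : v ∈ W) : Sub r par (Zh W G Z S v) := by
  unfold Zh
  have key : ∀ T : Finset V, (∀ u ∈ T, u ∈ W ∧ G.Adj v u) →
      Sub r par (Z v ∪ T.biUnion (fun u => S v u)) := by
    intro T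
    induction T using Finset.induction_on with
    | empty =>
      intro _
      simpa using hZ v hv
    | insert u T hu ih =>
      intro hT
      have h1 := ih (fun w hw => hT w (mem_insert_of_mem hw))
      obtain ⟨h2, h3⟩ := hT u (mem_insert_self _ _)
      obtain ⟨h4, -, h5⟩ := hS v hv u h2 h3
      have h6 : Z v ∪ (insert u T).biUnion (fun u => S v u) =
          (Z v ∪ T.biUnion (fun u => S v u)) ∪ S v u := by
        rw [biUnion_insert]
        ext i
        simp only [mem_union]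
        tauto
      rw [h6]
      apply Sub_union hpar h1 h4
      obtain ⟨i, hi⟩ := h5
      rw [mem_inter] at hi
      exact ⟨i, mem_inter.2 ⟨mem_union_left _ hi.2, hi.1⟩⟩
  exact key _ (fun u hu => mem_filter.1 hu)

/-- a region has at most two boundary nodes -/
lemma card_bd [Fintype I] {S : Finset I} (hS : RegOK r par S) : (bd r par S).card ≤ 2 := by
  rcases hS with rfl | ⟨⟨t, ht1, ht2⟩, h2⟩
  · have : bd r par (∅ : Finset I) = ∅ := by
      ext j
      simp [mem_bd]
    rw [this]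
    simp
  · have hsub : bd r par S ⊆ {par t} ∪ univ.filter (fun j => j ∉ S ∧ j ≠ r ∧ par j ∈ S) := by
      intro j hj
      obtain ⟨h3, h4⟩ := mem_bd.1 hj
      rcases h4 with h4 | ⟨i, hi, hir, hij⟩
      · refine mem_union_right _ ?_
        rw [mem_filter]
        exact ⟨mem_univ _, h3, h4⟩
      · refine mem_union_left _ ?_
        rw [mem_singleton]
        by_cases hit : i = t
        · rw [← hij, hit]
        · exfalso
          apply h3
          rw [← hij]
          exact (ht2 i hi hit).2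
    have h5 : (univ.filter (fun j => j ∉ S ∧ j ≠ r ∧ par j ∈ S)).card ≤ 1 := by
      rw [card_le_one]
      intro a ha b hb
      rw [mem_filter] at ha hb
      exact h2 a b ha.2.1 hb.2.1 ha.2.2.1 hb.2.2.1 ha.2.2.2 hb.2.2.2
    calc (bd r par S).card ≤ _ := card_le_card hsub
      _ ≤ ({par t} : Finset I).card + _ := card_union_le _ _
      _ ≤ 1 + 1 := by
        rw [card_singleton]
        omega

/-- the shortest address on a connected set is a suffix of all of them -/
lemma short_exists (hpar : ∀ i, i ≠ r → dep i ≠ 0 ∧ dep (par i) + 1 = dep i)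
    {addr : I → List ℕ}
    (P1 : ∀ i, i ≠ r → addr i <:+ addr (par i) ∨ addr (par i) <:+ addr i) {S : Finset I}
    (hS : Sub r par S) : ∃ l, (∃ i ∈ S, addr i = l) ∧ ∀ i ∈ S, l <:+ addr i := by
  have hne : S.Nonempty := by
    obtain ⟨t, ht, -⟩ := hS
    exact ⟨t, ht⟩
  obtain ⟨i0, hi0, hmin⟩ := exists_min_image S (fun i => (addr i).length) hne
  refine ⟨addr i0, ⟨i0, hi0, rfl⟩, ?_⟩
  intro i hi
  refine Sub_const hpar hS (fun i => addr i0 <:+ addr i) ?_ hi0 hi List.suffix_rfl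
  intro j hj hjr hpj
  have h1 := hmin j hj
  have h2 := hmin (par j) hpj
  constructor
  · intro h
    rcases P1 j hjr with h' | h'
    · exact h.trans h'
    · exact List.suffix_of_suffix_length_le h h' h2
  · intro h
    rcases P1 j hjr with h' | h'
    · exact List.suffix_of_suffix_length_le h h' h1
    · exact h.trans h'

/-- BLK -/
theorem blk [Fintype I] [Fintype V] (hpar : ∀ i, i ≠ r → dep i ≠ 0 ∧ dep (par i) + 1 = dep i)
    (G : SimpleGraph V) (W : Finset V) (Z : V → Finset I) (S : V → V → Finset I)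
    (c K q q' qq s : ℕ) (addr : I → List ℕ)
    (hZ : ∀ v ∈ W, Sub r par (Z v))
    (hS : ∀ u ∈ W, ∀ v ∈ W, G.Adj u v →
      Sub r par (S u v) ∧ S u v = S v u ∧ (S u v ∩ Z u).Nonempty)
    (hc : ∀ i, (W.filter (fun v => i ∈ Z v)).card ≤ c)
    (hK : ∀ i, ((W ×ˢ W).filter (fun e => G.Adj e.1 e.2 ∧ i ∈ S e.1 e.2)).card ≤ K)
    (P1 : ∀ i, i ≠ r → addr i <:+ addr (par i) ∨ addr (par i) <:+ addr i)
    (P2 : ∀ l, RegOK r par (reg addr l))
    (P3 : ∀ l, (univ.filter (fun i => addr i = l)).card ≤ q')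
    (P4 : ∀ i, ∀ x ∈ addr i, x < qq)
    (D2 : ∀ l0 l : List ℕ, l0 <:+ l → l0 ≠ l →
      q ^ (l.length - l0.length - 1) * (W.filter (fun v =>
        (∃ i ∈ Zh W G Z S v, addr i = l0) ∧ (∀ i ∈ Zh W G Z S v, l0 <:+ addr i) ∧
        ∀ i ∈ Z v, l <:+ addr i)).card ≤ 4 * K)
    (hs : 1 ≤ s) (hq : 1 ≤ q) (hqs : 4 * K < q ^ (s - 1)) :
    ∃ h b : V → List ℕ,
      (∀ v ∈ W, h v <:+ b v ∧ (b v).length < (h v).length + s ∧ (∀ x ∈ b v, x < qq) ∧
        ∃ i ∈ Z v, addr i = b v) ∧
      (∀ l, (hub r par addr W Z l).card ≤ 2 * c) ∧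
      (∀ l, ∀ v ∈ hub r par addr W Z l, v ∈ W ∧ b v <:+ l ∧ b v ≠ l ∧
        ∀ l', l' <:+ l → (b v).length < l'.length → v ∈ hub r par addr W Z l') ∧
      (∀ u ∈ W, ∀ v ∈ W, G.Adj u v → (h v).length ≤ (h u).length →
        h v = h u ∨ (h v <:+ h u ∧ h v ≠ h u ∧
          (h u <:+ b v ∨ v ∈ hub r par addr W Z (h u)))) ∧
      (∀ l, (W.filter (fun v => h v = l)).card ≤ (c + K) * q') ∧
      (∀ l, (W.filter (fun v => b v = l)).card ≤ c * q') ∧
      (∀ l x y, q * (W.filter (fun v => h v = l ∧ (y :: x :: l) <:+ b v)).card ≤ 4 * K) := by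
  have hZh : ∀ v ∈ W, Sub r par (Zh W G Z S v) := fun v hv => Sub_Zh hpar hZ hS hv
  have hb0 : ∀ v, ∃ l, v ∈ W → ((∃ i ∈ Z v, addr i = l) ∧ ∀ i ∈ Z v, l <:+ addr i) := by
    intro v
    by_cases hv : v ∈ W
    · obtain ⟨l, hl⟩ := short_exists hpar P1 (hZ v hv)
      exact ⟨l, fun _ => hl⟩
    · exact ⟨[], fun h => absurd h hv⟩
  have hh0 : ∀ v, ∃ l, v ∈ W → ((∃ i ∈ Zh W G Z S v, addr i = l) ∧
      ∀ i ∈ Zh W G Z S v, l <:+ addr i) := by
    intro v
    by_cases hv : v ∈ W
    · obtain ⟨l, hl⟩ := short_exists hpar P1 (hZh v hv)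
      exact ⟨l, fun _ => hl⟩
    · exact ⟨[], fun h => absurd h hv⟩
  choose b hb using hb0
  choose h hh using hh0
  have hZsub : ∀ v, Z v ⊆ Zh W G Z S v := fun v => subset_union_left
  have hSsub : ∀ v, ∀ u ∈ W, G.Adj v u → S v u ⊆ Zh W G Z S v := by
    intro v u hu huv i hi
    refine mem_union_right _ ?_
    rw [mem_biUnion]
    exact ⟨u, mem_filter.2 ⟨hu, huv⟩, hi⟩
  have hhb : ∀ v ∈ W, h v <:+ b v := by
    intro v hv
    obtain ⟨⟨i, hi, hib⟩, -⟩ := hb v hv
    rw [← hib]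
    exact (hh v hv).2 i (hZsub v hi)
  refine ⟨h, b, ?_, ?_, ?_, ?_, ?_, ?_, ?_⟩
  · intro v hv
    obtain ⟨⟨i, hi, hib⟩, hb2⟩ := hb v hv
    refine ⟨hhb v hv, ?_, ?_, i, hi, hib⟩
    · by_contra hlt
      push Not at hlt
      have hne : h v ≠ b v := by
        intro he
        rw [he] at hlt
        omega
      have h1 := D2 (h v) (b v) (hhb v hv) hne
      have h2 : 1 ≤ (W.filter (fun w =>
          (∃ i ∈ Zh W G Z S w, addr i = h v) ∧ (∀ i ∈ Zh W G Z S w, h v <:+ addr i) ∧
          ∀ i ∈ Z w, b v <:+ addr i)).card := by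
        rw [Nat.one_le_iff_ne_zero, card_ne_zero]
        exact ⟨v, mem_filter.2 ⟨hv, (hh v hv).1, (hh v hv).2, hb2⟩⟩
      have h3 : q ^ (s - 1) ≤ q ^ ((b v).length - (h v).length - 1) :=
        Nat.pow_le_pow_right hq (by omega)
      have h4 : q ^ ((b v).length - (h v).length - 1) * 1 ≤
          q ^ ((b v).length - (h v).length - 1) * (W.filter (fun w =>
          (∃ i ∈ Zh W G Z S w, addr i = h v) ∧ (∀ i ∈ Zh W G Z S w, h v <:+ addr i) ∧
          ∀ i ∈ Z w, b v <:+ addr i)).card := Nat.mul_le_mul_left _ h2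
      omega
    · rw [← hib]
      exact P4 i
  · intro l
    have hsub : hub r par addr W Z l ⊆
        (bd r par (reg addr l)).biUnion (fun i => W.filter (fun v => i ∈ Z v)) := by
      intro v hv
      obtain ⟨hvW, i, hi⟩ := mem_filter.1 hv
      rw [mem_inter] at hi
      rw [mem_biUnion]
      exact ⟨i, hi.2, mem_filter.2 ⟨hvW, hi.1⟩⟩
    calc (hub r par addr W Z l).card ≤ _ := card_le_card hsub
      _ ≤ (bd r par (reg addr l)).card * c := card_biUnion_le_card_mul _ _ _ (fun i _ => hc i)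
      _ ≤ 2 * c := Nat.mul_le_mul_right _ (card_bd (P2 l))
  · intro l v hv
    obtain ⟨hvW, j, hj⟩ := mem_filter.1 hv
    rw [mem_inter, mem_bd] at hj
    obtain ⟨hjZ, hjR, hadj⟩ := hj
    obtain ⟨⟨i1, hi1, hi1b⟩, hb2⟩ := hb v hvW
    -- a neighbour inside the region
    have hnb : ∃ i, l <:+ addr i ∧ (addr i <:+ addr j ∨ addr j <:+ addr i) := by
      rcases hadj with ⟨h1, h2⟩ | ⟨i, hi, hir, hij⟩
      · exact ⟨par j, mem_reg.1 h2, (P1 j h1).symm⟩
      · subst hij
        exact ⟨i, mem_reg.1 hi, P1 i hir⟩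
    obtain ⟨i, hi, hcmp⟩ := hnb
    have hjl : ¬ l <:+ addr j := fun h' => hjR (mem_reg.2 h')
    have hji : addr j <:+ addr i := by
      rcases hcmp with h' | h'
      · exact absurd (hi.trans h') hjl
      · exact h'
    have hlen : (addr j).length < l.length := by
      by_contra h'
      push Not at h'
      exact hjl (List.suffix_of_suffix_length_le hi hji h')
    have hjl' : addr j <:+ l := List.suffix_of_suffix_length_le hji hi hlen.le
    have hbj : b v <:+ addr j := hb2 j hjZ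
    have hbl : (b v).length < l.length := lt_of_le_of_lt hbj.length_le hlen
    refine ⟨hvW, hbj.trans hjl', ?_, ?_⟩
    · intro he
      rw [he] at hbl
      omega
    · intro l' hl' hlt
      refine mem_filter.2 ⟨hvW, ?_⟩
      by_cases hjl2 : j ∈ reg addr l'
      · refine Sub_meets_bd hpar (hZ v hvW) hjZ hjl2 hi1 ?_
        intro h'
        rw [mem_reg, hi1b] at h'
        have := h'.length_le
        omega
      · refine ⟨j, mem_inter.2 ⟨hjZ, mem_bd.2 ⟨hjl2, ?_⟩⟩⟩
        rcases hadj with ⟨h1, h2⟩ | ⟨i', hi', hir, hij⟩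
        · exact Or.inl ⟨h1, mem_reg.2 (hl'.trans (mem_reg.1 h2))⟩
        · exact Or.inr ⟨i', mem_reg.2 (hl'.trans (mem_reg.1 hi')), hir, hij⟩
  · intro u hu v hv huv hlen
    obtain ⟨hS1, hS2, i0, hi0⟩ := hS v hv u hu huv.symm
    rw [mem_inter] at hi0
    have hiu : i0 ∈ Zh W G Z S u := by
      apply hSsub u v hv huv
      rw [← hS2]
      exact hi0.1
    have hiv : i0 ∈ Zh W G Z S v := hZsub v hi0.2
    have h1 := (hh u hu).2 i0 hiu
    have h2 := (hh v hv).2 i0 hiv
    have h3 : h v <:+ h u := List.suffix_of_suffix_length_le h2 h1 hlen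
    by_cases he : h v = h u
    · exact Or.inl he
    · refine Or.inr ⟨h3, he, ?_⟩
      by_cases hall : ∀ i ∈ Z v, i ∈ reg addr (h u)
      · refine Or.inl ?_
        obtain ⟨⟨i1, hi1, hi1b⟩, -⟩ := hb v hv
        rw [← hi1b]
        exact mem_reg.1 (hall i1 hi1)
      · refine Or.inr ?_
        push Not at hall
        obtain ⟨i2, hi2, hi2'⟩ := hall
        exact mem_filter.2 ⟨hv, Sub_meets_bd hpar (hZ v hv) hi0.2 (mem_reg.2 h1) hi2 hi2'⟩
  · intro l
    have hsub : W.filter (fun v => h v = l) ⊆ (univ.filter (fun i => addr i = l)).biUnion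
        (fun i => W.filter (fun v => i ∈ Z v) ∪
          ((W ×ˢ W).filter (fun e => G.Adj e.1 e.2 ∧ i ∈ S e.1 e.2)).image Prod.fst) := by
      intro v hv
      obtain ⟨hvW, hvl⟩ := mem_filter.1 hv
      obtain ⟨⟨i, hi, hil⟩, -⟩ := hh v hvW
      rw [mem_biUnion]
      refine ⟨i, mem_filter.2 ⟨mem_univ _, hil.trans hvl⟩, ?_⟩
      rcases mem_union.1 hi with hi | hi
      · exact mem_union_left _ (mem_filter.2 ⟨hvW, hi⟩)
      · refine mem_union_right _ ?_
        rw [mem_biUnion] at hi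
        obtain ⟨u, hu, hiu⟩ := hi
        obtain ⟨hu1, hu2⟩ := mem_filter.1 hu
        exact mem_image.2 ⟨(v, u), mem_filter.2 ⟨mem_product.2 ⟨hvW, hu1⟩, hu2, hiu⟩, rfl⟩
    calc (W.filter (fun v => h v = l)).card ≤ _ := card_le_card hsub
      _ ≤ (univ.filter (fun i => addr i = l)).card * (c + K) := by
        apply card_biUnion_le_card_mul
        intro i _
        refine (card_union_le _ _).trans ?_
        exact Nat.add_le_add (hc i) (card_image_le.trans (hK i))
      _ ≤ q' * (c + K) := Nat.mul_le_mul_right _ (P3 l)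
      _ = (c + K) * q' := Nat.mul_comm _ _
  · intro l
    have hsub : W.filter (fun v => b v = l) ⊆ (univ.filter (fun i => addr i = l)).biUnion
        (fun i => W.filter (fun v => i ∈ Z v)) := by
      intro v hv
      obtain ⟨hvW, hvl⟩ := mem_filter.1 hv
      obtain ⟨⟨i, hi, hil⟩, -⟩ := hb v hvW
      rw [mem_biUnion]
      exact ⟨i, mem_filter.2 ⟨mem_univ _, hil.trans hvl⟩, mem_filter.2 ⟨hvW, hi⟩⟩
    calc (W.filter (fun v => b v = l)).card ≤ _ := card_le_card hsub
      _ ≤ (univ.filter (fun i => addr i = l)).card * c :=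
        card_biUnion_le_card_mul _ _ _ (fun i _ => hc i)
      _ ≤ q' * c := Nat.mul_le_mul_right _ (P3 l)
      _ = c * q' := Nat.mul_comm _ _
  · intro l x y
    have h1 := D2 l (y :: x :: l) ⟨[y, x], rfl⟩ (by
      intro he
      have := congrArg List.length he
      simp only [List.length_cons] at this
      omega)
    have h2 : (y :: x :: l).length - l.length - 1 = 1 := by
      simp only [List.length_cons]
      omega
    rw [h2, pow_one] at h1
    refine le_trans (Nat.mul_le_mul_left q (card_le_card ?_)) h1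
    intro v hv
    obtain ⟨hvW, hvl, hvb⟩ := mem_filter.1 hv
    refine mem_filter.2 ⟨hvW, ?_, ?_, ?_⟩
    · rw [← hvl]
      exact (hh v hvW).1
    · rw [← hvl]
      exact (hh v hvW).2
    · intro i hi
      exact hvb.trans ((hb v hvW).2 i hi)

end

end Pool.Agent.Lib.MP_1fca17_co.F.Blk72
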