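import Mathlib
import Pool.Agent.Lib.MP_1fca17_co.F.Defs
import Pool.Agent.Lib.MP_1fca17_co.F.Blk72

/-!
# MP_1fca17_co : row BLK in the form of F/Defs
-/

set_option autoImplicit false

namespace Pool.Agent.Lib.MP_1fca17_co.F

open Finset
open scoped Classical

noncomputable section

/-- BLK -/
theorem stBlk : StBlk := by
  intro V I _ _ G W c K q s X a hq hs hqs hR
  set Z : V → Finset I := fun v => univ.filter (fun i => i ∈ X.Z v) with hZdef
  set S : V → V → Finset I := fun u v => univ.filter (fun i => i ∈ X.S u v) with hSdef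
  have hmZ : ∀ v i, i ∈ Z v ↔ i ∈ X.Z v := by
    intro v i
    simp [hZdef]
  have hmS : ∀ u v i, i ∈ S u v ↔ i ∈ X.S u v := by
    intro u v i
    simp [hSdef]
  have hpar : ∀ i, i ≠ X.T.r → X.T.dep i ≠ 0 ∧ X.T.dep (X.T.par i) + 1 = X.T.dep i := by
    intro i hi
    have := X.T.dep_par i hi
    exact ⟨by omega, this⟩
  have hZ : ∀ v ∈ W, Bal21.Sub X.T.r X.T.par (Z v) := by
    intro v hv
    obtain ⟨t, ht, ht'⟩ := X.subZ v hv
    refine ⟨t, (hmZ v t).2 ht, ?_⟩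
    intro i hi hit
    obtain ⟨h1, h2⟩ := ht' i ((hmZ v i).1 hi) hit
    exact ⟨h1, (hmZ v _).2 h2⟩
  have hS : ∀ u ∈ W, ∀ v ∈ W, G.Adj u v →
      Bal21.Sub X.T.r X.T.par (S u v) ∧ S u v = S v u ∧ (S u v ∩ Z u).Nonempty := by
    intro u hu v hv huv
    refine ⟨?_, ?_, ?_⟩
    · obtain ⟨t, ht, ht'⟩ := X.subS u hu v hv huv
      refine ⟨t, (hmS u v t).2 ht, ?_⟩
      intro i hi hit
      obtain ⟨h1, h2⟩ := ht' i ((hmS u v i).1 hi) hit
      exact ⟨h1, (hmS u v _).2 h2⟩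
    · ext i
      rw [hmS, hmS, X.symS u v]
    · obtain ⟨i, hi1, hi2⟩ := X.meet u hu v hv huv
      exact ⟨i, mem_inter.2 ⟨(hmS u v i).2 hi1, (hmZ u i).2 hi2⟩⟩
  have hc : ∀ i, (W.filter (fun v => i ∈ Z v)).card ≤ c := by
    intro i
    refine le_trans (card_le_card ?_) (X.cntZ i)
    intro v hv
    rw [mem_filter] at hv ⊢
    exact ⟨hv.1, (hmZ v i).1 hv.2⟩
  have hK : ∀ i, ((W ×ˢ W).filter (fun e => G.Adj e.1 e.2 ∧ i ∈ S e.1 e.2)).card ≤ K := by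
    intro i
    refine le_trans (card_le_card ?_) (X.cntS i)
    intro e he
    rw [mem_filter] at he
    rw [mem_filter, prs, mem_filter]
    exact ⟨⟨he.1, he.2.1⟩, (hmS _ _ i).1 he.2.2⟩
  have hreg : ∀ l i, i ∈ Blk72.reg a l ↔ i ∈ reg a l := by
    intro l i
    rw [Blk72.mem_reg]
    exact Iff.rfl
  have P1 : ∀ i, i ≠ X.T.r → a i <:+ a (X.T.par i) ∨ a (X.T.par i) <:+ a i := by
    intro i hi
    exact hR.cmp i (X.T.par i) (Or.inl ⟨hi, rfl⟩)
  have P2 : ∀ l, Blk72.RegOK X.T.r X.T.par (Blk72.reg a l) := by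
    intro l
    rcases hR.regs l with h | ⟨⟨t, ht, ht'⟩, h⟩
    · left
      rw [eq_empty_iff_forall_notMem]
      intro i hi
      have := (hreg l i).1 hi
      rw [h] at this
      exact this
    · right
      refine ⟨⟨t, (hreg l t).2 ht, ?_⟩, ?_⟩
      · intro i hi hit
        obtain ⟨h1, h2⟩ := ht' i ((hreg l i).1 hi) hit
        exact ⟨h1, (hreg l _).2 h2⟩
      · intro j j' hj hj' hjr hjr' hp hp'
        rw [card_le_one] at h
        apply h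
        · rw [RTree.low, mem_filter]
          exact ⟨mem_univ _, hjr, fun h' => hj ((hreg l j).2 h'), (hreg l _).1 hp⟩
        · rw [RTree.low, mem_filter]
          exact ⟨mem_univ _, hjr', fun h' => hj' ((hreg l j').2 h'), (hreg l _).1 hp'⟩
  have hmZh : ∀ v i, i ∈ Blk72.Zh W G Z S v ↔ i ∈ X.Zh v := by
    intro v i
    rw [Blk72.Zh, mem_union, mem_biUnion, hmZ, CK.Zh, Set.mem_union, Set.mem_sUnion]
    constructor
    · rintro (h | ⟨u, hu, h⟩)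
      · exact Or.inl h
      · rw [mem_filter] at hu
        exact Or.inr ⟨X.S v u, ⟨u, hu.1, hu.2, rfl⟩, (hmS v u i).1 h⟩
    · rintro (h | ⟨Y, ⟨u, hu, huv, rfl⟩, h⟩)
      · exact Or.inl h
      · exact Or.inr ⟨u, mem_filter.2 ⟨hu, huv⟩, (hmS v u i).2 h⟩
  have D2 : ∀ l0 l : List ℕ, l0 <:+ l → l0 ≠ l →
      q ^ (l.length - l0.length - 1) * (W.filter (fun v =>
        (∃ i ∈ Blk72.Zh W G Z S v, a i = l0) ∧ (∀ i ∈ Blk72.Zh W G Z S v, l0 <:+ a i) ∧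
        ∀ i ∈ Z v, l <:+ a i)).card ≤ 4 * K := by
    intro l0 l h1 h2
    refine le_trans (Nat.mul_le_mul_left _ (card_le_card ?_)) (hR.decay l0 l h1 h2)
    intro v hv
    rw [mem_filter] at hv ⊢
    obtain ⟨hvW, ⟨i, hi, hil⟩, h3, h4⟩ := hv
    exact ⟨hvW, fun j hj => h3 j ((hmZh v j).2 hj), ⟨i, (hmZh v i).1 hi, hil⟩,
      fun j hj => h4 j ((hmZ v j).2 hj)⟩
  obtain ⟨h, b, k1, k2, k3, k4, k5, k6, k7⟩ := Blk72.blk hpar G W Z S c K q (4 * q + 2)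
    (3 * (4 * q + 2)) s a hZ hS hc hK P1 P2 hR.cnt hR.idx D2 hs hq hqs
  refine ⟨⟨h, b, Blk72.hub X.T.r X.T.par a W Z, fun v hv => (k1 v hv).1,
    fun v hv => (k1 v hv).2.1, fun v hv => (k1 v hv).2.2.1,
    fun l v hv => (k3 l v hv).1, k2, fun l v hv => ⟨(k3 l v hv).2.1, (k3 l v hv).2.2.1⟩,
    fun l v hv => (k3 l v hv).2.2.2, fun v hv u hu huv hl => k4 u hu v hv huv.symm hl,
    k5, k6, ?_⟩⟩
  intro l x y
  rw [Nat.le_div_iff_mul_le hq, Nat.mul_comm]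
  exact k7 l x y

end

end Pool.Agent.Lib.MP_1fca17_co.F
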