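import Mathlib

/-!
# COL: a greedy colouring of the addresses
-/

set_option autoImplicit false

namespace Pool.Agent.Lib.MP_1fca17_co.F.Col79

/-- Greedy colouring along a well-founded length. -/
theorem col_gen {α : Type} (len : α → ℕ) (N : ℕ) (Bad : α → Finset α)
    (hlen : ∀ l, ∀ l' ∈ Bad l, len l' < len l) (hc : ∀ l, (Bad l).card < N) :
    ∃ col : α → ℕ, (∀ l, col l < N) ∧ ∀ l, ∀ l' ∈ Bad l, col l' ≠ col l := by
  classical
  have hstep : ∀ S : Finset ℕ, S.card < N → ∃ c, c < N ∧ c ∉ S := by
    intro S hS
    obtain ⟨c, hc1, hc2⟩ := Finset.exists_mem_notMem_of_card_lt_card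
      (s := S) (t := Finset.range N) (by rw [Finset.card_range]; exact hS)
    exact ⟨c, Finset.mem_range.1 hc1, hc2⟩
  let F : (l : α) → ((l' : α) → len l' < len l → ℕ) → Finset ℕ := fun l ih =>
    (Bad l).attach.image fun l' => ih l'.1 (hlen l l'.1 l'.2)
  have hF : ∀ l ih, (F l ih).card < N := fun l ih =>
    (Finset.card_image_le.trans (by rw [Finset.card_attach])).trans_lt (hc l)
  let col : α → ℕ := WellFounded.fix (measure len).wf fun l ih =>
    Classical.choose (hstep (F l ih) (hF l ih))
  have hcol : ∀ l, col l = Classical.choose (hstep (F l fun l' _ => col l')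
      (hF l fun l' _ => col l')) := fun l => WellFounded.fix_eq _ _ l
  refine ⟨col, fun l => ?_, fun l l' hl' h => ?_⟩
  · rw [hcol l]
    exact (Classical.choose_spec (hstep (F l fun l' _ => col l') (hF l fun l' _ => col l'))).1
  · have h1 := (Classical.choose_spec (hstep (F l fun l' _ => col l')
      (hF l fun l' _ => col l'))).2
    apply h1
    rw [← hcol l, ← h]
    exact Finset.mem_image.2 ⟨⟨l', hl'⟩, Finset.mem_attach _ _, rfl⟩

/-- COL, abstract form. -/
theorem col_exists (N : ℕ) (Bad : List ℕ → Finset (List ℕ))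
    (hlen : ∀ l, ∀ l' ∈ Bad l, l'.length < l.length) (hc : ∀ l, (Bad l).card < N) :
    ∃ col : List ℕ → ℕ, (∀ l, col l < N) ∧ ∀ l, ∀ l' ∈ Bad l, col l' ≠ col l :=
  col_gen List.length N Bad hlen hc

/-- COL: colours for the addresses such that `l` has a colour different from those of its proper
suffixes at distance less than `s` and of the proper suffixes in `hb l` (at most `m` of them). -/
theorem col_suffix (s m : ℕ) (hs : 1 ≤ s) (hb : List ℕ → Finset (List ℕ))
    (hcard : ∀ l, (hb l).card ≤ m) :
    ∃ col : List ℕ → ℕ, (∀ l, col l < s + m) ∧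
      ∀ l l', l' <:+ l → l' ≠ l → (l.length < l'.length + s ∨ l' ∈ hb l) → col l' ≠ col l := by
  classical
  let Bad : List ℕ → Finset (List ℕ) := fun l =>
    (((Finset.Ico 1 s).image fun g => l.drop g) ∪ hb l).filter fun l' => l' <:+ l ∧ l' ≠ l
  have hA : ∀ l, ∀ l' ∈ Bad l, l'.length < l.length := by
    intro l l' hl'
    obtain ⟨-, ⟨t, ht⟩, hne⟩ := Finset.mem_filter.1 hl'
    have hlen : t.length + l'.length = l.length := by rw [← ht, List.length_append]
    have ht0 : t.length ≠ 0 := by
      intro h0
      rw [List.length_eq_zero_iff] at h0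
      rw [h0, List.nil_append] at ht
      exact hne ht
    omega
  have hB : ∀ l, (Bad l).card < s + m := by
    intro l
    refine (Finset.card_le_card (Finset.filter_subset _ _)).trans_lt ?_
    refine (Finset.card_union_le _ _).trans_lt ?_
    have h3 : ((Finset.Ico 1 s).image fun g => l.drop g).card ≤ s - 1 := by
      refine Finset.card_image_le.trans ?_
      rw [Nat.card_Ico]
    have h4 := hcard l
    omega
  obtain ⟨col, h1, h2⟩ := col_exists (s + m) Bad hA hB
  refine ⟨col, h1, fun l l' hsuf hne hor => h2 l l' ?_⟩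
  refine Finset.mem_filter.2 ⟨Finset.mem_union.2 ?_, hsuf, hne⟩
  rcases hor with h | h
  · left
    obtain ⟨t, ht⟩ := hsuf
    have hlen : t.length + l'.length = l.length := by rw [← ht, List.length_append]
    have ht0 : t.length ≠ 0 := by
      intro h0
      rw [List.length_eq_zero_iff] at h0
      rw [h0, List.nil_append] at ht
      exact hne ht
    refine Finset.mem_image.2 ⟨t.length, Finset.mem_Ico.2 ⟨by omega, by omega⟩, ?_⟩
    rw [← ht, List.drop_left]
  · exact Or.inr h

end Pool.Agent.Lib.MP_1fca17_co.F.Col79
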