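import Mathlib
import Pool.Agent.Lib.MP_1fca17_co.F.Defs
import Pool.Agent.Lib.MP_1fca17_co.F.Col79

namespace Pool.Agent.Lib.MP_1fca17_co.F

theorem stCol : StCol := fun N adj h1 h2 => Col79.col_exists N adj h2 h1

end Pool.Agent.Lib.MP_1fca17_co.F
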