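import Pool.Agent.Lib.MP_1fca17_co.F.Bal21

/-!
# MP_1fca17_co : one step of the region recursion (section CUT)
-/

namespace Pool.Agent.Lib.MP_1fca17_co.F.Bal21

open Finset
open scoped Classical

noncomputable section

set_option linter.unusedSectionVars false

variable {I : Type}

/-- a region: empty, or connected with at most one child outside -/
def RegOK (r : I) (par : I → I) (S : Finset I) : Prop :=
  S = ∅ ∨ (Sub r par S ∧ ∀ j j', j ∉ S → j' ∉ S → j ≠ r → j' ≠ r → par j ∈ S → par j' ∈ S →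
    j = j')

variable {r : I} {par : I → I} {dep : I → ℕ}

/-- the end of the chain in `R \ C` -/
lemma exists_end [Fintype I]
    (hpar : ∀ i, i ≠ r → dep i ≠ 0 ∧ dep (par i) + 1 = dep i) {R C : Finset I} {t : I}
    (htC : t ∈ C) (ht : ∀ i ∈ R, i ≠ t → i ≠ r ∧ par i ∈ R) :
    ∀ i ∈ R \ C, ∃ a, Up r par (R \ C) i a ∧ a ≠ r ∧ par a ∈ C := by
  have key : ∀ n, ∀ i ∈ R \ C, dep i = n → ∃ a, Up r par (R \ C) i a ∧ a ≠ r ∧ par a ∈ C := by
    intro n
    induction n using Nat.strong_induction_on with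
    | _ n ih =>
      intro i hi hn
      have hi' := mem_sdiff.1 hi
      have hit : i ≠ t := fun h => hi'.2 (h ▸ htC)
      obtain ⟨h1, h2⟩ := ht i hi'.1 hit
      by_cases hp : par i ∈ C
      · exact ⟨i, Up.refl hi, h1, hp⟩
      · have hpi : par i ∈ R \ C := mem_sdiff.2 ⟨h2, hp⟩
        have h3 := hpar i h1
        obtain ⟨a, ha1, ha2, ha3⟩ := ih (dep (par i)) (by omega) (par i) hpi rfl
        exact ⟨a, ⟨hi, Relation.ReflTransGen.head ⟨h1, hi, hpi, rfl⟩ ha1.2⟩, ha2, ha3⟩
  intro i hi
  exact key _ i hi rfl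

lemma end_unique {R C : Finset I} {i a a' : I}
    (h1 : Up r par (R \ C) i a) (h2 : par a ∈ C)
    (h1' : Up r par (R \ C) i a') (h2' : par a' ∈ C) : a = a' := by
  by_contra hne
  rcases h1.cases h1' with h | h | h
  · exact (mem_sdiff.1 (h.head hne).2.1).2 h2
  · exact (mem_sdiff.1 (h.head hne).2.1).2 h2
  · exact (mem_sdiff.1 (h.head (Ne.symm hne)).2.1).2 h2'

/-- CUT -/
theorem cut [Fintype I] {V : Type} [Fintype V]
    (hpar : ∀ i, i ≠ r → dep i ≠ 0 ∧ dep (par i) + 1 = dep i)
    (h3 : ∀ i, (univ.filter (fun j => j ≠ r ∧ par j = i)).card ≤ 3)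
    (Z : V → Finset I) (hZ : ∀ v, Sub r par (Z v)) (w : V → ℕ) (q : ℕ) (hq : 1 ≤ q)
    (R : Finset I) (hR : R.Nonempty) (hok : RegOK r par R) :
    ∃ (C : Finset I) (cls : I → ℕ), C ⊆ R ∧ C.Nonempty ∧ C.card ≤ 4 * q + 2 ∧
      (∀ i ∈ R \ C, cls i < 3 * (4 * q + 2)) ∧
      (∀ i ∈ R \ C, i ≠ r → par i ∈ R \ C → cls (par i) = cls i) ∧
      (∀ x, RegOK r par ((R \ C).filter (fun i => cls i = x))) ∧
      ∀ x, 2 * q * ∑ v ∈ univ.filter (fun v => Z v ⊆ (R \ C).filter (fun i => cls i = x)), w v ≤
        ∑ v ∈ univ.filter (fun v => Z v ⊆ R), w v := by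
  rcases hok with hok | ⟨hsub, hbd⟩
  · exact absurd hok hR.ne_empty
  obtain ⟨t, htR, ht⟩ := hsub
  choose tp htp htp' using hZ
  set om : I → ℕ := fun i => ∑ v ∈ univ.filter (fun v => Z v ⊆ R ∧ tp v = i), w v with hom
  set W := ∑ v ∈ univ.filter (fun v => Z v ⊆ R), w v with hW
  -- sums of om
  have hsum : ∀ S ⊆ R, ∑ i ∈ S, om i = ∑ v ∈ univ.filter (fun v => Z v ⊆ R ∧ tp v ∈ S), w v := by
    intro S _
    rw [hom]
    rw [← sum_fiberwise_of_maps_to (s := univ.filter (fun v => Z v ⊆ R ∧ tp v ∈ S)) (t := S)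
      (g := tp) (fun v hv => (mem_filter.1 hv).2.2)]
    apply sum_congr rfl
    intro i hi
    apply sum_congr _ (fun _ _ => rfl)
    ext v
    simp only [mem_filter, mem_univ, true_and]
    constructor
    · rintro ⟨h1, h2⟩
      exact ⟨⟨h1, h2 ▸ hi⟩, h2⟩
    · rintro ⟨⟨h1, _⟩, h2⟩
      exact ⟨h1, h2⟩
  have hsumR : ∑ i ∈ R, om i = W := by
    rw [hsum R (Subset.refl _), hW]
    apply sum_congr _ (fun _ _ => rfl)
    ext v
    simp only [mem_filter, mem_univ, true_and]
    exact ⟨fun h => h.1, fun h => ⟨h, h (htp v)⟩⟩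
  have hsumS : ∀ S ⊆ R, ∑ v ∈ univ.filter (fun v => Z v ⊆ S), w v ≤ ∑ i ∈ S, om i := by
    intro S hS
    rw [hsum S hS]
    apply sum_le_sum_of_subset
    intro v hv
    simp only [mem_filter, mem_univ, true_and] at hv ⊢
    exact ⟨hv.trans hS, hv (htp v)⟩
  set T := W / (2 * q) + 1 with hT
  set Bd := univ.filter (fun j => j ∉ R ∧ j ≠ r ∧ par j ∈ R) with hBd
  have hBdc : Bd.card ≤ 1 := by
    rw [card_le_one]
    intro a ha b hb
    simp only [hBd, mem_filter, mem_univ, true_and] at ha hb
    exact hbd a b ha.1 hb.1 ha.2.1 hb.2.1 ha.2.2 hb.2.2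
  obtain ⟨C0, hC0R, hC0c, hC0s⟩ := bal hpar om T R Bd
  have hC0card : C0.card ≤ 4 * q := by
    rw [hsumR] at hC0c
    have h1 : W < 2 * q * T := by
      rw [hT]
      have := Nat.lt_mul_div_succ W (show 0 < 2 * q by omega)
      exact this
    have h2 : Bd.card * T ≤ 1 * T := Nat.mul_le_mul_right _ hBdc
    have h3 : C0.card * T < (4 * q + 1) * T := by
      calc C0.card * T ≤ 2 * W + Bd.card * T := hC0c
        _ ≤ 2 * W + 1 * T := by omega
        _ < 2 * (2 * q * T) + 1 * T := by omega
        _ = (4 * q + 1) * T := by ring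
    have h4 : C0.card < 4 * q + 1 := lt_of_mul_lt_mul_right h3 (Nat.zero_le _)
    omega
  set C := insert t C0 with hC
  have htC : t ∈ C := mem_insert_self _ _
  have hCR : C ⊆ R := by
    intro x hx
    rw [hC, mem_insert] at hx
    rcases hx with hx | hx
    · subst hx; exact htR
    · exact hC0R hx
  have hCc : C.card ≤ 4 * q + 1 := (card_insert_le _ _).trans (by omega)
  -- the ends
  have hex := exists_end hpar (R := R) (C := C) htC ht
  set A := univ.filter (fun a => a ∈ R \ C ∧ a ≠ r ∧ par a ∈ C) with hA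
  have hAc : A.card ≤ 3 * (4 * q + 1) := by
    have h1 : A ⊆ C.biUnion (fun i => univ.filter (fun j => j ≠ r ∧ par j = i)) := by
      intro a ha
      simp only [hA, mem_filter, mem_univ, true_and] at ha
      rw [mem_biUnion]
      exact ⟨par a, ha.2.2, by simp [ha.2.1]⟩
    calc A.card ≤ _ := card_le_card h1
      _ ≤ ∑ i ∈ C, (univ.filter (fun j => j ≠ r ∧ par j = i)).card := card_biUnion_le
      _ ≤ ∑ _i ∈ C, 3 := sum_le_sum (fun i _ => h3 i)
      _ = C.card * 3 := by rw [sum_const, smul_eq_mul]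
      _ ≤ 3 * (4 * q + 1) := by omega
  set e : I → I := fun i => if h : i ∈ R \ C then (hex i h).choose else i with he
  have he1 : ∀ i ∈ R \ C, Up r par (R \ C) i (e i) ∧ e i ≠ r ∧ par (e i) ∈ C := by
    intro i hi
    have : e i = (hex i hi).choose := by rw [he]; simp only [hi, dif_pos]
    rw [this]
    exact (hex i hi).choose_spec
  have heA : ∀ i ∈ R \ C, e i ∈ A := by
    intro i hi
    have := he1 i hi
    rw [hA, mem_filter]
    exact ⟨mem_univ _, this.1.mem_right, this.2.1, this.2.2⟩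
  have hepar : ∀ i ∈ R \ C, i ≠ r → par i ∈ R \ C → e (par i) = e i := by
    intro i hi hir hpi
    have h1 := he1 i hi
    have h2 := he1 (par i) hpi
    refine end_unique (i := i) ⟨hi, Relation.ReflTransGen.head ⟨hir, hi, hpi, rfl⟩ h2.1.2⟩
      h2.2.2 h1.1 h1.2.2
  have hee : ∀ i ∈ R \ C, e (e i) = e i := by
    intro i hi
    have h1 := he1 i hi
    have hm := h1.1.mem_right
    have h2 := he1 (e i) hm
    exact end_unique h2.1 h2.2.2 (Up.refl hm) h1.2.2
  set cls : I → ℕ := fun i => if h : e i ∈ A then (A.equivFin ⟨e i, h⟩ : ℕ) else 0 with hcls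
  have hcls1 : ∀ i ∈ R \ C, cls i < A.card := by
    intro i hi
    have h := heA i hi
    rw [hcls]
    simp only [h, dif_pos]
    exact (A.equivFin ⟨e i, h⟩).2
  have hclsinj : ∀ i ∈ R \ C, ∀ j ∈ R \ C, cls i = cls j → e i = e j := by
    intro i hi j hj hij
    have h := heA i hi
    have h' := heA j hj
    rw [hcls] at hij
    simp only [h, h', dif_pos] at hij
    have := A.equivFin.injective (Fin.ext hij)
    exact congrArg Subtype.val this
  have hclse : ∀ i j, e i = e j → cls i = cls j := by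
    intro i j hij
    rw [hcls]
    simp only [hij]
  have hcpar : ∀ i ∈ R \ C, i ≠ r → par i ∈ R \ C → cls (par i) = cls i :=
    fun i hi hir hpi => hclse _ _ (hepar i hi hir hpi)
  have hreg : ∀ x, RegOK r par ((R \ C).filter (fun i => cls i = x)) ∧
      (((R \ C).filter (fun i => cls i = x)).Nonempty →
        Sub r par ((R \ C).filter (fun i => cls i = x))) := by
    intro x
    by_cases hne : ((R \ C).filter (fun i => cls i = x)).Nonempty
    · obtain ⟨i0, hi0⟩ := hne
      rw [mem_filter] at hi0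
      obtain ⟨hi0, hx0⟩ := hi0
      have ha := he1 i0 hi0
      set a := e i0 with haa
      have haRC : a ∈ R \ C := ha.1.mem_right
      have hax : cls a = x := by
        rw [← hx0]
        apply hclse
        exact hee i0 hi0
      have hmem : ∀ i, i ∈ (R \ C).filter (fun i => cls i = x) → i ∈ R \ C ∧ e i = a := by
        intro i hi
        rw [mem_filter] at hi
        exact ⟨hi.1, hclsinj i hi.1 i0 hi0 (hi.2.trans hx0.symm)⟩
      have hSub : Sub r par ((R \ C).filter (fun i => cls i = x)) := by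
        refine ⟨a, mem_filter.2 ⟨haRC, hax⟩, ?_⟩
        intro i hi hia
        obtain ⟨h1, h2⟩ := hmem i hi
        have h3 := (he1 i h1).1
        rw [h2] at h3
        obtain ⟨k1, k2, -⟩ := h3.head hia
        refine ⟨k1, mem_filter.2 ⟨k2, ?_⟩⟩
        rw [hcpar i h1 k1 k2]
        exact (mem_filter.1 hi).2
      refine ⟨Or.inr ⟨hSub, ?_⟩, fun _ => hSub⟩
      have hSR : (R \ C).filter (fun i => cls i = x) ⊆ R \ C0 := by
        intro i hi
        have := mem_sdiff.1 (mem_filter.1 hi).1
        rw [mem_sdiff]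
        exact ⟨this.1, fun h => this.2 (mem_insert_of_mem h)⟩
      have hbal := (hC0s _ hSub hSR).2
      have hin : ∀ j, j ∉ (R \ C).filter (fun i => cls i = x) → j ≠ r →
          par j ∈ (R \ C).filter (fun i => cls i = x) → j ∈ C0 ∪ Bd := by
        intro j hj hjr hpj
        have hpj' := mem_filter.1 hpj
        have hpjR := (mem_sdiff.1 hpj'.1).1
        by_cases hjR : j ∈ R
        · by_cases hjC : j ∈ C
          · rw [hC, mem_insert] at hjC
            rcases hjC with hjC | hjC
            · exfalso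
              subst hjC
              have h1 := (Sub.up hpar htR ht (par j) hpjR).dep_le hpar
              have h2 := hpar j hjr
              omega
            · exact mem_union_left _ hjC
          · exfalso
            apply hj
            have hjRC : j ∈ R \ C := mem_sdiff.2 ⟨hjR, hjC⟩
            rw [mem_filter]
            refine ⟨hjRC, ?_⟩
            rw [← hcpar j hjRC hjr hpj'.1]
            exact hpj'.2
        · apply mem_union_right
          rw [hBd, mem_filter]
          exact ⟨mem_univ _, hjR, hjr, hpjR⟩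
      intro j j' hj hj' hjr hj'r hpj hpj'
      exact hbal j (hin j hj hjr hpj) j' (hin j' hj' hj'r hpj') hjr hj'r hpj hpj'
    · rw [not_nonempty_iff_eq_empty] at hne
      exact ⟨Or.inl hne, fun h => absurd hne h.ne_empty⟩
  refine ⟨C, cls, hCR, ⟨t, htC⟩, by omega, ?_, hcpar, fun x => (hreg x).1, ?_⟩
  · intro i hi
    have := hcls1 i hi
    omega
  · intro x
    by_cases hne : ((R \ C).filter (fun i => cls i = x)).Nonempty
    · have hSub := (hreg x).2 hne
      have hSR : (R \ C).filter (fun i => cls i = x) ⊆ R \ C0 := by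
        intro i hi
        have := mem_sdiff.1 (mem_filter.1 hi).1
        rw [mem_sdiff]
        exact ⟨this.1, fun h => this.2 (mem_insert_of_mem h)⟩
      have h1 := (hC0s _ hSub hSR).1
      have h2 := hsumS ((R \ C).filter (fun i => cls i = x)) (fun i hi =>
        (mem_sdiff.1 (mem_filter.1 hi).1).1)
      have h4 : ∑ v ∈ univ.filter (fun v => Z v ⊆ (R \ C).filter (fun i => cls i = x)), w v ≤
          W / (2 * q) := by
        rcases h1 with h1 | h1
        · exact h2.trans (Nat.lt_succ_iff.1 h1)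
        · exact absurd h1 (Nat.succ_ne_zero _)
      calc 2 * q * _ ≤ 2 * q * (W / (2 * q)) := Nat.mul_le_mul_left _ h4
        _ ≤ W := Nat.mul_div_le _ _
    · rw [not_nonempty_iff_eq_empty] at hne
      have : univ.filter (fun v => Z v ⊆ (R \ C).filter (fun i => cls i = x)) = ∅ := by
        rw [filter_eq_empty_iff]
        intro v _ hv
        rw [hne] at hv
        exact absurd (hv (htp v)) (notMem_empty _)
      rw [this, sum_empty]
      omega

end

end Pool.Agent.Lib.MP_1fca17_co.F.Bal21
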