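import Mathlib
import Pool.Agent.Lib.MP_1fca17_co.F.Defs
import Pool.Agent.Lib.MP_1fca17_co.F.Cut21

/-!
# MP_1fca17_co : row CUT in the form of F/Defs
-/

namespace Pool.Agent.Lib.MP_1fca17_co.F

open Finset
open scoped Classical
open Pool.Agent.Lib.MP_1fca17_co.F.Bal21 (cut RegOK)

noncomputable section

private lemma sum_conv {V : Type} [Fintype V] (W : Finset V) (p : V → Prop) (w : V → ℕ) :
    ∑ v ∈ W.filter p, w v = ∑ v ∈ univ.filter (fun v : W => p (v : V)), w (v : V) := by
  rw [sum_filter, sum_filter]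
  exact (sum_coe_sort W (fun v => if p v then w v else 0)).symm

/-- CUT -/
theorem stCut : StCut := by
  intro V I _ _ T W Z R w q hq h3 hR hreg hZ
  have hpar : ∀ i, i ≠ T.r → T.dep i ≠ 0 ∧ T.dep (T.par i) + 1 = T.dep i := by
    intro i hi
    have := T.dep_par i hi
    omega
  have hok : RegOK T.r T.par R := by
    rcases hreg with h | ⟨⟨t, ht, ht'⟩, h⟩
    · left
      exact_mod_cast h
    · right
      refine ⟨⟨t, by exact_mod_cast ht, fun i hi hit => ?_⟩, ?_⟩
      · have := ht' i (by exact_mod_cast hi) hit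
        exact ⟨this.1, by exact_mod_cast this.2⟩
      · intro j j' hj hj' hjr hj'r hp hp'
        rw [card_le_one] at h
        apply h
        · simp only [RTree.low, mem_filter, mem_univ, true_and, mem_coe]
          exact ⟨hjr, hj, hp⟩
        · simp only [RTree.low, mem_filter, mem_univ, true_and, mem_coe]
          exact ⟨hj'r, hj', hp'⟩
  have hZ' : ∀ v : W, Bal21.Sub T.r T.par ((Z v).toFinset) := by
    intro v
    obtain ⟨t, ht, ht'⟩ := hZ v v.2
    refine ⟨t, Set.mem_toFinset.2 ht, fun i hi hit => ?_⟩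
    have := ht' i (Set.mem_toFinset.1 hi) hit
    exact ⟨this.1, Set.mem_toFinset.2 this.2⟩
  obtain ⟨C, f, hCR, hCne, hCc, hf1, hf2, hf3, hf4⟩ := cut hpar h3
    (fun v : W => (Z v).toFinset) hZ' (fun v : W => w v) q hq R hR hok
  set g : I → ℕ := fun i => if i ∈ R \ C then f i else 0 with hg
  have hgf : ∀ i ∈ R \ C, g i = f i := by
    intro i hi
    rw [hg]
    simp only [hi, if_true]
  have hset : ∀ x, cls R C g x = (((R \ C).filter (fun i => f i = x) : Finset I) : Set I) := by
    intro x
    ext i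
    simp only [cls, Set.mem_setOf_eq, mem_coe, mem_filter, mem_sdiff]
    constructor
    · rintro ⟨h1, h2, h3⟩
      exact ⟨⟨h1, h2⟩, by rw [← hgf i (mem_sdiff.2 ⟨h1, h2⟩)]; exact h3⟩
    · rintro ⟨⟨h1, h2⟩, h3⟩
      exact ⟨h1, h2, by rw [hgf i (mem_sdiff.2 ⟨h1, h2⟩)]; exact h3⟩
  refine ⟨C, g, hCR, hCne, hCc, ?_, ?_, ?_, ?_⟩
  · intro i
    by_cases hi : i ∈ R \ C
    · rw [hgf i hi]
      exact hf1 i hi
    · rw [hg]
      simp only [hi, if_false]
      omega
  · intro i hi j hj hiC hjC hij
    have hi' : i ∈ R \ C := mem_sdiff.2 ⟨hi, hiC⟩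
    have hj' : j ∈ R \ C := mem_sdiff.2 ⟨hj, hjC⟩
    rw [hgf i hi', hgf j hj']
    rcases hij with ⟨h1, h2⟩ | ⟨h1, h2⟩
    · subst h2
      exact (hf2 i hi' h1 hj').symm
    · subst h2
      exact hf2 j hj' h1 hi'
  · intro x
    rw [hset]
    rcases hf3 x with h | ⟨⟨t, ht, ht'⟩, h⟩
    · left
      rw [h]
      simp
    · right
      refine ⟨⟨t, by exact_mod_cast ht, fun i hi hit => ?_⟩, ?_⟩
      · have := ht' i (by exact_mod_cast hi) hit
        exact ⟨this.1, by exact_mod_cast this.2⟩
      · rw [card_le_one]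
        intro a ha b hb
        simp only [RTree.low, mem_filter, mem_univ, true_and, mem_coe] at ha hb
        exact h a b (by simpa using ha.2.1) (by simpa using hb.2.1) ha.1 hb.1
          (by simpa using ha.2.2) (by simpa using hb.2.2)
  · intro x
    rw [sum_conv, sum_conv W, hset]
    have h := hf4 x
    have e1 : ∀ S : Finset I, univ.filter (fun v : W => Z (v : V) ⊆ (S : Set I)) =
        univ.filter (fun v : W => (Z (v : V)).toFinset ⊆ S) := by
      intro S
      ext v
      simp only [mem_filter, mem_univ, true_and]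
      constructor
      · intro h i hi
        have := h (Set.mem_toFinset.1 hi)
        exact_mod_cast this
      · intro h i hi
        exact_mod_cast h (Set.mem_toFinset.2 hi)
    rw [e1, e1]
    exact h

end

end Pool.Agent.Lib.MP_1fca17_co.F
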