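import Mathlib

/-!
# MP_1fca17_co, full answer: row CUT (helper56)

One step of the separator recursion in a rooted tree (section C of `QP_full58.md`).
-/

namespace Pool.Agent.Lib.MP_1fca17_co.FCut56

open Finset
open scoped Classical

noncomputable section

/-- `S` is connected: it has a top `t`, all its other elements have their parent in `S` -/
def Sub {I : Type} (r : I) (par : I → I) (S : Finset I) : Prop :=
  ∃ t ∈ S, ∀ i ∈ S, i ≠ t → i ≠ r ∧ par i ∈ S

/-- the nodes outside `S` whose parent is in `S` -/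
def bdy {I : Type} [Fintype I] (r : I) (par : I → I) (S : Finset I) : Finset I :=
  univ.filter (fun j => j ∉ S ∧ j ≠ r ∧ par j ∈ S)

/-- regions: connected, at most one outside node has its parent in the set -/
def RegOK {I : Type} [Fintype I] (r : I) (par : I → I) (S : Finset I) : Prop :=
  S = ∅ ∨ (Sub r par S ∧ (bdy r par S).card ≤ 1)

/-- BAL -/
def StBal : Prop := ∀ (I : Type) [Fintype I] (r : I) (par : I → I) (dep : I → ℕ),
  (∀ i, i ≠ r → dep i ≠ 0 ∧ dep (par i) + 1 = dep i) →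
  ∀ (R : Finset I) (om : I → ℕ) (T : ℕ), 1 ≤ T → Sub r par R →
  ∃ C ⊆ R, C.card * T ≤ 2 * (∑ i ∈ R, om i) + (bdy r par R).card * T ∧
    ∀ S ⊆ R \ C, Sub r par S → ∑ i ∈ S, om i < T ∧
      ((C ∪ bdy r par R).filter (fun j => j ≠ r ∧ par j ∈ S)).card ≤ 1

/-- CUT -/
def StCut : Prop := ∀ (I V : Type) [Fintype I] [Fintype V] (r : I) (par : I → I) (dep : I → ℕ),
  (∀ i, i ≠ r → dep i ≠ 0 ∧ dep (par i) + 1 = dep i) →
  (∀ j, (univ.filter (fun i => i ≠ r ∧ par i = j)).card ≤ 3) →
  ∀ (W : Finset V) (Z : V → Finset I), (∀ v ∈ W, Sub r par (Z v)) →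
  ∀ (q : ℕ) (R : Finset I) (w : V → ℕ), 1 ≤ q → R.Nonempty → RegOK r par R →
  ∃ (C : Finset I) (cls : I → ℕ), C ⊆ R ∧ C.Nonempty ∧ C.card ≤ 4 * q + 2 ∧
    (∀ i ∈ R \ C, cls i < 3 * (4 * q + 2)) ∧
    (∀ i ∈ R \ C, i ≠ r → par i ∈ R \ C → cls i = cls (par i)) ∧
    (∀ i ∈ R \ C, i ≠ r ∧ par i ∈ R) ∧
    (∀ x, RegOK r par ((R \ C).filter (fun i => cls i = x))) ∧
    ∀ x, 2 * q * ∑ v ∈ W.filter (fun v => Z v ⊆ (R \ C).filter (fun i => cls i = x)), w v ≤
      ∑ v ∈ W.filter (fun v => Z v ⊆ R), w v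

/-- climbing: every node of a set without the parents of class roots reaches a class root -/
theorem exists_climb {I : Type} [Fintype I] (r : I) (par : I → I) (dep : I → ℕ)
    (hdep : ∀ i, i ≠ r → dep i ≠ 0 ∧ dep (par i) + 1 = dep i)
    (Q C : Finset I) (hQ : ∀ i ∈ Q, i ≠ r ∧ (par i ∈ Q ∨ par i ∈ C)) (hd : Disjoint Q C) :
    ∃ f : I → I, (∀ i ∈ Q, f i ∈ Q ∧ par (f i) ∈ C) ∧ (∀ i ∈ Q, par i ∈ C → f i = i) ∧
      ∀ i ∈ Q, par i ∈ Q → f i = f (par i) := by
  have key : ∀ n : ℕ, ∃ f : I → I, (∀ i ∈ Q, dep i ≤ n → f i ∈ Q ∧ par (f i) ∈ C) ∧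
      (∀ i ∈ Q, dep i ≤ n → par i ∈ C → f i = i) ∧
      ∀ i ∈ Q, dep i ≤ n → par i ∈ Q → f i = f (par i) := by
    intro n
    induction n with
    | zero =>
      refine ⟨id, ?_, ?_, ?_⟩
      · intro i hi h0
        exact absurd (Nat.le_zero.1 h0) (hdep i (hQ i hi).1).1
      · intro i hi h0
        exact absurd (Nat.le_zero.1 h0) (hdep i (hQ i hi).1).1
      · intro i hi h0
        exact absurd (Nat.le_zero.1 h0) (hdep i (hQ i hi).1).1
    | succ n ih =>
      obtain ⟨f, h1, h2, h3⟩ := ih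
      refine ⟨fun i => if dep i ≤ n then f i else if par i ∈ C then i else f (par i), ?_, ?_, ?_⟩
      · intro i hi hn
        by_cases hle : dep i ≤ n
        · simp only [hle, if_true]
          exact h1 i hi hle
        · by_cases hC : par i ∈ C
          · simp only [hle, if_false, hC, if_true]
            exact ⟨hi, trivial⟩
          · simp only [hle, if_false, hC]
            have hpQ : par i ∈ Q := ((hQ i hi).2).resolve_right hC
            have hd := (hdep i (hQ i hi).1).2
            exact h1 _ hpQ (by omega)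
      · intro i hi hn hC
        by_cases hle : dep i ≤ n
        · simp only [hle, if_true]
          exact h2 i hi hle hC
        · simp only [hle, if_false, hC, if_true]
      · intro i hi hn hpQ
        have hd' := (hdep i (hQ i hi).1).2
        have hpn : dep (par i) ≤ n := by omega
        by_cases hle : dep i ≤ n
        · simp only [hle, if_true, hpn]
          exact h3 i hi hle hpQ
        · have hC : par i ∉ C := fun h => (Finset.disjoint_left.1 hd hpQ) h
          simp only [hle, if_false, hC, hpn, if_true]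
  obtain ⟨N, hN⟩ : ∃ N, ∀ i, dep i ≤ N := ⟨univ.sup dep, fun i => Finset.le_sup (mem_univ i)⟩
  obtain ⟨f, h1, h2, h3⟩ := key N
  exact ⟨f, fun i hi => h1 i hi (hN i), fun i hi => h2 i hi (hN i), fun i hi => h3 i hi (hN i)⟩

/-- the top has the smallest depth -/
theorem top_dep {I : Type} [Fintype I] (r : I) (par : I → I) (dep : I → ℕ)
    (hdep : ∀ i, i ≠ r → dep i ≠ 0 ∧ dep (par i) + 1 = dep i) (S : Finset I) (t : I)
    (ht : ∀ i ∈ S, i ≠ t → i ≠ r ∧ par i ∈ S) : ∀ i ∈ S, dep t ≤ dep i := by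
  have key : ∀ n : ℕ, ∀ i ∈ S, dep i ≤ n → dep t ≤ dep i := by
    intro n
    induction n with
    | zero =>
      intro i hi h0
      by_cases h : i = t
      · rw [h]
      · exact absurd (Nat.le_zero.1 h0) (hdep i (ht i hi h).1).1
    | succ n ih =>
      intro i hi hn
      by_cases h : i = t
      · rw [h]
      · have h1 := ht i hi h
        have h2 := hdep i h1.1
        have := ih (par i) h1.2 (by omega)
        omega
  exact fun i hi => key (dep i) i hi le_rfl

theorem stCut (hbal : StBal) : StCut := by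
  intro I V _ _ r par dep hdep hch W Z hZ q R w hq hRne hR
  -- the top of `R`
  rcases hR with hR | ⟨hSub, hbd⟩
  · exact absurd hR hRne.ne_empty
  obtain ⟨t, htR, ht⟩ := hSub
  have htop := top_dep r par dep hdep R t ht
  -- tops of the sets `Z v`
  have htops : ∀ v, ∃ s, v ∈ W → s ∈ Z v ∧ ∀ i ∈ Z v, i ≠ s → i ≠ r ∧ par i ∈ Z v := by
    intro v
    by_cases hv : v ∈ W
    · obtain ⟨s, hs, hs2⟩ := hZ v hv
      exact ⟨s, fun _ => ⟨hs, hs2⟩⟩
    · exact ⟨r, fun h => absurd h hv⟩
  choose tp htp using htops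
  set Om : ℕ := ∑ v ∈ W.filter (fun v => Z v ⊆ R), w v with hOm
  set om : I → ℕ := fun i => ∑ v ∈ W.filter (fun v => Z v ⊆ R ∧ tp v = i), w v with hom
  -- sum of the node weights over a set of nodes
  have hsum : ∀ S : Finset I, ∑ i ∈ S, om i =
      ∑ v ∈ W.filter (fun v => Z v ⊆ R ∧ tp v ∈ S), w v := by
    intro S
    rw [hom]
    simp only
    rw [← Finset.sum_fiberwise_of_maps_to (s := W.filter (fun v => Z v ⊆ R ∧ tp v ∈ S)) (t := S)
      (g := tp) (fun v hv => (Finset.mem_filter.1 hv).2.2)]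
    refine Finset.sum_congr rfl fun i hi => Finset.sum_congr ?_ fun _ _ => rfl
    ext v
    simp only [Finset.mem_filter]
    constructor
    · rintro ⟨h1, h2, h3⟩
      exact ⟨⟨h1, h2, h3 ▸ hi⟩, h3⟩
    · rintro ⟨⟨h1, h2, _⟩, h3⟩
      exact ⟨h1, h2, h3⟩
  have hsumR : ∑ i ∈ R, om i = Om := by
    rw [hsum, hOm]
    refine Finset.sum_congr ?_ fun _ _ => rfl
    ext v
    simp only [Finset.mem_filter]
    constructor
    · rintro ⟨h1, h2, _⟩
      exact ⟨h1, h2⟩
    · rintro ⟨h1, h2⟩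
      exact ⟨h1, h2, h2 (htp v h1).1⟩
  obtain ⟨C0, hC0R, hC0card, hC0⟩ := hbal I r par dep hdep R om (Om / (2 * q) + 1)
    (Nat.le_add_left 1 _) ⟨t, htR, ht⟩
  rw [hsumR] at hC0card
  set T : ℕ := Om / (2 * q) + 1 with hT
  have hOmT : Om < 2 * q * T := by
    have := Nat.lt_mul_div_succ Om (show 0 < 2 * q by omega)
    rw [hT]
    exact this
  have hC0le : C0.card ≤ 4 * q := by
    by_contra hcon
    have h1 : 4 * q + 1 ≤ C0.card := by omega
    have h2 : (4 * q + 1) * T ≤ C0.card * T := Nat.mul_le_mul_right _ h1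
    have h3 : (bdy r par R).card * T ≤ 1 * T := Nat.mul_le_mul_right _ hbd
    nlinarith
  set C : Finset I := insert t C0 with hC
  have hCR : C ⊆ R := by
    rw [hC]
    intro i hi
    rcases Finset.mem_insert.1 hi with h | h
    · rw [h]; exact htR
    · exact hC0R h
  have hCcard : C.card ≤ 4 * q + 2 := by
    have := Finset.card_insert_le t C0
    rw [← hC] at this
    omega
  have htC : t ∈ C := Finset.mem_insert_self _ _
  -- the nodes of `R \ C`
  have hpar : ∀ i ∈ R \ C, i ≠ r ∧ par i ∈ R := by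
    intro i hi
    obtain ⟨h1, h2⟩ := Finset.mem_sdiff.1 hi
    exact ht i h1 (fun h => h2 (h ▸ htC))
  obtain ⟨f, hf1, hf2, hf3⟩ := exists_climb r par dep hdep (R \ C) C (fun i hi => by
      refine ⟨(hpar i hi).1, ?_⟩
      by_cases h : par i ∈ C
      · exact Or.inr h
      · exact Or.inl (Finset.mem_sdiff.2 ⟨(hpar i hi).2, h⟩)) Finset.sdiff_disjoint
  -- the class roots
  set Rt : Finset I := univ.filter (fun i => i ≠ r ∧ par i ∈ C) with hRt
  have hRtcard : Rt.card ≤ 3 * (4 * q + 2) := by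
    have h1 : Rt ⊆ C.biUnion (fun j => univ.filter (fun i => i ≠ r ∧ par i = j)) := by
      intro i hi
      rw [hRt, Finset.mem_filter] at hi
      exact Finset.mem_biUnion.2 ⟨par i, hi.2.2, Finset.mem_filter.2 ⟨mem_univ _, hi.2.1, rfl⟩⟩
    have h2 := Finset.card_le_card h1
    have h3 : (C.biUnion (fun j => univ.filter (fun i => i ≠ r ∧ par i = j))).card ≤
        C.card * 3 := Finset.card_biUnion_le_card_mul _ _ _ (fun j _ => hch j)
    have : C.card * 3 ≤ (4 * q + 2) * 3 := Nat.mul_le_mul_right _ hCcard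
    omega
  have hinj : ∃ g : I → ℕ, (∀ i ∈ Rt, g i < 3 * (4 * q + 2)) ∧ Set.InjOn g Rt := by
    refine ⟨fun i => if h : i ∈ Rt then (Rt.equivFin ⟨i, h⟩ : ℕ) else 0, ?_, ?_⟩
    · intro i hi
      simp only [hi, dif_pos]
      exact lt_of_lt_of_le (Rt.equivFin ⟨i, hi⟩).2 hRtcard
    · intro i hi j hj hij
      have hi' : i ∈ Rt := hi
      have hj' : j ∈ Rt := hj
      simp only [hi', hj', dif_pos] at hij
      have := Rt.equivFin.injective (Fin.ext hij)
      exact congrArg Subtype.val this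
  obtain ⟨g, hg1, hg2⟩ := hinj
  have hfRt : ∀ i ∈ R \ C, f i ∈ Rt := fun i hi => by
    rw [hRt, Finset.mem_filter]
    exact ⟨mem_univ _, (hpar _ (hf1 i hi).1).1, (hf1 i hi).2⟩
  -- a class with its root
  have hclass : ∀ x, ((R \ C).filter (fun i => g (f i) = x)).Nonempty →
      Sub r par ((R \ C).filter (fun i => g (f i) = x)) := by
    intro x hne
    obtain ⟨i0, hi0⟩ := hne
    obtain ⟨hi0R, hi0x⟩ := Finset.mem_filter.1 hi0
    have hfi0 := hf1 i0 hi0R
    refine ⟨f i0, Finset.mem_filter.2 ⟨hfi0.1, ?_⟩, ?_⟩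
    · rw [hf2 _ hfi0.1 hfi0.2]
      exact hi0x
    · intro i hi hne
      obtain ⟨hiR, hix⟩ := Finset.mem_filter.1 hi
      have heq : f i = f i0 := hg2 (hfRt i hiR) (hfRt i0 hi0R) (by rw [hix, hi0x])
      refine ⟨(hpar i hiR).1, ?_⟩
      have hnC : par i ∉ C := by
        intro h
        apply hne
        rw [← hf2 i hiR h, heq]
      have hpR : par i ∈ R \ C := Finset.mem_sdiff.2 ⟨(hpar i hiR).2, hnC⟩
      refine Finset.mem_filter.2 ⟨hpR, ?_⟩
      rw [← hf3 i hiR hpR]
      exact hix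
  have hsubC0 : ∀ x, (R \ C).filter (fun i => g (f i) = x) ⊆ R \ C0 := by
    intro x i hi
    obtain ⟨hiR, _⟩ := Finset.mem_filter.1 hi
    obtain ⟨h1, h2⟩ := Finset.mem_sdiff.1 hiR
    exact Finset.mem_sdiff.2 ⟨h1, fun h => h2 (Finset.mem_insert_of_mem h)⟩
  refine ⟨C, fun i => g (f i), hCR, ⟨t, htC⟩, hCcard, ?_, ?_, hpar, ?_, ?_⟩
  · intro i hi
    exact hg1 _ (hfRt i hi)
  · intro i hi _ hp
    show g (f i) = g (f (par i))
    rw [← hf3 i hi hp]
  · intro x
    by_cases hne : ((R \ C).filter (fun i => g (f i) = x)).Nonempty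
    · right
      have hS := hclass x hne
      refine ⟨hS, le_trans (Finset.card_le_card ?_) (hC0 _ (hsubC0 x) hS).2⟩
      intro j hj
      rw [bdy, Finset.mem_filter] at hj
      obtain ⟨_, hj1, hj2, hj3⟩ := hj
      refine Finset.mem_filter.2 ⟨?_, hj2, hj3⟩
      obtain ⟨hpR, hpx⟩ := Finset.mem_filter.1 hj3
      by_cases hjR : j ∈ R
      · by_cases hjC : j ∈ C
        · rcases Finset.mem_insert.1 hjC with h | h
          · exfalso
            have h1 := htop (par j) (Finset.mem_sdiff.1 hpR).1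
            have h2 := (hdep j hj2).2
            rw [h] at h1 h2
            omega
          · exact Finset.mem_union_left _ h
        · exfalso
          apply hj1
          have hjRC : j ∈ R \ C := Finset.mem_sdiff.2 ⟨hjR, hjC⟩
          refine Finset.mem_filter.2 ⟨hjRC, ?_⟩
          show g (f j) = x
          rw [hf3 j hjRC hpR]
          exact hpx
      · refine Finset.mem_union_right _ ?_
        rw [bdy, Finset.mem_filter]
        exact ⟨mem_univ _, hjR, hj2, (Finset.mem_sdiff.1 hpR).1⟩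
    · left
      exact Finset.not_nonempty_iff_eq_empty.1 hne
  · intro x
    by_cases hne : ((R \ C).filter (fun i => g (f i) = x)).Nonempty
    · have hS := hclass x hne
      have h1 := (hC0 _ (hsubC0 x) hS).1
      have h2 : ∑ v ∈ W.filter (fun v => Z v ⊆ (R \ C).filter (fun i => g (f i) = x)), w v ≤
          ∑ i ∈ (R \ C).filter (fun i => g (f i) = x), om i := by
        rw [hsum]
        refine Finset.sum_le_sum_of_subset ?_
        intro v hv
        obtain ⟨hvW, hvZ⟩ := Finset.mem_filter.1 hv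
        refine Finset.mem_filter.2 ⟨hvW, ?_, hvZ (htp v hvW).1⟩
        exact hvZ.trans ((Finset.filter_subset _ _).trans Finset.sdiff_subset)
      have h3 : ∑ v ∈ W.filter (fun v => Z v ⊆ (R \ C).filter (fun i => g (f i) = x)), w v ≤
          Om / (2 * q) := by omega
      calc 2 * q * _ ≤ 2 * q * (Om / (2 * q)) := Nat.mul_le_mul_left _ h3
        _ ≤ Om := Nat.mul_div_le _ _
    · have hemp := Finset.not_nonempty_iff_eq_empty.1 hne
      have : W.filter (fun v => Z v ⊆ (R \ C).filter (fun i => g (f i) = x)) = ∅ := by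
        rw [Finset.filter_eq_empty_iff]
        intro v hv hsub
        rw [hemp] at hsub
        exact absurd (hsub (htp v hv).1) (Finset.notMem_empty _)
      rw [this]
      simp

end

end Pool.Agent.Lib.MP_1fca17_co.FCut56
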