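import Mathlib

/-!
# MP_1fca17_co (full) : row DEG, degeneracy of a (c,K)-structure

Section B of the page `QP_full58.md`.
-/

namespace Pool.Agent.Lib.MP_1fca17_co.F.Deg70

open Finset
open scoped Classical

/-- `S` is a connected set of nodes of the rooted tree: it has a top. -/
def Sub {I : Type} (r : I) (par : I → I) (S : Finset I) : Prop :=
  ∃ t ∈ S, ∀ i ∈ S, i ≠ t → i ≠ r ∧ par i ∈ S

/-- one step towards the root -/
def Step {I : Type} (r : I) (par : I → I) (i j : I) : Prop := i ≠ r ∧ j = par i

/-- `b` is `i` or an ancestor of `i` -/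
def Up {I : Type} (r : I) (par : I → I) (i b : I) : Prop := Relation.ReflTransGen (Step r par) i b

variable {I : Type} [Fintype I] {r : I} {par : I → I} {dep : I → ℕ}

theorem up_root (hpar : ∀ i, i ≠ r → dep i ≠ 0 ∧ dep (par i) + 1 = dep i) (i : I) :
    Up r par i r := by
  have key : ∀ n : ℕ, ∀ i : I, dep i = n → Up r par i r := by
    intro n
    induction n with
    | zero =>
      intro i hi
      by_cases h : i = r
      · rw [h]; exact Relation.ReflTransGen.refl
      · exact absurd hi (hpar i h).1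
    | succ n ih =>
      intro i hi
      by_cases h : i = r
      · rw [h]; exact Relation.ReflTransGen.refl
      · have h2 := (hpar i h).2
        exact Relation.ReflTransGen.head ⟨h, rfl⟩ (ih (par i) (by omega))
  exact key (dep i) i rfl

theorem up_top (hpar : ∀ i, i ≠ r → dep i ≠ 0 ∧ dep (par i) + 1 = dep i) {S : Finset I} {t : I}
    (ht : t ∈ S) (h : ∀ i ∈ S, i ≠ t → i ≠ r ∧ par i ∈ S) {i : I} (hi : i ∈ S) :
    Up r par i t := by
  have key : ∀ n : ℕ, ∀ i : I, i ∈ S → dep i = n → Up r par i t := by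
    intro n
    induction n with
    | zero =>
      intro i hi hd
      by_cases h1 : i = t
      · rw [h1]; exact Relation.ReflTransGen.refl
      · exact absurd hd (hpar i (h i hi h1).1).1
    | succ n ih =>
      intro i hi hd
      by_cases h1 : i = t
      · rw [h1]; exact Relation.ReflTransGen.refl
      · obtain ⟨h2, h3⟩ := h i hi h1
        have h4 := (hpar i h2).2
        exact Relation.ReflTransGen.head ⟨h2, rfl⟩ (ih (par i) h3 (by omega))
  exact key (dep i) i hi rfl

/-- a connected set with a node below `b` and a node not below `b` contains `b` -/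
theorem cross (hpar : ∀ i, i ≠ r → dep i ≠ 0 ∧ dep (par i) + 1 = dep i) {S : Finset I}
    (hS : Sub r par S) {x y b : I} (hx : x ∈ S) (hxb : Up r par x b) (hy : y ∈ S)
    (hyb : ¬ Up r par y b) : b ∈ S := by
  obtain ⟨t, ht, h⟩ := hS
  have ht2 : Up r par y t := up_top hpar ht h hy
  revert hx
  refine Relation.ReflTransGen.head_induction_on hxb ?_ ?_
  · exact fun h => h
  · intro a c hac hcb ih ha
    by_cases h1 : a = t
    · exfalso
      apply hyb
      refine Relation.ReflTransGen.trans ht2 ?_
      rw [← h1]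
      exact Relation.ReflTransGen.head hac hcb
    · have h2 := h a ha h1
      rw [hac.2] at ih
      exact ih h2.2

theorem up_cases {i b : I} (h : Up r par i b) : i = b ∨ ∃ b', b' ≠ r ∧ par b' = b ∧ Up r par i b' := by
  rcases Relation.ReflTransGen.cases_tail h with h | ⟨b', h1, h2⟩
  · exact Or.inl h.symm
  · exact Or.inr ⟨b', h2.1, h2.2.symm, h1⟩

/-- DEG -/
theorem deg {V : Type} (G : SimpleGraph V) (W : Finset V) (Z : V → Finset I)
    (S : V → V → Finset I) (c K s : ℕ)
    (hpar : ∀ i, i ≠ r → dep i ≠ 0 ∧ dep (par i) + 1 = dep i)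
    (hch : ∀ i, (univ.filter (fun j => j ≠ r ∧ par j = i)).card ≤ 3)
    (hZ : ∀ v ∈ W, Sub r par (Z v))
    (hS : ∀ u ∈ W, ∀ v ∈ W, G.Adj u v → Sub r par (S u v) ∧ (∃ i ∈ S u v, i ∈ Z u) ∧
      ∃ i ∈ S u v, i ∈ Z v)
    (hc : ∀ i, (W.filter (fun v => i ∈ Z v)).card ≤ c)
    (hK : ∀ i, ((W ×ˢ W).filter (fun e => G.Adj e.1 e.2 ∧ i ∈ S e.1 e.2)).card ≤ K)
    (hs : 3 * K ≤ s ^ 2) (U : Finset V) (hUW : U ⊆ W) (hU : U.Nonempty) :
    ∃ v ∈ U, (U.filter (fun u => G.Adj v u)).card ≤ 2 * c + 2 * s + 2 := by
  by_contra hcon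
  push Not at hcon
  have htop : ∀ v, ∃ t, v ∈ W → t ∈ Z v ∧ ∀ i ∈ Z v, i ≠ t → i ≠ r ∧ par i ∈ Z v := by
    intro v
    by_cases hv : v ∈ W
    · obtain ⟨t, h1, h2⟩ := hZ v hv
      exact ⟨t, fun _ => ⟨h1, h2⟩⟩
    · exact ⟨r, fun h => absurd h hv⟩
  choose t ht using htop
  -- the vertices with the top below `b`
  set B : I → Finset V := fun b => U.filter (fun v => Up r par (t v) b) with hB
  have hBr : B r = U := by
    rw [hB]
    simp only
    rw [Finset.filter_true_of_mem]
    intro v _
    exact up_root hpar _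
  have hUc : c + s + 1 ≤ U.card := by
    obtain ⟨v, hv⟩ := hU
    have h1 := hcon v hv
    have h2 : (U.filter (fun u => G.Adj v u)).card ≤ U.card := Finset.card_filter_le _ _
    omega
  have hex : (univ.filter (fun b => c + s + 1 ≤ (B b).card)).Nonempty :=
    ⟨r, by rw [Finset.mem_filter, hBr]; exact ⟨Finset.mem_univ _, hUc⟩⟩
  obtain ⟨b, hb, hbmax⟩ := Finset.exists_max_image _ dep hex
  rw [Finset.mem_filter] at hb
  have hb2 := hb.2
  -- the children
  have hchild : ∀ b', b' ≠ r → par b' = b → (B b').card * (s + 1) ≤ K := by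
    intro b' hb' hpb
    have hlt : (B b').card ≤ c + s := by
      by_contra h
      push Not at h
      have h1 := hbmax b' (by rw [Finset.mem_filter]; exact ⟨Finset.mem_univ _, by omega⟩)
      have h2 := (hpar b' hb').2
      rw [hpb] at h2
      omega
    -- all pairs
    have hpairs : ∀ v ∈ B b', s + 1 ≤ (W.filter (fun u => G.Adj v u ∧ b' ∈ S v u)).card := by
      intro v hv
      have hvU : v ∈ U := (Finset.mem_filter.mp hv).1
      have hvb : Up r par (t v) b' := (Finset.mem_filter.mp hv).2
      have hvW := hUW hvU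
      have h1 := hcon v hvU
      have h2 : (U.filter (fun u => G.Adj v u)) ⊆
          B b' ∪ (W.filter (fun u => b' ∈ Z u)) ∪ (W.filter (fun u => G.Adj v u ∧ b' ∈ S v u)) := by
        intro u hu
        rw [Finset.mem_filter] at hu
        obtain ⟨huU, huv⟩ := hu
        have huW := hUW huU
        by_cases h3 : Up r par (t u) b'
        · exact Finset.mem_union_left _ (Finset.mem_union_left _ (Finset.mem_filter.mpr ⟨huU, h3⟩))
        by_cases h4 : b' ∈ Z u
        · exact Finset.mem_union_left _ (Finset.mem_union_right _ (Finset.mem_filter.mpr ⟨huW, h4⟩))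
        · refine Finset.mem_union_right _ (Finset.mem_filter.mpr ⟨huW, huv, ?_⟩)
          obtain ⟨hSs, ⟨x, hx1, hx2⟩, ⟨y, hy1, hy2⟩⟩ := hS v hvW u huW huv
          have hxb : Up r par x b' :=
            Relation.ReflTransGen.trans (up_top hpar (ht v hvW).1 (ht v hvW).2 hx2) hvb
          have hyb : ¬ Up r par y b' := by
            intro h5
            exact h4 (cross hpar (hZ u huW) hy2 h5 (ht u huW).1 h3)
          exact cross hpar hSs hx1 hxb hy1 hyb
      have h3 := Finset.card_le_card h2
      have h4 := Finset.card_union_le (B b' ∪ (W.filter (fun u => b' ∈ Z u)))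
        (W.filter (fun u => G.Adj v u ∧ b' ∈ S v u))
      have h5 := Finset.card_union_le (B b') (W.filter (fun u => b' ∈ Z u))
      have h6 := hc b'
      omega
    have hsum : ∑ v ∈ B b', (W.filter (fun u => G.Adj v u ∧ b' ∈ S v u)).card ≤
        ((W ×ˢ W).filter (fun e => G.Adj e.1 e.2 ∧ b' ∈ S e.1 e.2)).card := by
      rw [← Finset.card_sigma]
      refine Finset.card_le_card_of_injOn (fun e => (e.1, e.2)) ?_ ?_
      · intro e he
        have he' := Finset.mem_coe.mp he
        rw [Finset.mem_sigma] at he'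
        obtain ⟨h1, h2⟩ := he'
        rw [Finset.mem_filter] at h2
        have h3 : e.1 ∈ W := hUW (Finset.mem_filter.mp h1).1
        apply Finset.mem_coe.mpr
        rw [Finset.mem_filter]
        exact ⟨Finset.mem_product.mpr ⟨h3, h2.1⟩, h2.2⟩
      · intro e _ f _ hef
        simp only [Prod.mk.injEq] at hef
        exact Sigma.ext hef.1 (heq_of_eq hef.2)
    have hlow : (B b').card * (s + 1) ≤
        ∑ v ∈ B b', (W.filter (fun u => G.Adj v u ∧ b' ∈ S v u)).card := by
      have := Finset.card_nsmul_le_sum (B b')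
        (fun v => (W.filter (fun u => G.Adj v u ∧ b' ∈ S v u)).card) (s + 1) hpairs
      simpa using this
    exact le_trans hlow (le_trans hsum (hK b'))
  -- the whole of `B b`
  have hcov : B b ⊆ (W.filter (fun v => b ∈ Z v)) ∪
      (univ.filter (fun j => j ≠ r ∧ par j = b)).biUnion B := by
    intro v hv
    have hvU : v ∈ U := (Finset.mem_filter.mp hv).1
    have hvW := hUW hvU
    rcases up_cases (Finset.mem_filter.mp hv).2 with h | ⟨b', h1, h2, h3⟩
    · refine Finset.mem_union_left _ (Finset.mem_filter.mpr ⟨hvW, ?_⟩)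
      rw [← h]
      exact (ht v hvW).1
    · refine Finset.mem_union_right _ (Finset.mem_biUnion.mpr ⟨b', ?_, ?_⟩)
      · exact Finset.mem_filter.mpr ⟨Finset.mem_univ _, h1, h2⟩
      · exact Finset.mem_filter.mpr ⟨hvU, h3⟩
  have h1 := Finset.card_le_card hcov
  have h2 := Finset.card_union_le (W.filter (fun v => b ∈ Z v))
    ((univ.filter (fun j => j ≠ r ∧ par j = b)).biUnion B)
  have h3 : ((univ.filter (fun j => j ≠ r ∧ par j = b)).biUnion B).card ≤
      ∑ j ∈ univ.filter (fun j => j ≠ r ∧ par j = b), (B j).card := Finset.card_biUnion_le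
  have h4 : (∑ j ∈ univ.filter (fun j => j ≠ r ∧ par j = b), (B j).card) * (s + 1) ≤ 3 * K := by
    rw [Finset.sum_mul]
    have h5 : ∑ j ∈ univ.filter (fun j => j ≠ r ∧ par j = b), (B j).card * (s + 1) ≤
        (univ.filter (fun j => j ≠ r ∧ par j = b)).card • K := by
      apply Finset.sum_le_card_nsmul
      intro j hj
      rw [Finset.mem_filter] at hj
      exact hchild j hj.2.1 hj.2.2
    refine le_trans h5 ?_
    rw [smul_eq_mul]
    exact Nat.mul_le_mul_right K (hch b)
  have h6 := hc b
  have h7 : s + 1 ≤ ∑ j ∈ univ.filter (fun j => j ≠ r ∧ par j = b), (B j).card := by omega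
  have h8 : (s + 1) * (s + 1) ≤ 3 * K := le_trans (Nat.mul_le_mul_right _ h7) h4
  nlinarith

/-- COR for one set: the number of ordered adjacent pairs -/
theorem pairs_le {V : Type} (G : SimpleGraph V) (d : ℕ) (W : Finset V)
    (hdeg : ∀ U ⊆ W, U.Nonempty → ∃ v ∈ U, (U.filter (fun u => G.Adj v u)).card ≤ d) :
    ∀ U ⊆ W, ((U ×ˢ U).filter (fun e => G.Adj e.1 e.2)).card ≤ 2 * d * U.card := by
  intro U
  induction hn : U.card generalizing U with
  | zero =>
    intro _
    rw [Finset.card_eq_zero] at hn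
    subst hn
    simp
  | succ n ih =>
    intro hUW
    have hne : U.Nonempty := by
      rw [← Finset.card_pos]
      omega
    obtain ⟨v, hv, hvd⟩ := hdeg U hUW hne
    have h1 := ih (U.erase v) (by rw [Finset.card_erase_of_mem hv]; omega)
      (fun x hx => hUW (Finset.mem_of_mem_erase hx))
    have h2 : (U ×ˢ U).filter (fun e => G.Adj e.1 e.2) ⊆
        (((U.erase v) ×ˢ (U.erase v)).filter (fun e => G.Adj e.1 e.2)) ∪
        ((U.filter (fun u => G.Adj v u)).image (fun u => (v, u))) ∪
        ((U.filter (fun u => G.Adj v u)).image (fun u => (u, v))) := by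
      intro e he
      rw [Finset.mem_filter, Finset.mem_product] at he
      obtain ⟨⟨he1, he2⟩, hadj⟩ := he
      by_cases h3 : e.1 = v
      · refine Finset.mem_union_left _ (Finset.mem_union_right _ (Finset.mem_image.mpr
          ⟨e.2, Finset.mem_filter.mpr ⟨he2, ?_⟩, ?_⟩))
        · rw [← h3]; exact hadj
        · rw [← h3]
      by_cases h4 : e.2 = v
      · refine Finset.mem_union_right _ (Finset.mem_image.mpr
          ⟨e.1, Finset.mem_filter.mpr ⟨he1, ?_⟩, ?_⟩)
        · rw [← h4]; exact hadj.symm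
        · rw [← h4]
      · refine Finset.mem_union_left _ (Finset.mem_union_left _ (Finset.mem_filter.mpr
          ⟨Finset.mem_product.mpr ⟨Finset.mem_erase.mpr ⟨h3, he1⟩,
            Finset.mem_erase.mpr ⟨h4, he2⟩⟩, hadj⟩))
    have h3 := Finset.card_le_card h2
    have h4 := Finset.card_union_le ((((U.erase v) ×ˢ (U.erase v)).filter (fun e => G.Adj e.1 e.2)) ∪
        ((U.filter (fun u => G.Adj v u)).image (fun u => (v, u))))
        ((U.filter (fun u => G.Adj v u)).image (fun u => (u, v)))
    have h5 := Finset.card_union_le (((U.erase v) ×ˢ (U.erase v)).filter (fun e => G.Adj e.1 e.2))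
        ((U.filter (fun u => G.Adj v u)).image (fun u => (v, u)))
    have h6 : ((U.filter (fun u => G.Adj v u)).image (fun u => (v, u))).card ≤ d :=
      le_trans Finset.card_image_le hvd
    have h7 : ((U.filter (fun u => G.Adj v u)).image (fun u => (u, v))).card ≤ d :=
      le_trans Finset.card_image_le hvd
    have h8 : 2 * d * (n + 1) = 2 * d * n + (d + d) := by ring
    rw [h8]
    omega

/-- COR: the number of ordered adjacent pairs in `X × Y` -/
theorem pairs_prod_le {V : Type} (G : SimpleGraph V) (d : ℕ) (W : Finset V)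
    (hdeg : ∀ U ⊆ W, U.Nonempty → ∃ v ∈ U, (U.filter (fun u => G.Adj v u)).card ≤ d)
    (X Y : Finset V) (hX : X ⊆ W) (hY : Y ⊆ W) :
    ((X ×ˢ Y).filter (fun e => G.Adj e.1 e.2)).card ≤ 2 * d * (X ∪ Y).card := by
  refine le_trans (Finset.card_le_card ?_) (pairs_le G d W hdeg (X ∪ Y)
    (Finset.union_subset hX hY))
  intro e he
  rw [Finset.mem_filter, Finset.mem_product] at he
  rw [Finset.mem_filter, Finset.mem_product]
  exact ⟨⟨Finset.mem_union_left _ he.1.1, Finset.mem_union_right _ he.1.2⟩, he.2⟩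

end Pool.Agent.Lib.MP_1fca17_co.F.Deg70
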