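import Pool.Agent.Lib.MP_1fca17_co.F.Defs

/-!
# F0 and F3: families inside the blocks
-/

set_option autoImplicit false

namespace Pool.Agent.Lib.MP_1fca17_co.F

open Finset
open scoped Classical
open Pool.Agent.Lib.MP_1fca17_co (Btw LC MonoFam)
open Pool.Agent.Lib.MP_1fca17_co.Q (Anti)

namespace F03

/-- the number of a group is small -/
theorem grp_lt (qq : ℕ) (h b : List ℕ) (hb : ∀ x ∈ b, x < qq) : grp qq h b < (qq + 1) ^ 2 := by
  have hmem : ∀ x ∈ b.reverse.drop h.length, x < qq := fun x hx =>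
    hb x (List.mem_reverse.1 (List.mem_of_mem_drop hx))
  unfold grp
  split
  · positivity
  · rename_i x hx
    have h1 : x < qq := hmem x (by rw [hx]; simp)
    nlinarith
  · rename_i x y l hx
    have h1 : x < qq := hmem x (by rw [hx]; simp)
    have h2 : y < qq := hmem y (by rw [hx]; simp)
    nlinarith

/-- families without large monotone subfamilies in the groups are small -/
theorem core {V : Type} (s : V → ℤ) (X : V → ℕ) (m0 N : ℕ) (E : ℕ → Finset (V × V))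
    (F : Finset (V × V)) (g : V × V → ℕ) (hg : ∀ e ∈ F, g e < N)
    (hE : ∀ γ, NoMono s X m0 (E γ)) (hF : ∀ e ∈ F, (e.2, e.1) ∈ E (g e))
    (hm : ∀ e ∈ F, ∀ f ∈ F, e ≠ f → g e = g f → e.1 ≠ f.1 ∧
      ((s e.2 < s f.2 ∧ X e.1 ≤ X f.1) ∨ (s f.2 < s e.2 ∧ X f.1 ≤ X e.1))) :
    F.card ≤ N * m0 := by
  have h1 : ∀ γ ∈ range N, (F.filter (fun e => g e = γ)).card ≤ m0 := by
    intro γ _
    by_contra hcon
    push Not at hcon
    obtain ⟨F', hF', hc⟩ := exists_subset_card_eq hcon.le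
    have hinj : Function.Injective (Prod.swap : V × V → V × V) := Prod.swap_injective
    refine hE γ (F'.image Prod.swap) ?_ ?_ ?_
    · intro e he
      rw [mem_image] at he
      obtain ⟨e', he', rfl⟩ := he
      have h2 := mem_filter.1 (hF' he')
      have h3 := hF e' h2.1
      rw [h2.2] at h3
      exact h3
    · rw [card_image_of_injective _ hinj, hc]
    · intro e he f hf hne
      rw [mem_image] at he hf
      obtain ⟨e', he', rfl⟩ := he
      obtain ⟨f', hf', rfl⟩ := hf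
      have h2 := mem_filter.1 (hF' he')
      have h3 := mem_filter.1 (hF' hf')
      exact hm e' h2.1 f' h3.1 (fun hh => hne (by rw [hh])) (h2.2.trans h3.2.symm)
  calc F.card = ∑ γ ∈ range N, (F.filter (fun e => g e = γ)).card :=
        card_eq_sum_card_fiberwise (fun e he => mem_coe.2 (mem_range.2 (hg e he)))
    _ ≤ ∑ _γ ∈ range N, m0 := sum_le_sum h1
    _ = N * m0 := by rw [sum_const, card_range, smul_eq_mul]

section

variable {V : Type} (ρ : List ℕ → ℕ) (qq m0 n : ℕ) (h b : V → List ℕ) (lab id : V → ℕ)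

/-- the leading digit of the key -/
theorem key_rho (hid : ∀ v, id v < n) (hlab : ∀ v, lab v < m0) (u v : V)
    (hu : grp qq (h u) (b u) < (qq + 1) ^ 2) (hv : grp qq (h v) (b v) < (qq + 1) ^ 2)
    (hk : key ρ qq m0 n h b lab id u ≤ key ρ qq m0 n h b lab id v) : ρ (h u) ≤ ρ (h v) := by
  by_contra hcon
  push Not at hcon
  unfold key at hk
  have h1 : (ρ (h v) + 1) * (qq + 1) ^ 2 ≤ ρ (h u) * (qq + 1) ^ 2 :=
    Nat.mul_le_mul_right _ hcon
  have h2 : ρ (h v) * (qq + 1) ^ 2 + grp qq (h v) (b v) + 1 ≤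
      ρ (h u) * (qq + 1) ^ 2 + grp qq (h u) (b u) := by
    rw [add_mul, one_mul] at h1
    omega
  have h3 : (ρ (h v) * (qq + 1) ^ 2 + grp qq (h v) (b v) + 1) * m0 ≤
      (ρ (h u) * (qq + 1) ^ 2 + grp qq (h u) (b u)) * m0 := Nat.mul_le_mul_right _ h2
  have h4 : (ρ (h v) * (qq + 1) ^ 2 + grp qq (h v) (b v)) * m0 + lab v + 1 ≤
      (ρ (h u) * (qq + 1) ^ 2 + grp qq (h u) (b u)) * m0 + lab u := by
    rw [add_mul _ 1, one_mul] at h3
    have := hlab v
    omega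
  have h5 : ((ρ (h v) * (qq + 1) ^ 2 + grp qq (h v) (b v)) * m0 + lab v + 1) * n ≤
      ((ρ (h u) * (qq + 1) ^ 2 + grp qq (h u) (b u)) * m0 + lab u) * n :=
    Nat.mul_le_mul_right _ h4
  rw [add_mul _ 1, one_mul] at h5
  have := hid v
  omega

/-- inside one group the key orders by the labels -/
theorem key_lab (hid : ∀ v, id v < n) (u v : V) (hh : h u = h v)
    (hg : grp qq (h u) (b u) = grp qq (h v) (b v))
    (hk : key ρ qq m0 n h b lab id u ≤ key ρ qq m0 n h b lab id v) : lab u ≤ lab v := by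
  by_contra hcon
  push Not at hcon
  unfold key at hk
  rw [hg, hh] at hk
  have h4 : (ρ (h v) * (qq + 1) ^ 2 + grp qq (h v) (b v)) * m0 + lab v + 1 ≤
      (ρ (h v) * (qq + 1) ^ 2 + grp qq (h v) (b v)) * m0 + lab u := by omega
  have h5 := Nat.mul_le_mul_right n h4
  rw [add_mul _ 1, one_mul] at h5
  have := hid v
  omega

end

section

variable {V : Type} [Fintype V] {G : SimpleGraph V} {A B : Finset V}
  {m s qq s1 s2 s3 m0 n : ℕ} {X : Blk G (A ∪ B) m s qq s1 s2 s3} {t ρ : List ℕ → ℕ}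
  {τ id : V → ℕ} {lab : V → Fin m0}

theorem grpF (v : V) (hv : v ∈ A ∪ B) : grp qq (X.h v) (X.b v) < (qq + 1) ^ 2 :=
  grp_lt qq _ _ (X.idx v hv)

theorem admh (H : Frm G A B m s qq s1 s2 s3 m0 n X t ρ τ id lab) (v : V) (hv : v ∈ A ∪ B) :
    Adm n qq (X.h v) := by
  have h1 := H.adm v hv
  have h2 := X.hb v hv
  exact ⟨h2.length_le.trans h1.1, fun x hx => h1.2 x (h2.subset hx)⟩

theorem rho_le (H : Frm G A B m s qq s1 s2 s3 m0 n X t ρ τ id lab) (u v : V)
    (hu : u ∈ A ∪ B) (hv : v ∈ A ∪ B)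
    (hk : key ρ qq m0 n X.h X.b (fun u => (lab u : ℕ)) id u ≤
      key ρ qq m0 n X.h X.b (fun u => (lab u : ℕ)) id v) : ρ (X.h u) ≤ ρ (X.h v) :=
  key_rho ρ qq m0 n X.h X.b _ id H.idn (fun v => (lab v).2) u v (grpF u hu) (grpF v hv) hk

theorem h_eq (H : Frm G A B m s qq s1 s2 s3 m0 n X t ρ τ id lab) (u v : V)
    (hu : u ∈ A ∪ B) (hv : v ∈ A ∪ B) (h1 : ρ (X.h u) ≤ ρ (X.h v))
    (h2 : ρ (X.h v) ≤ ρ (X.h u)) : X.h u = X.h v :=
  H.ord.inj _ _ (admh H u hu) (admh H v hv) (le_antisymm h1 h2)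

theorem lab_le (H : Frm G A B m s qq s1 s2 s3 m0 n X t ρ τ id lab) (u v : V)
    (hh : X.h u = X.h v) (hg : grp qq (X.h u) (X.b u) = grp qq (X.h v) (X.b v))
    (hk : key ρ qq m0 n X.h X.b (fun u => (lab u : ℕ)) id u ≤
      key ρ qq m0 n X.h X.b (fun u => (lab u : ℕ)) id v) : (lab u : ℕ) ≤ lab v :=
  key_lab ρ qq m0 n X.h X.b (fun u => (lab u : ℕ)) id H.idn u v hh hg hk

end

end F03

open F03

theorem stF0 : StF0 := by
  intro V _ G A B m s qq s1 s2 s3 m0 n X t ρ τ id lab H F hF hA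
  rcases F.eq_empty_or_nonempty with rfl | ⟨e0, he0⟩
  · simp
  have hmA : ∀ e ∈ F, e.1 ∈ A ∪ B := fun e he => mem_union_left _ (hF e he).2.1
  have hmB : ∀ e ∈ F, e.2 ∈ A ∪ B := fun e he => mem_union_right _ (hF e he).2.2.1
  have hbl : ∀ e ∈ F, ∀ f ∈ F, X.h e.1 = X.h f.1 := by
    intro e he f hf
    by_cases hne : e = f
    · rw [hne]
    have key : ∀ e ∈ F, ∀ f ∈ F,
        (key ρ qq m0 n X.h X.b (fun u => (lab u : ℕ)) id e.1 <
          key ρ qq m0 n X.h X.b (fun u => (lab u : ℕ)) id f.1 ∧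
        key ρ qq m0 n X.h X.b (fun u => (lab u : ℕ)) id f.2 <
          key ρ qq m0 n X.h X.b (fun u => (lab u : ℕ)) id e.2) → X.h e.1 = X.h f.1 := by
      intro e he f hf hk
      have h1 := rho_le H e.1 f.1 (hmA e he) (hmA f hf) hk.1.le
      have h2 := rho_le H f.2 e.2 (hmB f hf) (hmB e he) hk.2.le
      rw [← (hF e he).2.2.2, ← (hF f hf).2.2.2] at h2
      exact h_eq H _ _ (hmA e he) (hmA f hf) h1 h2
    rcases hA e he f hf hne with hk | hk
    · exact key e he f hf hk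
    · exact (key f hf e he hk).symm
  refine core (fun v => - ((key ρ qq m0 n X.h X.b (fun u => (lab u : ℕ)) id v : ℕ) : ℤ))
    (fun v => (lab v : ℕ)) m0 ((qq + 1) ^ 2)
    (fun γ => ES G A B X.h X.b qq (X.h e0.1) γ) F
    (fun e => grp qq (X.h e.1) (X.b e.1)) (fun e he => grpF e.1 (hmA e he))
    (fun γ => H.good.sb (X.h e0.1) γ) ?_ ?_
  · intro e he
    have h1 := hF e he
    have h2 := hbl e he e0 he0
    unfold ES
    rw [mem_filter]
    refine ⟨mem_univ _, h1.1.symm, h1.2.2.1, h1.2.1, h2, rfl, ?_⟩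
    show X.h e.2 = X.h e0.1
    rw [← h1.2.2.2, h2]
  · intro e he f hf hne hg
    have hh := hbl e he f hf
    rcases hA e he f hf hne with hk | hk
    · refine ⟨fun h0 => ?_, Or.inl ⟨?_, lab_le H e.1 f.1 hh hg hk.1.le⟩⟩
      · rw [h0] at hk
        exact lt_irrefl _ hk.1
      · have := hk.2
        omega
    · refine ⟨fun h0 => ?_, Or.inr ⟨?_, lab_le H f.1 e.1 hh.symm hg.symm hk.1.le⟩⟩
      · rw [h0] at hk
        exact lt_irrefl _ hk.1
      · have := hk.2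
        omega

theorem stF3 : StF3 := by
  intro V _ G A B m s qq s1 s2 s3 m0 n X t ρ τ id lab H F hF hA
  rcases F.eq_empty_or_nonempty with rfl | ⟨e0, he0⟩
  · simp
  set K : V → ℕ := key ρ qq m0 n X.h X.b (fun u => (lab u : ℕ)) id with hK
  have hm1 : ∀ e ∈ F, e.1 ∈ A ∪ B := fun e he => mem_union_left _ (hF e he).2.1
  have hm2 : ∀ e ∈ F, e.2 ∈ A ∪ B := fun e he => mem_union_left _ (hF e he).2.2.1
  have hlc : ∀ e ∈ F, ∀ f ∈ F, LC K τ f e → X.h e.1 = X.h f.1 := by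
    intro e he f hf hk
    have hfh := (hF f hf).2.2.2.1
    rcases hk.2.2 with hb | hb
    · have h1 := rho_le H f.1 e.1 (hm1 f hf) (hm1 e he) hb.1.le
      have h2 := rho_le H e.1 f.2 (hm1 e he) (hm2 f hf) hb.2.le
      rw [← hfh] at h2
      exact h_eq H _ _ (hm1 e he) (hm1 f hf) h2 h1
    · have h1 := rho_le H f.2 e.1 (hm2 f hf) (hm1 e he) hb.1.le
      have h2 := rho_le H e.1 f.1 (hm1 e he) (hm1 f hf) hb.2.le
      rw [← hfh] at h1
      exact h_eq H _ _ (hm1 e he) (hm1 f hf) h2 h1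
  have hbl : ∀ e ∈ F, ∀ f ∈ F, X.h e.1 = X.h f.1 := by
    intro e he f hf
    by_cases hne : e = f
    · rw [hne]
    rcases hA e he f hf hne with hk | hk
    · exact hlc e he f hf hk
    · exact (hlc f hf e he hk).symm
  have hES : ∀ e ∈ F, (e.2, e.1) ∈ ES G A A X.h X.b qq (X.h e0.1) (grp qq (X.h e.1) (X.b e.1)) := by
    intro e he
    have h1 := hF e he
    have h2 := hbl e he e0 he0
    unfold ES
    rw [mem_filter]
    refine ⟨mem_univ _, h1.1.symm, h1.2.2.1, h1.2.1, h2, rfl, ?_⟩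
    show X.h e.2 = X.h e0.1
    rw [← h1.2.2.2.1, h2]
  have hlab : ∀ e ∈ F, ∀ f ∈ F, grp qq (X.h e.1) (X.b e.1) = grp qq (X.h f.1) (X.b f.1) →
      K e.1 < K f.1 → (lab e.1 : ℕ) ≤ lab f.1 := fun e he f hf hg hk =>
    lab_le H e.1 f.1 (hbl e he f hf) hg hk.le
  have hne1 : ∀ e ∈ F, ∀ f ∈ F, K e.1 < K f.1 → e.1 ≠ f.1 := by
    intro e _ f _ hk h0
    rw [h0] at hk
    exact lt_irrefl _ hk
  have hR : (F.filter (fun e => K e.1 < K e.2)).card ≤ (qq + 1) ^ 2 * m0 := by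
    refine core (fun v => (τ v : ℤ)) (fun v => (lab v : ℕ)) m0 ((qq + 1) ^ 2)
      (fun γ => ES G A A X.h X.b qq (X.h e0.1) γ) _
      (fun e => grp qq (X.h e.1) (X.b e.1))
      (fun e he => grpF e.1 (hm1 e (mem_filter.1 he).1))
      (fun γ => H.good.sp (X.h e0.1) γ) (fun e he => hES e (mem_filter.1 he).1) ?_
    intro e he f hf hne hg
    obtain ⟨heF, he1⟩ := mem_filter.1 he
    obtain ⟨hfF, hf1⟩ := mem_filter.1 hf
    have hmain : ∀ e ∈ F, ∀ f ∈ F, K f.1 < K f.2 → LC K τ f e → τ f.2 < τ e.2 ∧ K f.1 < K e.1 := by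
      intro e _ f _ h1 hk
      refine ⟨hk.1, ?_⟩
      rcases hk.2.2 with hb | hb
      · exact hb.1
      · omega
    rcases hA e heF f hfF hne with hk | hk
    · obtain ⟨h2, h3⟩ := hmain e heF f hfF hf1 hk
      exact ⟨(hne1 f hfF e heF h3).symm, Or.inr ⟨by exact_mod_cast h2,
        hlab f hfF e heF hg.symm h3⟩⟩
    · obtain ⟨h2, h3⟩ := hmain f hfF e heF he1 hk
      exact ⟨hne1 e heF f hfF h3, Or.inl ⟨by exact_mod_cast h2,
        hlab e heF f hfF hg h3⟩⟩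
  have hL : (F.filter (fun e => ¬ K e.1 < K e.2)).card ≤ (qq + 1) ^ 2 * m0 := by
    refine core (fun v => - (τ v : ℤ)) (fun v => (lab v : ℕ)) m0 ((qq + 1) ^ 2)
      (fun γ => ES G A A X.h X.b qq (X.h e0.1) γ) _
      (fun e => grp qq (X.h e.1) (X.b e.1))
      (fun e he => grpF e.1 (hm1 e (mem_filter.1 he).1))
      (fun γ => H.good.sm (X.h e0.1) γ) (fun e he => hES e (mem_filter.1 he).1) ?_
    intro e he f hf hne hg
    obtain ⟨heF, he1⟩ := mem_filter.1 he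
    obtain ⟨hfF, hf1⟩ := mem_filter.1 hf
    have hmain : ∀ e ∈ F, ∀ f ∈ F, ¬ K f.1 < K f.2 → LC K τ f e →
        τ f.2 < τ e.2 ∧ K e.1 < K f.1 := by
      intro e _ f _ h1 hk
      refine ⟨hk.1, ?_⟩
      rcases hk.2.2 with hb | hb
      · omega
      · exact hb.2
    rcases hA e heF f hfF hne with hk | hk
    · obtain ⟨h2, h3⟩ := hmain e heF f hfF hf1 hk
      exact ⟨hne1 e heF f hfF h3, Or.inl ⟨by simpa using h2,
        hlab e heF f hfF hg h3⟩⟩
    · obtain ⟨h2, h3⟩ := hmain f hfF e heF he1 hk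
      exact ⟨(hne1 f hfF e heF h3).symm, Or.inr ⟨by simpa using h2,
        hlab f hfF e heF hg.symm h3⟩⟩
  have hsum := card_filter_add_card_filter_not (s := F) (fun e => K e.1 < K e.2)
  omega

end Pool.Agent.Lib.MP_1fca17_co.F
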