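import Mathlib
import Pool.Agent.Lib.MP_1fca17_co.F.Defs

/-!
MP_1fca17_co, unbounded degree (helper82): crossing families of inner edges and of hub edges,
rows FI and FH.  Page QP_full58.md, section F (I) and (H).
-/

namespace Pool.Agent.Lib.MP_1fca17_co.F.R82

open Finset
open scoped Classical

section abs

variable {V : Type}

/-- opposite orders with respect to one key -/
def AntiK (key : V → ℕ) (F : Finset (V × V)) : Prop :=
  ∀ e ∈ F, ∀ f ∈ F, e ≠ f → (key e.1 < key f.1 ∧ key f.2 < key e.2) ∨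
    (key f.1 < key e.1 ∧ key e.2 < key f.2)

theorem AntiK.mono {key : V → ℕ} {F F' : Finset (V × V)} (h : AntiK key F) (hs : F' ⊆ F) :
    AntiK key F' := fun e he f hf hef => h e (hs he) f (hs hf) hef

/-- types of the regions on the way from `Q` (excluded) to `w ++ Q` (included), last first -/
def tys (ty : List ℕ → ℕ) (Q : List ℕ) : List ℕ → List ℕ
  | [] => []
  | x :: w => ty (x :: (w ++ Q)) :: tys ty Q w

theorem tys_length (ty : List ℕ → ℕ) (Q : List ℕ) : ∀ w, (tys ty Q w).length = w.length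
  | [] => rfl
  | x :: w => by simp [tys, tys_length ty Q w]

theorem tys_append (ty : List ℕ → ℕ) (Q : List ℕ) (u : List ℕ) : ∀ w,
    tys ty Q (w ++ u) = tys ty (u ++ Q) w ++ tys ty Q u
  | [] => rfl
  | x :: w => by simp [tys, tys_append ty Q u w]

theorem tys_mem {ty : List ℕ → ℕ} {m : ℕ} (hty : ∀ l, ty l ≤ m) (Q : List ℕ) :
    ∀ w, ∀ t ∈ tys ty Q w, t ≤ m
  | [], t, h => by simp [tys] at h
  | x :: w, t, h => by
    rcases List.mem_cons.mp h with rfl | h
    · exact hty _
    · exact tys_mem hty Q w t h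

/-- the properties of the order of the regions that are used -/
structure Ord (ty rho : List ℕ → ℕ) (Ok : List ℕ → Prop) : Prop where
  okt : ∀ x l, Ok (x :: l) → Ok l
  kp1 : ∀ l l' x x', Ok (x :: l) → Ok (x' :: l') → ty (x :: l) = ty (x' :: l') →
    rho l < rho l' → rho (x :: l) < rho (x' :: l')
  sib : ∀ l x x', Ok (x :: l) → Ok (x' :: l) → ty (x :: l) = ty (x' :: l) → x < x' →
    rho (x :: l) < rho (x' :: l)
  inj : ∀ l l', Ok l → Ok l' → rho l = rho l' → l = l'

variable {ty rho : List ℕ → ℕ} {Ok : List ℕ → Prop}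

theorem Ord.oka (O : Ord ty rho Ok) {Q : List ℕ} : ∀ w, Ok (w ++ Q) → Ok Q
  | [], h => h
  | x :: w, h => O.oka w (O.okt x _ h)

/-- PAT: the order is inherited along paths of the same types -/
theorem Ord.pat (O : Ord ty rho Ok) {Q Q' : List ℕ} (hQ : rho Q < rho Q') : ∀ w w',
    Ok (w ++ Q) → Ok (w' ++ Q') → tys ty Q w = tys ty Q' w' → rho (w ++ Q) < rho (w' ++ Q')
  | [], [], _, _, _ => hQ
  | [], _ :: _, _, _, h => by simp [tys] at h
  | _ :: _, [], _, _, h => by simp [tys] at h
  | x :: w, x' :: w', h1, h2, h => by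
    simp only [tys, List.cons.injEq] at h
    exact O.kp1 _ _ x x' h1 h2 h.1 (O.pat hQ w w' (O.okt _ _ h1) (O.okt _ _ h2) h.2)

/-- PAT for siblings -/
theorem Ord.pats (O : Ord ty rho Ok) {Q : List ℕ} {x x' : ℕ} (hx : x < x') {w w' : List ℕ}
    (h1 : Ok (w ++ x :: Q)) (h2 : Ok (w' ++ x' :: Q))
    (h : tys ty Q (w ++ [x]) = tys ty Q (w' ++ [x'])) :
    rho (w ++ x :: Q) < rho (w' ++ x' :: Q) := by
  rw [tys_append, tys_append] at h
  have hl : (tys ty Q [x]).length = (tys ty Q [x']).length := by simp [tys_length]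
  obtain ⟨ha, hb⟩ := List.append_inj' h hl
  simp only [tys, List.cons.injEq, List.nil_append, and_true] at hb
  exact O.pat (O.sib Q x x' (O.oka w h1) (O.oka w' h2) hb hx) w w' h1 h2 ha

/-- the properties of the blocks and of the order of the vertices that are used -/
structure BlkA (W : Finset V) (h b : V → List ℕ) (key : V → ℕ) (rho : List ℕ → ℕ)
    (Ok : List ℕ → Prop) : Prop where
  suf : ∀ v ∈ W, ∃ w, b v = w ++ h v
  ok : ∀ v ∈ W, Ok (b v)
  key1 : ∀ v ∈ W, ∀ v' ∈ W, rho (h v) < rho (h v') → key v < key v'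
  key2 : ∀ v ∈ W, ∀ v' ∈ W, ∀ w w' x x', h v = h v' → b v = w ++ x :: h v →
    b v' = w' ++ x' :: h v → x < x' → key v < key v'
  key3 : ∀ v ∈ W, ∀ v' ∈ W, ∀ w w' x y y', h v = h v' → b v = w ++ y :: x :: h v →
    b v' = w' ++ y' :: x :: h v → y < y' → key v < key v'

variable {W : Finset V} {h b : V → List ℕ} {key : V → ℕ}

theorem BlkA.okh (D : BlkA W h b key rho Ok) (O : Ord ty rho Ok) {v : V} (hv : v ∈ W) :
    Ok (h v) := by
  obtain ⟨w, hw⟩ := D.suf v hv
  have := D.ok v hv
  rw [hw] at this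
  exact O.oka w this

theorem BlkA.key_lt (D : BlkA W h b key rho Ok) {v v' : V} (hv : v ∈ W) (hv' : v' ∈ W)
    (hk : key v < key v') : rho (h v) ≤ rho (h v') := by
  by_contra hc
  have := D.key1 v' hv' v hv (by omega)
  omega

/-- (I): crossing families of inner edges of one pattern -/
theorem FI1 (O : Ord ty rho Ok) (D : BlkA W h b key rho Ok) (s3 M1 : ℕ) (π : List ℕ)
    (G : Finset (V × V)) (ha : AntiK key G)
    (hd : ∀ e ∈ G, e.1 ∈ W ∧ e.2 ∈ W ∧ ∃ w c, w ≠ [] ∧ h e.2 = w ++ h e.1 ∧
        b e.1 = c ++ h e.2 ∧ tys ty (h e.1) w = π)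
    (h3 : ∀ Q x y, (W.filter (fun v => h v = Q ∧ ∃ c, b v = c ++ y :: x :: Q)).card ≤ s3)
    (hlab : ∀ Q x, (∀ e ∈ G, h e.1 = Q ∧ h e.2 = x :: Q) → G.card ≤ M1) :
    G.card ≤ M1 + s3 := by
  · -- proof
    -- increasing upper ends have increasing lower ends
    have hinc : ∀ e ∈ G, ∀ f ∈ G, key e.1 < key f.1 → key f.2 < key e.2 → h e.1 = h f.1 := by
      intro e he f hf h1 h2
      obtain ⟨a1, a2, w, c, a3, a4, a5, a6⟩ := hd e he
      obtain ⟨b1, b2, w', c', b3, b4, b5, b6⟩ := hd f hf
      have k1 := D.key_lt a1 b1 h1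
      have k2 := D.key_lt b2 a2 h2
      by_contra hne
      have k3 : rho (h e.1) ≠ rho (h f.1) := fun hh =>
        hne (O.inj _ _ (D.okh O a1) (D.okh O b1) hh)
      have o1 := D.okh O a2
      have o2 := D.okh O b2
      rw [a4] at o1 k2
      rw [b4] at o2 k2
      have := O.pat (by omega : rho (h e.1) < rho (h f.1)) w w' o1 o2 (a6.trans b6.symm)
      omega
    rcases G.eq_empty_or_nonempty with hGe | ⟨e0, he0⟩
    · rw [hGe]; simp
    obtain ⟨a1, a2, w0, c0, a3, a4, a5, a6⟩ := hd e0 he0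
    set Q := h e0.1 with hQ
    have hQa : ∀ e ∈ G, h e.1 = Q := by
      intro e he
      by_cases hee : e = e0
      · rw [hee]
      · rcases ha e he e0 he0 hee with ⟨k1, k2⟩ | ⟨k1, k2⟩
        · exact hinc e he e0 he0 k1 k2
        · exact (hinc e0 he0 e he k1 k2).symm
    obtain ⟨u0, x0, rfl⟩ : ∃ u x, w0 = u ++ [x] := by
      refine ⟨w0.dropLast, w0.getLast a3, ?_⟩
      exact (List.dropLast_append_getLast a3).symm
    -- first step
    have hstep : ∀ e ∈ G, ∀ f ∈ G, key e.1 < key f.1 → key f.2 < key e.2 →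
        ∀ u u' x x', h e.2 = u ++ x :: Q → h f.2 = u' ++ x' :: Q → ¬ x < x' ∧ ¬ x' < x := by
      intro e he f hf h1 h2 u u' x x' h3 h4
      obtain ⟨a1, a2, w, c, a3, a4, a5, a6⟩ := hd e he
      obtain ⟨b1, b2, w', c', b3, b4, b5, b6⟩ := hd f hf
      have e1 := hQa e he
      have e2 := hQa f hf
      rw [e1] at a4 a6
      rw [e2] at b4 b6
      have w1 : w = u ++ [x] := by
        have : w ++ Q = (u ++ [x]) ++ Q := by rw [← a4, h3]; simp
        exact List.append_cancel_right this
      have w2 : w' = u' ++ [x'] := by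
        have : w' ++ Q = (u' ++ [x']) ++ Q := by rw [← b4, h4]; simp
        exact List.append_cancel_right this
      have o1 := D.okh O a2
      have o2 := D.okh O b2
      rw [h3] at o1
      rw [h4] at o2
      constructor
      · intro hx
        have k := O.pats hx o1 o2 (by rw [← w1, ← w2]; exact a6.trans b6.symm)
        rw [← h3, ← h4] at k
        have := D.key1 e.2 a2 f.2 b2 k
        omega
      · intro hx
        have := D.key2 f.1 b1 e.1 a1 (c' ++ u') (c ++ u) x' x (e2.trans e1.symm)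
          (by rw [b5, h4, e2]; simp) (by rw [a5, h3, e2]; simp) hx
        omega
    -- all first steps are equal
    have hx0 : ∀ e ∈ G, ∃ u, h e.2 = u ++ x0 :: Q := by
      intro e he
      obtain ⟨-, -, w, c, d3, d4, d5, d6⟩ := hd e he
      obtain ⟨u, x, rfl⟩ : ∃ u x, w = u ++ [x] :=
        ⟨w.dropLast, w.getLast d3, (List.dropLast_append_getLast d3).symm⟩
      have e1 : h e.2 = u ++ x :: Q := by rw [d4, hQa e he]; simp
      have e2 : h e0.2 = u0 ++ x0 :: Q := by rw [a4]; simp
      by_cases hee : e = e0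
      · subst hee; exact ⟨u0, e2⟩
      · have hxx : x = x0 := by
          rcases ha e he e0 he0 hee with ⟨k1, k2⟩ | ⟨k1, k2⟩
          · have := hstep e he e0 he0 k1 k2 u u0 x x0 e1 e2
            omega
          · have := hstep e0 he0 e he k1 k2 u0 u x0 x e2 e1
            omega
        exact ⟨u, by rw [e1, hxx]⟩
    -- lengths
    have hlen : ∀ e ∈ G, ∀ u, h e.2 = u ++ x0 :: Q → u.length + 1 = π.length := by
      intro e he u hu
      obtain ⟨-, -, w, c, d3, d4, d5, d6⟩ := hd e he
      rw [hQa e he] at d4 d6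
      have : w = u ++ [x0] := by
        have : w ++ Q = (u ++ [x0]) ++ Q := by rw [← d4, hu]; simp
        exact List.append_cancel_right this
      rw [← d6, tys_length, this]
      simp
    have hu0 := hlen e0 he0 u0 (by rw [a4]; simp)
    by_cases hu : u0 = []
    · -- distance one
      subst hu
      refine (hlab Q x0 ?_).trans (Nat.le_add_right _ _)
      intro e he
      obtain ⟨u, hu⟩ := hx0 e he
      have := hlen e he u hu
      have hu' : u = [] := List.length_eq_zero_iff.mp (by simp at hu0; omega)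
      subst hu'
      exact ⟨hQa e he, hu⟩
    · -- distance at least two
      obtain ⟨t0, y0, rfl⟩ : ∃ t y, u0 = t ++ [y] :=
        ⟨u0.dropLast, u0.getLast hu, (List.dropLast_append_getLast hu).symm⟩
      have hstep2 : ∀ e ∈ G, ∀ f ∈ G, key e.1 < key f.1 → key f.2 < key e.2 →
          ∀ t t' y y', h e.2 = t ++ y :: x0 :: Q → h f.2 = t' ++ y' :: x0 :: Q →
          ¬ y < y' ∧ ¬ y' < y := by
        intro e he f hf h1 h2 u u' y y' h3 h4
        obtain ⟨a1, a2, w, c, a3, a4, a5, a6⟩ := hd e he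
        obtain ⟨b1, b2, w', c', b3, b4, b5, b6⟩ := hd f hf
        have e1 := hQa e he
        have e2 := hQa f hf
        rw [e1] at a4 a6
        rw [e2] at b4 b6
        have w1 : w = (u ++ [y]) ++ [x0] := by
          have : w ++ Q = ((u ++ [y]) ++ [x0]) ++ Q := by rw [← a4, h3]; simp
          exact List.append_cancel_right this
        have w2 : w' = (u' ++ [y']) ++ [x0] := by
          have : w' ++ Q = ((u' ++ [y']) ++ [x0]) ++ Q := by rw [← b4, h4]; simp
          exact List.append_cancel_right this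
        have o1 := D.okh O a2
        have o2 := D.okh O b2
        rw [h3] at o1
        rw [h4] at o2
        constructor
        · intro hx
          have hpat : tys ty (x0 :: Q) (u ++ [y]) = tys ty (x0 :: Q) (u' ++ [y']) := by
            have := a6.trans b6.symm
            rw [w1, w2, tys_append ty Q [x0] (u ++ [y]), tys_append ty Q [x0] (u' ++ [y'])] at this
            exact (List.append_inj' this rfl).1
          have k := O.pats hx o1 o2 hpat
          rw [← h3, ← h4] at k
          have := D.key1 e.2 a2 f.2 b2 k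
          omega
        · intro hx
          have := D.key3 f.1 b1 e.1 a1 (c' ++ u') (c ++ u) x0 y' y (e2.trans e1.symm)
            (by rw [b5, h4, e2]; simp) (by rw [a5, h3, e2]; simp) hx
          omega
      have hy0 : ∀ e ∈ G, ∃ u, h e.2 = u ++ y0 :: x0 :: Q := by
        intro e he
        obtain ⟨u, hu1⟩ := hx0 e he
        have hl := hlen e he u hu1
        have hune : u ≠ [] := by
          rintro rfl
          simp at hl hu0
          omega
        obtain ⟨t, y, rfl⟩ : ∃ t y, u = t ++ [y] :=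
          ⟨u.dropLast, u.getLast hune, (List.dropLast_append_getLast hune).symm⟩
        have e1 : h e.2 = t ++ y :: x0 :: Q := by rw [hu1]; simp
        have e2 : h e0.2 = t0 ++ y0 :: x0 :: Q := by rw [a4]; simp
        by_cases hee : e = e0
        · subst hee; exact ⟨t0, e2⟩
        · have hxx : y = y0 := by
            rcases ha e he e0 he0 hee with ⟨k1, k2⟩ | ⟨k1, k2⟩
            · have := hstep2 e he e0 he0 k1 k2 t t0 y y0 e1 e2
              omega
            · have := hstep2 e0 he0 e he k1 k2 t0 t y0 y e2 e1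
              omega
          exact ⟨t, by rw [e1, hxx]⟩
      refine le_trans ?_ (Nat.le_add_left _ _)
      refine le_trans ?_ (h3 Q x0 y0)
      refine Finset.card_le_card_of_injOn Prod.fst ?_ ?_
      · intro e he
        have he' : e ∈ G := he
        obtain ⟨d1, d2, w, c, d3, d4, d5, d6⟩ := hd e he'
        obtain ⟨u, hu⟩ := hy0 e he'
        refine Finset.mem_coe.mpr (Finset.mem_filter.mpr ⟨d1, hQa e he', c ++ u, ?_⟩)
        rw [d5, hu]; simp
      · intro e he f hf hef
        by_contra hne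
        rcases ha e he f hf hne with ⟨k1, k2⟩ | ⟨k1, k2⟩ <;>
        · rw [hef] at k1
          omega

/-- (H): crossing families of hub edges of one pattern -/
theorem FH1 (O : Ord ty rho Ok) (D : BlkA W h b key rho Ok) (s2 s3 M3 : ℕ) (π : List ℕ)
    (G : Finset (V × V)) (ha : AntiK key G)
    (hF : ∀ e ∈ G, e.1 ∈ W ∧ e.2 ∈ W ∧ ∃ w, b e.1 = w ++ h e.1 ∧ tys ty (h e.1) w = π)
    (h2 : ∀ Q, (W.filter (fun v => b v = Q)).card ≤ s2)
    (h3 : ∀ Q x y, (W.filter (fun v => h v = Q ∧ ∃ c, b v = c ++ y :: x :: Q)).card ≤ s3)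
    (hkp3 : ∀ F' ⊆ G, (∀ e ∈ F', ∀ f ∈ F', e ≠ f →
      (rho (b e.1) < rho (b f.1) ∧ rho (h f.2) ≤ rho (h e.2)) ∨
      (rho (b f.1) < rho (b e.1) ∧ rho (h e.2) ≤ rho (h f.2))) → F'.card ≤ M3) :
    G.card ≤ (s2 + s3) * M3 := by
  · -- proof
    -- data of an element
    have hd : ∀ e ∈ G, e.1 ∈ W ∧ e.2 ∈ W ∧ ∃ w1 w2, w2.length = min π.length 2 ∧
        w1.length = π.length - 2 ∧ b e.1 = w1 ++ (w2 ++ h e.1) ∧
        tys ty (w2 ++ h e.1) w1 = π.take (π.length - 2) ∧
        tys ty (h e.1) w2 = π.drop (π.length - 2) := by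
      intro e he
      obtain ⟨h1, h2, w, h4, h5⟩ := hF e he
      have h6 : w.length = π.length := by rw [← h5, tys_length]
      have h7 : tys ty (w.drop (π.length - 2) ++ h e.1) (w.take (π.length - 2)) ++
          tys ty (h e.1) (w.drop (π.length - 2)) = π := by
        rw [← tys_append, List.take_append_drop, h5]
      have h8 : (tys ty (w.drop (π.length - 2) ++ h e.1) (w.take (π.length - 2))).length =
          π.length - 2 := by
        rw [tys_length, List.length_take]; omega
      refine ⟨h1, h2, w.take (π.length - 2), w.drop (π.length - 2), ?_, ?_, ?_, ?_, ?_⟩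
      · rw [List.length_drop]; omega
      · rw [List.length_take]; omega
      · rw [← List.append_assoc, List.take_append_drop, h4]
      · refine (List.take_left' (l₂ := tys ty (h e.1) (w.drop (π.length - 2))) h8).symm.trans ?_
        rw [h7]
      · refine (List.drop_left' h8).symm.trans ?_
        rw [h7]
    set Gam : V × V → List ℕ := fun e => (b e.1).drop (π.length - 2) with hGam
    have hgam : ∀ e w1 w2, w1.length = π.length - 2 → b e.1 = w1 ++ (w2 ++ h e.1) →
        Gam e = w2 ++ h e.1 := by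
      intro e w1 w2 h1 h2
      simp only [hGam]
      rw [h2, List.drop_append_of_le_length h1.ge, List.drop_of_length_le h1.le, List.nil_append]
    -- claim A
    have hA : ∀ e ∈ G, ∀ f ∈ G, key e.1 < key f.1 → Gam e ≠ Gam f →
        rho (Gam e) < rho (Gam f) := by
      intro e he f hf hk hne
      obtain ⟨a1, a2, w1, w2, a3, a4, a5, a6, a7⟩ := hd e he
      obtain ⟨b1, b2, w1', w2', b3, b4, b5, b6, b7⟩ := hd f hf
      rw [hgam e w1 w2 a4 a5, hgam f w1' w2' b4 b5] at hne ⊢
      have o1 : Ok (w2 ++ h e.1) := by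
        have := D.ok _ a1
        rw [a5] at this
        exact O.oka w1 this
      have o2 : Ok (w2' ++ h f.1) := by
        have := D.ok _ b1
        rw [b5] at this
        exact O.oka w1' this
      have ht : tys ty (h e.1) w2 = tys ty (h f.1) w2' := a7.trans b7.symm
      have k1 := D.key_lt a1 b1 hk
      by_cases hq : h e.1 = h f.1
      · rw [← hq] at o2 hne ht b5 ⊢
        match w2, w2', a3, b3 with
        | [], [], _, _ => exact absurd rfl hne
        | [], _ :: _, a3, b3 => rw [← a3] at b3; simp at b3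
        | _ :: _, [], a3, b3 => rw [← a3] at b3; simp at b3
        | [x], [x'], _, _ =>
          have hx : ¬ x' < x := by
            intro hx
            have := D.key2 f.1 b1 e.1 a1 w1' w1 x' x hq.symm (by rw [b5, ← hq]; rfl)
              (by rw [a5, ← hq]; rfl) hx
            omega
          have hx2 : x ≠ x' := by
            rintro rfl; exact hne rfl
          simp only [tys, List.cons.injEq, List.nil_append, and_true] at ht
          exact O.sib _ x x' o1 o2 ht (by omega)
        | [x], _ :: _ :: _, a3, b3 => rw [← a3] at b3; simp at b3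
        | _ :: _ :: _, [x'], a3, b3 => rw [← a3] at b3; simp at b3
        | [y, x], [y', x'], _, _ =>
          have hx : ¬ x' < x := by
            intro hx
            have := D.key2 f.1 b1 e.1 a1 (w1' ++ [y']) (w1 ++ [y]) x' x hq.symm
              (by rw [b5, ← hq]; simp) (by rw [a5, ← hq]; simp) hx
            omega
          have ht' := ht
          simp only [tys, List.cons.injEq, List.nil_append, List.cons_append, and_true] at ht
          by_cases hxx : x = x'
          · subst hxx
            have hy : ¬ y' < y := by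
              intro hy
              have := D.key3 f.1 b1 e.1 a1 w1' w1 x y' y hq.symm
                (by rw [b5, ← hq]; rfl) (by rw [a5, ← hq]; rfl) hy
              omega
            have hy2 : y ≠ y' := by
              rintro rfl; exact hne rfl
            exact O.sib _ y y' o1 o2 ht.1 (by omega)
          · exact O.pats (w := [y]) (w' := [y']) (by omega : x < x') o1 o2 ht'
        | [y, x], _ :: _ :: _ :: _, a3, b3 => rw [List.length_cons] at b3; simp at b3; omega
        | _ :: _ :: _ :: _, _, a3, b3 => simp at a3; omega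
      · have k3 : rho (h e.1) ≠ rho (h f.1) := fun hh =>
          hq (O.inj _ _ (D.okh O a1) (D.okh O b1) hh)
        exact O.pat (by omega) w2 w2' o1 o2 ht
    -- claim B
    have hB : ∀ e ∈ G, ∀ f ∈ G, rho (Gam e) < rho (Gam f) → rho (b e.1) < rho (b f.1) := by
      intro e he f hf hk
      obtain ⟨a1, a2, w1, w2, a3, a4, a5, a6, a7⟩ := hd e he
      obtain ⟨b1, b2, w1', w2', b3, b4, b5, b6, b7⟩ := hd f hf
      rw [hgam e w1 w2 a4 a5, hgam f w1' w2' b4 b5] at hk
      have o1 := D.ok _ a1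
      have o2 := D.ok _ b1
      rw [a5] at o1 ⊢
      rw [b5] at o2 ⊢
      exact O.pat hk w1 w1' o1 o2 (a6.trans b6.symm)
    -- claim C
    have hC : (G.image Gam).card ≤ M3 := by
      rcases G.eq_empty_or_nonempty with hGe | ⟨e00, -⟩
      · rw [hGe]; simp
      have : Nonempty (V × V) := ⟨e00⟩
      have hr : ∀ γ ∈ G.image Gam, ∃ e ∈ G, Gam e = γ := by
        intro γ hγ
        simpa using hγ
      choose! r hr1 hr2 using hr
      have hc : ((G.image Gam).image r).card = (G.image Gam).card := by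
        refine Finset.card_image_of_injOn ?_
        intro γ hγ γ' hγ' hh
        rw [← hr2 γ hγ, ← hr2 γ' hγ', hh]
      rw [← hc]
      refine hkp3 _ ?_ ?_
      · intro e he
        obtain ⟨γ, hγ, rfl⟩ := Finset.mem_image.mp he
        exact hr1 γ hγ
      · intro e he f hf hef
        obtain ⟨γ, hγ, rfl⟩ := Finset.mem_image.mp he
        obtain ⟨γ', hγ', rfl⟩ := Finset.mem_image.mp hf
        have hne : Gam (r γ) ≠ Gam (r γ') := by
          rw [hr2 γ hγ, hr2 γ' hγ']
          rintro rfl
          exact hef rfl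
        have g1 := hr1 γ hγ
        have g2 := hr1 γ' hγ'
        rcases ha _ g1 _ g2 hef with ⟨k1, k2⟩ | ⟨k1, k2⟩
        · exact Or.inl ⟨hB _ g1 _ g2 (hA _ g1 _ g2 k1 hne),
            D.key_lt (hd _ g2).2.1 (hd _ g1).2.1 k2⟩
        · exact Or.inr ⟨hB _ g2 _ g1 (hA _ g2 _ g1 k1 hne.symm),
            D.key_lt (hd _ g1).2.1 (hd _ g2).2.1 k2⟩
    -- claim D
    have hD : ∀ γ ∈ G.image Gam, (G.filter (fun e => Gam e = γ)).card ≤ s2 + s3 := by
      intro γ hγ
      have hinj : Set.InjOn Prod.fst ((G.filter (fun e => Gam e = γ) : Finset (V × V)) :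
          Set (V × V)) := by
        intro e he f hf hef
        by_contra hne
        have he' := (Finset.mem_filter.mp (Finset.mem_coe.mp he)).1
        have hf' := (Finset.mem_filter.mp (Finset.mem_coe.mp hf)).1
        rcases ha e he' f hf' hne with ⟨k1, k2⟩ | ⟨k1, k2⟩ <;>
        · rw [hef] at k1
          omega
      by_cases hg : π.length ≤ 2
      · refine le_trans ?_ ((h2 γ).trans (Nat.le_add_right _ _))
        refine Finset.card_le_card_of_injOn Prod.fst ?_ hinj
        intro e he
        have he' := Finset.mem_filter.mp (Finset.mem_coe.mp he)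
        refine Finset.mem_coe.mpr (Finset.mem_filter.mpr ⟨(hd e he'.1).1, ?_⟩)
        have := he'.2
        simp only [hGam] at this
        rw [show π.length - 2 = 0 by omega, List.drop_zero] at this
        exact this
      · have hγ2 : ∃ y x Q, γ = y :: x :: Q := by
          obtain ⟨e, he, rfl⟩ := Finset.mem_image.mp hγ
          obtain ⟨a1, a2, w1, w2, a3, a4, a5, a6, a7⟩ := hd e he
          rw [hgam e w1 w2 a4 a5]
          match w2, a3 with
          | [], a3 => simp at a3; omega
          | [x], a3 => simp at a3; omega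
          | y :: x :: w2, a3 => exact ⟨y, x, w2 ++ h e.1, rfl⟩
        obtain ⟨y, x, Q, rfl⟩ := hγ2
        refine le_trans ?_ ((h3 Q x y).trans (Nat.le_add_left _ _))
        refine Finset.card_le_card_of_injOn Prod.fst ?_ hinj
        intro e he
        have he' := Finset.mem_filter.mp (Finset.mem_coe.mp he)
        obtain ⟨a1, a2, w1, w2, a3, a4, a5, a6, a7⟩ := hd e he'.1
        have hh := he'.2
        rw [hgam e w1 w2 a4 a5] at hh
        rw [min_eq_right (by omega)] at a3
        match w2, a3 with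
        | [y', x'], _ =>
          simp only [List.cons_append, List.nil_append, List.cons.injEq] at hh
          obtain ⟨rfl, rfl, hh⟩ := hh
          refine Finset.mem_coe.mpr (Finset.mem_filter.mpr ⟨a1, hh, w1, ?_⟩)
          rw [a5, hh]
          rfl
    calc G.card ≤ (s2 + s3) * (G.image Gam).card := Finset.card_le_mul_card_image G _ hD
      _ ≤ (s2 + s3) * M3 := Nat.mul_le_mul_left _ hC

end abs

/-! ## The rows -/

theorem way_eq (t : List ℕ → ℕ) (Q : List ℕ) : ∀ w : List ℕ,
    way t w.length (w ++ Q) = (tys t Q w).reverse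
  | [] => rfl
  | x :: w => by
    simp only [List.length_cons, List.cons_append, way, List.tail_cons, tys, List.reverse_cons,
      way_eq t Q w]

theorem ordA {V : Type} {hub : List ℕ → Finset V} {b : V → List ℕ} {m qq n : ℕ}
    {t ρ : List ℕ → ℕ} (O : OrdOK hub b m qq n t ρ) : Ord t ρ (Adm n qq) where
  okt := by
    rintro x l ⟨h1, h2⟩
    exact ⟨by rw [List.length_cons] at h1; omega, fun y hy => h2 y (by simp [hy])⟩
  kp1 := O.kp1
  sib := O.kp2
  inj := O.inj

theorem grp_append (qq : ℕ) (h w : List ℕ) : grp qq h (w ++ h) =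
    grp qq [] w := by
  unfold grp
  rw [List.reverse_append, List.drop_left' (List.length_reverse)]
  simp

theorem grp_nil0 {qq : ℕ} {w : List ℕ} (h : w.reverse = []) : grp qq [] w = 0 := by
  unfold grp
  rw [List.length_nil, List.drop_zero, h]

theorem grp_nil1 {qq x : ℕ} {w : List ℕ} (h : w.reverse = [x]) :
    grp qq [] w = (x + 1) * (qq + 1) := by
  unfold grp
  rw [List.length_nil, List.drop_zero, h]

theorem grp_nil2 {qq x y : ℕ} {w u : List ℕ} (h : w.reverse = x :: y :: u) :
    grp qq [] w = (x + 1) * (qq + 1) + (y + 1) := by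
  unfold grp
  rw [List.length_nil, List.drop_zero, h]

theorem grp_lt {qq : ℕ} {h w : List ℕ} (hq : ∀ x ∈ w, x < qq) :
    grp qq h (w ++ h) < (qq + 1) ^ 2 := by
  rw [grp_append]
  have hr : ∀ x ∈ w.reverse, x < qq := fun x hx => hq x (by simpa using hx)
  rcases hw : w.reverse with _ | ⟨x, _ | ⟨y, u⟩⟩
  · rw [grp_nil0 hw]; positivity
  · have hx := hr x (by simp [hw])
    rw [grp_nil1 hw]
    nlinarith
  · have hx := hr x (by simp [hw])
    have hy := hr y (by simp [hw])
    rw [grp_nil2 hw]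
    nlinarith

theorem grp_step1 {qq : ℕ} {h w w' : List ℕ} {x x' : ℕ} (hx : x < x')
    (hq : ∀ y ∈ w, y < qq) :
    grp qq h (w ++ x :: h) < grp qq h (w' ++ x' :: h) := by
  have e1 : w ++ x :: h = (w ++ [x]) ++ h := by simp
  have e2 : w' ++ x' :: h = (w' ++ [x']) ++ h := by simp
  rw [e1, e2, grp_append, grp_append]
  have hr : ∀ x ∈ w.reverse, x < qq := fun x hx => hq x (by simpa using hx)
  have h1 : grp qq [] (w' ++ [x']) ≥ (x' + 1) * (qq + 1) := by
    rcases hw : w'.reverse with _ | ⟨y, u⟩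
    · rw [grp_nil1 (x := x') (by simp [hw])]
    · rw [grp_nil2 (x := x') (y := y) (u := u) (by simp [hw])]
      omega
  have h2 : grp qq [] (w ++ [x]) ≤ (x + 1) * (qq + 1) + qq := by
    rcases hw : w.reverse with _ | ⟨y, u⟩
    · rw [grp_nil1 (x := x) (by simp [hw])]
      omega
    · have hy := hr y (by simp [hw])
      rw [grp_nil2 (x := x) (y := y) (u := u) (by simp [hw])]
      omega
  have : (x + 1 + 1) * (qq + 1) ≤ (x' + 1) * (qq + 1) := Nat.mul_le_mul_right _ (by omega)
  nlinarith

theorem grp_step2 {qq : ℕ} {h w w' : List ℕ} {x y y' : ℕ} (hy : y < y') :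
    grp qq h (w ++ y :: x :: h) < grp qq h (w' ++ y' :: x :: h) := by
  have e1 : w ++ y :: x :: h = (w ++ [y, x]) ++ h := by simp
  have e2 : w' ++ y' :: x :: h = (w' ++ [y', x]) ++ h := by simp
  rw [e1, e2, grp_append, grp_append,
    grp_nil2 (x := x) (y := y) (u := w.reverse) (by simp),
    grp_nil2 (x := x) (y := y') (u := w'.reverse) (by simp)]
  omega

/-- comparison of the keys -/
theorem key_lt_of {m0 n g1 g2 r1 r2 a1 a2 i1 i2 N : ℕ} (ha1 : a1 < m0) (hi1 : i1 < n)
    (hg1 : g1 < N) (h : r1 < r2) :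
    ((r1 * N + g1) * m0 + a1) * n + i1 < ((r2 * N + g2) * m0 + a2) * n + i2 := by
  have h1 : r1 * N + g1 + 1 ≤ r2 * N := by
    have : (r1 + 1) * N ≤ r2 * N := Nat.mul_le_mul_right _ h
    rw [add_mul] at this; omega
  have h2 : (r1 * N + g1) * m0 + a1 + 1 ≤ r2 * N * m0 := by
    have : (r1 * N + g1 + 1) * m0 ≤ r2 * N * m0 := Nat.mul_le_mul_right _ h1
    rw [add_mul] at this; omega
  have h3 : ((r1 * N + g1) * m0 + a1) * n + i1 + 1 ≤ r2 * N * m0 * n := by
    have : ((r1 * N + g1) * m0 + a1 + 1) * n ≤ r2 * N * m0 * n := Nat.mul_le_mul_right _ h2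
    rw [add_mul] at this; omega
  have h4 : r2 * N * m0 * n ≤ ((r2 * N + g2) * m0 + a2) * n := by
    refine Nat.mul_le_mul_right _ ?_
    rw [add_mul]; omega
  omega

theorem key_lt_of_grp {m0 n g1 g2 r a1 a2 i1 i2 N : ℕ} (ha1 : a1 < m0) (hi1 : i1 < n)
    (h : g1 < g2) :
    ((r * N + g1) * m0 + a1) * n + i1 < ((r * N + g2) * m0 + a2) * n + i2 := by
  have h2 : (r * N + g1) * m0 + a1 + 1 ≤ (r * N + g2) * m0 := by
    have : (r * N + g1 + 1) * m0 ≤ (r * N + g2) * m0 := Nat.mul_le_mul_right _ (by omega)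
    rw [add_mul] at this; omega
  have h3 : ((r * N + g1) * m0 + a1) * n + i1 + 1 ≤ (r * N + g2) * m0 * n := by
    have : ((r * N + g1) * m0 + a1 + 1) * n ≤ (r * N + g2) * m0 * n := Nat.mul_le_mul_right _ h2
    rw [add_mul] at this; omega
  have h4 : (r * N + g2) * m0 * n ≤ ((r * N + g2) * m0 + a2) * n :=
    Nat.mul_le_mul_right _ (Nat.le_add_right _ _)
  omega

theorem lab_le_of_key {m0 n G a1 a2 i1 i2 : ℕ} (hi2 : i2 < n)
    (h : (G * m0 + a1) * n + i1 < (G * m0 + a2) * n + i2) : a1 ≤ a2 := by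
  by_contra hc
  have : (G * m0 + a2 + 1) * n ≤ (G * m0 + a1) * n := Nat.mul_le_mul_right _ (by omega)
  rw [add_mul] at this
  omega

variable {V : Type} [Fintype V] {G : SimpleGraph V} {A B : Finset V} {m s qq s1 s2 s3 m0 n : ℕ}
  {X : Blk G (A ∪ B) m s qq s1 s2 s3} {t ρ : List ℕ → ℕ} {τ id : V → ℕ} {lab : V → Fin m0}

theorem blkA (Fr : Frm G A B m s qq s1 s2 s3 m0 n X t ρ τ id lab) :
    BlkA (A ∪ B) X.h X.b (key ρ qq m0 n X.h X.b (fun u => (lab u : ℕ)) id) ρ (Adm n qq) where
  suf := by
    intro v hv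
    obtain ⟨w, hw⟩ := X.hb v hv
    exact ⟨w, hw.symm⟩
  ok := Fr.adm
  key1 := by
    intro v hv v' hv' h
    obtain ⟨w, hw⟩ := X.hb v hv
    unfold key
    refine key_lt_of (lab v).2 (Fr.idn v) ?_ h
    rw [← hw]
    exact grp_lt (fun x hx => X.idx v hv x (by rw [← hw]; simp [hx]))
  key2 := by
    intro v hv v' hv' w w' x x' hh hb hb' hx
    unfold key
    rw [← hh]
    refine key_lt_of_grp (lab v).2 (Fr.idn v) ?_
    rw [hb, hb']
    exact grp_step1 hx (fun y hy => X.idx v hv y (by rw [hb]; simp [hy]))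
  key3 := by
    intro v hv v' hv' w w' x y y' hh hb hb' hy
    unfold key
    rw [← hh]
    refine key_lt_of_grp (lab v).2 (Fr.idn v) ?_
    rw [hb, hb']
    exact grp_step2 hy

omit [Fintype V] in
/-- counting with good labels -/
theorem mono_count {s : V → ℤ} {Y : V → ℕ} {m0 : ℕ} {E : Finset (V × V)}
    (hE : NoMono s Y m0 E) (F : Finset (V × V)) (hsw : ∀ e ∈ F, (e.2, e.1) ∈ E)
    (hm : ∀ e ∈ F, ∀ f ∈ F, e ≠ f → e.1 ≠ f.1 ∧
      ((s e.2 < s f.2 ∧ Y e.1 ≤ Y f.1) ∨ (s f.2 < s e.2 ∧ Y f.1 ≤ Y e.1))) :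
    F.card ≤ m0 := by
  by_contra hc
  obtain ⟨F', hF', hcard⟩ := Finset.exists_subset_card_eq (show m0 ≤ F.card by omega)
  have hinj : Function.Injective (Prod.swap : V × V → V × V) := Prod.swap_injective
  refine hE (F'.image Prod.swap) ?_ ?_ ?_
  · intro e he
    obtain ⟨f, hf, rfl⟩ := Finset.mem_image.mp he
    exact hsw f (hF' hf)
  · rw [Finset.card_image_of_injective _ hinj, hcard]
  · intro e he f hf hef
    obtain ⟨e', he', rfl⟩ := Finset.mem_image.mp he
    obtain ⟨f', hf', rfl⟩ := Finset.mem_image.mp hf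
    have hne : e' ≠ f' := fun hh => hef (by rw [hh])
    exact hm e' (hF' he') f' (hF' hf') hne

/-- families between two fixed blocks, all groups -/
theorem lab_count (Fr : Frm G A B m s qq s1 s2 s3 m0 n X t ρ τ id lab) (F : Finset (V × V))
    (Q : List ℕ) (E : ℕ → Finset (V × V))
    (hE : ∀ γ, NoMono
      (fun v => - ((key ρ qq m0 n X.h X.b (fun u => (lab u : ℕ)) id v : ℕ) : ℤ))
      (fun v => (lab v : ℕ)) m0 (E γ))
    (hF : ∀ e ∈ F, e.1 ∈ A ∪ B ∧ X.h e.1 = Q ∧ (e.2, e.1) ∈ E (grp qq (X.h e.1) (X.b e.1)))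
    (ha : AntiK (key ρ qq m0 n X.h X.b (fun u => (lab u : ℕ)) id) F) :
    F.card ≤ (qq + 1) ^ 2 * m0 := by
  set g : V × V → ℕ := fun e => grp qq (X.h e.1) (X.b e.1) with hg
  have h1 : F.card ≤ m0 * (F.image g).card := by
    refine Finset.card_le_mul_card_image F m0 ?_
    intro γ _
    refine mono_count (hE γ) _ ?_ ?_
    · intro e he
      obtain ⟨he1, he2⟩ := Finset.mem_filter.mp he
      have := (hF e he1).2.2
      rw [show grp qq (X.h e.1) (X.b e.1) = γ from he2] at this
      exact this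
    · have key' : ∀ e ∈ F.filter (fun x => g x = γ), ∀ f ∈ F.filter (fun x => g x = γ),
          key ρ qq m0 n X.h X.b (fun u => (lab u : ℕ)) id e.1 <
            key ρ qq m0 n X.h X.b (fun u => (lab u : ℕ)) id f.1 →
          (lab e.1 : ℕ) ≤ (lab f.1 : ℕ) := by
        intro e he f hf hk
        obtain ⟨he1, he2⟩ := Finset.mem_filter.mp he
        obtain ⟨hf1, hf2⟩ := Finset.mem_filter.mp hf
        unfold key at hk
        rw [(hF e he1).2.1, (hF f hf1).2.1] at hk
        simp only [hg] at he2 hf2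
        rw [(hF e he1).2.1] at he2
        rw [(hF f hf1).2.1] at hf2
        rw [he2, hf2] at hk
        exact lab_le_of_key (Fr.idn f.1) hk
      intro e he f hf hef
      have he1 := (Finset.mem_filter.mp he).1
      have hf1 := (Finset.mem_filter.mp hf).1
      rcases ha e he1 f hf1 hef with ⟨k1, k2⟩ | ⟨k1, k2⟩
      · exact ⟨fun hh => by rw [hh] at k1; omega, Or.inl ⟨by omega,
          key' e he f hf k1⟩⟩
      · exact ⟨fun hh => by rw [hh] at k1; omega, Or.inr ⟨by omega,
          key' f hf e he k1⟩⟩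
  have h2 : (F.image g).card ≤ (qq + 1) ^ 2 := by
    have : F.image g ⊆ Finset.range ((qq + 1) ^ 2) := by
      intro x hx
      obtain ⟨e, he, rfl⟩ := Finset.mem_image.mp hx
      have hv := (hF e he).1
      obtain ⟨w, hw⟩ := X.hb e.1 hv
      rw [Finset.mem_range]
      simp only [hg]
      rw [← hw]
      exact grp_lt (fun x hx => X.idx e.1 hv x (by rw [← hw]; simp [hx]))
    simpa using Finset.card_le_card this
  calc F.card ≤ m0 * (F.image g).card := h1
    _ ≤ m0 * (qq + 1) ^ 2 := Nat.mul_le_mul_left _ h2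
    _ = _ := Nat.mul_comm _ _

theorem stFI : StFI := by
  intro V _ G A B m s qq s1 s2 s3 m0 n X t ρ τ id lab Fr A' C hAC z F hF ha
  have hA' : A' ⊆ A ∪ B := by
    rcases hAC with ⟨rfl, -⟩ | ⟨rfl, -⟩ | ⟨rfl, -⟩
    · exact Finset.subset_union_left
    · exact Finset.subset_union_left
    · exact Finset.subset_union_right
  have hC : C ⊆ A ∪ B := by
    rcases hAC with ⟨-, rfl⟩ | ⟨-, rfl⟩ | ⟨-, rfl⟩
    · exact Finset.subset_union_left
    · exact Finset.subset_union_right
    · exact Finset.subset_union_left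
  refine FI1 (ordA Fr.ord) (blkA Fr) s3 ((qq + 1) ^ 2 * m0) z.reverse F ha ?_ ?_ ?_
  · intro e he
    obtain ⟨h1, h2, h3, h4, h5, h6, h7⟩ := hF e he
    obtain ⟨w, hw⟩ := h5
    obtain ⟨c, hc⟩ := h6
    refine ⟨hA' h2, hC h3, w, c, ?_, hw.symm, hc.symm, ?_⟩
    · rintro rfl
      exact h4 (by simpa using hw)
    · have : way t w.length (w ++ X.h e.1) = z := by
        rw [← h7, ← hw]
        congr 1
        simp
      rw [← this, way_eq, List.reverse_reverse]
  · intro Q x y
    refine le_trans (Finset.card_le_card ?_) (X.grp3 Q x y)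
    intro v hv
    obtain ⟨h1, h2, c, h3⟩ := Finset.mem_filter.mp hv
    exact Finset.mem_filter.mpr ⟨h1, h2, c, h3.symm⟩
  · intro Q x hQ
    refine lab_count Fr F Q (fun γ => ED G A' C X.h X.b qq Q γ) ?_ ?_ ha
    · intro γ
      rcases hAC with ⟨rfl, rfl⟩ | ⟨rfl, rfl⟩ | ⟨rfl, rfl⟩
      · exact Fr.good.aa Q γ
      · exact Fr.good.ab Q γ
      · exact Fr.good.ba Q γ
    · intro e he
      obtain ⟨h1, h2, h3, h4, h5, h6, h7⟩ := hF e he
      obtain ⟨h8, h9⟩ := hQ e he
      refine ⟨hA' h2, h8, ?_⟩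
      refine Finset.mem_filter.mpr ⟨Finset.mem_univ _, h1.symm, h3, h2, h8, rfl, x, h9, ?_⟩
      rw [← h9]
      exact h6

theorem stFH : StFH := by
  intro V _ G A B m s qq s1 s2 s3 m0 n X t ρ τ id lab Fr z F hF ha
  rw [Nat.mul_comm]
  refine FH1 (ordA Fr.ord) (blkA Fr) s2 s3 (2 ^ m) z.reverse F ha ?_ ?_ ?_ ?_
  · intro e he
    obtain ⟨h1, h2, h3, h4⟩ := hF e he
    obtain ⟨w, hw⟩ := X.hb e.1 h1
    refine ⟨h1, h2, w, hw.symm, ?_⟩
    have : way t w.length (w ++ X.h e.1) = z := by
      rw [← h4, ← hw]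
      congr 1
      simp
    rw [← this, way_eq, List.reverse_reverse]
  · exact X.bir
  · intro Q x y
    refine le_trans (Finset.card_le_card ?_) (X.grp3 Q x y)
    intro v hv
    obtain ⟨h1, h2, c, h3⟩ := Finset.mem_filter.mp hv
    exact Finset.mem_filter.mpr ⟨h1, h2, c, h3.symm⟩
  · intro F' hF' hk
    have hc : F'.card = (F'.image (fun e => (X.b e.1, X.h e.2))).card := by
      refine (Finset.card_image_of_injOn ?_).symm
      intro e he f hf hef
      by_contra hne
      simp only [Prod.mk.injEq] at hef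
      rcases hk e he f hf hne with ⟨k1, -⟩ | ⟨k1, -⟩ <;>
      · rw [hef.1] at k1
        omega
    rw [hc]
    refine Fr.ord.kp3 _ ?_ ?_
    · intro e he
      obtain ⟨f, hf, rfl⟩ := Finset.mem_image.mp he
      obtain ⟨h1, h2, h3, h4⟩ := hF f (hF' hf)
      refine ⟨?_, f.1, rfl, h3⟩
      have h5 := Fr.adm _ h2
      obtain ⟨w, hw⟩ := X.hb f.2 h2
      simp only
      rw [← hw] at h5
      exact (ordA Fr.ord).oka w h5
    · intro e he f hf hef
      obtain ⟨e', he', rfl⟩ := Finset.mem_image.mp he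
      obtain ⟨f', hf', rfl⟩ := Finset.mem_image.mp hf
      exact hk e' he' f' hf' (fun hh => hef (by rw [hh]))

end Pool.Agent.Lib.MP_1fca17_co.F.R82
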