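import Mathlib
import Pool.Agent.Lib.MP_1fca17_co.Q.Defs

/-!
# MP_1fca17_co : the decoupling lemma with `N` colours, statements (helper93)
-/

namespace Pool.Agent.Lib.MP_1fca17_co.F

open Finset
open scoped Classical
open Pool.Agent.Lib.MP_1fca17_co (sg GenPos Btw LC MonoFam StCount StNum1)
open Pool.Agent.Lib.MP_1fca17_co.Q (Par Anti edgeSeg StGP)

noncomputable section

/-- the basis `R = 4 n` of the heights inside a colour class -/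
def nR (n : ℕ) : ℕ := 4 * n
/-- the height of one colour class -/
def nV (n : ℕ) : ℕ := 8 * n * nR n ^ n
/-- a bound for the heights of a level -/
def nW (N n : ℕ) : ℕ := N * nV n
/-- the ratio of the heights of two consecutive levels -/
def nB (N n : ℕ) : ℕ := 64 * n * nW N n
/-- the horizontal distance of two consecutive levels -/
def nD (N n : ℕ) : ℕ := 32 * n * nW N n
/-- the height of the base line of level `j` -/
def nY (N n : ℕ) : ℕ → ℕ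
  | 0 => 0
  | j + 1 => nY N n j + 8 * nW N n * nB N n ^ j * nD N n
/-- the height inside the level -/
def nh (n : ℕ) (c t : ℕ) : ℕ := c * nV n + nR n ^ t

/-- `P` is (almost) the standard position for the level `ℓ`, the orders `β`, `τ` and the
colour `c`. -/
structure StdPosN {V : Type} (N n : ℕ) (ℓ β τ c : V → ℕ) (P : V → ℝ × ℝ) : Prop where
  n1 : 1 ≤ n
  hc : ∀ v, c v < N
  hβ : ∀ v, β v < n
  hτ : ∀ v, τ v < n
  injβ : ∀ u v, ℓ u = ℓ v → β u = β v → u = v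
  injτ : ∀ u v, ℓ u = ℓ v → τ u = τ v → u = v
  px : ∀ v, (P v).1 = ((nD N n * ℓ v + β v : ℕ) : ℝ)
  py : ∀ v, |(P v).2 - ((nY N n (ℓ v) + nB N n ^ ℓ v * nh n (c v) (τ v) : ℕ) : ℝ)| < 1 / 4

/-- G2: two edges between the levels `j`, `j + 1` with tops of the same colour -/
def StG2N : Prop := ∀ (V : Type) (N n : ℕ) (ℓ β τ c : V → ℕ) (P : V → ℝ × ℝ),
  StdPosN N n ℓ β τ c P → ∀ (q p q' p' : V), ℓ q' = ℓ q → ℓ p = ℓ q + 1 → ℓ p' = ℓ q + 1 →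
  q ≠ q' → p ≠ p' → c p = c p' → (sg P (q, p) ∩ sg P (q', p')).Nonempty → β q < β q' →
  τ p < τ p'

/-- G3: two edges of one level between the same two colours -/
def StG3N : Prop := ∀ (V : Type) (N n : ℕ) (ℓ β τ c : V → ℕ) (P : V → ℝ × ℝ),
  StdPosN N n ℓ β τ c P → ∀ (q p q' p' : V), ℓ q' = ℓ q → ℓ p = ℓ q → ℓ p' = ℓ q →
  c q' = c q → c p' = c p → c q < c p → q ≠ q' → p ≠ p' →
  (sg P (q, p) ∩ sg P (q', p')).Nonempty → β q < β q' → β p' < β p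

/-- G4: two edges of one level, all the ends of the same colour -/
def StG4N : Prop := ∀ (V : Type) (N n : ℕ) (ℓ β τ c : V → ℕ) (P : V → ℝ × ℝ),
  StdPosN N n ℓ β τ c P → ∀ (q p q' p' : V), ℓ q' = ℓ q → ℓ p = ℓ q → ℓ p' = ℓ q →
  c q' = c q → c p = c q → c p' = c q → q ≠ q' → q ≠ p' → p ≠ q' → p ≠ p' →
  τ q < τ p → τ q' < τ p' → (sg P (q, p) ∩ sg P (q', p')).Nonempty →
  LC β τ (q', p') (q, p) ∨ LC β τ (q, p) (q', p')

/-- G6: edges that cannot meet: (a) both ends left of both ends (levels), (b) one level, the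
edges inside two different colours -/
def StG6N : Prop := ∀ (V : Type) (N n : ℕ) (ℓ β τ c : V → ℕ) (P : V → ℝ × ℝ),
  StdPosN N n ℓ β τ c P → ∀ (q p q' p' : V), (sg P (q, p) ∩ sg P (q', p')).Nonempty →
  ¬ (ℓ q < ℓ q' ∧ ℓ q < ℓ p' ∧ ℓ p < ℓ q' ∧ ℓ p < ℓ p') ∧
  ¬ (ℓ q' = ℓ q ∧ ℓ p = ℓ q ∧ ℓ p' = ℓ q ∧ c p = c q ∧ c p' = c q' ∧ c q < c q')

/-- GEOM with `N` colours -/
def StGeomG : Prop := ∀ (V : Type) [Fintype V] (G : SimpleGraph V) (ℓ β τ c : V → ℕ)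
  (N M1 M2 M3 : ℕ), (∀ v, c v < N) →
  (∀ u v, G.Adj u v → ℓ u ≤ ℓ v + 1) →
  (∀ u v, ℓ u = ℓ v → β u = β v → u = v) →
  (∀ u v, ℓ u = ℓ v → τ u = τ v → u = v) →
  (∀ (j x : ℕ) (F : Finset (V × V)),
    (∀ e ∈ F, G.Adj e.1 e.2 ∧ ℓ e.1 = j ∧ ℓ e.2 = j + 1 ∧ c e.2 = x) → Par β τ F →
    F.card ≤ M1) →
  (∀ (j x y : ℕ) (F : Finset (V × V)), x < y →
    (∀ e ∈ F, G.Adj e.1 e.2 ∧ ℓ e.1 = j ∧ ℓ e.2 = j ∧ c e.1 = x ∧ c e.2 = y) →
    Anti β β F → F.card ≤ M2) →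
  (∀ (j x : ℕ) (F : Finset (V × V)),
    (∀ e ∈ F, G.Adj e.1 e.2 ∧ ℓ e.1 = j ∧ ℓ e.2 = j ∧ c e.1 = x ∧ c e.2 = x ∧ τ e.1 < τ e.2) →
    (∀ e ∈ F, ∀ f ∈ F, e ≠ f → LC β τ f e ∨ LC β τ e f) → F.card ≤ M3) →
  ∃ P : V → ℝ × ℝ, GenPos P ∧ ∀ F : Finset (Sym2 V), (∀ e ∈ F, e ∈ G.edgeSet) →
    (∀ e ∈ F, ∀ f ∈ F, e ≠ f → (edgeSeg P e ∩ edgeSeg P f).Nonempty) →
    F.card ≤ 2 * N * M1 + N ^ 2 * M2 + M3

end

end Pool.Agent.Lib.MP_1fca17_co.F
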