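import Mathlib
import Pool.Agent.Lib.MP_1fca17_co.F.GNDefs
import Pool.Agent.Lib.MP_1fca17_co.Q.GAux

/-!
# MP_1fca17_co : coordinates and numbers of the standard position with `N` colours
(helper93 after helper91)
-/

namespace Pool.Agent.Lib.MP_1fca17_co.F.GA

open Finset
open scoped Classical
open Pool.Agent.Lib.MP_1fca17_co (sg GenPos Btw LC MonoFam StCount StNum1)
open Pool.Agent.Lib.MP_1fca17_co.Q.GA (rr rr_ge pow_pos' pow_grow n_ge)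

noncomputable section

theorem nV_cast (n : ℕ) : ((nV n : ℕ) : ℝ) = 8 * (n : ℝ) * rr n := by
  unfold nV rr nR; push_cast; ring

theorem nW_cast (N n : ℕ) : ((nW N n : ℕ) : ℝ) = (N : ℝ) * (nV n : ℝ) := by
  unfold nW; push_cast; ring

theorem nB_cast (N n : ℕ) : ((nB N n : ℕ) : ℝ) = 64 * (n : ℝ) * (nW N n : ℝ) := by
  unfold nB; push_cast; ring

theorem nD_cast (N n : ℕ) : ((nD N n : ℕ) : ℝ) = 32 * (n : ℝ) * (nW N n : ℝ) := by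
  unfold nD; push_cast; ring

theorem nY_cast (N n j : ℕ) : ((nY N n (j + 1) : ℕ) : ℝ) =
    (nY N n j : ℝ) + 8 * (nW N n : ℝ) * (nB N n : ℝ) ^ j * (nD N n : ℝ) := by
  simp only [nY]; push_cast; ring

theorem nV_ge {n : ℕ} (hn : 1 ≤ n) : (32 : ℝ) ≤ (nV n : ℝ) := by
  rw [nV_cast]
  have h1 := n_ge hn
  have h2 := rr_ge hn
  nlinarith

theorem nW_ge {N n : ℕ} (hN : 1 ≤ N) (hn : 1 ≤ n) : (nV n : ℝ) ≤ (nW N n : ℝ) := by
  rw [nW_cast]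
  have h1 := n_ge hN
  have h2 := nV_ge hn
  exact le_mul_of_one_le_left (by linarith) h1

theorem nB_ge {N n : ℕ} (hN : 1 ≤ N) (hn : 1 ≤ n) : (1 : ℝ) ≤ (nB N n : ℝ) := by
  rw [nB_cast]
  have h1 := n_ge hn
  have h2 := nV_ge hn
  have h3 := nW_ge hN hn
  nlinarith

theorem b_ge {N n : ℕ} (hN : 1 ≤ N) (hn : 1 ≤ n) (j : ℕ) : (1 : ℝ) ≤ (nB N n : ℝ) ^ j :=
  one_le_pow₀ (nB_ge hN hn)

/-- the real height inside the level -/
def hh (n : ℕ) (c t : ℕ) : ℝ := (c : ℝ) * (nV n : ℝ) + (4 * (n : ℝ)) ^ t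

theorem nh_cast (n c t : ℕ) : ((nh n c t : ℕ) : ℝ) = hh n c t := by
  unfold nh hh
  simp [nR]

section

variable {V : Type} {N n : ℕ} {ℓ β τ c : V → ℕ} {P : V → ℝ × ℝ}

theorem N1 (H : StdPosN N n ℓ β τ c P) (v : V) : 1 ≤ N := by
  have := H.hc v
  omega

theorem px (H : StdPosN N n ℓ β τ c P) (v : V) :
    (P v).1 = (nD N n : ℝ) * (ℓ v : ℝ) + (β v : ℝ) := by
  rw [H.px v]; push_cast; ring

theorem py (H : StdPosN N n ℓ β τ c P) (v : V) :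
    (nY N n (ℓ v) : ℝ) + (nB N n : ℝ) ^ ℓ v * hh n (c v) (τ v) - 1 / 4 < (P v).2 ∧
    (P v).2 < (nY N n (ℓ v) : ℝ) + (nB N n : ℝ) ^ ℓ v * hh n (c v) (τ v) + 1 / 4 := by
  have h := H.py v
  rw [abs_lt] at h
  push_cast at h
  rw [nh_cast] at h
  constructor <;> linarith [h.1, h.2]

theorem hβ' (H : StdPosN N n ℓ β τ c P) (v : V) : 0 ≤ (β v : ℝ) ∧ (β v : ℝ) + 1 ≤ n := by
  refine ⟨Nat.cast_nonneg _, ?_⟩
  exact_mod_cast H.hβ v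

theorem hτ' (H : StdPosN N n ℓ β τ c P) (v : V) : 1 ≤ (4 * (n : ℝ)) ^ τ v ∧
    4 * (n : ℝ) * (4 * (n : ℝ)) ^ τ v ≤ rr n :=
  ⟨pow_pos' H.n1 _, pow_grow H.n1 (H.hτ v)⟩

theorem rr_le {n : ℕ} (hn : 1 ≤ n) : rr n ≤ (nV n : ℝ) := by
  have h3 := n_ge hn
  have h6 := rr_ge hn
  rw [nV_cast]
  nlinarith

/-- bounds for the height inside the level: `1 ≤ h ≤ W` -/
theorem hh_bd (H : StdPosN N n ℓ β τ c P) (v : V) :
    1 ≤ hh n (c v) (τ v) ∧ hh n (c v) (τ v) ≤ (nW N n : ℝ) := by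
  obtain ⟨h1, h2⟩ := hτ' H v
  have h3 := n_ge H.n1
  have h4 := nV_ge H.n1
  have h6 := rr_ge H.n1
  have h7 : (4 * (n : ℝ)) ^ τ v ≤ rr n := by nlinarith
  have h8 := rr_le H.n1
  have h9 : (c v : ℝ) + 1 ≤ N := by exact_mod_cast H.hc v
  have h10 : (0 : ℝ) ≤ c v := Nat.cast_nonneg _
  rw [nW_cast]
  unfold hh
  have h11 : ((c v : ℝ) + 1) * (nV n : ℝ) ≤ (N : ℝ) * (nV n : ℝ) :=
    mul_le_mul_of_nonneg_right h9 (by linarith)
  have h12 : (0 : ℝ) ≤ (c v : ℝ) * (nV n : ℝ) := by positivity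
  constructor
  · linarith
  · linarith

end

end

end Pool.Agent.Lib.MP_1fca17_co.F.GA
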