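import Mathlib
import Pool.Agent.Lib.MP_1fca17_co.F.GAuxN

/-!
# MP_1fca17_co : row G2 with `N` colours, two edges between the levels `j` and `j + 1`
(helper93 after helper91)
-/

namespace Pool.Agent.Lib.MP_1fca17_co.F

open Finset
open scoped Classical
open Pool.Agent.Lib.MP_1fca17_co (sg GenPos Btw LC MonoFam StCount StNum1)
open Pool.Agent.Lib.MP_1fca17_co.Q.GA (mem_sg rr rr_ge pow_pos' pow_grow n_ge)

noncomputable section

namespace GA

section

variable {V : Type} {M n : ℕ} {ℓ β τ c : V → ℕ} {P : V → ℝ × ℝ}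

theorem hWge (H : StdPosN M n ℓ β τ c P) (v : V) : (32 : ℝ) ≤ (nW M n : ℝ) :=
  (nV_ge H.n1).trans (nW_ge (N1 H v) H.n1)

theorem hh_bd2 (H : StdPosN M n ℓ β τ c P) (v : V) :
    1 ≤ hh n (c v) (τ v) ∧ hh n (c v) (τ v) ≤ 2 * (nW M n : ℝ) := by
  have h1 := hh_bd H v
  have h2 := hWge H v
  exact ⟨h1.1, by linarith [h1.2]⟩

/-- the slope of an edge between the levels `j` and `j + 1` -/
theorem slope (H : StdPosN M n ℓ β τ c P) {q p : V} (hp : ℓ p = ℓ q + 1) :
    0 < (P p).1 - (P q).1 ∧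
    4 * (nW M n : ℝ) * (nB M n : ℝ) ^ ℓ q * ((P p).1 - (P q).1) ≤ (P p).2 - (P q).2 ∧
    (P p).2 - (P q).2 ≤ 16 * (nW M n : ℝ) * (nB M n : ℝ) ^ ℓ q * ((P p).1 - (P q).1) := by
  have hx1 := px H q
  have hx2 := px H p
  have hy1 := py H q
  have hy2 := py H p
  have b1 := hβ' H q
  have b2 := hβ' H p
  have h1 := hh_bd2 H q
  have h2 := hh_bd2 H p
  have hN := n_ge H.n1
  have hV := hWge H q
  have hb := b_ge (N1 H q) H.n1 (ℓ q)
  rw [hp] at hx2 hy2
  rw [nY_cast, pow_succ, nB_cast] at hy2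
  push_cast at hx2
  have hD := nD_cast M n
  have hB := nB_cast M n
  rw [← hB] at hy2
  set Vr : ℝ := (nW M n : ℝ) with hVr
  set b : ℝ := (nB M n : ℝ) ^ ℓ q with hbd
  set D : ℝ := (nD M n : ℝ) with hDd
  set N : ℝ := (n : ℝ) with hNd
  rw [hB] at hy2
  have hDN : 32 * N ≤ D := by
    rw [hD]
    exact le_mul_of_one_le_right (by linarith) (by linarith)
  have hx : (P p).1 - (P q).1 = D + ((β p : ℝ) - β q) := by rw [hx1, hx2]; ring
  have hxl : D - N ≤ (P p).1 - (P q).1 := by rw [hx]; linarith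
  have hxu : (P p).1 - (P q).1 ≤ D + N := by rw [hx]; linarith
  have hVb : 0 < Vr * b := by positivity
  have hNb : 1 ≤ N * b := one_le_mul_of_one_le_of_one_le hN hb
  refine ⟨by linarith, ?_, ?_⟩
  · -- lower bound
    have k1 : 4 * Vr * b * ((P p).1 - (P q).1) ≤ 4 * Vr * b * (D + N) := by
      apply mul_le_mul_of_nonneg_left hxu; positivity
    have k2 : b * hh n (c q) (τ q) ≤ b * (2 * Vr) := by
      apply mul_le_mul_of_nonneg_left h1.2; positivity
    have k3 : (0 : ℝ) ≤ b * (64 * N * Vr) * hh n (c p) (τ p) := by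
      have := h2.1
      positivity
    have k3' : b * (64 * N * Vr) * 1 ≤ b * (64 * N * Vr) * hh n (c p) (τ p) := by
      apply mul_le_mul_of_nonneg_left h2.1; positivity
    have k4 : 1 ≤ b * (64 * N * Vr) := by
      have : 1 * 1 ≤ (N * b) * (64 * Vr) := by
        apply mul_le_mul hNb (by linarith) (by norm_num) (by positivity)
      linarith
    have k5 : 4 * Vr * b * (D + N) + b * (2 * Vr) ≤ 8 * Vr * b * D := by
      have : Vr * b * (4 * N + 2) ≤ Vr * b * (4 * D) := by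
        apply mul_le_mul_of_nonneg_left _ hVb.le
        linarith
      linarith
    linarith [hy1.1, hy1.2, hy2.1, hy2.2]
  · -- upper bound
    have k1 : 16 * Vr * b * (D - N) ≤ 16 * Vr * b * ((P p).1 - (P q).1) := by
      apply mul_le_mul_of_nonneg_left hxl; positivity
    have k2 : (0 : ℝ) ≤ b * hh n (c q) (τ q) := by
      have := h1.1
      positivity
    have k3 : b * (64 * N * Vr) * hh n (c p) (τ p) ≤ b * (64 * N * Vr) * (2 * Vr) := by
      apply mul_le_mul_of_nonneg_left h2.2; positivity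
    have k4 : 1 ≤ Vr * (N * b) := one_le_mul_of_one_le_of_one_le (by linarith) hNb
    have k5 : b * (64 * N * Vr) * (2 * Vr) + 1 / 2 ≤ 8 * Vr * b * D - 16 * Vr * b * N := by
      rw [hD]
      have : Vr * b * N * (32 : ℝ) ≤ Vr * b * N * (128 * Vr) := by
        apply mul_le_mul_of_nonneg_left _ (by positivity)
        linarith
      linarith
    linarith [hy1.1, hy1.2, hy2.1, hy2.2]

end

end GA

open GA in
theorem stG2N : StG2N := by
  intro V M n ℓ β τ c P H q p q' p' hq' hp hp' hqq hpp hc hne hβ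
  obtain ⟨z, hz, hz'⟩ := hne
  obtain ⟨t, ht, ht1, e1, e2⟩ := mem_sg hz
  obtain ⟨t', ht', ht1', e1', e2'⟩ := mem_sg hz'
  by_contra hcon
  have hτne : τ p ≠ τ p' := fun h => hpp (H.injτ p p' (by rw [hp, hp']) h)
  have hlt : τ p' < τ p := by omega
  have hsl := slope H hp
  have hsl' := slope H (show ℓ p' = ℓ q' + 1 by rw [hp', hq'])
  rw [hq'] at hsl'
  obtain ⟨dx, sl, su⟩ := hsl
  obtain ⟨dx', sl', su'⟩ := hsl'
  have hN := n_ge H.n1
  have hV := hWge H q
  have hb := b_ge (N1 H q) H.n1 (ℓ q)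
  have hy1 := py H q
  have hy1' := py H q'
  have hy2 := py H p
  have hy2' := py H p'
  have h1 := hh_bd2 H q
  have h1' := hh_bd2 H q'
  have hxq := px H q
  have hxq' := px H q'
  have hxp := px H p
  have hxp' := px H p'
  have b2 := hβ' H p
  have b2' := hβ' H p'
  have hgrow : (4 * (n : ℝ)) ^ τ p' + 1 ≤ (4 * (n : ℝ)) ^ τ p := by
    have g1 := pow_grow H.n1 hlt
    have g2 := pow_pos' H.n1 (τ p')
    have g3 : (4 : ℝ) * (4 * (n : ℝ)) ^ τ p' ≤ 4 * (n : ℝ) * (4 * (n : ℝ)) ^ τ p' := by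
      apply mul_le_mul_of_nonneg_right _ (by linarith)
      linarith
    linarith
  have hh1 : hh n (c p') (τ p') + 1 ≤ hh n (c p) (τ p) := by
    unfold hh
    rw [hc]
    linarith
  rw [hq'] at hy1' hxq'
  rw [hp] at hy2 hxp
  rw [hp'] at hy2' hxp'
  -- slopes
  set s : ℝ := ((P p).2 - (P q).2) / ((P p).1 - (P q).1) with hs
  set s' : ℝ := ((P p').2 - (P q').2) / ((P p').1 - (P q').1) with hs'
  have hsx : s * ((P p).1 - (P q).1) = (P p).2 - (P q).2 := div_mul_cancel₀ _ dx.ne'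
  have hsx' : s' * ((P p').1 - (P q').1) = (P p').2 - (P q').2 := div_mul_cancel₀ _ dx'.ne'
  set Vr : ℝ := (nW M n : ℝ) with hVr
  set b : ℝ := (nB M n : ℝ) ^ ℓ q with hbd
  have s1 : 4 * Vr * b ≤ s := by rw [hs, le_div_iff₀ dx]; exact sl
  have s2 : s ≤ 16 * Vr * b := by rw [hs, div_le_iff₀ dx]; exact su
  -- the two equations at `z`
  have z1 : z.2 = (P q).2 + s * (z.1 - (P q).1) := by
    rw [e2, e1, ← hsx]; ring
  have z2 : z.2 = (P p).2 - s * ((P p).1 - z.1) := by
    linarith [hsx, z1]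
  have z1' : z.2 = (P q').2 + s' * (z.1 - (P q').1) := by
    rw [e2', e1', ← hsx']; ring
  have z2' : z.2 = (P p').2 - s' * ((P p').1 - z.1) := by
    linarith [hsx', z1']
  have u1 : 0 < z.1 - (P q').1 := by
    rw [e1']
    have := mul_pos ht' dx'
    linarith
  have u2 : 0 < (P p').1 - z.1 := by
    rw [e1']
    have := mul_pos (sub_pos.2 ht1') dx'
    linarith
  have hbq : (β q : ℝ) + 1 ≤ β q' := by exact_mod_cast hβ
  have xq : 1 ≤ (P q').1 - (P q).1 := by rw [hxq, hxq']; linarith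
  -- `e` is above `q'`
  have E0 : 0 < (P q).2 + s * ((P q').1 - (P q).1) - (P q').2 := by
    have k1 : 4 * Vr * b * 1 ≤ s * ((P q').1 - (P q).1) := by
      apply mul_le_mul s1 xq (by norm_num)
      exact le_trans (by positivity) s1
    have k2 : b * hh n (c q') (τ q') ≤ b * (2 * Vr) := by
      apply mul_le_mul_of_nonneg_left h1'.2; positivity
    have k3 : b * 1 ≤ b * hh n (c q) (τ q) := by
      apply mul_le_mul_of_nonneg_left h1.1; positivity
    have k4 : 1 ≤ Vr * b := one_le_mul_of_one_le_of_one_le (by linarith) hb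
    linarith [hy1.1, hy1.2, hy1'.1, hy1'.2]
  have hss : s < s' := by
    have k1 : (s' - s) * (z.1 - (P q').1) = (P q).2 + s * ((P q').1 - (P q).1) - (P q').2 := by
      linear_combination z1 - z1'
    have k2 : 0 < (s' - s) * (z.1 - (P q').1) := by rw [k1]; exact E0
    have k3 : 0 < s' - s := (pos_iff_pos_of_mul_pos k2).2 u1
    linarith
  have k1 : (P p).2 - (P p').2 ≤ s * ((P p).1 - (P p').1) := by
    have k0 : 0 ≤ (s' - s) * ((P p').1 - z.1) := mul_nonneg (by linarith) u2.le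
    have ke : s * ((P p).1 - (P p').1) - ((P p).2 - (P p').2) = (s' - s) * ((P p').1 - z.1) := by
      linear_combination z2 - z2'
    linarith
  have hxpp : (P p).1 - (P p').1 ≤ (n : ℝ) := by rw [hxp, hxp']; linarith
  have s0 : 0 ≤ s := le_trans (by positivity) s1
  have k2 : s * ((P p).1 - (P p').1) ≤ 16 * Vr * b * n := by
    calc s * ((P p).1 - (P p').1) ≤ s * n := mul_le_mul_of_nonneg_left hxpp s0
      _ ≤ 16 * Vr * b * n := mul_le_mul_of_nonneg_right s2 (by linarith)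
  have hB := nB_cast M n
  have k3 : (64 * (n : ℝ) * Vr * b) - 1 / 2 ≤ (P p).2 - (P p').2 := by
    have a1 := hy2.1
    have a2 := hy2'.2
    rw [pow_succ, ← hbd, hB, ← hVr] at a1 a2
    have a3 : b * (64 * (n : ℝ) * Vr) * (hh n (c p') (τ p') + 1) ≤
        b * (64 * (n : ℝ) * Vr) * hh n (c p) (τ p) := by
      apply mul_le_mul_of_nonneg_left hh1; positivity
    linarith
  have k4 : 1 ≤ (n : ℝ) * (Vr * b) :=
    one_le_mul_of_one_le_of_one_le hN (one_le_mul_of_one_le_of_one_le (by linarith) hb)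
  linarith

end

end Pool.Agent.Lib.MP_1fca17_co.F
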