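import Mathlib
import Pool.Agent.Lib.MP_1fca17_co.F.GAuxN
import Pool.Agent.Lib.MP_1fca17_co.Q.G3

/-!
# MP_1fca17_co : row G3 with `N` colours, two edges of one level between the same two colours
(helper93 after helper91)
-/

namespace Pool.Agent.Lib.MP_1fca17_co.F

open Finset
open scoped Classical
open Pool.Agent.Lib.MP_1fca17_co (sg GenPos Btw LC MonoFam StCount StNum1)
open Pool.Agent.Lib.MP_1fca17_co.Q.GA (mem_sg rr rr_ge pow_pos' pow_grow n_ge par_close hor)

noncomputable section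

open GA in
theorem stG3N : StG3N := by
  intro V M n ℓ β τ c P H q p q' p' hq' hp hp' cq' cp' ccc hqq hpp hne hβ
  obtain ⟨z, hz, hz'⟩ := hne
  obtain ⟨t, ht, ht1, e1, e2⟩ := mem_sg hz
  obtain ⟨t', ht', ht1', e1', e2'⟩ := mem_sg hz'
  by_contra hcon
  have hβne : β p ≠ β p' := fun h => hpp (H.injβ p p' (by rw [hp, hp']) h)
  have hlt : β p < β p' := by omega
  have hN := n_ge H.n1
  have hV := nV_ge H.n1
  have hb := b_ge (N1 H q) H.n1 (ℓ q)
  have hr := rr_ge H.n1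
  have hVc := nV_cast n
  have hy1 := py H q
  have hy1' := py H q'
  have hy2 := py H p
  have hy2' := py H p'
  obtain ⟨r1, r1m⟩ := hτ' H q
  obtain ⟨r1', r1m'⟩ := hτ' H q'
  obtain ⟨r2, r2m⟩ := hτ' H p
  obtain ⟨r2', r2m'⟩ := hτ' H p'
  have hxq := px H q
  have hxq' := px H q'
  have hxp := px H p
  have hxp' := px H p'
  have b1' := hβ' H q'
  have b2' := hβ' H p'
  rw [hq'] at hy1' hxq'
  rw [hp] at hy2 hxp
  rw [hp'] at hy2' hxp'
  unfold hh at hy1 hy1' hy2 hy2'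
  rw [cq'] at hy1'
  rw [cp'] at hy2'
  have hcc : (c q : ℝ) + 1 ≤ c p := by exact_mod_cast ccc
  set N : ℝ := (n : ℝ) with hNd
  set r : ℝ := rr n with hrd
  set b : ℝ := (nB M n : ℝ) ^ ℓ q with hbd
  set Q : ℝ := (4 * N) ^ τ q
  set Q' : ℝ := (4 * N) ^ τ q'
  set R : ℝ := (4 * N) ^ τ p
  set R' : ℝ := (4 * N) ^ τ p'
  have m1 := mul_le_mul_of_nonneg_left r1m (by linarith : (0 : ℝ) ≤ b)
  have m1' := mul_le_mul_of_nonneg_left r1m' (by linarith : (0 : ℝ) ≤ b)
  have m2 := mul_le_mul_of_nonneg_left r2m (by linarith : (0 : ℝ) ≤ b)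
  have m2' := mul_le_mul_of_nonneg_left r2m' (by linarith : (0 : ℝ) ≤ b)
  have n1 : 1 ≤ b * Q := one_le_mul_of_one_le_of_one_le hb r1
  have n1' : 1 ≤ b * Q' := one_le_mul_of_one_le_of_one_le hb r1'
  have n2 : 1 ≤ b * R := one_le_mul_of_one_le_of_one_le hb r2
  have n2' : 1 ≤ b * R' := one_le_mul_of_one_le_of_one_le hb r2'
  -- `w` bounds the differences
  have hN0 : 0 < N := by linarith
  have w1 : b * Q ≤ b * r / (4 * N) := by
    rw [le_div_iff₀ (by positivity)]; linarith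
  have w1' : b * Q' ≤ b * r / (4 * N) := by
    rw [le_div_iff₀ (by positivity)]; linarith
  have w2 : b * R ≤ b * r / (4 * N) := by
    rw [le_div_iff₀ (by positivity)]; linarith
  have w2' : b * R' ≤ b * r / (4 * N) := by
    rw [le_div_iff₀ (by positivity)]; linarith
  set W : ℝ := b * r / (4 * N) with hW
  have hWN : W * (4 * N) = b * r := div_mul_cancel₀ _ (by positivity)
  have hbr : 4 * N ≤ b * r := by
    calc 4 * N ≤ r := hr
      _ ≤ b * r := le_mul_of_one_le_left (by linarith) hb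
  have hW1 : 1 ≤ W := by linarith
  have hWbr : W ≤ b * r / 4 := by
    have : W * 4 * 1 ≤ W * 4 * N := mul_le_mul_of_nonneg_left hN (by linarith)
    linarith
  have hbrN : b * r ≤ b * r * N := le_mul_of_one_le_right (by linarith) hN
  have hCC : b * ((c q : ℝ) * (nV n : ℝ)) + 8 * (b * r * N) ≤ b * ((c p : ℝ) * (nV n : ℝ)) := by
    have g1 : ((c q : ℝ) + 1) * (nV n : ℝ) ≤ (c p : ℝ) * (nV n : ℝ) :=
      mul_le_mul_of_nonneg_right hcc (by linarith)
    have g2 := mul_le_mul_of_nonneg_left g1 (by linarith : (0 : ℝ) ≤ b)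
    have g3 : b * (((c q : ℝ) + 1) * (nV n : ℝ)) =
        b * ((c q : ℝ) * (nV n : ℝ)) + 8 * (b * r * N) := by
      rw [hVc]; ring
    linarith
  rw [mul_add] at hy1 hy1' hy2 hy2'
  have hA : 7 * (b * r * N) ≤ (P p).2 - (P q).2 := by
    linarith [hy1.1, hy1.2, hy2.1, hy2.2]
  have dq : |(P q').2 - (P q).2| ≤ W := by
    rw [abs_le]
    constructor <;> linarith [hy1.1, hy1.2, hy1'.1, hy1'.2]
  have dp : |(P p').2 - (P p).2| ≤ W := by
    rw [abs_le]
    constructor <;> linarith [hy2.1, hy2.2, hy2'.1, hy2'.2]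
  have hA0 : 0 < (P p).2 - (P q).2 := by linarith
  have key := par_close ht' ht1' e2 e2' dq dp hA0
  have hdd : |t' - t| * (2 * N) < 1 := by
    by_contra hc
    rw [not_lt] at hc
    have g1 : |t' - t| * (7 * (b * r * N)) ≤ W :=
      le_trans (mul_le_mul_of_nonneg_left hA (abs_nonneg _)) key
    have g2 : (b * r) * 1 ≤ (b * r) * (|t' - t| * (2 * N)) :=
      mul_le_mul_of_nonneg_left hc (by linarith)
    linarith
  have hβ1 : (β q : ℝ) + 1 ≤ β q' := by exact_mod_cast hβ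
  have hβ2 : (β p : ℝ) + 1 ≤ β p' := by exact_mod_cast hlt
  refine hor ht ht1 e1 e1' ?_ ?_ hdd ?_
  · rw [hxq, hxq']; linarith
  · rw [hxp, hxp']; linarith
  · rw [hxq', hxp', abs_le]
    constructor <;> linarith [b1'.1, b1'.2, b2'.1, b2'.2]

end

end Pool.Agent.Lib.MP_1fca17_co.F
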