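import Mathlib
import Pool.Agent.Lib.MP_1fca17_co.F.GNDefs
import Pool.Agent.Lib.MP_1fca17_co.Q.Geom

/-!
# MP_1fca17_co : the decoupling lemma with `N` colours from the statements about two edges
(helper93)
-/

namespace Pool.Agent.Lib.MP_1fca17_co.F

open Finset
open scoped Classical
open Pool.Agent.Lib.MP_1fca17_co (sg GenPos Btw LC MonoFam StCount StNum1)
open Pool.Agent.Lib.MP_1fca17_co.Q (Par Anti edgeSeg StGP edgeSeg93 four93)

/-- the orientations that are used -/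
def TypN {V : Type} (ℓ τ c : V → ℕ) (e : V × V) : Prop :=
  ℓ e.2 = ℓ e.1 + 1 ∨ (ℓ e.2 = ℓ e.1 ∧ c e.1 < c e.2) ∨
    (ℓ e.2 = ℓ e.1 ∧ c e.1 = c e.2 ∧ τ e.1 < τ e.2)

theorem orientN {V : Type} (G : SimpleGraph V) (ℓ τ c : V → ℕ)
    (hl : ∀ u v, G.Adj u v → ℓ u ≤ ℓ v + 1)
    (hτ : ∀ u v, ℓ u = ℓ v → τ u = τ v → u = v) (e : Sym2 V) (he : e ∈ G.edgeSet) :
    ∃ o : V × V, s(o.1, o.2) = e ∧ G.Adj o.1 o.2 ∧ TypN ℓ τ c o := by
  induction e using Sym2.ind with
  | _ u v =>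
    have h : G.Adj u v := he
    have h1 := hl u v h
    have h2 := hl v u h.symm
    have hne := h.ne
    rcases Nat.lt_trichotomy (ℓ u) (ℓ v) with h3 | h3 | h3
    · exact ⟨(u, v), rfl, h, Or.inl (by simp only; omega)⟩
    · rcases Nat.lt_trichotomy (c u) (c v) with hc | hc | hc
      · exact ⟨(u, v), rfl, h, Or.inr (Or.inl ⟨h3.symm, hc⟩)⟩
      · rcases Nat.lt_trichotomy (τ u) (τ v) with h4 | h4 | h4
        · exact ⟨(u, v), rfl, h, Or.inr (Or.inr ⟨h3.symm, hc, h4⟩)⟩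
        · exact absurd (hτ u v h3 h4) hne
        · exact ⟨(v, u), Sym2.eq_swap, h.symm, Or.inr (Or.inr ⟨h3, hc.symm, h4⟩)⟩
      · exact ⟨(v, u), Sym2.eq_swap, h.symm, Or.inr (Or.inl ⟨h3, hc⟩)⟩
    · exact ⟨(v, u), Sym2.eq_swap, h.symm, Or.inl (by simp only; omega)⟩

/-- the count -/
theorem countN {V : Type} (G : SimpleGraph V) (ℓ β τ c : V → ℕ)
    (N M1 M2 M3 : ℕ) (hc : ∀ v, c v < N)
    (H1 : ∀ (j x : ℕ) (F : Finset (V × V)),
      (∀ e ∈ F, G.Adj e.1 e.2 ∧ ℓ e.1 = j ∧ ℓ e.2 = j + 1 ∧ c e.2 = x) → Par β τ F →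
      F.card ≤ M1)
    (H2 : ∀ (j x y : ℕ) (F : Finset (V × V)), x < y →
      (∀ e ∈ F, G.Adj e.1 e.2 ∧ ℓ e.1 = j ∧ ℓ e.2 = j ∧ c e.1 = x ∧ c e.2 = y) →
      Anti β β F → F.card ≤ M2)
    (H3 : ∀ (j x : ℕ) (F : Finset (V × V)),
      (∀ e ∈ F, G.Adj e.1 e.2 ∧ ℓ e.1 = j ∧ ℓ e.2 = j ∧ c e.1 = x ∧ c e.2 = x ∧ τ e.1 < τ e.2) →
      (∀ e ∈ F, ∀ f ∈ F, e ≠ f → LC β τ f e ∨ LC β τ e f) → F.card ≤ M3)
    (F : Finset (V × V)) (hadj : ∀ e ∈ F, G.Adj e.1 e.2) (htyp : ∀ e ∈ F, TypN ℓ τ c e)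
    (hfar : ∀ e ∈ F, ∀ f ∈ F, ¬ (ℓ e.1 < ℓ f.1 ∧ ℓ e.1 < ℓ f.2 ∧ ℓ e.2 < ℓ f.1 ∧ ℓ e.2 < ℓ f.2))
    (hcol : ∀ e ∈ F, ∀ f ∈ F, ¬ (ℓ f.1 = ℓ e.1 ∧ ℓ e.2 = ℓ e.1 ∧ ℓ f.2 = ℓ e.1 ∧
      c e.2 = c e.1 ∧ c f.2 = c f.1 ∧ c e.1 < c f.1))
    (h2 : ∀ e ∈ F, ∀ f ∈ F, e ≠ f → ℓ f.1 = ℓ e.1 → ℓ e.2 = ℓ e.1 + 1 → ℓ f.2 = ℓ e.1 + 1 →
      c e.2 = c f.2 → (β e.1 < β f.1 ∧ τ e.2 < τ f.2) ∨ (β f.1 < β e.1 ∧ τ f.2 < τ e.2))
    (h3 : ∀ e ∈ F, ∀ f ∈ F, e ≠ f → ℓ f.1 = ℓ e.1 → ℓ e.2 = ℓ e.1 → ℓ f.2 = ℓ e.1 →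
      c f.1 = c e.1 → c f.2 = c e.2 → c e.1 < c e.2 →
      (β e.1 < β f.1 ∧ β f.2 < β e.2) ∨ (β f.1 < β e.1 ∧ β e.2 < β f.2))
    (h4 : ∀ e ∈ F, ∀ f ∈ F, e ≠ f → ℓ f.1 = ℓ e.1 → ℓ e.2 = ℓ e.1 → ℓ f.2 = ℓ e.1 →
      c f.1 = c e.1 → c e.2 = c e.1 → c f.2 = c e.1 → τ e.1 < τ e.2 → τ f.1 < τ f.2 →
      LC β τ f e ∨ LC β τ e f) :
    F.card ≤ 2 * N * M1 + N ^ 2 * M2 + M3 := by
  set FA := F.filter (fun e => ℓ e.2 = ℓ e.1 + 1) with hFA
  set FB := F.filter (fun e => ℓ e.2 = ℓ e.1 ∧ c e.1 < c e.2) with hFB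
  set FC := F.filter (fun e => ℓ e.2 = ℓ e.1 ∧ c e.1 = c e.2 ∧ τ e.1 < τ e.2) with hFC
  have hsub : F ⊆ FA ∪ FB ∪ FC := by
    intro e he
    simp only [hFA, hFB, hFC, mem_union, mem_filter]
    rcases htyp e he with h | h | h
    · exact Or.inl (Or.inl ⟨he, h⟩)
    · exact Or.inl (Or.inr ⟨he, h⟩)
    · exact Or.inr ⟨he, h⟩
  -- edges inside the levels
  have cB : FB.card ≤ N ^ 2 * M2 := by
    rcases FB.eq_empty_or_nonempty with h0 | ⟨e0, he0⟩
    · rw [h0]; simp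
    · have m0 := (mem_filter.1 (hFB ▸ he0))
      have key : ∀ e ∈ FB, ℓ e.1 = ℓ e0.1 := by
        intro e he
        have m := (mem_filter.1 (hFB ▸ he))
        have f1 := hfar e m.1 e0 m0.1
        have f2 := hfar e0 m0.1 e m.1
        have := m.2.1
        have := m0.2.1
        omega
      have hsubB : FB ⊆ (range N ×ˢ range N).biUnion
          (fun x => FB.filter (fun e => c e.1 = x.1 ∧ c e.2 = x.2)) := by
        intro e he
        simp only [mem_biUnion, mem_product, mem_range, mem_filter]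
        exact ⟨(c e.1, c e.2), ⟨hc _, hc _⟩, he, rfl, rfl⟩
      have piece : ∀ x ∈ range N ×ˢ range N,
          (FB.filter (fun e => c e.1 = x.1 ∧ c e.2 = x.2)).card ≤ M2 := by
        intro x _
        by_cases hx : x.1 < x.2
        · apply H2 (ℓ e0.1) x.1 x.2 _ hx
          · intro e he
            have m1 := mem_filter.1 he
            have m := (mem_filter.1 (hFB ▸ m1.1))
            exact ⟨hadj e m.1, key e m1.1, by rw [m.2.1, key e m1.1], m1.2.1, m1.2.2⟩
          · intro e he f hf hef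
            have m1 := mem_filter.1 he
            have m := (mem_filter.1 (hFB ▸ m1.1))
            have m1' := mem_filter.1 hf
            have m' := (mem_filter.1 (hFB ▸ m1'.1))
            have k1 := key e m1.1
            have k2 := key f m1'.1
            exact h3 e m.1 f m'.1 hef (by omega) m.2.1 (by have := m'.2.1; omega)
              (by rw [m1.2.1, m1'.2.1]) (by rw [m1.2.2, m1'.2.2]) m.2.2
        · have : (FB.filter (fun e => c e.1 = x.1 ∧ c e.2 = x.2)) = ∅ := by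
            rw [filter_eq_empty_iff]
            intro e he hh
            have m := (mem_filter.1 (hFB ▸ he))
            rw [hh.1, hh.2] at m
            exact hx m.2.2
          rw [this]; simp
      have q1 := card_le_card hsubB
      have q2 := card_biUnion_le_card_mul _ _ M2 piece
      rw [card_product, card_range] at q2
      calc FB.card ≤ N * N * M2 := q1.trans q2
        _ = N ^ 2 * M2 := by ring
  have cC : FC.card ≤ M3 := by
    rcases FC.eq_empty_or_nonempty with h0 | ⟨e0, he0⟩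
    · rw [h0]; simp
    · have m0 := (mem_filter.1 (hFC ▸ he0))
      have key : ∀ e ∈ FC, ℓ e.1 = ℓ e0.1 := by
        intro e he
        have m := (mem_filter.1 (hFC ▸ he))
        have f1 := hfar e m.1 e0 m0.1
        have f2 := hfar e0 m0.1 e m.1
        have := m.2.1
        have := m0.2.1
        omega
      have keyc : ∀ e ∈ FC, c e.1 = c e0.1 := by
        intro e he
        have m := (mem_filter.1 (hFC ▸ he))
        have f1 := hcol e m.1 e0 m0.1
        have f2 := hcol e0 m0.1 e m.1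
        have := key e he
        have := m.2.1
        have := m0.2.1
        have := m.2.2.1
        have := m0.2.2.1
        omega
      apply H3 (ℓ e0.1) (c e0.1) FC
      · intro e he
        have m := (mem_filter.1 (hFC ▸ he))
        exact ⟨hadj e m.1, key e he, by rw [m.2.1, key e he], keyc e he,
          by rw [← m.2.2.1, keyc e he], m.2.2.2⟩
      · intro e he f hf hef
        have m := (mem_filter.1 (hFC ▸ he))
        have m' := (mem_filter.1 (hFC ▸ hf))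
        have k1 := key e he
        have k2 := key f hf
        have k3 := keyc e he
        have k4 := keyc f hf
        have l1 := m.2.1
        have l2 := m'.2.1
        have l3 := m.2.2.1
        have l4 := m'.2.2.1
        exact h4 e m.1 f m'.1 hef (by omega) l1 (by omega) (by omega) (by omega)
          (by omega) m.2.2.2 m'.2.2.2
  have cA : FA.card ≤ 2 * N * M1 := by
    rcases FA.eq_empty_or_nonempty with h0 | hn
    · rw [h0]; simp
    · obtain ⟨e0, he0, hmin⟩ := exists_min_image FA (fun e => ℓ e.1) hn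
      have m0 := (mem_filter.1 (hFA ▸ he0))
      have key : ∀ e ∈ FA, ℓ e.1 = ℓ e0.1 ∨ ℓ e.1 = ℓ e0.1 + 1 := by
        intro e he
        have m := (mem_filter.1 (hFA ▸ he))
        have f2 := hfar e0 m0.1 e m.1
        have h1 : ℓ e0.1 ≤ ℓ e.1 := hmin e he
        have := m.2
        have := m0.2
        omega
      have piece : ∀ (j x : ℕ),
          (FA.filter (fun e => ℓ e.1 = j ∧ c e.2 = x)).card ≤ M1 := by
        intro j x
        apply H1 j x
        · intro e he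
          have m1 := mem_filter.1 he
          have m := (mem_filter.1 (hFA ▸ m1.1))
          exact ⟨hadj e m.1, m1.2.1, by rw [m.2, m1.2.1], m1.2.2⟩
        · intro e he f hf hef
          have m1 := mem_filter.1 he
          have m := (mem_filter.1 (hFA ▸ m1.1))
          have m1' := mem_filter.1 hf
          have m' := (mem_filter.1 (hFA ▸ m1'.1))
          have a1 := m1.2.1
          have a2 := m1'.2.1
          have a3 := m.2
          have a4 := m'.2
          exact h2 e m.1 f m'.1 hef (by omega) (by omega) (by omega)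
            (by rw [m1.2.2, m1'.2.2])
      have hsub2 : FA ⊆ (range N).biUnion (fun x =>
          FA.filter (fun e => ℓ e.1 = ℓ e0.1 ∧ c e.2 = x) ∪
          FA.filter (fun e => ℓ e.1 = ℓ e0.1 + 1 ∧ c e.2 = x)) := by
        intro e he
        simp only [mem_biUnion, mem_range, mem_union, mem_filter]
        refine ⟨c e.2, hc _, ?_⟩
        rcases key e he with h | h
        · exact Or.inl ⟨he, h, rfl⟩
        · exact Or.inr ⟨he, h, rfl⟩
      have q1 := card_le_card hsub2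
      have q2 := card_biUnion_le_card_mul (range N) (fun x =>
          FA.filter (fun e => ℓ e.1 = ℓ e0.1 ∧ c e.2 = x) ∪
          FA.filter (fun e => ℓ e.1 = ℓ e0.1 + 1 ∧ c e.2 = x)) (2 * M1) (by
        intro x _
        have p1 := piece (ℓ e0.1) x
        have p3 := piece (ℓ e0.1 + 1) x
        have q3 := card_union_le (FA.filter (fun e => ℓ e.1 = ℓ e0.1 ∧ c e.2 = x))
          (FA.filter (fun e => ℓ e.1 = ℓ e0.1 + 1 ∧ c e.2 = x))
        omega)
      rw [card_range] at q2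
      calc FA.card ≤ N * (2 * M1) := q1.trans q2
        _ = 2 * N * M1 := by ring
  have q1 := card_le_card hsub
  have q2 := card_union_le (FA ∪ FB) FC
  have q3 := card_union_le FA FB
  omega

/-- GEOM with `N` colours -/
theorem stGeomG (hgp : StGP) (hG2 : StG2N) (hG3 : StG3N) (hG4 : StG4N) (hG6 : StG6N) :
    StGeomG := by
  intro V _ G ℓ β τ c N M1 M2 M3 hc hl hβ hτ H1 H2 H3
  rcases isEmpty_or_nonempty V with hV | hV
  · obtain ⟨P, hP, -, -⟩ := hgp V (fun _ => 0) (fun _ => 0) 1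
      (fun u => (hV.false u).elim) (by norm_num)
    refine ⟨P, hP, ?_⟩
    intro F _ _
    have : F = ∅ := by
      ext e
      induction e using Sym2.ind with
      | _ u v => exact (hV.false u).elim
    rw [this]; simp
  have hN1 : 1 ≤ N := by
    have := hc hV.some
    omega
  -- the bound `n`
  obtain ⟨n, hn1, hnβ, hnτ⟩ : ∃ n : ℕ, 1 ≤ n ∧ (∀ v, β v < n) ∧ ∀ v, τ v < n := by
    refine ⟨(univ : Finset V).sup β + (univ : Finset V).sup τ + 1, by omega, ?_, ?_⟩
    · intro v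
      have := le_sup (f := β) (mem_univ v)
      omega
    · intro v
      have := le_sup (f := τ) (mem_univ v)
      omega
  have hnD : n ≤ nD N n := by
    have hR : 1 ≤ nR n ^ n := Nat.one_le_pow _ _ (by unfold nR; omega)
    have hV' : 1 ≤ nV n := by
      unfold nV
      exact Nat.one_le_iff_ne_zero.2 (by positivity)
    have hW : 1 ≤ nW N n := by
      unfold nW
      exact Nat.one_le_iff_ne_zero.2 (by positivity)
    unfold nD
    nlinarith
  have hxinj : Function.Injective (fun v : V => ((nD N n * ℓ v + β v : ℕ) : ℝ)) := by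
    intro u v h
    have h2 : ((nD N n * ℓ u + β u : ℕ) : ℝ) = ((nD N n * ℓ v + β v : ℕ) : ℝ) := h
    have h' : nD N n * ℓ u + β u = nD N n * ℓ v + β v := by exact_mod_cast h2
    have bu := hnβ u
    have bv := hnβ v
    have hll : ℓ u = ℓ v := by
      rcases Nat.lt_trichotomy (ℓ u) (ℓ v) with h1 | h1 | h1
      · have : nD N n * (ℓ u + 1) ≤ nD N n * ℓ v := Nat.mul_le_mul_left _ h1
        rw [Nat.mul_add, Nat.mul_one] at this
        omega
      · exact h1
      · have : nD N n * (ℓ v + 1) ≤ nD N n * ℓ u := Nat.mul_le_mul_left _ h1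
        rw [Nat.mul_add, Nat.mul_one] at this
        omega
    rw [hll] at h'
    exact hβ u v hll (by omega)
  obtain ⟨P, hP, hPx, hPy⟩ := hgp V (fun v : V => ((nD N n * ℓ v + β v : ℕ) : ℝ))
    (fun v => ((nY N n (ℓ v) + nB N n ^ ℓ v * nh n (c v) (τ v) : ℕ) : ℝ)) (1 / 4) hxinj
    (by norm_num)
  have hstd : StdPosN N n ℓ β τ c P := ⟨hn1, hc, hnβ, hnτ, hβ, hτ, hPx, hPy⟩
  refine ⟨P, hP, ?_⟩
  intro F hF hcross
  -- orientation
  have hex : ∀ e : Sym2 V, ∃ o : V × V, e ∈ G.edgeSet →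
      s(o.1, o.2) = e ∧ G.Adj o.1 o.2 ∧ TypN ℓ τ c o := by
    intro e
    by_cases he : e ∈ G.edgeSet
    · obtain ⟨o, h⟩ := orientN G ℓ τ c hl hτ e he
      exact ⟨o, fun _ => h⟩
    · induction e using Sym2.ind with
      | _ u v => exact ⟨(u, v), fun h => absurd h he⟩
  choose o ho using hex
  have ho1 := fun e he => (ho e he).1
  have ho2 := fun e he => (ho e he).2.1
  have ho3 := fun e he => (ho e he).2.2
  have hoF : ∀ e ∈ F, s((o e).1, (o e).2) = e := fun e he => ho1 e (hF e he)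
  have hinj : Set.InjOn o (F : Set (Sym2 V)) := by
    intro e he f hf h
    rw [← hoF e he, ← hoF f hf, h]
  have hcard : (F.image o).card = F.card := card_image_of_injOn hinj
  rw [← hcard]
  have hadj : ∀ e ∈ F.image o, G.Adj e.1 e.2 := by
    intro e he
    obtain ⟨e', he', rfl⟩ := mem_image.1 he
    exact ho2 e' (hF e' he')
  have htyp : ∀ e ∈ F.image o, TypN ℓ τ c e := by
    intro e he
    obtain ⟨e', he', rfl⟩ := mem_image.1 he
    exact ho3 e' (hF e' he')
  have hdist : ∀ e ∈ F.image o, ∀ f ∈ F.image o, e ≠ f → s(e.1, e.2) ≠ s(f.1, f.2) := by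
    intro e he f hf hef h
    obtain ⟨e', he', rfl⟩ := mem_image.1 he
    obtain ⟨f', hf', rfl⟩ := mem_image.1 hf
    rw [hoF e' he', hoF f' hf'] at h
    exact hef (by rw [h])
  have hmeet : ∀ e ∈ F.image o, ∀ f ∈ F.image o, e ≠ f → (sg P e ∩ sg P f).Nonempty := by
    intro e he f hf hef
    obtain ⟨e', he', rfl⟩ := mem_image.1 he
    obtain ⟨f', hf', rfl⟩ := mem_image.1 hf
    have h1 := hcross e' he' f' hf' (fun h => hef (by rw [h]))
    rw [← hoF e' he', ← hoF f' hf', edgeSeg93, edgeSeg93] at h1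
    exact h1
  have hfour : ∀ e ∈ F.image o, ∀ f ∈ F.image o, e ≠ f →
      e.1 ≠ f.1 ∧ e.1 ≠ f.2 ∧ e.2 ≠ f.1 ∧ e.2 ≠ f.2 := fun e he f hf hef =>
    four93 hP (hadj e he) (hadj f hf) (hdist e he f hf hef) (hmeet e he f hf hef)
  apply countN G ℓ β τ c N M1 M2 M3 hc H1 H2 H3 (F.image o) hadj htyp
  · intro e he f hf
    by_cases hef : e = f
    · subst hef
      rintro ⟨h, -⟩
      exact lt_irrefl _ h
    · exact (hG6 V N n ℓ β τ c P hstd e.1 e.2 f.1 f.2 (hmeet e he f hf hef)).1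
  · intro e he f hf
    by_cases hef : e = f
    · subst hef
      rintro ⟨-, -, -, -, -, h2⟩
      exact lt_irrefl _ h2
    · exact (hG6 V N n ℓ β τ c P hstd e.1 e.2 f.1 f.2 (hmeet e he f hf hef)).2
  · intro e he f hf hef l1 l2 l3 hc
    obtain ⟨d1, d2, d3, d4⟩ := hfour e he f hf hef
    have hm := hmeet e he f hf hef
    have hm' := hmeet f hf e he (Ne.symm hef)
    rcases Nat.lt_trichotomy (β e.1) (β f.1) with hb | hb | hb
    · exact Or.inl ⟨hb, hG2 V N n ℓ β τ c P hstd e.1 e.2 f.1 f.2 l1 l2 l3 d1 d4 hc hm hb⟩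
    · exact absurd (hβ _ _ l1.symm hb) d1
    · exact Or.inr ⟨hb, hG2 V N n ℓ β τ c P hstd f.1 f.2 e.1 e.2 l1.symm (by omega) (by omega)
        d1.symm d4.symm hc.symm hm' hb⟩
  · intro e he f hf hef l1 l2 l3 c1 c2 c3
    obtain ⟨d1, d2, d3, d4⟩ := hfour e he f hf hef
    have hm := hmeet e he f hf hef
    have hm' := hmeet f hf e he (Ne.symm hef)
    rcases Nat.lt_trichotomy (β e.1) (β f.1) with hb | hb | hb
    · exact Or.inl ⟨hb, hG3 V N n ℓ β τ c P hstd e.1 e.2 f.1 f.2 l1 l2 l3 c1 c2 c3 d1 d4 hm hb⟩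
    · exact absurd (hβ _ _ l1.symm hb) d1
    · exact Or.inr ⟨hb, hG3 V N n ℓ β τ c P hstd f.1 f.2 e.1 e.2 l1.symm (by omega) (by omega)
        c1.symm c2.symm (by omega) d1.symm d4.symm hm' hb⟩
  · intro e he f hf hef l1 l2 l3 c1 c2 c3 t1 t2
    obtain ⟨d1, d2, d3, d4⟩ := hfour e he f hf hef
    have hm := hmeet e he f hf hef
    exact hG4 V N n ℓ β τ c P hstd e.1 e.2 f.1 f.2 l1 l2 l3 c1 c2 c3 d1 d2 d3 d4 t1 t2 hm

end Pool.Agent.Lib.MP_1fca17_co.F
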