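import Mathlib
import Pool.Agent.Lib.MP_1fca17_co.F.Defs
import Pool.Agent.Lib.MP_1fca17_co.F.GeomN
import Pool.Agent.Lib.MP_1fca17_co.F.G2N
import Pool.Agent.Lib.MP_1fca17_co.F.G3N
import Pool.Agent.Lib.MP_1fca17_co.F.G4N
import Pool.Agent.Lib.MP_1fca17_co.Q.GP

/-!
# MP_1fca17_co : row GN, the decoupling lemma with `N` colours (helper93)
-/

namespace Pool.Agent.Lib.MP_1fca17_co.F

open Finset
open scoped Classical
open Pool.Agent.Lib.MP_1fca17_co (sg GenPos Btw LC MonoFam StCount StNum1)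
open Pool.Agent.Lib.MP_1fca17_co.Q (Par Anti edgeSeg StGP)

/-- GN -/
theorem stGeomN : StGeomN := by
  intro V _ G N ℓ β τ c M1 M2 M3 hc hl hβ hτ H1 H2 H3
  obtain ⟨P, hP, h⟩ := stGeomG Q.stGP stG2N stG3N stG4N stG6N V G ℓ β τ c N M1 M2 M3 hc hl hβ hτ
    H1 H2 H3
  refine ⟨P, hP, fun F hF hcr => ?_⟩
  rcases Nat.eq_zero_or_pos N with h0 | h0
  · have hV : IsEmpty V := ⟨fun v => by
      have := hc v
      omega⟩
    have hF0 : F = ∅ := by
      ext e
      induction e using Sym2.ind with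
      | _ u v => exact (hV.false u).elim
    rw [hF0]
    simp
  · have h1 := h F hF hcr
    have h2 : M3 ≤ N * M3 := Nat.le_mul_of_pos_left M3 h0
    omega

end Pool.Agent.Lib.MP_1fca17_co.F
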