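import Pool.Agent.Lib.MP_1fca17_co.F.WMap4
import Pool.Agent.Lib.MP_1fca17_co.Q.Kpl

/-!
# MP_1fca17_co (full) : row KPL2 (helper4)

k-planar graphs have a layering whose windows have (12, 84 (k + 1) + 144)-structures: a rooted tree
with at most 3 children at every node, connected sets `Z v` and `S u v` of nodes.
-/

namespace Pool.Agent.Lib.MP_1fca17_co.Q

open Finset
open scoped Classical

noncomputable section

/-- `(c, K)`-structure of `G[W]` -/
def CK {V : Type} (c K : ℕ) (G : SimpleGraph V) (W : Finset V) : Prop :=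
  ∃ (I : Type) (_ : Fintype I) (r : I) (par : I → I) (dep : I → ℕ) (Z : V → Finset I)
    (S : V → V → Finset I),
    dep r = 0 ∧
    (∀ i, i ≠ r → dep i ≠ 0 ∧ dep (par i) + 1 = dep i) ∧
    (∀ i, (univ.filter (fun j => j ≠ r ∧ par j = i)).card ≤ 3) ∧
    (∀ v ∈ W, ∃ t ∈ Z v, ∀ i ∈ Z v, i ≠ t → i ≠ r ∧ par i ∈ Z v) ∧
    (∀ u ∈ W, ∀ v ∈ W, G.Adj u v → (∃ t ∈ S u v, ∀ i ∈ S u v, i ≠ t → i ≠ r ∧ par i ∈ S u v) ∧
      S u v = S v u ∧ (S u v ∩ Z u).Nonempty ∧ (S u v ∩ Z v).Nonempty) ∧
    (∀ i, (W.filter (fun v => i ∈ Z v)).card ≤ c) ∧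
    (∀ i, ((W ×ˢ W).filter (fun p => G.Adj p.1 p.2 ∧ i ∈ S p.1 p.2)).card ≤ K)

/-- KPL2 -/
def StKpl2 : Prop := ∀ (V : Type) [Fintype V] (G : SimpleGraph V) (k : ℕ), KPlanar k G →
  ∃ ℓ : V → ℕ, (∀ u v, G.Adj u v → ℓ u ≤ ℓ v + 1) ∧
    ∀ j, CK 12 (84 * (k + 1) + 144) G (univ.filter (fun v => ℓ v = j ∨ ℓ v = j + 1))

namespace Kpl4

section tree

variable {I : Type} {r : I} {par : I → I} {dep : I → ℕ}

/-- the top is the only element of smallest depth -/
theorem top_dep (hpar : ∀ i, i ≠ r → dep i ≠ 0 ∧ dep (par i) + 1 = dep i) {A : Finset I} {t : I}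
    (ht : ∀ i ∈ A, i ≠ t → i ≠ r ∧ par i ∈ A) :
    ∀ (n : ℕ) (i : I), dep i = n → i ∈ A → dep t ≤ dep i ∧ (dep i ≤ dep t → i = t) := by
  intro n
  induction n with
  | zero =>
    intro i hi hA
    by_cases h : i = t
    · rw [h]; simp
    · exact absurd hi (hpar i (ht i hA h).1).1
  | succ n ih =>
    intro i hi hA
    by_cases h : i = t
    · rw [h]; simp
    · obtain ⟨h1, h2⟩ := ht i hA h
      have h3 := (hpar i h1).2
      have h4 := ih (par i) (by omega) h2
      exact ⟨by omega, by omega⟩

theorem inter_top (hpar : ∀ i, i ≠ r → dep i ≠ 0 ∧ dep (par i) + 1 = dep i) {A B : Finset I}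
    (hA : ∃ t ∈ A, ∀ i ∈ A, i ≠ t → i ≠ r ∧ par i ∈ A)
    (hB : ∃ t ∈ B, ∀ i ∈ B, i ≠ t → i ≠ r ∧ par i ∈ B) (hne : (A ∩ B).Nonempty) :
    ∃ t ∈ A ∩ B, ∀ i ∈ A ∩ B, i ≠ t → i ≠ r ∧ par i ∈ A ∩ B := by
  obtain ⟨a, haA, ha⟩ := hA
  obtain ⟨b, hbB, hb⟩ := hB
  obtain ⟨t, ht, hmin⟩ := exists_min_image (A ∩ B) dep hne
  rw [mem_inter] at ht
  refine ⟨t, mem_inter.2 ht, ?_⟩
  intro i hi hit
  have hi' := hi
  rw [mem_inter] at hi'
  have h1 : i ≠ a := by
    rintro rfl
    have h2 := (top_dep hpar ha _ t rfl ht.1)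
    exact hit (h2.2 (hmin i hi)).symm
  have h2 : i ≠ b := by
    rintro rfl
    have h3 := (top_dep hpar hb _ t rfl ht.2)
    exact hit (h3.2 (hmin i hi)).symm
  exact ⟨(ha i hi'.1 h1).1, mem_inter.2 ⟨(ha i hi'.1 h1).2, (hb i hi'.2 h2).2⟩⟩

end tree

variable {V X D : Type} [Fintype V] [Fintype X] [Fintype D]

/-- weights along a walk of light vertices -/
theorem chain_w (M : PlaneMap X D) (w : X → ℕ) (dist : X → ℕ)
    (lip : ∀ x y, M.Adj x y → dist y ≤ dist x + w y) :
    ∀ (l : List X) (x : X), List.IsChain M.Adj (x :: l) → (∀ y ∈ l, w y = 1) → ∀ y ∈ l,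
      dist y ≤ dist x + l.length ∧ dist x + 1 ≤ dist y + l.length + w x := by
  intro l
  induction l with
  | nil => intro x _ _ y hy; simp at hy
  | cons z l ih =>
    intro x hx hw y hy
    rw [List.isChain_cons_cons] at hx
    have hz : w z = 1 := hw z (by simp)
    have h1 := lip _ _ hx.1
    have h2 := lip _ _ (KplAux.adj_symm M hx.1)
    rw [List.length_cons]
    rcases List.mem_cons.1 hy with rfl | hy
    · omega
    · have := ih z hx.2 (fun y hy => hw y (List.mem_cons_of_mem _ hy)) y hy
      omega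

end Kpl4

open Kpl4 in
theorem stKpl2 (hba : StBase) (ht : StTree) (hp : StTop) : StKpl2 := by
  rintro V _ G k ⟨X, D, _, _, M, ι, path, hι, hpath, hcr⟩
  -- the weights
  let w : X → ℕ := fun x => if x ∈ Set.range ι then k + 1 else 1
  have hwι : ∀ v, w (ι v) = k + 1 := fun v => if_pos ⟨v, rfl⟩
  have hw1 : ∀ x, x ∉ Set.range ι → w x = 1 := fun x hx => if_neg hx
  have hw : ∀ x, 1 ≤ w x := by
    intro x
    by_cases h : x ∈ Set.range ι
    · obtain ⟨v, rfl⟩ := h
      rw [hwι]; omega
    · rw [hw1 x h]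
  obtain ⟨dist, T, P, hlip, hTc, hTe, hTd, hP01, hsp, hconn⟩ := wmap M w hw hba
  obtain ⟨r⟩ := hTc.nonempty
  obtain ⟨par, dep, hr0, hpar, hadj⟩ := ht D T r hTc hTe
  have hpar' : ∀ i, i ≠ r → dep i ≠ 0 ∧ dep (par i) + 1 = dep i :=
    fun i hi => ⟨(hpar i hi).1, (hpar i hi).2.2⟩
  -- the bags
  let bag : D → Finset X := fun d => univ.filter (fun x => ∃ i, x ∈ P i d)
  have hmb : ∀ x d, x ∈ bag d ↔ ∃ i, x ∈ P i d := by
    intro x d
    simp only [bag, mem_filter, mem_univ, true_and]
  have hbag : ∀ d, M.vert d ∈ bag d ∧ M.vert (M.α d) ∈ bag d := fun d =>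
    ⟨(hmb _ _).2 ⟨0, (hP01 d).1⟩, (hmb _ _).2 ⟨1, (hP01 d).2⟩⟩
  have hconn' : ∀ x, ∀ d d', x ∈ bag d → x ∈ bag d' →
      Relation.ReflTransGen (fun e f => x ∈ bag e ∧ x ∈ bag f ∧ T.Adj e f) d d' := by
    intro x d d' hd hd'
    refine Relation.ReflTransGen.mono ?_ _ _ (hconn x d d' ((hmb _ _).1 hd) ((hmb _ _).1 hd'))
    rintro a b ⟨h1, h2, h3⟩
    exact ⟨(hmb _ _).2 h1, (hmb _ _).2 h2, h3⟩
  -- walks
  have hch : ∀ u v, G.Adj u v → List.IsChain M.Adj (ι u :: path u v) := by
    intro u v huv
    have h4 := (hpath u v huv).2.2.2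
    rw [← List.cons_append] at h4
    exact h4.left_of_append
  have hd2 : ∀ u v, G.Adj u v → ∀ x ∈ path u v,
      dist x ≤ dist (ι u) + k ∧ dist (ι u) ≤ dist x + 2 * k := by
    intro u v huv x hx
    obtain ⟨h1, h2, _, _⟩ := hpath u v huv
    have := chain_w M w dist hlip _ _ (hch u v huv) (fun y hy => hw1 y (h2 y hy)) x hx
    rw [hwι] at this
    omega
  have hd1 : ∀ u v, G.Adj u v → dist (ι v) ≤ dist (ι u) + (2 * k + 1) := by
    intro u v huv
    obtain ⟨h1, h2, _, h4⟩ := hpath u v huv
    rcases hl : (path u v).reverse with _ | ⟨x, l⟩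
    · rw [List.reverse_eq_nil_iff] at hl
      rw [hl, List.nil_append, List.isChain_cons_cons] at h4
      have := hlip _ _ h4.1
      rw [hwι] at this
      omega
    · have hl' : path u v = l.reverse ++ [x] := by
        rw [← List.reverse_reverse (path u v), hl, List.reverse_cons]
      have hx : x ∈ path u v := by rw [hl']; simp
      have h5 := (hd2 u v huv x hx).1
      have h6 : M.Adj x (ι v) := by
        rw [hl', List.append_assoc, ← List.cons_append] at h4
        have h7 := h4.right_of_append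
        rw [List.singleton_append, List.isChain_cons_cons] at h7
        exact h7.1
      have h7 := hlip _ _ h6
      rw [hwι] at h7
      omega
  refine ⟨fun v => dist (ι v) / (2 * k + 2), ?_, ?_⟩
  · intro u v huv
    have := hd1 v u huv.symm
    calc dist (ι u) / (2 * k + 2) ≤ (dist (ι v) + (2 * k + 2)) / (2 * k + 2) :=
          Nat.div_le_div_right (by omega)
      _ = dist (ι v) / (2 * k + 2) + 1 := Nat.add_div_right _ (by omega)
  intro j
  set W : Finset V := univ.filter (fun v => dist (ι v) / (2 * k + 2) = j ∨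
    dist (ι v) / (2 * k + 2) = j + 1) with hW
  have hWr : ∀ v ∈ W, j * (2 * k + 2) ≤ dist (ι v) ∧
      dist (ι v) < j * (2 * k + 2) + 4 * (k + 1) := by
    intro v hv
    rw [hW, mem_filter] at hv
    have hk : 0 < 2 * k + 2 := by omega
    constructor
    · rw [← Nat.le_div_iff_mul_le hk]
      omega
    · have h1 : dist (ι v) < (j + 2) * (2 * k + 2) := by
        rw [← Nat.div_lt_iff_lt_mul hk]
        omega
      have h2 : (j + 2) * (2 * k + 2) = j * (2 * k + 2) + 4 * (k + 1) := by ring
      omega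
  let Z : V → Finset D := fun v => univ.filter (fun d => ι v ∈ bag d)
  have hZ : ∀ v d, d ∈ Z v ↔ ι v ∈ bag d := by
    intro v d
    simp only [Z, mem_filter, mem_univ, true_and]
  let S : V → V → Finset D := fun u v => if path u v = [] then Z u ∩ Z v else
    univ.filter (fun d => ∃ x ∈ path u v, x ∈ bag d)
  have hS0 : ∀ u v, path u v = [] → S u v = Z u ∩ Z v := fun u v h => if_pos h
  have hS1 : ∀ u v, path u v ≠ [] → ∀ d, d ∈ S u v ↔ ∃ x ∈ path u v, x ∈ bag d := by
    intro u v h d
    have : S u v = univ.filter (fun d => ∃ x ∈ path u v, x ∈ bag d) := if_neg h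
    rw [this]
    simp only [mem_filter, mem_univ, true_and]
  have hstop := hp D T r par dep hpar' hadj
  have hZtop : ∀ v, ∃ t ∈ Z v, ∀ i ∈ Z v, i ≠ t → i ≠ r ∧ par i ∈ Z v := by
    intro v
    obtain ⟨d0, hd0⟩ := M.surj (ι v)
    have h := hstop (Z v : Set D) ⟨d0, by
      rw [mem_coe, hZ]; exact hd0 ▸ (hbag d0).1⟩ (by
      intro a ha b hb
      rw [mem_coe, hZ] at ha hb
      refine Relation.ReflTransGen.mono ?_ _ _ (hconn' (ι v) a b ha hb)
      rintro x y ⟨h1, h2, h3⟩
      exact ⟨by rw [mem_coe, hZ]; exact h1, by rw [mem_coe, hZ]; exact h2, h3⟩)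
    simpa using h
  have hrev : ∀ u v, G.Adj u v → path v u = (path u v).reverse := fun u v h =>
    (hpath u v h).2.2.1
  have hSsymm : ∀ u v, G.Adj u v → S u v = S v u := by
    intro u v huv
    by_cases h : path u v = []
    · have h' : path v u = [] := by rw [hrev u v huv, h]; rfl
      rw [hS0 u v h, hS0 v u h', inter_comm]
    · have h' : path v u ≠ [] := by
        rw [hrev u v huv]
        simpa using h
      ext d
      rw [hS1 u v h, hS1 v u h', hrev u v huv]
      simp only [List.mem_reverse]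
  have hmeet : ∀ u v, G.Adj u v → (S u v ∩ Z u).Nonempty := by
    intro u v huv
    have h4 := (hpath u v huv).2.2.2
    rcases hl : path u v with _ | ⟨x, l⟩
    · rw [hl, List.nil_append, List.isChain_cons_cons] at h4
      obtain ⟨⟨d, hd1, hd2⟩, _⟩ := h4
      have h1 : d ∈ Z u := (hZ _ _).2 (hd1 ▸ (hbag d).1)
      have h2 : d ∈ Z v := (hZ _ _).2 (hd2 ▸ (hbag d).2)
      exact ⟨d, mem_inter.2 ⟨by rw [hS0 u v hl]; exact mem_inter.2 ⟨h1, h2⟩, h1⟩⟩
    · rw [hl, List.cons_append, List.isChain_cons_cons] at h4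
      obtain ⟨⟨d, hd1, hd2⟩, _⟩ := h4
      have hne : path u v ≠ [] := by rw [hl]; simp
      exact ⟨d, mem_inter.2 ⟨(hS1 u v hne d).2 ⟨x, by rw [hl]; simp, hd2 ▸ (hbag d).2⟩,
        (hZ _ _).2 (hd1 ▸ (hbag d).1)⟩⟩
  have hStop : ∀ u v, G.Adj u v → ∃ t ∈ S u v, ∀ i ∈ S u v, i ≠ t → i ≠ r ∧ par i ∈ S u v := by
    intro u v huv
    by_cases h : path u v = []
    · rw [hS0 u v h]
      refine inter_top hpar' (hZtop u) (hZtop v) ?_
      obtain ⟨d, hd⟩ := hmeet u v huv
      rw [hS0 u v h, mem_inter] at hd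
      exact ⟨d, hd.1⟩
    · obtain ⟨x, l, hl⟩ := List.exists_cons_of_ne_nil h
      obtain ⟨d0, hd0⟩ := M.surj x
      have hxd0 : x ∈ bag d0 := hd0 ▸ (hbag d0).1
      have hmem : ∀ y ∈ x :: l, ∀ d, y ∈ bag d → d ∈ (S u v : Set D) := by
        intro y hy d hd
        rw [mem_coe, hS1 u v h]
        exact ⟨y, by rw [hl]; exact hy, hd⟩
      have hx : ∀ d, x ∈ bag d → Relation.ReflTransGen
          (fun e f => e ∈ (S u v : Set D) ∧ f ∈ (S u v : Set D) ∧ T.Adj e f) d0 d := by
        intro d hd
        refine Relation.ReflTransGen.mono ?_ _ _ (hconn' x d0 d hxd0 hd)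
        rintro a b ⟨h1, h2, h3⟩
        exact ⟨hmem x (by simp) a h1, hmem x (by simp) b h2, h3⟩
      have hchx : List.IsChain M.Adj (x :: l) := by
        have := hch u v huv
        rw [hl, List.isChain_cons_cons] at this
        exact this.2
      have hall : ∀ d ∈ S u v, Relation.ReflTransGen
          (fun e f => e ∈ (S u v : Set D) ∧ f ∈ (S u v : Set D) ∧ T.Adj e f) d0 d := by
        intro d hd
        rw [hS1 u v h, hl] at hd
        obtain ⟨y, hy, hyd⟩ := hd
        rcases List.mem_cons.1 hy with rfl | hy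
        · exact hx d hyd
        · exact KplAux.chain_conn M T bag (S u v : Set D) hbag hconn' d0 l x hchx
            (fun y hy d hd => hmem y (List.mem_cons_of_mem _ hy) d hd) hx y hy d hyd
      have hsymm : ∀ a b, Relation.ReflTransGen
          (fun e f => e ∈ (S u v : Set D) ∧ f ∈ (S u v : Set D) ∧ T.Adj e f) a b →
          Relation.ReflTransGen
          (fun e f => e ∈ (S u v : Set D) ∧ f ∈ (S u v : Set D) ∧ T.Adj e f) b a := by
        intro a b hab
        induction hab with
        | refl => exact Relation.ReflTransGen.refl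
        | tail _ h ih => exact Relation.ReflTransGen.head ⟨h.2.1, h.1, h.2.2.symm⟩ ih
      have hres := hstop (S u v : Set D) ⟨d0, hmem x (by simp) d0 hxd0⟩
        (fun a ha b hb => (hsymm _ _ (hall a ha)).trans (hall b hb))
      simpa using hres
  refine ⟨D, inferInstance, r, par, dep, Z, S, hr0, hpar', ?_, fun v _ => hZtop v, ?_, ?_, ?_⟩
  · intro i
    refine (card_le_card ?_).trans (hTd i)
    intro a ha
    rw [mem_filter] at ha ⊢
    refine ⟨mem_univ _, ?_⟩
    have := (hpar a ha.2.1).2.1
    rw [ha.2.2] at this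
    exact this.symm
  · intro u _ v _ huv
    refine ⟨hStop u v huv, hSsymm u v huv, hmeet u v huv, ?_⟩
    rw [hSsymm u v huv]
    exact hmeet v u huv.symm
  · intro d
    have h1 : ∀ i : Fin 3, (W.filter (fun v => ι v ∈ P i d)).card ≤ 4 := by
      intro i
      have h2 : (W.filter (fun v => ι v ∈ P i d)).card ≤ (range 4).card := by
        refine card_le_card_of_injOn (fun v => (dist (ι v) - j * (2 * k + 2)) / (k + 1)) ?_ ?_
        · intro v hv
          rw [mem_coe, mem_filter] at hv
          have := hWr v hv.1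
          rw [mem_coe, mem_range]
          apply Nat.div_lt_of_lt_mul
          rw [Nat.mul_comm (k + 1) 4]
          omega
        · intro u hu v hv huv
          rw [mem_coe, mem_filter] at hu hv
          by_contra hne
          have hne' : ι u ≠ ι v := fun h => hne (hι h)
          have h3 := hsp i d _ hu.2 _ hv.2 hne'
          rw [hwι, hwι] at h3
          have h4 := hWr u hu.1
          have h5 := hWr v hv.1
          simp only at huv
          have hk : 0 < k + 1 := by omega
          rcases h3 with h3 | h3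
          · have h6 : (dist (ι u) - j * (2 * k + 2)) / (k + 1) + 1 ≤
                (dist (ι v) - j * (2 * k + 2)) / (k + 1) := by
              rw [← Nat.add_div_right _ hk]
              exact Nat.div_le_div_right (by omega)
            omega
          · have h6 : (dist (ι v) - j * (2 * k + 2)) / (k + 1) + 1 ≤
                (dist (ι u) - j * (2 * k + 2)) / (k + 1) := by
              rw [← Nat.add_div_right _ hk]
              exact Nat.div_le_div_right (by omega)
            omega
      rwa [card_range] at h2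
    have h2 : W.filter (fun v => d ∈ Z v) ⊆
        (univ : Finset (Fin 3)).biUnion (fun i => W.filter (fun v => ι v ∈ P i d)) := by
      intro v hv
      rw [mem_filter, hZ, hmb] at hv
      obtain ⟨hv1, i, hi⟩ := hv
      rw [mem_biUnion]
      exact ⟨i, mem_univ _, mem_filter.2 ⟨hv1, hi⟩⟩
    refine (card_le_card h2).trans ((card_biUnion_le_card_mul _ _ 4 (fun i _ => h1 i)).trans ?_)
    simp
  · intro d
    -- pairs without interior points
    have hZc : (W.filter (fun v => d ∈ Z v)).card ≤ 12 := by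
      have h1 : ∀ i : Fin 3, (W.filter (fun v => ι v ∈ P i d)).card ≤ 4 := by
        intro i
        have h2 : (W.filter (fun v => ι v ∈ P i d)).card ≤ (range 4).card := by
          refine card_le_card_of_injOn (fun v => (dist (ι v) - j * (2 * k + 2)) / (k + 1)) ?_ ?_
          · intro v hv
            rw [mem_coe, mem_filter] at hv
            have := hWr v hv.1
            rw [mem_coe, mem_range]
            apply Nat.div_lt_of_lt_mul
            rw [Nat.mul_comm (k + 1) 4]
            omega
          · intro u hu v hv huv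
            rw [mem_coe, mem_filter] at hu hv
            by_contra hne
            have hne' : ι u ≠ ι v := fun h => hne (hι h)
            have h3 := hsp i d _ hu.2 _ hv.2 hne'
            rw [hwι, hwι] at h3
            have h4 := hWr u hu.1
            have h5 := hWr v hv.1
            simp only at huv
            have hk : 0 < k + 1 := by omega
            rcases h3 with h3 | h3
            · have h6 : (dist (ι u) - j * (2 * k + 2)) / (k + 1) + 1 ≤
                  (dist (ι v) - j * (2 * k + 2)) / (k + 1) := by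
                rw [← Nat.add_div_right _ hk]
                exact Nat.div_le_div_right (by omega)
              omega
            · have h6 : (dist (ι v) - j * (2 * k + 2)) / (k + 1) + 1 ≤
                  (dist (ι u) - j * (2 * k + 2)) / (k + 1) := by
                rw [← Nat.add_div_right _ hk]
                exact Nat.div_le_div_right (by omega)
              omega
        rwa [card_range] at h2
      have h2 : W.filter (fun v => d ∈ Z v) ⊆
          (univ : Finset (Fin 3)).biUnion (fun i => W.filter (fun v => ι v ∈ P i d)) := by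
        intro v hv
        rw [mem_filter, hZ, hmb] at hv
        obtain ⟨hv1, i, hi⟩ := hv
        rw [mem_biUnion]
        exact ⟨i, mem_univ _, mem_filter.2 ⟨hv1, hi⟩⟩
      refine (card_le_card h2).trans ((card_biUnion_le_card_mul _ _ 4 (fun i _ => h1 i)).trans ?_)
      simp
    -- the crossing points of the bag in the range
    set A : Finset X := univ.filter (fun x => x ∉ Set.range ι ∧ x ∈ bag d ∧
      j * (2 * k + 2) ≤ dist x + 2 * k ∧ dist x < j * (2 * k + 2) + 4 * (k + 1) + k) with hA
    have hAc : A.card ≤ 3 * (7 * (k + 1)) := by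
      have h1 : ∀ i : Fin 3, (univ.filter (fun x => x ∈ P i d ∧
          j * (2 * k + 2) ≤ dist x + 2 * k ∧
          dist x < j * (2 * k + 2) + 4 * (k + 1) + k)).card ≤ 7 * (k + 1) := by
        intro i
        have h2 : (univ.filter (fun x => x ∈ P i d ∧ j * (2 * k + 2) ≤ dist x + 2 * k ∧
            dist x < j * (2 * k + 2) + 4 * (k + 1) + k)).card ≤
            (Ico (j * (2 * k + 2) - 2 * k) (j * (2 * k + 2) + 4 * (k + 1) + k)).card := by
          refine card_le_card_of_injOn dist ?_ ?_
          · intro x hx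
            rw [mem_coe, mem_filter] at hx
            rw [mem_coe, mem_Ico]
            omega
          · intro x hx y hy hxy
            rw [mem_coe, mem_filter] at hx hy
            by_contra hne
            have h3 := hsp i d x hx.2.1 y hy.2.1 hne
            have := hw x
            have := hw y
            omega
        rw [Nat.card_Ico] at h2
        omega
      have h2 : A ⊆ (univ : Finset (Fin 3)).biUnion (fun i => univ.filter (fun x => x ∈ P i d ∧
          j * (2 * k + 2) ≤ dist x + 2 * k ∧
          dist x < j * (2 * k + 2) + 4 * (k + 1) + k)) := by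
        intro x hx
        rw [hA, mem_filter, hmb] at hx
        obtain ⟨_, _, ⟨i, hi⟩, h3, h4⟩ := hx
        rw [mem_biUnion]
        exact ⟨i, mem_univ _, mem_filter.2 ⟨mem_univ _, hi, h3, h4⟩⟩
      refine (card_le_card h2).trans ((card_biUnion_le_card_mul _ _ (7 * (k + 1))
        (fun i _ => h1 i)).trans ?_)
      simp
    -- the pairs at one crossing point
    have hpair : ∀ x, x ∉ Set.range ι →
        ((W ×ˢ W).filter (fun p => G.Adj p.1 p.2 ∧ x ∈ path p.1 p.2)).card ≤ 4 := by
      intro x hx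
      have h2 := hcr x hx
      set E := {e : Sym2 V | ∃ u v, e = s(u, v) ∧ G.Adj u v ∧ x ∈ path u v} with hE
      have hEfin : E.Finite := Set.toFinite E
      have h5 : hEfin.toFinset.card ≤ 2 := by
        rw [← Set.ncard_eq_toFinset_card E hEfin]
        exact h2
      have hsub : ((W ×ˢ W).filter (fun p => G.Adj p.1 p.2 ∧ x ∈ path p.1 p.2)) ⊆
          hEfin.toFinset.biUnion (fun e => univ.filter (fun p : V × V => s(p.1, p.2) = e)) := by
        rintro ⟨u, v⟩ hp
        rw [mem_filter] at hp
        rw [mem_biUnion]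
        refine ⟨s(u, v), ?_, mem_filter.2 ⟨mem_univ _, rfl⟩⟩
        rw [Set.Finite.mem_toFinset]
        exact ⟨u, v, rfl, hp.2.1, hp.2.2⟩
      refine (card_le_card hsub).trans ?_
      have h4 : (hEfin.toFinset.biUnion
          (fun e => univ.filter (fun p : V × V => s(p.1, p.2) = e))).card ≤
          hEfin.toFinset.card * 2 := by
        refine card_biUnion_le_card_mul _ _ _ ?_
        intro e _
        induction e with
        | _ a b =>
          have h6 : (univ.filter (fun p : V × V => s(p.1, p.2) = s(a, b))) ⊆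
              {(a, b), (b, a)} := by
            rintro ⟨u, v⟩ hp
            rw [mem_filter] at hp
            have h7 := hp.2
            simp only [Sym2.eq_iff] at h7
            rw [mem_insert, mem_singleton]
            rcases h7 with ⟨h8, h9⟩ | ⟨h8, h9⟩
            · left; rw [h8, h9]
            · right; rw [h8, h9]
          exact (card_le_card h6).trans card_le_two
      omega
    have hsub : (W ×ˢ W).filter (fun p => G.Adj p.1 p.2 ∧ d ∈ S p.1 p.2) ⊆
        (A.biUnion (fun x => (W ×ˢ W).filter (fun p => G.Adj p.1 p.2 ∧ x ∈ path p.1 p.2))) ∪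
        ((W.filter (fun v => d ∈ Z v)) ×ˢ (W.filter (fun v => d ∈ Z v))) := by
      rintro ⟨u, v⟩ hp
      rw [mem_filter, mem_product] at hp
      obtain ⟨⟨hu, hv⟩, huv, hd⟩ := hp
      simp only at hu hv huv hd
      rw [mem_union]
      by_cases h : path u v = []
      · right
        rw [hS0 u v h, mem_inter] at hd
        exact mem_product.2 ⟨mem_filter.2 ⟨hu, hd.1⟩, mem_filter.2 ⟨hv, hd.2⟩⟩
      · left
        rw [hS1 u v h] at hd
        obtain ⟨x, hx, hxd⟩ := hd
        have hxr : x ∉ Set.range ι := (hpath u v huv).2.1 x hx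
        rw [mem_biUnion]
        refine ⟨x, ?_, mem_filter.2 ⟨mem_product.2 ⟨hu, hv⟩, huv, hx⟩⟩
        rw [hA, mem_filter]
        have h1 := hd2 u v huv x hx
        have h2 := hWr u hu
        exact ⟨mem_univ _, hxr, hxd, by omega, by omega⟩
    refine (card_le_card hsub).trans ((card_union_le _ _).trans ?_)
    have h1 : (A.biUnion (fun x => (W ×ˢ W).filter
        (fun p => G.Adj p.1 p.2 ∧ x ∈ path p.1 p.2))).card ≤ A.card * 4 := by
      refine card_biUnion_le_card_mul _ _ _ ?_
      intro x hx
      rw [hA, mem_filter] at hx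
      exact hpair x hx.2.1
    rw [card_product]
    have h2 : (W.filter (fun v => d ∈ Z v)).card * (W.filter (fun v => d ∈ Z v)).card ≤ 12 * 12 :=
      Nat.mul_le_mul hZc hZc
    omega

end

end Pool.Agent.Lib.MP_1fca17_co.Q
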