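import Pool.Agent.Lib.MP_1fca17_co.F.Defs
import Pool.Agent.Lib.MP_1fca17_co.F.Kpl4
import Pool.Agent.Lib.MP_1fca17_co.Q.Bfs
import Pool.Agent.Lib.MP_1fca17_co.Q.Tree

/-!
# MP_1fca17_co : row KPL2 in the form of `F/Defs.lean`, without hypotheses (helper4)
-/

namespace Pool.Agent.Lib.MP_1fca17_co.F

open Finset
open scoped Classical
open Pool.Agent.Lib.MP_1fca17_co.Q (PlaneMap KPlanar)

noncomputable section

/-- KPL2 -/
theorem stKpl2 : StKpl2 := by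
  intro V _ G k hG
  obtain ⟨ℓ, hℓ, hCK⟩ := Q.stKpl2 Q.stBase Q.stTree Q.stTop V G k hG
  refine ⟨ℓ, hℓ, fun j => ?_⟩
  obtain ⟨I, hI, r, par, dep, Z, S, hr, hpar, hch, hZ, hS, hc, hK⟩ := hCK j
  have hW : (univ.filter (fun v => ℓ v = j ∨ ℓ v = j + 1)) = win ℓ j := by
    ext v
    simp only [win, mem_filter, mem_univ, true_and, mem_union]
  rw [hW] at hZ hS hc hK
  let T : RTree I := ⟨r, par, dep, hr, fun i hi => (hpar i hi).2⟩
  refine ⟨I, hI, ⟨{
    T := T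
    Z := fun v => (Z v : Set I)
    S := fun u v => if G.Adj u v ∧ u ∈ win ℓ j ∧ v ∈ win ℓ j then (S u v : Set I) else ∅
    child := ?_
    subZ := ?_
    subS := ?_
    symS := ?_
    meet := ?_
    cntZ := ?_
    cntS := ?_ }⟩⟩
  · intro i
    exact hch i
  · intro v hv
    obtain ⟨t, ht, h⟩ := hZ v hv
    exact ⟨t, ht, h⟩
  · intro u hu v hv huv
    obtain ⟨t, ht, h⟩ := (hS u hu v hv huv).1
    simp only [huv, hu, hv, and_self, if_true]
    exact ⟨t, ht, h⟩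
  · intro u v
    by_cases h : G.Adj u v ∧ u ∈ win ℓ j ∧ v ∈ win ℓ j
    · have h' : G.Adj v u ∧ v ∈ win ℓ j ∧ u ∈ win ℓ j := ⟨h.1.symm, h.2.2, h.2.1⟩
      rw [if_pos h, if_pos h', (hS u h.2.1 v h.2.2 h.1).2.1]
    · have h' : ¬ (G.Adj v u ∧ v ∈ win ℓ j ∧ u ∈ win ℓ j) :=
        fun h2 => h ⟨h2.1.symm, h2.2.2, h2.2.1⟩
      rw [if_neg h, if_neg h']
  · intro u hu v hv huv
    obtain ⟨i, hi⟩ := (hS u hu v hv huv).2.2.1
    rw [mem_inter] at hi
    simp only [huv, hu, hv, and_self, if_true]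
    exact ⟨i, hi.1, hi.2⟩
  · intro i
    refine (card_le_card ?_).trans (hc i)
    intro v hv
    simp only [mem_filter, mem_coe] at hv ⊢
    exact hv
  · intro i
    refine (card_le_card ?_).trans (hK i)
    rintro ⟨u, v⟩ he
    simp only [prs, mem_filter, mem_product] at he ⊢
    obtain ⟨⟨⟨hu, hv⟩, huv⟩, h⟩ := he
    simp only [huv, hu, hv, and_self, if_true] at h
    exact ⟨⟨hu, hv⟩, huv, h⟩

end

end Pool.Agent.Lib.MP_1fca17_co.F
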