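import Pool.Agent.Lib.MP_1fca17_co.Q.Lab

/-!
# Labels that avoid all monotone families, general form

The vertices are divided into cells; the labels of the cells are chosen one after another.
-/

set_option autoImplicit false

namespace Pool.Agent.Lib.MP_1fca17_co.F

open Finset
open scoped Classical
open Pool.Agent.Lib.MP_1fca17_co (MonoFam StCount StNum1)
open Pool.Agent.Lib.MP_1fca17_co.Q.Lab96 (mono_congr rare Bad)

namespace LabG96

variable {V : Type} [Fintype V]

/-- a function that avoids rare events -/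
theorem avoid {m t : ℕ} (ht : t ≤ 24) (P : ℕ → (V → Fin m) → Prop) (hm : 1 ≤ m)
    (h : ∀ i < t, 24 * ((univ : Finset (V → Fin m)).filter (P i)).card <
      m ^ Fintype.card V) : ∃ X : V → Fin m, ∀ i < t, ¬ P i X := by
  by_contra hcon
  push Not at hcon
  have h1 : (univ : Finset (V → Fin m)) ⊆ (range t).biUnion (fun i => univ.filter (P i)) := by
    intro X _
    obtain ⟨i, hi, hX⟩ := hcon X
    rw [mem_biUnion]
    exact ⟨i, mem_range.2 hi, mem_filter.2 ⟨mem_univ _, hX⟩⟩
  have h2 := (card_le_card h1).trans card_biUnion_le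
  rw [card_univ, Fintype.card_fun, Fintype.card_fin] at h2
  have h3 : 24 * ∑ i ∈ range t, ((univ : Finset (V → Fin m)).filter (P i)).card ≤
      ∑ _i ∈ range t, (m ^ Fintype.card V - 1) := by
    rw [mul_sum]
    apply sum_le_sum
    intro i hi
    have := h i (mem_range.1 hi)
    omega
  rw [sum_const, card_range, smul_eq_mul] at h3
  have h4 : t * (m ^ Fintype.card V - 1) ≤ 24 * (m ^ Fintype.card V - 1) :=
    Nat.mul_le_mul_right _ ht
  have h5 : 0 < m ^ Fintype.card V := Nat.pow_pos hm
  omega

end LabG96

open LabG96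

/-- labels that avoid all monotone families -/
theorem labG (hc : StCount) (hn : StNum1) (V : Type) [Fintype V] (C : Type) (cell : V → C)
    (rk : C → ℕ) (m N t : ℕ) (E : ℕ → C → Finset (V × V)) (s : ℕ → (V → ℕ) → V → ℤ)
    (ht : t ≤ 24) (hm : 48 * (N + 4) ≤ m ^ 2)
    (hN : ∀ i < t, ∀ c, (E i c).card ≤ N)
    (hE : ∀ i < t, ∀ c, ∀ e ∈ E i c, cell e.2 = c)
    (hs : ∀ i < t, ∀ c, ∀ e ∈ E i c, ∀ lab lab' : V → ℕ,
      (∀ v, rk (cell v) < rk c → lab v = lab' v) → s i lab e.1 = s i lab' e.1) :
    ∃ lab : V → ℕ, (∀ v, lab v < m) ∧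
      ∀ i < t, ∀ c, ∀ F ⊆ E i c, F.card = m → ¬ MonoFam (s i lab) lab F := by
  have hm1 : 1 ≤ m := by
    rcases Nat.eq_zero_or_pos m with h | h
    · subst h
      simp at hm
    · exact h
  -- one cell
  have one : ∀ (lab : V → ℕ) (c : C), (∀ v, lab v < m) → ∃ lab' : V → ℕ, (∀ v, lab' v < m) ∧
      (∀ v, cell v ≠ c → lab' v = lab v) ∧
      ∀ i < t, ∀ F ⊆ E i c, F.card = m → ¬ MonoFam (s i lab') lab' F := by
    intro lab c hlab
    obtain ⟨X, hX⟩ := avoid (V := V) (m := m) ht (fun i => Bad m (E i c) (s i lab)) hm1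
      (fun i hi => rare hc hn hm (E i c) (hN i hi c) (s i lab))
    refine ⟨fun v => if cell v = c then (X v : ℕ) else lab v, fun v => ?_, fun v hv => ?_, ?_⟩
    · by_cases h : cell v = c
      · simp only [h, if_true]
        exact (X v).2
      · simp only [h, if_false]
        exact hlab v
    · simp only [hv, if_false]
    · intro i hi F hF hFm hmono
      refine hX i hi ⟨F, hF, hFm, mono_congr (fun e he => ⟨?_, ?_⟩) hmono⟩
      · apply hs i hi c e (hF he)
        intro v hv
        have h : cell v ≠ c := fun h => by rw [h] at hv; exact lt_irrefl _ hv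
        simp only [h, if_false]
      · simp only [hE i hi c e (hF he), if_true]
  -- the cells of rank less than `r` are good
  have main : ∀ r, ∃ lab : V → ℕ, (∀ v, lab v < m) ∧ ∀ c, rk c < r → ∀ i < t, ∀ F ⊆ E i c,
      F.card = m → ¬ MonoFam (s i lab) lab F := by
    intro r
    induction r with
    | zero => exact ⟨fun _ => 0, fun _ => hm1, fun c hc => absurd hc (Nat.not_lt_zero _)⟩
    | succ r ih =>
      obtain ⟨lab0, b0, g0⟩ := ih
      have step : ∀ S : Finset C, (∀ c ∈ S, rk c = r) → ∃ lab : V → ℕ, (∀ v, lab v < m) ∧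
          (∀ c, rk c < r → ∀ i < t, ∀ F ⊆ E i c, F.card = m → ¬ MonoFam (s i lab) lab F) ∧
          ∀ c ∈ S, ∀ i < t, ∀ F ⊆ E i c, F.card = m → ¬ MonoFam (s i lab) lab F := by
        intro S
        induction S using Finset.induction_on with
        | empty => exact fun _ => ⟨lab0, b0, g0, by simp⟩
        | insert c0 S hc0 ihS =>
          intro hS
          obtain ⟨lab, b1, g1, g2⟩ := ihS (fun c hc => hS c (mem_insert_of_mem hc))
          obtain ⟨lab', b2, k1, k2⟩ := one lab c0 b1
          have hr0 := hS c0 (mem_insert_self _ _)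
          have tr : ∀ c, rk c ≤ r → c ≠ c0 →
              (∀ i < t, ∀ F ⊆ E i c, F.card = m → ¬ MonoFam (s i lab) lab F) →
              ∀ i < t, ∀ F ⊆ E i c, F.card = m → ¬ MonoFam (s i lab') lab' F := by
            intro c hcr hne hg i hi F hF hFm hmono
            refine hg i hi F hF hFm (mono_congr (fun e he => ⟨?_, ?_⟩) hmono)
            · apply hs i hi c e (hF he)
              intro v hv
              apply k1
              intro h
              rw [h, hr0] at hv
              omega
            · apply k1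
              rw [hE i hi c e (hF he)]
              exact hne
          refine ⟨lab', b2, fun c hc => tr c (by omega) (fun h => ?_) (g1 c hc), ?_⟩
          · rw [h, hr0] at hc
            exact lt_irrefl _ hc
          · intro c hc
            rcases mem_insert.1 hc with h | h
            · rw [h]
              exact k2
            · exact tr c (by rw [hS c hc]) (fun h' => hc0 (h' ▸ h)) (g2 c h)
      obtain ⟨lab, b1, g1, g2⟩ := step ((univ.image cell).filter (fun c => rk c = r))
        (fun c hc => (mem_filter.1 hc).2)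
      refine ⟨lab, b1, fun c hc => ?_⟩
      rcases Nat.lt_or_ge (rk c) r with h | h
      · exact g1 c h
      · by_cases hc' : c ∈ univ.image cell
        · exact g2 c (mem_filter.2 ⟨hc', by omega⟩)
        · intro i hi F hF hFm _
          obtain ⟨e, he⟩ : F.Nonempty := by
            rw [← card_pos, hFm]
            exact hm1
          exact hc' (mem_image.2 ⟨e.2, mem_univ _, hE i hi c e (hF he)⟩)
  obtain ⟨lab, b, g⟩ := main ((univ.image (fun v => rk (cell v))).sup id + 1)
  refine ⟨lab, b, fun i hi c F hF hFm => ?_⟩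
  obtain ⟨e, he⟩ : F.Nonempty := by
    rw [← card_pos, hFm]
    exact hm1
  refine g c (Nat.lt_succ_of_le ?_) i hi F hF hFm
  rw [← hE i hi c e (hF he)]
  exact le_sup (f := id) (mem_image.2 ⟨e.2, mem_univ _, rfl⟩)

end Pool.Agent.Lib.MP_1fca17_co.F
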