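import Pool.Agent.Lib.MP_1fca17_co.F.Defs
import Pool.Agent.Lib.MP_1fca17_co.F.LabG96

/-!
# Labels that are good in every block
-/

set_option autoImplicit false

namespace Pool.Agent.Lib.MP_1fca17_co.F

open Finset
open scoped Classical
open Pool.Agent.Lib.MP_1fca17_co (sg GenPos Btw LC MonoFam StCount StNum1)

namespace Lab96

variable {V : Type} [Fintype V]

/-- the first step is determined by the code of the group -/
theorem grp_step {qq x : ℕ} {l b : List ℕ} (hb : ∀ y ∈ b, y < qq) (hx : (x :: l) <:+ b) :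
    grp qq l b / (qq + 1) = x + 1 := by
  obtain ⟨r, hr⟩ := hx
  have h1 : b.reverse.drop l.length = x :: r.reverse := by
    rw [← hr, List.reverse_append, List.reverse_cons, List.append_assoc]
    have h2 : l.length = l.reverse.length := (List.length_reverse).symm
    rw [h2, List.drop_left]
    rfl
  have hq : 0 < qq + 1 := Nat.succ_pos _
  unfold grp
  rw [h1]
  rcases h3 : r.reverse with _ | ⟨y, z⟩
  · exact Nat.mul_div_cancel _ hq
  · have hy : y < qq := by
      apply hb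
      rw [← hr, List.mem_append]
      left
      rw [← List.mem_reverse, h3]
      exact List.mem_cons_self
    show ((x + 1) * (qq + 1) + (y + 1)) / (qq + 1) = x + 1
    rw [Nat.add_comm, Nat.add_mul_div_right _ _ hq, Nat.div_eq_of_lt (by omega)]
    omega

omit [Fintype V] in
theorem key_congr {ρ : List ℕ → ℕ} {qq m0 n : ℕ} {h b : V → List ℕ} {lab lab' id : V → ℕ} {v : V}
    (hv : lab v = lab' v) : key ρ qq m0 n h b lab id v = key ρ qq m0 n h b lab' id v := by
  rw [key, key, hv]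

theorem card_ED {G : SimpleGraph V} {W A C : Finset V} {m s qq s1 s2 s3 t : ℕ}
    (X : Blk G W m s qq s1 s2 s3) (hA : A ⊆ W) (hC : C ⊆ W)
    (hd : ∀ U ⊆ W, (prs G U).card ≤ 4 * t * U.card) (l : List ℕ) (γ : ℕ) :
    (ED G A C X.h X.b qq l γ).card ≤ 8 * t * s1 := by
  set U : Finset V := W.filter (fun v => X.h v = l) ∪
    W.filter (fun v => X.h v = (γ / (qq + 1) - 1) :: l) with hU
  have h1 : ED G A C X.h X.b qq l γ ⊆ prs G U := by
    intro e he
    obtain ⟨-, h1, h2, h3, h4, h5, x, h6, h7⟩ := mem_filter.1 he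
    have hx : γ / (qq + 1) = x + 1 := by
      rw [← h5, h4]
      exact grp_step (X.idx e.2 (hA h3)) h7
    rw [prs, mem_filter, mem_product]
    refine ⟨⟨mem_union_right _ (mem_filter.2 ⟨hC h2, ?_⟩),
      mem_union_left _ (mem_filter.2 ⟨hA h3, h4⟩)⟩, h1⟩
    rw [h6, hx]
    rfl
  have h2 : U.card ≤ 2 * s1 := by
    have a1 := X.blk l
    have a2 := X.blk ((γ / (qq + 1) - 1) :: l)
    have a3 : U.card ≤ _ := card_union_le (W.filter (fun v => X.h v = l))
      (W.filter (fun v => X.h v = (γ / (qq + 1) - 1) :: l))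
    omega
  have h3 : U ⊆ W := union_subset (filter_subset _ _) (filter_subset _ _)
  calc (ED G A C X.h X.b qq l γ).card ≤ (prs G U).card := card_le_card h1
    _ ≤ 4 * t * U.card := hd U h3
    _ ≤ 4 * t * (2 * s1) := Nat.mul_le_mul_left _ h2
    _ = 8 * t * s1 := by ring

theorem card_ES {G : SimpleGraph V} {W A C : Finset V} {m s qq s1 s2 s3 t : ℕ}
    (X : Blk G W m s qq s1 s2 s3) (hA : A ⊆ W) (hC : C ⊆ W)
    (hd : ∀ U ⊆ W, (prs G U).card ≤ 4 * t * U.card) (l : List ℕ) (γ : ℕ) :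
    (ES G A C X.h X.b qq l γ).card ≤ 8 * t * s1 := by
  have h1 : ES G A C X.h X.b qq l γ ⊆ prs G (W.filter (fun v => X.h v = l)) := by
    intro e he
    obtain ⟨-, h1, h2, h3, h4, -, h6⟩ := mem_filter.1 he
    rw [prs, mem_filter, mem_product]
    exact ⟨⟨mem_filter.2 ⟨hC h2, h6⟩, mem_filter.2 ⟨hA h3, h4⟩⟩, h1⟩
  calc (ES G A C X.h X.b qq l γ).card ≤ _ := card_le_card h1
    _ ≤ 4 * t * (W.filter (fun v => X.h v = l)).card := hd _ (filter_subset _ _)
    _ ≤ 4 * t * s1 := Nat.mul_le_mul_left _ (X.blk l)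
    _ ≤ 4 * t * (2 * s1) := Nat.mul_le_mul_left _ (by omega)
    _ = 8 * t * s1 := by ring

/-- the pairs of `S` if `p` holds -/
noncomputable def flt (p : Prop) (S : Finset (V × V)) : Finset (V × V) := S.filter (fun _ => p)

omit [Fintype V] in
theorem mem_flt {p : Prop} {S : Finset (V × V)} {e : V × V} : e ∈ flt p S ↔ e ∈ S ∧ p := by
  rw [flt, mem_filter]

omit [Fintype V] in
theorem card_flt (p : Prop) (S : Finset (V × V)) : (flt p S).card ≤ S.card := by
  rw [flt]
  exact card_filter_le _ _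

/-- the families -/
noncomputable def fam (G : SimpleGraph V) (A B : Finset V) (h b : V → List ℕ) (qq : ℕ) :
    ℕ → List ℕ × ℕ × Prop → Finset (V × V)
  | 0, (l, γ, a) => flt a (ED G A A h b qq l γ)
  | 1, (l, γ, a) => flt a (ED G A B h b qq l γ)
  | 2, (l, γ, a) => flt (¬ a) (ED G B A h b qq l γ)
  | 3, (l, γ, a) => flt a (ES G A B h b qq l γ)
  | _ + 4, (l, γ, a) => flt a (ES G A A h b qq l γ)

/-- the sign functions -/
def sgn (ρ : List ℕ → ℕ) (qq m0 n : ℕ) (h b : V → List ℕ) (τ id : V → ℕ) :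
    ℕ → (V → ℕ) → V → ℤ
  | 4, _ => fun v => (τ v : ℤ)
  | 5, _ => fun v => - (τ v : ℤ)
  | _, lab => fun v => - ((key ρ qq m0 n h b lab id v : ℕ) : ℤ)

end Lab96

open Lab96

/-- LAB2 -/
theorem stLab2 (hc : StCount) (hn : StNum1) : StLab2 := by
  intro V _ G A B m s qq s1 s2 s3 t m0 n X ρ τ id hdis hd hm
  set L := univ.sup (fun v => (X.h v).length) + 1 with hL
  have hLv : ∀ v, (X.h v).length < L := fun v =>
    Nat.lt_succ_of_le (le_sup (f := fun v => (X.h v).length) (mem_univ v))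
  have hBA : ∀ v ∈ B, v ∉ A := fun v hv hv' => disjoint_left.1 hdis hv' hv
  have sA : A ⊆ A ∪ B := subset_union_left
  have sB : B ⊆ A ∪ B := subset_union_right
  obtain ⟨lab, hlab, hgood⟩ := labG hc hn V (List ℕ × ℕ × Prop)
    (fun v => (X.h v, grp qq (X.h v) (X.b v), v ∈ A))
    (fun c => 2 * (L - c.1.length) + (if c.2.2 then 1 else 0)) m0 (8 * t * s1) 6
    (fam G A B X.h X.b qq) (sgn ρ qq m0 n X.h X.b τ id) (by norm_num) hm
    (by
      rintro i hi ⟨l, γ, a⟩
      have h0 := card_ED X sA sA hd l γ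
      have h1 := card_ED X sA sB hd l γ
      have h2 := card_ED X sB sA hd l γ
      have h3 := card_ES X sA sB hd l γ
      have h4 := card_ES X sA sA hd l γ
      rcases i with _ | _ | _ | _ | i
      · exact (card_flt _ _).trans h0
      · exact (card_flt _ _).trans h1
      · exact (card_flt _ _).trans h2
      · exact (card_flt _ _).trans h3
      · exact (card_flt _ _).trans h4)
    (by
      rintro i hi ⟨l, γ, a⟩ e he
      have key1 : ∀ P : Prop, e.2 ∈ A → X.h e.2 = l → grp qq (X.h e.2) (X.b e.2) = γ → a →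
          (X.h e.2, grp qq (X.h e.2) (X.b e.2), e.2 ∈ A) = (l, γ, a) := by
        intro _ h1 h2 h3 h4
        rw [h3, h2, eq_true h1, eq_true h4]
      have key2 : e.2 ∈ B → X.h e.2 = l → grp qq (X.h e.2) (X.b e.2) = γ → ¬ a →
          (X.h e.2, grp qq (X.h e.2) (X.b e.2), e.2 ∈ A) = (l, γ, a) := by
        intro h1 h2 h3 h4
        rw [h3, h2, eq_false (hBA _ h1), eq_false h4]
      rcases i with _ | _ | _ | _ | i
      · obtain ⟨he, ha⟩ := mem_flt.1 he
        obtain ⟨-, h1, h2, h3, h4, h5, -⟩ := mem_filter.1 he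
        exact key1 True h3 h4 h5 ha
      · obtain ⟨he, ha⟩ := mem_flt.1 he
        obtain ⟨-, h1, h2, h3, h4, h5, -⟩ := mem_filter.1 he
        exact key1 True h3 h4 h5 ha
      · obtain ⟨he, ha⟩ := mem_flt.1 he
        obtain ⟨-, h1, h2, h3, h4, h5, -⟩ := mem_filter.1 he
        exact key2 h3 h4 h5 ha
      · obtain ⟨he, ha⟩ := mem_flt.1 he
        obtain ⟨-, h1, h2, h3, h4, h5, -⟩ := mem_filter.1 he
        exact key1 True h3 h4 h5 ha
      · obtain ⟨he, ha⟩ := mem_flt.1 he
        obtain ⟨-, h1, h2, h3, h4, h5, -⟩ := mem_filter.1 he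
        exact key1 True h3 h4 h5 ha)
    (by
      rintro i hi ⟨l, γ, a⟩ e he lab lab' heq
      simp only at heq
      have h01 : ∀ p : Prop, (if p then 1 else 0 : ℕ) ≤ 1 := fun p => by split_ifs <;> omega
      have dn : ∀ x, X.h e.1 = x :: l → lab e.1 = lab' e.1 := by
        intro x hx
        apply heq
        have h1 := hLv e.1
        rw [hx, List.length_cons] at h1 ⊢
        have h2 := h01 (e.1 ∈ A)
        omega
      rcases i with _ | _ | _ | _ | i
      · obtain ⟨he, ha⟩ := mem_flt.1 he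
        obtain ⟨-, h1, h2, h3, h4, h5, x, h6, h7⟩ := mem_filter.1 he
        show - ((key ρ qq m0 n X.h X.b lab id e.1 : ℕ) : ℤ) = - ((key ρ qq m0 n X.h X.b lab' id e.1 : ℕ) : ℤ)
        rw [key_congr (dn x h6)]
      · obtain ⟨he, ha⟩ := mem_flt.1 he
        obtain ⟨-, h1, h2, h3, h4, h5, x, h6, h7⟩ := mem_filter.1 he
        show - ((key ρ qq m0 n X.h X.b lab id e.1 : ℕ) : ℤ) = - ((key ρ qq m0 n X.h X.b lab' id e.1 : ℕ) : ℤ)
        rw [key_congr (dn x h6)]
      · obtain ⟨he, ha⟩ := mem_flt.1 he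
        obtain ⟨-, h1, h2, h3, h4, h5, x, h6, h7⟩ := mem_filter.1 he
        show - ((key ρ qq m0 n X.h X.b lab id e.1 : ℕ) : ℤ) = - ((key ρ qq m0 n X.h X.b lab' id e.1 : ℕ) : ℤ)
        rw [key_congr (dn x h6)]
      · obtain ⟨he, ha⟩ := mem_flt.1 he
        obtain ⟨-, h1, h2, h3, h4, h5, h6⟩ := mem_filter.1 he
        show - ((key ρ qq m0 n X.h X.b lab id e.1 : ℕ) : ℤ) = - ((key ρ qq m0 n X.h X.b lab' id e.1 : ℕ) : ℤ)
        rw [key_congr]
        apply heq
        have ha' : a := ha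
        rw [h6, if_neg (hBA _ h2), if_pos ha']
        omega
      · rcases i with _ | i
        · rfl
        · have : i = 0 := by omega
          subst this
          rfl)
  have hgood' : ∀ i < 6, ∀ l γ a, ∀ F ⊆ fam G A B X.h X.b qq i (l, γ, a), F.card = m0 →
      ¬ MonoFam (sgn ρ qq m0 n X.h X.b τ id i lab) lab F := fun i hi l γ a => hgood i hi (l, γ, a)
  have sub : ∀ (S F : Finset (V × V)) (p : Prop), p → F ⊆ S → F ⊆ flt p S :=
    fun S F p hp hF e he => mem_flt.2 ⟨hF he, hp⟩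
  refine ⟨fun v => ⟨lab v, hlab v⟩, ?_, ?_, ?_, ?_, ?_, ?_⟩
  · intro l γ F hF hFm
    exact hgood' 0 (by norm_num) l γ True F (sub _ _ _ trivial hF) hFm
  · intro l γ F hF hFm
    exact hgood' 1 (by norm_num) l γ True F (sub _ _ _ trivial hF) hFm
  · intro l γ F hF hFm
    exact hgood' 2 (by norm_num) l γ False F (sub _ _ _ (fun h => h) hF) hFm
  · intro l γ F hF hFm
    exact hgood' 3 (by norm_num) l γ True F (sub _ _ _ trivial hF) hFm
  · intro l γ F hF hFm
    exact hgood' 4 (by norm_num) l γ True F (sub _ _ _ trivial hF) hFm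
  · intro l γ F hF hFm
    exact hgood' 5 (by norm_num) l γ True F (sub _ _ _ trivial hF) hFm

end Pool.Agent.Lib.MP_1fca17_co.F
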