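import Mathlib
import Pool.Agent.Lib.MP_1fca17_co.F.Defs

/-!
# MP_1fca17_co : the main theorem from the modules (helper58)
-/

namespace Pool.Agent.Lib.MP_1fca17_co.F

open Finset
open scoped Classical
open Pool.Agent.Lib.MP_1fca17_co (sg GenPos Btw LC MonoFam StCount StNum1)
open Pool.Agent.Lib.MP_1fca17_co.Q (PlaneMap KPlanar Par Anti edgeSeg BaseD StGP)

theorem stFull (hk : StKpl2) (hr : StRec) (hb : StBlk) (hd : StDeg) (ha : StAsm2)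
    (hn : StNumF) : StFull := by
  obtain ⟨C, hC⟩ := hn
  refine ⟨C, ?_⟩
  intro V _ k hk1 G hG
  obtain ⟨q, t, m0, hq, ht, h1, h2, h3, h4⟩ := hC k hk1
  obtain ⟨ℓ, hℓ, hW⟩ := hk V G k hG
  have hB : ∀ j, Nonempty (Blk G (win ℓ j) 24 40 (3 * (4 * q + 2))
      ((12 + (84 * (k + 1) + 144)) * (4 * q + 2)) (12 * (4 * q + 2))
      (4 * (84 * (k + 1) + 144) / q)) := by
    intro j
    obtain ⟨I, hI, ⟨X⟩⟩ := hW j
    obtain ⟨a, ha'⟩ := hr V I G (win ℓ j) 12 (84 * (k + 1) + 144) q X hq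
    exact hb V I G (win ℓ j) 12 (84 * (k + 1) + 144) q 40 X a hq (by norm_num) h2 ha'
  have hD : ∀ j, ∀ U ⊆ win ℓ j, (prs G U).card ≤ 4 * t * U.card := by
    intro j
    obtain ⟨I, hI, ⟨X⟩⟩ := hW j
    exact hd V I G (win ℓ j) 12 (84 * (k + 1) + 144) t X ht h1
  obtain ⟨P, hP, hF⟩ := ha V G ℓ 24 40 (3 * (4 * q + 2))
      ((12 + (84 * (k + 1) + 144)) * (4 * q + 2)) (12 * (4 * q + 2))
      (4 * (84 * (k + 1) + 144) / q) t m0 (by omega) (by norm_num) hℓ hB hD h3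
  refine ⟨P, hP, ?_⟩
  intro F hF1 hF2
  have h5 := hF F hF1 hF2
  calc (F.card : ℝ) ≤ ((4 * (40 + 24) ^ 2 * bnd 24 40 (3 * (4 * q + 2)) (12 * (4 * q + 2))
    (4 * (84 * (k + 1) + 144) / q) m0 : ℕ) : ℝ) := by exact_mod_cast h5
    _ ≤ _ := h4

end Pool.Agent.Lib.MP_1fca17_co.F
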