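import Mathlib

/-!
# MP_1fca17_co : the parameters

`q = max 2 ⌊k^(1/14)⌋`; the number of pairwise crossing edges is at most `C k / q`.
-/

namespace Pool.Agent.Lib.MP_1fca17_co.F

open Filter Topology

/-- the number of ordered pairs at a node -/
def nK (k : ℕ) : ℕ := 84 * (k + 1) + 144
/-- the degeneracy -/
def nd (s : ℕ) : ℕ := 2 * 12 + 2 * s + 2
/-- the size of a cut -/
def nq' (q : ℕ) : ℕ := 4 * q + 2
/-- the number of classes -/
def nqq (q : ℕ) : ℕ := 3 * nq' q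
/-- the number of groups -/
def ngg (q : ℕ) : ℕ := (nqq q + 2) ^ 2
/-- the size of a block -/
def ns1 (k q : ℕ) : ℕ := (12 + nK k) * nq' q
/-- the number of vertices that are cut in one node -/
def ns2 (q : ℕ) : ℕ := 12 * nq' q
/-- the number of inner vertices -/
def ns3 (k q : ℕ) : ℕ := 4 * nK k / q

theorem exists_q (k : ℕ) (hk : 1 ≤ k) : ∃ q : ℕ, 2 ≤ q ∧ k < (q + 1) ^ 14 ∧
    q ^ 14 ≤ 2 ^ 14 * k := by
  classical
  set r := Nat.findGreatest (fun q => q ^ 14 ≤ k) k with hr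
  have h1 : r ^ 14 ≤ k :=
    Nat.findGreatest_spec (P := fun q => q ^ 14 ≤ k) (m := 0) (Nat.zero_le _) (by simp)
  have h2 : k < (r + 1) ^ 14 := by
    by_contra h
    push Not at h
    have h3 : r + 1 ≤ k := by
      calc r + 1 ≤ (r + 1) ^ 14 := Nat.le_self_pow (by norm_num) _
        _ ≤ k := h
    have h4 := Nat.le_findGreatest (P := fun q => q ^ 14 ≤ k) h3 h
    rw [← hr] at h4
    omega
  refine ⟨max 2 r, le_max_left _ _, ?_, ?_⟩
  · refine h2.trans_le (Nat.pow_le_pow_left ?_ 14)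
    have := le_max_right 2 r
    omega
  · rcases le_total 2 r with h | h
    · rw [max_eq_right h]
      nlinarith
    · rw [max_eq_left h]
      nlinarith

theorem nK_le (k : ℕ) (hk : 1 ≤ k) : nK k ≤ 312 * k := by
  unfold nK
  omega

/-- a square root from above -/
theorem exists_sqrt (n : ℕ) : ∃ a : ℕ, n ≤ a ^ 2 ∧ a ^ 2 ≤ 2 * n + 2 := by
  refine ⟨Nat.sqrt n + 1, ?_, ?_⟩
  · have := Nat.lt_succ_sqrt n
    rw [pow_two]
    exact this.le
  · have := Nat.sqrt_le n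
    nlinarith [sq_nonneg ((Nat.sqrt n : ℤ) - 1), Nat.sqrt_le' n]

theorem num6 (k : ℕ) (hk : 1 ≤ k) : ∃ q s m0 : ℕ, 2 ≤ q ∧ k < (q + 1) ^ 14 ∧
    q ^ 14 ≤ 2 ^ 14 * k ∧ 3 * nK k ≤ s ^ 2 ∧ 4 * nK k < q ^ 39 ∧
    48 * (4 * nd s * ns1 k q + 4) ≤ m0 ^ 2 ∧
    (ngg q * m0 + ns2 q + ns3 k q) * q ≤ 2 ^ 26 * k := by
  obtain ⟨q, q2, hkq, hq⟩ := exists_q k hk
  obtain ⟨s, hs1, hs2⟩ := exists_sqrt (3 * nK k)
  obtain ⟨m0, hm1, hm2⟩ := exists_sqrt (48 * (4 * nd s * ns1 k q + 4))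
  have hK := nK_le k hk
  refine ⟨q, s, m0, q2, hkq, hq, hs1, ?_, hm1, ?_⟩
  · -- `4 K < q ^ 39`
    have h1 : 2 ^ 14 * (q + 1) ^ 14 ≤ 3 ^ 14 * q ^ 14 := by
      rw [← mul_pow, ← mul_pow]
      exact Nat.pow_le_pow_left (by omega) 14
    have h2 : 2 ^ 25 ≤ q ^ 25 := Nat.pow_le_pow_left q2 25
    have h3 : q ^ 39 = q ^ 25 * q ^ 14 := by ring
    have h4 : 4 * nK k < 1248 * (q + 1) ^ 14 := by omega
    have h5 : 2 ^ 25 * q ^ 14 ≤ q ^ 39 := by
      rw [h3]
      exact Nat.mul_le_mul_right _ h2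
    omega
  · -- the size
    have hq2 : q ^ 2 ≤ 4 * k := by
      have h1 : 2 ^ 12 ≤ q ^ 12 := Nat.pow_le_pow_left q2 12
      have h2 : q ^ 14 = q ^ 12 * q ^ 2 := by ring
      have h3 : 2 ^ 12 * q ^ 2 ≤ q ^ 14 := by
        rw [h2]
        exact Nat.mul_le_mul_right _ h1
      omega
    have hs3 : s ^ 2 ≤ 1874 * k := by omega
    have hd : nd s ^ 2 ≤ 16384 * k := by
      unfold nd
      have : (2 * 12 + 2 * s + 2) ^ 2 ≤ 1352 + 8 * s ^ 2 := by
        zify
        nlinarith [sq_nonneg ((s : ℤ) * 2 - 26)]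
      omega
    have hd1 : 26 ≤ nd s := by
      unfold nd
      omega
    have hq' : nq' q ≤ 5 * q := by
      unfold nq'
      omega
    have h1 : ns1 k q ≤ 1620 * (k * q) := by
      unfold ns1
      calc (12 + nK k) * nq' q ≤ (324 * k) * (5 * q) := Nat.mul_le_mul (by omega) hq'
        _ = 1620 * (k * q) := by ring
    have hm3 : m0 ^ 2 ≤ 622100 * (nd s * (k * q)) := by
      have h2 : nd s * ns1 k q ≤ 1620 * (nd s * (k * q)) := by
        calc nd s * ns1 k q ≤ nd s * (1620 * (k * q)) := Nat.mul_le_mul_left _ h1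
          _ = 1620 * (nd s * (k * q)) := by ring
      have h3 : 26 * (1 * 2) ≤ nd s * (k * q) :=
        Nat.mul_le_mul hd1 (Nat.mul_le_mul hk q2)
      have h4 : 4 * nd s * ns1 k q = 4 * (nd s * ns1 k q) := by ring
      rw [h4] at hm2
      omega
    have hg : ngg q ≤ 256 * q ^ 2 := by
      unfold ngg nqq
      calc (3 * nq' q + 2) ^ 2 ≤ (16 * q) ^ 2 := by
            apply Nat.pow_le_pow_left
            unfold nq'
            omega
        _ = 256 * q ^ 2 := by ring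
    -- the main term
    have hmain : ngg q * m0 * q ≤ 2 ^ 25 * k := by
      have h2 : ngg q * m0 * q ≤ 256 * (q ^ 3 * m0) := by
        calc ngg q * m0 * q ≤ 256 * q ^ 2 * m0 * q :=
              Nat.mul_le_mul_right _ (Nat.mul_le_mul_right _ hg)
          _ = 256 * (q ^ 3 * m0) := by ring
      refine h2.trans ?_
      have h3 : (256 * (q ^ 3 * m0)) ^ 4 ≤ (2 ^ 25 * k) ^ 4 := by
        calc (256 * (q ^ 3 * m0)) ^ 4 = 256 ^ 4 * q ^ 12 * (m0 ^ 2) ^ 2 := by ring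
          _ ≤ 256 ^ 4 * q ^ 12 * (622100 * (nd s * (k * q))) ^ 2 :=
              Nat.mul_le_mul_left _ (Nat.pow_le_pow_left hm3 2)
          _ = 256 ^ 4 * 622100 ^ 2 * k ^ 2 * (nd s ^ 2) * q ^ 14 := by ring
          _ ≤ 256 ^ 4 * 622100 ^ 2 * k ^ 2 * (16384 * k) * (2 ^ 14 * k) :=
              Nat.mul_le_mul (Nat.mul_le_mul_left _ hd) hq
          _ = (256 ^ 4 * 622100 ^ 2 * 16384 * 2 ^ 14) * k ^ 4 := by ring
          _ ≤ (2 ^ 25) ^ 4 * k ^ 4 := Nat.mul_le_mul_right _ (by norm_num)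
          _ = (2 ^ 25 * k) ^ 4 := by ring
      exact (Nat.pow_le_pow_iff_left (by norm_num)).1 h3
    have h5 : ns2 q * q ≤ 240 * k := by
      unfold ns2
      calc 12 * nq' q * q ≤ 12 * (5 * q) * q :=
            Nat.mul_le_mul_right _ (Nat.mul_le_mul_left _ hq')
        _ = 60 * q ^ 2 := by ring
        _ ≤ 60 * (4 * k) := Nat.mul_le_mul_left _ hq2
        _ = 240 * k := by ring
    have h6 : ns3 k q * q ≤ 1248 * k := by
      unfold ns3
      exact (Nat.div_mul_le_self _ _).trans (by omega)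
    have h7 : (ngg q * m0 + ns2 q + ns3 k q) * q =
        ngg q * m0 * q + ns2 q * q + ns3 k q * q := by ring
    rw [h7]
    omega

/-- the parameters belonging to `k` -/
structure NumOK (k q s m0 : ℕ) : Prop where
  q2 : 2 ≤ q
  kq : k < (q + 1) ^ 14
  qk : q ^ 14 ≤ 2 ^ 14 * k
  hs : 3 * nK k ≤ s ^ 2
  h39 : 4 * nK k < q ^ 39
  hm : 48 * (4 * nd s * ns1 k q + 4) ≤ m0 ^ 2

/-- the sublinear function -/
theorem num_lim6 (Cst : ℕ) : ∃ f : ℕ → ℕ, Tendsto (fun k : ℕ => (f k : ℝ) / k) atTop (𝓝 0) ∧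
    (∀ k, 2 ≤ f k) ∧ f 0 = f 1 ∧ ∀ k, 1 ≤ k → ∃ q s m0 : ℕ, NumOK k q s m0 ∧
      Cst * (ngg q * m0 + ns2 q + ns3 k q) < f k := by
  classical
  choose q s m0 h using fun k : ℕ => num6 (max 1 k) (le_max_left _ _)
  set S : ℕ → ℕ := fun k => ngg (q k) * m0 k + ns2 (q k) + ns3 (max 1 k) (q k) with hS
  refine ⟨fun k => Cst * S (max 1 k) + 2, ?_, fun k => Nat.le_add_left 2 _, by simp, ?_⟩
  · -- the limit
    have hb : ∀ k : ℕ, 1 ≤ k → ((Cst * S k + 2 : ℕ) : ℝ) / k ≤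
        (Cst * 2 ^ 26 : ℝ) / q k + 2 / k := by
      intro k hk
      have hm : max 1 k = k := max_eq_right hk
      have h1 := (h k).2.2.2.2.2.2
      have h2 := (h k).1
      have hk' : (0 : ℝ) < k := by exact_mod_cast hk
      have hq' : (0 : ℝ) < q k := by
        have : (2 : ℝ) ≤ q k := by exact_mod_cast h2
        linarith
      have h3 : (S k : ℝ) * q k ≤ 2 ^ 26 * k := by
        have : (S k : ℕ) * q k ≤ 2 ^ 26 * k := by
          rw [hS]
          simp only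
          rw [hm] at h1 ⊢
          exact h1
        exact_mod_cast this
      have h4 : (S k : ℝ) / k ≤ 2 ^ 26 / q k := by
        rw [div_le_div_iff₀ hk' hq']
        exact h3
      push_cast
      rw [add_div]
      have h5 : (Cst : ℝ) * S k / k ≤ (Cst * 2 ^ 26 : ℝ) / q k := by
        rw [mul_div_assoc, mul_div_assoc]
        exact mul_le_mul_of_nonneg_left h4 (by positivity)
      linarith
    have hq : Tendsto (fun k : ℕ => (q k : ℝ)) atTop atTop := by
      rw [tendsto_natCast_atTop_iff, tendsto_atTop_atTop]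
      intro b
      refine ⟨(b + 1) ^ 14, fun k hk => ?_⟩
      have h1 := (h k).2.1
      have h2 : (b + 1) ^ 14 < (q k + 1) ^ 14 := by
        have := le_max_right 1 k
        omega
      have h3 : b + 1 < q k + 1 := (Nat.pow_lt_pow_iff_left (by norm_num)).1 h2
      omega
    have hl : Tendsto (fun k : ℕ => (Cst * 2 ^ 26 : ℝ) / q k + 2 / k) atTop (𝓝 0) := by
      have h1 : Tendsto (fun k : ℕ => (Cst * 2 ^ 26 : ℝ) / q k) atTop (𝓝 0) :=
        Tendsto.div_atTop tendsto_const_nhds hq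
      have h2 : Tendsto (fun k : ℕ => (2 : ℝ) / k) atTop (𝓝 0) :=
        tendsto_const_div_atTop_nhds_zero_nat 2
      simpa using h1.add h2
    refine squeeze_zero' (Eventually.of_forall fun k => by positivity) ?_ hl
    filter_upwards [eventually_ge_atTop 1] with k hk
    rw [max_eq_right hk]
    exact hb k hk
  · intro k hk
    have hm : max 1 k = k := max_eq_right hk
    obtain ⟨h1, h2, h3, h4, h5, h6, h7⟩ := h k
    refine ⟨q k, s k, m0 k, ?_, ?_⟩
    · rw [hm] at h2 h3 h4 h5 h6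
      exact ⟨h1, h2, h3, h4, h5, h6⟩
    · change Cst * (ngg (q k) * m0 k + ns2 (q k) + ns3 k (q k)) < Cst * S (max 1 k) + 2
      rw [hm, hS]
      simp only
      rw [hm]
      omega

end Pool.Agent.Lib.MP_1fca17_co.F
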