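import Mathlib
import Pool.Agent.Lib.MP_1fca17_co.F.Defs
import Pool.Agent.Lib.MP_1fca17_co.F.Num6

/-!
# MP_1fca17_co : the choice of the parameters
-/

namespace Pool.Agent.Lib.MP_1fca17_co.F

namespace NumA

/-- the parameters with natural numbers -/
theorem numA (k : ℕ) (hk : 1 ≤ k) : ∃ q s m0 : ℕ, 2 ≤ q ∧ k < (q + 1) ^ 14 ∧
    3 * nK k < (s + 1) ^ 2 ∧ 4 * nK k < q ^ 39 ∧
    48 * (8 * (12 + s) * ((12 + nK k) * (4 * q + 2)) + 4) ≤ m0 ^ 2 ∧
    ((3 * (4 * q + 2) + 1) ^ 2 * m0 + 12 * (4 * q + 2) + 4 * nK k / q) * q ≤ 2 ^ 26 * k := by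
  obtain ⟨q, q2, hkq, hq⟩ := exists_q k hk
  have hK := nK_le k hk
  set s := Nat.sqrt (3 * nK k) with hs
  obtain ⟨m0, hm1, hm2⟩ := exists_sqrt (48 * (8 * (12 + s) * ((12 + nK k) * (4 * q + 2)) + 4))
  have hs1 : 3 * nK k < (s + 1) ^ 2 := by
    have := Nat.lt_succ_sqrt (3 * nK k)
    rw [pow_two]
    exact this
  have hs2 : s ^ 2 ≤ 3 * nK k := Nat.sqrt_le' _
  refine ⟨q, s, m0, q2, hkq, hs1, ?_, hm1, ?_⟩
  · have h1 : 2 ^ 14 * (q + 1) ^ 14 ≤ 3 ^ 14 * q ^ 14 := by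
      rw [← mul_pow, ← mul_pow]
      exact Nat.pow_le_pow_left (by omega) 14
    have h2 : 2 ^ 25 ≤ q ^ 25 := Nat.pow_le_pow_left q2 25
    have h3 : q ^ 39 = q ^ 25 * q ^ 14 := by ring
    have h4 : 4 * nK k < 1248 * (q + 1) ^ 14 := by omega
    have h5 : 2 ^ 25 * q ^ 14 ≤ q ^ 39 := by
      rw [h3]
      exact Nat.mul_le_mul_right _ h2
    omega
  · have hq2 : q ^ 2 ≤ 4 * k := by
      have h1 : 2 ^ 12 ≤ q ^ 12 := Nat.pow_le_pow_left q2 12
      have h2 : q ^ 14 = q ^ 12 * q ^ 2 := by ring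
      have h3 : 2 ^ 12 * q ^ 2 ≤ q ^ 14 := by
        rw [h2]
        exact Nat.mul_le_mul_right _ h1
      omega
    have hd : (12 + s) ^ 2 ≤ 2160 * k := by
      have : (12 + s) ^ 2 ≤ 288 + 2 * s ^ 2 := by
        zify
        nlinarith [sq_nonneg ((s : ℤ) - 12)]
      omega
    have hd1 : 12 ≤ 12 + s := by omega
    set t := 12 + s with ht
    have hq' : 4 * q + 2 ≤ 5 * q := by omega
    have h1 : (12 + nK k) * (4 * q + 2) ≤ 1620 * (k * q) := by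
      calc (12 + nK k) * (4 * q + 2) ≤ (324 * k) * (5 * q) := Nat.mul_le_mul (by omega) hq'
        _ = 1620 * (k * q) := by ring
    have hm3 : m0 ^ 2 ≤ 1244200 * (t * (k * q)) := by
      have h2 : t * ((12 + nK k) * (4 * q + 2)) ≤ 1620 * (t * (k * q)) := by
        calc t * ((12 + nK k) * (4 * q + 2)) ≤ t * (1620 * (k * q)) := Nat.mul_le_mul_left _ h1
          _ = 1620 * (t * (k * q)) := by ring
      have h3 : 12 * (1 * 2) ≤ t * (k * q) :=
        Nat.mul_le_mul hd1 (Nat.mul_le_mul hk q2)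
      have h4 : 8 * t * ((12 + nK k) * (4 * q + 2)) = 8 * (t * ((12 + nK k) * (4 * q + 2))) := by
        ring
      rw [h4] at hm2
      omega
    have hg : (3 * (4 * q + 2) + 1) ^ 2 ≤ 256 * q ^ 2 := by
      calc (3 * (4 * q + 2) + 1) ^ 2 ≤ (16 * q) ^ 2 := by
            apply Nat.pow_le_pow_left
            omega
        _ = 256 * q ^ 2 := by ring
    have hmain : (3 * (4 * q + 2) + 1) ^ 2 * m0 * q ≤ 2 ^ 25 * k := by
      have h2 : (3 * (4 * q + 2) + 1) ^ 2 * m0 * q ≤ 256 * (q ^ 3 * m0) := by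
        calc (3 * (4 * q + 2) + 1) ^ 2 * m0 * q ≤ 256 * q ^ 2 * m0 * q :=
              Nat.mul_le_mul_right _ (Nat.mul_le_mul_right _ hg)
          _ = 256 * (q ^ 3 * m0) := by ring
      refine h2.trans ?_
      have h3 : (256 * (q ^ 3 * m0)) ^ 4 ≤ (2 ^ 25 * k) ^ 4 := by
        calc (256 * (q ^ 3 * m0)) ^ 4 = 256 ^ 4 * q ^ 12 * (m0 ^ 2) ^ 2 := by ring
          _ ≤ 256 ^ 4 * q ^ 12 * (1244200 * (t * (k * q))) ^ 2 :=
              Nat.mul_le_mul_left _ (Nat.pow_le_pow_left hm3 2)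
          _ = 256 ^ 4 * 1244200 ^ 2 * k ^ 2 * (t ^ 2) * q ^ 14 := by ring
          _ ≤ 256 ^ 4 * 1244200 ^ 2 * k ^ 2 * (2160 * k) * (2 ^ 14 * k) :=
              Nat.mul_le_mul (Nat.mul_le_mul_left _ hd) hq
          _ = (256 ^ 4 * 1244200 ^ 2 * 2160 * 2 ^ 14) * k ^ 4 := by ring
          _ ≤ (2 ^ 25) ^ 4 * k ^ 4 := Nat.mul_le_mul_right _ (by norm_num)
          _ = (2 ^ 25 * k) ^ 4 := by ring
      exact (Nat.pow_le_pow_iff_left (by norm_num)).1 h3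
    have h5 : 12 * (4 * q + 2) * q ≤ 240 * k := by
      calc 12 * (4 * q + 2) * q ≤ 12 * (5 * q) * q :=
            Nat.mul_le_mul_right _ (Nat.mul_le_mul_left _ hq')
        _ = 60 * q ^ 2 := by ring
        _ ≤ 60 * (4 * k) := Nat.mul_le_mul_left _ hq2
        _ = 240 * k := by ring
    have h6 : 4 * nK k / q * q ≤ 1248 * k :=
      (Nat.div_mul_le_self _ _).trans (by omega)
    have h7 : ((3 * (4 * q + 2) + 1) ^ 2 * m0 + 12 * (4 * q + 2) + 4 * nK k / q) * q =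
        (3 * (4 * q + 2) + 1) ^ 2 * m0 * q + 12 * (4 * q + 2) * q + 4 * nK k / q * q := by ring
    rw [h7]
    omega

end NumA

/-- NUM -/
theorem stNumF : StNumF := by
  refine ⟨4 * (40 + 24) ^ 2 * (8 * (24 + 2) ^ 40 * 2 ^ 24) * 2 ^ 27, fun k hk => ?_⟩
  obtain ⟨q, s, m0, q2, hkq, hs, h39, hm, hS⟩ := NumA.numA k hk
  refine ⟨q, 12 + s, m0, by omega, by omega, ?_, h39, hm, ?_⟩
  · have : 12 + s + 1 - 12 = s + 1 := by omega
    rw [this]
    exact hs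
  · set S : ℕ := (3 * (4 * q + 2) + 1) ^ 2 * m0 + 12 * (4 * q + 2) + 4 * nK k / q with hSd
    have hk0 : (0 : ℝ) < k := by exact_mod_cast hk
    have hq0 : (0 : ℝ) < q := by
      have : 0 < q := by omega
      exact_mod_cast this
    set y : ℝ := (k : ℝ) ^ ((1 : ℝ) / 14) with hy
    have hy0 : 0 < y := Real.rpow_pos_of_pos hk0 _
    have hy14 : y ^ 14 = k := by
      rw [hy, ← Real.rpow_natCast, ← Real.rpow_mul hk0.le]
      norm_num
    have hmul : (k : ℝ) ^ ((13 : ℝ) / 14) * y = k := by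
      rw [hy, ← Real.rpow_add hk0]
      norm_num
    have hyq : y ≤ 2 * q := by
      have h1 : y < q + 1 := by
        by_contra h
        push Not at h
        have h2 : ((q : ℝ) + 1) ^ 14 ≤ y ^ 14 := pow_le_pow_left₀ (by positivity) h 14
        rw [hy14] at h2
        have h3 : (k : ℝ) < ((q : ℝ) + 1) ^ 14 := by exact_mod_cast hkq
        linarith
      have h2 : (1 : ℝ) ≤ q := by
        have : 1 ≤ q := by omega
        exact_mod_cast this
      linarith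
    have hSr : (S : ℝ) * q ≤ 2 ^ 26 * k := by exact_mod_cast hS
    have hS2 : (S : ℝ) ≤ 2 ^ 27 * (k : ℝ) ^ ((13 : ℝ) / 14) := by
      have h1 : (0 : ℝ) ≤ (k : ℝ) ^ ((13 : ℝ) / 14) := (Real.rpow_pos_of_pos hk0 _).le
      have h2 : (S : ℝ) * q ≤ (2 ^ 27 * (k : ℝ) ^ ((13 : ℝ) / 14)) * q := by
        calc (S : ℝ) * q ≤ 2 ^ 26 * k := hSr
          _ = 2 ^ 26 * ((k : ℝ) ^ ((13 : ℝ) / 14) * y) := by rw [hmul]
          _ ≤ 2 ^ 26 * ((k : ℝ) ^ ((13 : ℝ) / 14) * (2 * q)) := by gcongr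
          _ = (2 ^ 27 * (k : ℝ) ^ ((13 : ℝ) / 14)) * q := by ring
      exact le_of_mul_le_mul_right h2 hq0
    have hb : 4 * (40 + 24) ^ 2 * bnd 24 40 (3 * (4 * q + 2)) (12 * (4 * q + 2))
        (4 * (84 * (k + 1) + 144) / q) m0 =
        4 * (40 + 24) ^ 2 * (8 * (24 + 2) ^ 40 * 2 ^ 24) * S := by
      rw [hSd]
      unfold bnd nK
      ring
    rw [hb]
    push_cast
    linarith [hS2]

end Pool.Agent.Lib.MP_1fca17_co.F
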