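import Pool.Agent.Lib.MP_1fca17_co.F.Defs
import Pool.Agent.Lib.MP_1fca17_co.Q.Typ52

/-!
MP_1fca17_co, unbounded degree: rows ORD and PAT (helper52). The order of the regions is the numeric
order `code` of the typed addresses (`Q/Word52.lean`, `Q/Typ52.lean`).
-/

namespace Pool.Agent.Lib.MP_1fca17_co.F

open Finset
open Pool.Agent.Lib.MP_1fca17_co.Q

/-- depths of the birth regions of the hubs of a region -/
def Hd52 {V : Type} (hub : List ℕ → Finset V) (b : V → List ℕ) (l : List ℕ) : Finset ℕ :=
  (hub l).image (fun v => (b v).length)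

/-- type of a region -/
noncomputable def t52 {V : Type} (hub : List ℕ → Finset V) (b : V → List ℕ) (m : ℕ) :
    List ℕ → ℕ
  | [] => 0
  | x :: l => W52.tp m (W52.ty m (Hd52 hub b) l) (Hd52 hub b (x :: l))

theorem ty52 {V : Type} (hub : List ℕ → Finset V) (b : V → List ℕ) (m x : ℕ) (l : List ℕ) :
    W52.ty m (Hd52 hub b) (x :: l) = (t52 hub b m (x :: l), x) :: W52.ty m (Hd52 hub b) l := rfl

theorem stOrd : StOrd := by
  intro V hub b m qq n hqq hH
  set Hd := Hd52 hub b with hHd
  have hq1 : 1 ≤ qq := by omega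
  have hc : ∀ l, (Hd l).card ≤ m := fun l => card_image_le.trans (hH.hubm l)
  have hq : ∀ x l d, d ∈ Hd (x :: l) → d < l.length → d ∈ Hd l := by
    intro x l d hd hlt
    obtain ⟨v, hv, rfl⟩ := mem_image.mp hd
    exact mem_image.mpr ⟨v, hH.hubmono _ v hv l (List.suffix_cons x l) hlt, rfl⟩
  have hval : ∀ l, Adm n qq l → W52.Val qq m (W52.ty m Hd l) := fun l hl => W52.ty_val hl.2
  have hlen : ∀ l, (W52.ty m Hd l).length = l.length := fun l => W52.ty_length l
  have htm : ∀ l, t52 hub b m l ≤ m := by
    intro l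
    cases l with
    | nil => exact Nat.zero_le _
    | cons x l => exact W52.tp_le _ _ _
  refine ⟨t52 hub b m, fun l => W52.code qq n m (W52.ty m Hd l), htm, ?_, ?_, ?_, ?_⟩
  · intro l l' x x' ha ha' ht h
    have a1 : Adm n qq l := ⟨by have := ha.1; simp at this; omega, fun y hy => ha.2 y (by simp [hy])⟩
    have a2 : Adm n qq l' :=
      ⟨by have := ha'.1; simp at this; omega, fun y hy => ha'.2 y (by simp [hy])⟩
    change W52.code qq n m (W52.ty m Hd (x :: l)) < W52.code qq n m (W52.ty m Hd (x' :: l'))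
    rw [ty52, ty52, ← ht]
    refine W52.kp1 hq1 m _ x x' _ _ (htm _) (hval l a1) (hval l' a2) (ha.2 x (by simp))
      (ha'.2 x' (by simp)) ?_ ?_ h
    · rw [hlen]; have := ha.1; simp at this; omega
    · rw [hlen]; have := ha'.1; simp at this; omega
  · intro l x x' ha ha' ht hx
    have a1 : Adm n qq l := ⟨by have := ha.1; simp at this; omega, fun y hy => ha.2 y (by simp [hy])⟩
    change W52.code qq n m (W52.ty m Hd (x :: l)) < W52.code qq n m (W52.ty m Hd (x' :: l))
    rw [ty52, ty52, ← ht]
    refine W52.kp1_sib hq1 m _ x x' _ (htm _) (hval l a1) hx (ha'.2 x' (by simp)) ?_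
    rw [hlen]; have := ha.1; simp at this; omega
  · intro l l' ha ha' h
    exact W52.ty_inj (W52.code_inj hqq m _ _ (hval l ha) (hval l' ha') (by rw [hlen]; exact ha.1)
      (by rw [hlen]; exact ha'.1) h)
  · intro F hF hpair
    have hex : ∀ e : List ℕ × List ℕ, ∃ z, e ∈ F →
        W52.ty m Hd e.2 = z ++ W52.ty m Hd e.1 ∧ W52.HP m z := by
      intro e
      by_cases he : e ∈ F
      · obtain ⟨-, v, hv1, hv2⟩ := hF e he
        obtain ⟨y, hy⟩ := (hH.hublt e.2 v hv2).1
        rw [hv1] at hy
        have hmem : e.1.length ∈ Hd (y ++ e.1) := by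
          rw [hy]
          exact mem_image.mpr ⟨v, hv2, by rw [hv1]⟩
        obtain ⟨z, h1, -, h3⟩ := W52.typ hc hq y e.1 hmem
        rw [hy] at h1
        exact ⟨z, fun _ => ⟨h1, h3⟩⟩
      · exact ⟨[], fun h => absurd h he⟩
    choose z hz using hex
    refine W52.kp3 (B := qq) (L := n) hq1 m F (fun e => W52.ty m Hd e.1) z ?_ ?_
    · intro e he
      rw [← (hz e he).1]
      exact ⟨hval _ (hF e he).1, by rw [hlen]; exact (hF e he).1.1, (hz e he).2⟩
    · intro e he f hf hef
      rw [← (hz e he).1, ← (hz f hf).1]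
      exact hpair e he f hf hef

theorem way_length (t : List ℕ → ℕ) : ∀ (g : ℕ) (l : List ℕ), (way t g l).length = g
  | 0, _ => rfl
  | g + 1, l => by simp [way, way_length t g]

theorem stPat : StPat := by
  intro V hub b m qq n t ρ hO g
  induction g with
  | zero =>
    intro l l' _ _ _ _ _ h
    simpa using h
  | succ g ih =>
    intro l l' ha ha' hg hg' hw h
    cases l with
    | nil => simp at hg
    | cons x l =>
    cases l' with
    | nil => simp at hg'
    | cons x' l' =>
    simp only [way, List.tail_cons] at hw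
    obtain ⟨h1, h2⟩ := List.append_inj hw (by rw [way_length, way_length])
    have ht : t (x :: l) = t (x' :: l') := by simpa using h2
    have a1 : Adm n qq l := ⟨by have := ha.1; simp at this; omega, fun y hy => ha.2 y (by simp [hy])⟩
    have a2 : Adm n qq l' :=
      ⟨by have := ha'.1; simp at this; omega, fun y hy => ha'.2 y (by simp [hy])⟩
    refine hO.kp1 l l' x x' ha ha' ht (ih l l' a1 a2 ?_ ?_ h1 ?_)
    · simp at hg; omega
    · simp at hg'; omega
    · simpa using h

end Pool.Agent.Lib.MP_1fca17_co.F
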