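import Mathlib
import Pool.Agent.Lib.MP_1fca17_co.F.Defs

/-!
# MP_1fca17_co : REC (section C of QP_full58.md): the addresses
-/

namespace Pool.Agent.Lib.MP_1fca17_co.F

open Finset
open scoped Classical

noncomputable section

namespace Rec

/-! ## connected sets -/

theorem mem_low {I : Type} [Fintype I] (T : RTree I) (S : Set I) (j : I) :
    j ∈ T.low S ↔ j ≠ T.r ∧ j ∉ S ∧ T.par j ∈ S := by
  simp [RTree.low]

/-- the number of `v` with `Z v` inside a region but `Zh v` not -/
theorem cross_count (hs : StSub) {I V : Type} [Fintype I] (T : RTree I)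
    {W : Finset V} {Z Zh : V → Set I} {K : ℕ}
    (hZ : ∀ v ∈ W, T.Sub (Z v)) (hZh : ∀ v ∈ W, T.Sub (Zh v))
    (hZZ : ∀ v ∈ W, Z v ⊆ Zh v)
    (hK : ∀ i, (W.filter (fun v => i ∈ Zh v ∧ i ∉ Z v)).card ≤ K) {S : Set I}
    (hS : T.Reg S) :
    (W.filter (fun v => Z v ⊆ S ∧ ¬ Zh v ⊆ S)).card ≤ 2 * K := by
  obtain ⟨-, -, hcross, -, -⟩ := hs I T
  rcases hS with rfl | ⟨⟨s, hs', hS⟩, h1⟩
  · have : W.filter (fun v => Z v ⊆ (∅ : Set I) ∧ ¬ Zh v ⊆ (∅ : Set I)) = ∅ := by
      apply Finset.filter_eq_empty_iff.2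
      rintro v hv ⟨h2, -⟩
      obtain ⟨t, ht', -⟩ := hZ v hv
      exact (h2 ht').elim
    rw [this]; simp
  · have key : ∀ v ∈ W, Z v ⊆ S → ¬ Zh v ⊆ S →
        (T.par s ∈ Zh v ∧ T.par s ∉ S) ∨ ∃ j ∈ Zh v, j ∈ T.low S := by
      intro v hv h2 h3
      obtain ⟨t, htZ, -⟩ := hZ v hv
      obtain ⟨i, hi, hiS⟩ := Set.not_subset.1 h3
      obtain ⟨a, ha, b, hb, hab, haS, hbS⟩ :=
        hcross (Zh v) (fun x => x ∈ S) (hZh v hv) ⟨t, hZZ v hv htZ, h2 htZ⟩ ⟨i, hi, hiS⟩
      rcases hab with ⟨har, hba⟩ | ⟨hbr, hab⟩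
      · left
        have h4 : a = s := by
          by_contra h5
          apply hbS
          have := (hS a haS h5).2
          rwa [← hba] at this
        rw [← h4, ← hba]
        exact ⟨hb, hbS⟩
      · right
        refine ⟨b, hb, ?_⟩
        rw [RTree.low, Finset.mem_filter]
        refine ⟨Finset.mem_univ _, hbr, hbS, ?_⟩
        rw [← hab]; exact haS
    by_cases h4 : ∃ j, j ∈ T.low S
    · obtain ⟨j0, hj0⟩ := h4
      have h5 : W.filter (fun v => Z v ⊆ S ∧ ¬ Zh v ⊆ S) ⊆
          W.filter (fun v => T.par s ∈ Zh v ∧ T.par s ∉ Z v) ∪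
          W.filter (fun v => j0 ∈ Zh v ∧ j0 ∉ Z v) := by
        intro v hv
        rw [Finset.mem_filter] at hv
        rw [Finset.mem_union, Finset.mem_filter, Finset.mem_filter]
        rcases key v hv.1 hv.2.1 hv.2.2 with h6 | ⟨j, hj, h6⟩
        · exact Or.inl ⟨hv.1, h6.1, fun h => h6.2 (hv.2.1 h)⟩
        · have h9 : j = j0 := Finset.card_le_one.1 h1 j h6 j0 hj0
          subst h9
          refine Or.inr ⟨hv.1, hj, fun h => ?_⟩
          rw [RTree.low, Finset.mem_filter] at h6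
          exact h6.2.2.1 (hv.2.1 h)
      calc _ ≤ _ := Finset.card_le_card h5
        _ ≤ _ := Finset.card_union_le _ _
        _ ≤ K + K := Nat.add_le_add (hK _) (hK _)
        _ = 2 * K := by ring
    · have h5 : W.filter (fun v => Z v ⊆ S ∧ ¬ Zh v ⊆ S) ⊆
          W.filter (fun v => T.par s ∈ Zh v ∧ T.par s ∉ Z v) := by
        intro v hv
        rw [Finset.mem_filter] at hv
        rw [Finset.mem_filter]
        rcases key v hv.1 hv.2.1 hv.2.2 with h6 | ⟨j, hj, h6⟩
        · exact ⟨hv.1, h6.1, fun h => h6.2 (hv.2.1 h)⟩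
        · exact absurd ⟨j, h6⟩ h4
      calc _ ≤ _ := Finset.card_le_card h5
        _ ≤ K := hK _
        _ ≤ 2 * K := by omega

/-! ## lists -/

theorem suffix_concat {l a : List ℕ} {x y : ℕ} :
    (l ++ [x]) <:+ (a ++ [y]) ↔ l <:+ a ∧ x = y := by
  constructor
  · rintro ⟨t, ht⟩
    rw [← List.append_assoc] at ht
    have h1 := List.append_inj' ht rfl
    exact ⟨⟨t, h1.1⟩, by simpa using h1.2⟩
  · rintro ⟨⟨t, ht⟩, rfl⟩
    exact ⟨t, by rw [← List.append_assoc, ht]⟩

theorem not_suffix_nil {l : List ℕ} {x : ℕ} : ¬ (l ++ [x]) <:+ [] := by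
  rintro ⟨t, ht⟩
  simp at ht

theorem concat_ne_nil {a : List ℕ} {y : ℕ} : a ++ [y] ≠ [] := by simp

/-! ## the induction -/

/-- the inductive claim -/
theorem main (hs : StSub) (hcut : StCut) {I V : Type} [Fintype I] [Fintype V] (T : RTree I)
    {W : Finset V} {Z Zh : V → Set I} {q K : ℕ} (hq : 1 ≤ q) (hch : T.Ch3)
    (hZ : ∀ v ∈ W, T.Sub (Z v)) (hZh : ∀ v ∈ W, T.Sub (Zh v))
    (hZZ : ∀ v ∈ W, Z v ⊆ Zh v)
    (hK : ∀ i, (W.filter (fun v => i ∈ Zh v ∧ i ∉ Z v)).card ≤ K) :
    ∀ n, ∀ R : Finset I, R.card ≤ n → T.Reg (R : Set I) → ∀ w : V → ℕ,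
      ∑ v ∈ W.filter (fun v => Z v ⊆ (R : Set I)), w v ≤ 4 * K →
      (∀ v ∈ W, Z v ⊆ (R : Set I) → w v = 0 → Zh v ⊆ (R : Set I)) →
      ∃ addr : I → List ℕ,
        (∀ i ∈ R, ∀ j ∈ R, T.Adj i j → addr i <:+ addr j ∨ addr j <:+ addr i) ∧
        (∀ l, T.Reg {i | i ∈ R ∧ l <:+ addr i}) ∧
        (∀ l, (R.filter (fun i => addr i = l)).card ≤ 4 * q + 2) ∧
        (∀ i ∈ R, ∀ x ∈ addr i, x < 3 * (4 * q + 2)) ∧
        (∀ l, q ^ l.length *
          ∑ v ∈ W.filter (fun v => Z v ⊆ {i | i ∈ R ∧ l <:+ addr i}), w v ≤ 4 * K) ∧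
        (∀ l0 l, l0 <:+ l → l0 ≠ l → q ^ (l.length - l0.length - 1) *
          (W.filter (fun v => w v = 0 ∧ Zh v ⊆ (R : Set I) ∧ (∃ i ∈ Zh v, addr i = l0) ∧
            (∀ i ∈ Zh v, l0 <:+ addr i) ∧
            Z v ⊆ {i | i ∈ R ∧ l <:+ addr i})).card ≤ 4 * K) := by
  intro n
  induction n with
  | zero =>
    intro R hR hRok w hw1 hw2
    have hR0 : R = ∅ := Finset.card_eq_zero.1 (by omega)
    subst hR0
    have hno : ∀ S : Set I, S ⊆ ∅ → W.filter (fun v => Z v ⊆ S) = ∅ := by
      intro S hS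
      apply Finset.filter_eq_empty_iff.2
      intro v hv h2
      obtain ⟨t, ht', -⟩ := hZ v hv
      exact (hS (h2 ht')).elim
    refine ⟨fun _ => [], by simp, ?_, by simp, by simp, ?_, ?_⟩
    · intro l; left; simp
    · intro l
      rw [hno _ (fun i hi => by simp at hi)]
      simp
    · intro l0 l _ _
      have h3 : (W.filter (fun v => w v = 0 ∧ Zh v ⊆ ((∅ : Finset I) : Set I) ∧
            (∃ i ∈ Zh v, ([] : List ℕ) = l0) ∧
            (∀ i ∈ Zh v, l0 <:+ ([] : List ℕ)) ∧
            Z v ⊆ {i | i ∈ (∅ : Finset I) ∧ l <:+ ([] : List ℕ)})) = ∅ := by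
        apply Finset.filter_eq_empty_iff.2
        rintro v hv ⟨-, h2, -⟩
        obtain ⟨t, ht', -⟩ := hZh v hv
        have := h2 ht'
        simp at this
      rw [h3]; simp
  | succ n ih =>
    intro R hR hRok w hw1 hw2
    rcases R.eq_empty_or_nonempty with hR0 | hRne
    · exact ih R (by rw [hR0]; simp) hRok w hw1 hw2
    obtain ⟨C, f, hCR, hCne, hCc, hcls, hcc, hreg, hsum⟩ :=
      hcut V I T W Z R w q hq hch hRne hRok hZ
    set Rx : ℕ → Finset I := fun x => R.filter (fun i => i ∉ C ∧ f i = x) with hRx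
    have hmem : ∀ x i, i ∈ Rx x ↔ i ∈ R ∧ i ∉ C ∧ f i = x := by
      intro x i; simp [hRx]
    have hcoe : ∀ x, (Rx x : Set I) = cls R C f x := by
      intro x; ext i; rw [Finset.mem_coe, hmem]; rfl
    have hreg' : ∀ x, T.Reg (Rx x : Set I) := fun x => by rw [hcoe]; exact hreg x
    have hRxR : ∀ x, Rx x ⊆ R := fun x i hi => ((hmem x i).1 hi).1
    have hcard : ∀ x, (Rx x).card ≤ n := by
      intro x
      obtain ⟨c, hc⟩ := hCne
      have : Rx x ⊂ R := by
        refine ⟨hRxR x, fun h => ?_⟩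
        exact ((hmem x c).1 (h (hCR hc))).2.1 hc
      have := Finset.card_lt_card this
      omega
    set wx : ℕ → V → ℕ := fun x v => if w v = 0 then
      (if Z v ⊆ (Rx x : Set I) ∧ ¬ Zh v ⊆ (Rx x : Set I) then 1 else 0) else q * w v with hwx
    have hwx1 : ∀ x v, q * w v ≤ wx x v := by
      intro x v
      simp only [hwx]
      split_ifs with h1 h2
      · simp [h1]
      · simp [h1]
      · exact le_rfl
    have hwx2 : ∀ x v, wx x v ≤ q * w v +
        (if Z v ⊆ (Rx x : Set I) ∧ ¬ Zh v ⊆ (Rx x : Set I) then 1 else 0) := by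
      intro x v
      simp only [hwx]
      split_ifs with h1 h2 <;> simp_all
    have hsumx : ∀ x, ∑ v ∈ W.filter (fun v => Z v ⊆ (Rx x : Set I)), wx x v ≤ 4 * K := by
      intro x
      have h1 : ∑ v ∈ W.filter (fun v => Z v ⊆ (Rx x : Set I)), wx x v ≤
          q * ∑ v ∈ W.filter (fun v => Z v ⊆ (Rx x : Set I)), w v +
          ∑ v ∈ W.filter (fun v => Z v ⊆ (Rx x : Set I)),
            (if Z v ⊆ (Rx x : Set I) ∧ ¬ Zh v ⊆ (Rx x : Set I) then 1 else 0) := by
        rw [Finset.mul_sum, ← Finset.sum_add_distrib]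
        exact Finset.sum_le_sum (fun v _ => hwx2 x v)
      have h2 : ∑ v ∈ W.filter (fun v => Z v ⊆ (Rx x : Set I)),
            (if Z v ⊆ (Rx x : Set I) ∧ ¬ Zh v ⊆ (Rx x : Set I) then 1 else 0) ≤ 2 * K := by
        rw [← Finset.card_filter, Finset.filter_filter]
        refine le_trans (Finset.card_le_card ?_) (cross_count hs T hZ hZh hZZ hK (hreg' x))
        intro v hv
        rw [Finset.mem_filter] at hv ⊢
        exact ⟨hv.1, hv.2.2⟩
      have h3 := hsum x
      rw [← hcoe x] at h3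
      have h4 : 2 * (q * ∑ v ∈ W.filter (fun v => Z v ⊆ (Rx x : Set I)), w v) ≤ 4 * K := by
        calc _ = 2 * q * ∑ v ∈ W.filter (fun v => Z v ⊆ (Rx x : Set I)), w v := by ring
          _ ≤ _ := h3
          _ ≤ _ := hw1
      omega
    have hzero : ∀ x, ∀ v ∈ W, Z v ⊆ (Rx x : Set I) → wx x v = 0 → Zh v ⊆ (Rx x : Set I) := by
      intro x v hv h1 h2
      by_contra h3
      simp only [hwx] at h2
      by_cases h4 : w v = 0
      · rw [if_pos h4, if_pos ⟨h1, h3⟩] at h2
        exact absurd h2 one_ne_zero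
      · rw [if_neg h4] at h2
        rcases Nat.mul_eq_zero.1 h2 with h5 | h5
        · omega
        · exact h4 h5
    choose addr hP1 hP2 hP3 hP4 hD1 hD2 using
      fun x => ih (Rx x) (hcard x) (hreg' x) (wx x) (hsumx x) (hzero x)
    set ad : I → List ℕ := fun i => if i ∈ C then [] else addr (f i) i ++ [f i] with had
    have hadC : ∀ i ∈ C, ad i = [] := fun i hi => by simp [had, hi]
    have hadN : ∀ i, i ∉ C → ad i = addr (f i) i ++ [f i] := fun i hi => by simp [had, hi]
    have hsuf : ∀ i ∈ R, ∀ l x, (l ++ [x]) <:+ ad i ↔ i ∈ Rx x ∧ l <:+ addr x i := by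
      intro i hi l x
      by_cases h : i ∈ C
      · rw [hadC i h]
        constructor
        · intro h1; exact absurd h1 not_suffix_nil
        · rintro ⟨h1, -⟩; exact absurd h ((hmem x i).1 h1).2.1
      · rw [hadN i h, suffix_concat]
        constructor
        · rintro ⟨h1, h2⟩
          subst h2
          exact ⟨(hmem _ i).2 ⟨hi, h, rfl⟩, h1⟩
        · rintro ⟨h1, h2⟩
          have h3 := ((hmem x i).1 h1).2.2
          subst h3
          exact ⟨h2, rfl⟩
    have heq : ∀ i ∈ R, ∀ l x, ad i = l ++ [x] ↔ i ∈ Rx x ∧ addr x i = l := by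
      intro i hi l x
      by_cases h : i ∈ C
      · rw [hadC i h]
        constructor
        · intro h1; exact absurd h1.symm concat_ne_nil
        · rintro ⟨h1, -⟩; exact absurd h ((hmem x i).1 h1).2.1
      · rw [hadN i h]
        constructor
        · intro h1
          have h2 := List.append_inj' h1 rfl
          have h3 : f i = x := by simpa using h2.2
          subst h3
          exact ⟨(hmem _ i).2 ⟨hi, h, rfl⟩, h2.1⟩
        · rintro ⟨h1, h2⟩
          have h3 := ((hmem x i).1 h1).2.2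
          subst h3
          rw [h2]
    have hfil : ∀ l x, {i | i ∈ R ∧ (l ++ [x]) <:+ ad i} =
        {i | i ∈ Rx x ∧ l <:+ addr x i} := by
      intro l x
      ext i
      constructor
      · rintro ⟨h1, h2⟩; exact (hsuf i h1 l x).1 h2
      · rintro ⟨h1, h2⟩; exact ⟨hRxR x h1, (hsuf i (hRxR x h1) l x).2 ⟨h1, h2⟩⟩
    have hnil : {i | i ∈ R ∧ ([] : List ℕ) <:+ ad i} = (R : Set I) := by
      ext i
      exact ⟨fun h => h.1, fun h => ⟨h, List.nil_suffix⟩⟩
    refine ⟨ad, ?_, ?_, ?_, ?_, ?_, ?_⟩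
    · intro i hi j hj hij
      by_cases h1 : i ∈ C
      · left; rw [hadC i h1]; exact List.nil_suffix
      by_cases h2 : j ∈ C
      · right; rw [hadC _ h2]; exact List.nil_suffix
      have h3 := hcc i hi j hj h1 h2 hij
      rw [hadN i h1, hadN _ h2, ← h3]
      have h4 := hP1 (f i) i ((hmem _ _).2 ⟨hi, h1, rfl⟩) j ((hmem _ _).2 ⟨hj, h2, h3.symm⟩) hij
      rcases h4 with h4 | h4
      · left; exact suffix_concat.2 ⟨h4, rfl⟩
      · right; exact suffix_concat.2 ⟨h4, rfl⟩
    · intro l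
      rcases List.eq_nil_or_concat' l with rfl | ⟨l', x, rfl⟩
      · rw [hnil]; exact hRok
      · rw [hfil]; exact hP2 x l'
    · intro l
      rcases List.eq_nil_or_concat' l with rfl | ⟨l', x, rfl⟩
      · refine le_trans (Finset.card_le_card ?_) hCc
        intro i hi
        rw [Finset.mem_filter] at hi
        by_contra h1
        rw [hadN i h1] at hi
        exact concat_ne_nil hi.2
      · refine le_trans (Finset.card_le_card ?_) (hP3 x l')
        intro i hi
        rw [Finset.mem_filter] at hi ⊢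
        exact (heq i hi.1 l' x).1 hi.2
    · intro i hi x hx
      by_cases h1 : i ∈ C
      · rw [hadC i h1] at hx
        exact absurd hx (List.not_mem_nil)
      · rw [hadN i h1, List.mem_append] at hx
        rcases hx with hx | hx
        · exact hP4 (f i) i ((hmem _ _).2 ⟨hi, h1, rfl⟩) x hx
        · rw [List.mem_singleton] at hx
          rw [hx]
          exact hcls i
    · intro l
      rcases List.eq_nil_or_concat' l with rfl | ⟨l', x, rfl⟩
      · rw [hnil]; simpa using hw1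
      · rw [hfil]
        have h1 := hD1 x l'
        rw [List.length_append, List.length_singleton, pow_succ, mul_assoc, Finset.mul_sum]
        refine le_trans (Nat.mul_le_mul_left _ (Finset.sum_le_sum (fun v _ => hwx1 x v))) h1
    · intro l0 l hl hne
      rcases List.eq_nil_or_concat' l with rfl | ⟨l', x, rfl⟩
      · exact absurd (List.suffix_nil.1 hl) hne
      rcases List.eq_nil_or_concat' l0 with rfl | ⟨l0', x', rfl⟩
      · have h1 := hD1 x l'
        have h2 : (l' ++ [x]).length - ([] : List ℕ).length - 1 = l'.length := by simp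
        rw [h2]
        refine le_trans (Nat.mul_le_mul_left _ ?_) h1
        rw [hfil, Finset.card_eq_sum_ones]
        calc _ ≤ ∑ v ∈ W.filter (fun v => w v = 0 ∧ Zh v ⊆ (R : Set I) ∧
            (∃ i ∈ Zh v, ad i = []) ∧ (∀ i ∈ Zh v, [] <:+ ad i) ∧
            Z v ⊆ {i | i ∈ Rx x ∧ l' <:+ addr x i}), wx x v := by
              apply Finset.sum_le_sum
              intro v hv
              rw [Finset.mem_filter] at hv
              obtain ⟨hvW, h3, h4, ⟨i, hi, hi'⟩, -, h5⟩ := hv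
              have h6 : i ∈ C := by
                by_contra h7
                rw [hadN i h7] at hi'
                exact concat_ne_nil hi'
              have h7 : ¬ Zh v ⊆ (Rx x : Set I) := fun h8 => ((hmem x i).1 (h8 hi)).2.1 h6
              have h8 : Z v ⊆ (Rx x : Set I) := fun j hj => (h5 hj).1
              simp only [hwx]
              rw [if_pos h3, if_pos ⟨h8, h7⟩]
          _ ≤ _ := by
              apply Finset.sum_le_sum_of_subset
              intro v hv
              rw [Finset.mem_filter] at hv ⊢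
              exact ⟨hv.1, hv.2.2.2.2.2⟩
      · have h1 := suffix_concat.1 hl
        obtain ⟨h1, rfl⟩ := h1
        have h2 := hD2 x' l0' l' h1 (fun h => hne (by rw [h]))
        have h3 : (l' ++ [x']).length - (l0' ++ [x']).length - 1 =
          l'.length - l0'.length - 1 := by simp
        rw [h3]
        refine le_trans (Nat.mul_le_mul_left _ (Finset.card_le_card ?_)) h2
        intro v hv
        rw [hfil] at hv
        rw [Finset.mem_filter] at hv ⊢
        obtain ⟨hvW, h4, h5, ⟨i, hi, hi'⟩, h6, h7⟩ := hv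
        have h8 : ∀ j ∈ Zh v, j ∈ Rx x' ∧ l0' <:+ addr x' j := fun j hj =>
          (hsuf j (h5 hj) l0' x').1 (h6 j hj)
        have h9 : Zh v ⊆ (Rx x' : Set I) := fun j hj => (h8 j hj).1
        refine ⟨hvW, ?_, h9, ⟨i, hi, ((heq i (h5 hi) l0' x').1 hi').2⟩, fun j hj => (h8 j hj).2, h7⟩
        simp only [hwx]
        rw [if_pos h4, if_neg]
        rintro ⟨-, h10⟩
        exact h10 h9

end Rec

/-- REC -/
theorem stRec (hs : StSub) (hc : StCut) : StRec := by
  intro V I _ _ G W c K q X hq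
  have huniv : X.T.Reg ((univ : Finset I) : Set I) := by
    right
    refine ⟨⟨X.T.r, by simp, fun i _ hi => ⟨hi, by simp⟩⟩, ?_⟩
    have : X.T.low ((univ : Finset I) : Set I) = ∅ := by
      apply Finset.eq_empty_of_forall_notMem
      intro j hj
      exact ((Rec.mem_low X.T _ j).1 hj).2.1 (by simp)
    rw [this]; simp
  have hZh : ∀ v ∈ W, X.T.Sub (X.Zh v) := by
    intro v hv
    refine (hs I X.T).2.2.2.1 (X.Z v) _ (X.subZ v hv) ?_
    rintro Y ⟨u, hu, hvu, rfl⟩
    refine ⟨X.subS v hv u hu hvu, ?_⟩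
    obtain ⟨i, hi1, hi2⟩ := X.meet v hv u hu hvu
    exact ⟨i, hi2, hi1⟩
  have hK : ∀ i, (W.filter (fun v => i ∈ X.Zh v ∧ i ∉ X.Z v)).card ≤ K := by
    intro i
    refine le_trans ?_ (X.cntS i)
    have h1 : W.filter (fun v => i ∈ X.Zh v ∧ i ∉ X.Z v) ⊆
        ((prs G W).filter (fun e => i ∈ X.S e.1 e.2)).image Prod.fst := by
      intro v hv
      rw [Finset.mem_filter] at hv
      obtain ⟨hvW, h2 | h2, h3⟩ := hv
      · exact absurd h2 h3
      · obtain ⟨Y, ⟨u, hu, hvu, rfl⟩, hi⟩ := h2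
        rw [Finset.mem_image]
        refine ⟨(v, u), ?_, rfl⟩
        rw [Finset.mem_filter, prs, Finset.mem_filter, Finset.mem_product]
        exact ⟨⟨⟨hvW, hu⟩, hvu⟩, hi⟩
    exact le_trans (Finset.card_le_card h1) Finset.card_image_le
  obtain ⟨a, h1, h2, h3, h4, -, h6⟩ := Rec.main hs hc X.T hq X.child X.subZ hZh
    (fun v _ => Set.subset_union_left) hK
    (univ : Finset I).card univ le_rfl huniv (fun _ => 0) (by simp)
    (fun v _ _ _ => by simp)
  have hset : ∀ l, {i | i ∈ (univ : Finset I) ∧ l <:+ a i} = reg a l := by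
    intro l; ext i; simp [reg]
  refine ⟨a, ⟨fun i j hij => h1 i (Finset.mem_univ _) j (Finset.mem_univ _) hij, ?_, h3,
    fun i => h4 i (Finset.mem_univ _), ?_⟩⟩
  · intro l
    rw [← hset]; exact h2 l
  · intro l0 l hl hne
    refine le_trans (Nat.mul_le_mul_left _ (Finset.card_le_card ?_)) (h6 l0 l hl hne)
    intro v hv
    rw [Finset.mem_filter] at hv ⊢
    refine ⟨hv.1, rfl, by simp, hv.2.2.1, hv.2.1, ?_⟩
    intro i hi
    exact ⟨Finset.mem_univ _, hv.2.2.2 i hi⟩

end

end Pool.Agent.Lib.MP_1fca17_co.F
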