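import Mathlib
import Pool.Agent.Lib.MP_1fca17_co.F.Defs

/-!
# MP_1fca17_co : SUB, elementary facts on subtrees of a rooted tree
-/

namespace Pool.Agent.Lib.MP_1fca17_co.F

open Finset
open scoped Classical

namespace SubAux

variable {I : Type} (T : RTree I)

lemma adj_symm {i j : I} (h : T.Adj i j) : T.Adj j i := by
  rcases h with h | h
  · exact Or.inr h
  · exact Or.inl h

/-- `x` is a descendant of `i` (or `i` itself) -/
def Dsc (i x : I) : Prop := Relation.ReflTransGen (fun a b => a ≠ T.r ∧ b = T.par a) x i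

lemma dsc_par {i x : I} (h : Dsc T i x) (hx : x ≠ i) : x ≠ T.r ∧ Dsc T i (T.par x) := by
  rcases Relation.ReflTransGen.cases_head h with h | ⟨z, hz, h⟩
  · exact absurd h hx
  · obtain ⟨h1, rfl⟩ := hz
    exact ⟨h1, h⟩

lemma dsc_dep {i x : I} (h : Dsc T i x) : x = i ∨ T.dep i < T.dep x := by
  induction h using Relation.ReflTransGen.head_induction_on with
  | refl => exact Or.inl rfl
  | head h1 _ ih =>
    obtain ⟨h1, h2⟩ := h1
    have := T.dep_par _ h1
    rw [← h2] at this
    right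
    rcases ih with ih | ih
    · subst ih; omega
    · omega

lemma top_dep {S : Set I} {t : I} (ht : ∀ i ∈ S, i ≠ t → i ≠ T.r ∧ T.par i ∈ S) :
    ∀ (n : ℕ) (i : I), T.dep i = n → i ∈ S → i ≠ t → T.dep t < T.dep i := by
  intro n
  induction n using Nat.strong_induction_on with
  | _ n ih =>
    intro i hn hi hit
    obtain ⟨h1, h2⟩ := ht i hi hit
    have h3 := T.dep_par i h1
    by_cases h4 : T.par i = t
    · rw [h4] at h3; omega
    · have := ih (T.dep (T.par i)) (by omega) (T.par i) rfl h2 h4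
      omega

/-- one step inside `S` -/
def Stp (S : Set I) (x y : I) : Prop := x ∈ S ∧ y ∈ S ∧ T.Adj x y

lemma stp_symm (S : Set I) {x y : I} (h : Relation.ReflTransGen (Stp T S) x y) :
    Relation.ReflTransGen (Stp T S) y x := by
  induction h with
  | refl => exact Relation.ReflTransGen.refl
  | tail _ h2 ih => exact Relation.ReflTransGen.head ⟨h2.2.1, h2.1, adj_symm T h2.2.2⟩ ih

lemma stp_mono {S S' : Set I} (hS : S ⊆ S') {x y : I}
    (h : Relation.ReflTransGen (Stp T S) x y) : Relation.ReflTransGen (Stp T S') x y := by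
  induction h with
  | refl => exact Relation.ReflTransGen.refl
  | tail _ h2 ih => exact ih.tail ⟨hS h2.1, hS h2.2.1, h2.2.2⟩

/-- (2) -/
lemma conn_of_sub {S : Set I} (hS : T.Sub S) : ∀ i ∈ S, ∀ j ∈ S,
    Relation.ReflTransGen (Stp T S) i j := by
  obtain ⟨t, htS, ht⟩ := hS
  have key : ∀ (n : ℕ) (i : I), T.dep i = n → i ∈ S →
      Relation.ReflTransGen (Stp T S) i t := by
    intro n
    induction n using Nat.strong_induction_on with
    | _ n ih =>
      intro i hn hi
      by_cases hit : i = t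
      · subst hit; exact Relation.ReflTransGen.refl
      · obtain ⟨h1, h2⟩ := ht i hi hit
        have h3 := T.dep_par i h1
        exact Relation.ReflTransGen.head ⟨hi, h2, Or.inl ⟨h1, rfl⟩⟩
          (ih (T.dep (T.par i)) (by omega) (T.par i) rfl h2)
  intro i hi j hj
  exact (key _ i rfl hi).trans (stp_symm T S (key _ j rfl hj))

/-- (1) -/
lemma sub_of_conn {S : Set I} (hne : S.Nonempty) (hc : ∀ i ∈ S, ∀ j ∈ S,
    Relation.ReflTransGen (Stp T S) i j) : T.Sub S := by
  obtain ⟨t, htS, htm⟩ : ∃ t ∈ S, ∀ i ∈ S, T.dep t ≤ T.dep i := by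
    have hex : ∃ n, ∃ i ∈ S, T.dep i = n := ⟨_, hne.some, hne.some_mem, rfl⟩
    obtain ⟨i, hi, hn⟩ := Nat.find_spec hex
    exact ⟨i, hi, fun j hj => by
      rw [hn]; exact Nat.find_min' hex ⟨j, hj, rfl⟩⟩
  refine ⟨t, htS, ?_⟩
  intro i hi hit
  by_contra hcon
  have hdesc : ∀ x, Relation.ReflTransGen (Stp T S) i x → Dsc T i x := by
    intro x hx
    induction hx with
    | refl => exact Relation.ReflTransGen.refl
    | @tail x y _ h2 ih =>
      obtain ⟨hxS, hyS, hxy⟩ := h2
      rcases hxy with ⟨h1, rfl⟩ | ⟨h1, rfl⟩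
      · by_cases hxi : x = i
        · subst hxi
          exact absurd ⟨h1, hyS⟩ hcon
        · exact (dsc_par T ih hxi).2
      · exact Relation.ReflTransGen.head ⟨h1, rfl⟩ ih
  have h1 := dsc_dep T (hdesc t (hc i hi t htS))
  have h2 := htm i hi
  rcases h1 with h1 | h1
  · exact hit h1.symm
  · omega

end SubAux

open SubAux

/-- SUB -/
theorem stSub : StSub := by
  intro I _ T
  refine ⟨?_, ?_, ?_, ?_, ?_⟩
  · intro S hne hc
    exact sub_of_conn T hne hc
  · intro S hS
    exact conn_of_sub T hS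
  · rintro S p hS ⟨i, hi, hpi⟩ ⟨j, hj, hpj⟩
    have h := conn_of_sub T hS i hi j hj
    by_contra hcon
    push Not at hcon
    apply hpj
    have : ∀ x, Relation.ReflTransGen (Stp T S) i x → p x := by
      intro x hx
      induction hx with
      | refl => exact hpi
      | @tail x y _ h2 ih => exact hcon x h2.1 y h2.2.1 h2.2.2 ih
    exact this j h
  · intro S U hS hU
    have hne : (S ∪ ⋃₀ U).Nonempty := by
      obtain ⟨t, ht, _⟩ := hS
      exact ⟨t, Or.inl ht⟩
    obtain ⟨t, htS, _⟩ := id hS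
    have key : ∀ i ∈ S ∪ ⋃₀ U, Relation.ReflTransGen (Stp T (S ∪ ⋃₀ U)) i t := by
      intro i hi
      rcases hi with hi | ⟨Y, hY, hi⟩
      · exact stp_mono T Set.subset_union_left (conn_of_sub T hS i hi t htS)
      · obtain ⟨hY1, ⟨x, hxS, hxY⟩⟩ := hU Y hY
        have hsub : Y ⊆ S ∪ ⋃₀ U := fun z hz => Or.inr ⟨Y, hY, hz⟩
        exact (stp_mono T hsub (conn_of_sub T hY1 i hi x hxY)).trans
          (stp_mono T Set.subset_union_left (conn_of_sub T hS x hxS t htS))
    exact sub_of_conn T hne (fun i hi j hj => (key i hi).trans (stp_symm T _ (key j hj)))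
  · intro S Y hS hY hne
    obtain ⟨t, htSY, htm⟩ : ∃ t ∈ S ∩ Y, ∀ i ∈ S ∩ Y, T.dep t ≤ T.dep i := by
      have hex : ∃ n, ∃ i ∈ S ∩ Y, T.dep i = n := ⟨_, hne.some, hne.some_mem, rfl⟩
      obtain ⟨i, hi, hn⟩ := Nat.find_spec hex
      exact ⟨i, hi, fun j hj => by
        rw [hn]; exact Nat.find_min' hex ⟨j, hj, rfl⟩⟩
    obtain ⟨a, haS, ha⟩ := hS
    obtain ⟨b, hbY, hb⟩ := hY
    refine ⟨t, htSY, ?_⟩
    rintro i ⟨hiS, hiY⟩ hit
    have hia : i ≠ a := by
      rintro rfl
      have := top_dep T ha _ t rfl htSY.1 (Ne.symm hit)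
      have := htm i ⟨hiS, hiY⟩
      omega
    have hib : i ≠ b := by
      rintro rfl
      have := top_dep T hb _ t rfl htSY.2 (Ne.symm hit)
      have := htm i ⟨hiS, hiY⟩
      omega
    exact ⟨(ha i hiS hia).1, (ha i hiS hia).2, (hb i hiY hib).2⟩

end Pool.Agent.Lib.MP_1fca17_co.F
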