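import Mathlib
import Pool.Agent.Lib.MP_1fca17_co.F.Defs

/-!
# MP_1fca17_co : assembly of one window (helper32, second key of WIN)
-/

namespace Pool.Agent.Lib.MP_1fca17_co.F.Win32

open Finset
open scoped Classical
open Pool.Agent.Lib.MP_1fca17_co (sg GenPos Btw LC MonoFam StCount StNum1)
open Pool.Agent.Lib.MP_1fca17_co.Q (PlaneMap KPlanar Par Anti edgeSeg BaseD StGP)

noncomputable section

/-- lists of length `< s` with entries `≤ m` -/
def pats (m : ℕ) : ℕ → Finset (List ℕ)
  | 0 => ∅
  | s + 1 => insert [] ((range (m + 1) ×ˢ pats m s).image (fun e => e.1 :: e.2))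

theorem card_pats (m s : ℕ) : (pats m s).card ≤ (m + 2) ^ s := by
  induction s with
  | zero => simp [pats]
  | succ s ih =>
    calc (pats m (s + 1)).card ≤ ((range (m + 1) ×ˢ pats m s).image (fun e => e.1 :: e.2)).card + 1 :=
          card_insert_le _ _
      _ ≤ (range (m + 1) ×ˢ pats m s).card + 1 := by
          gcongr
          exact card_image_le
      _ = (m + 1) * (pats m s).card + 1 := by rw [card_product, card_range]
      _ ≤ (m + 1) * (m + 2) ^ s + (m + 2) ^ s := by
          gcongr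
          exact Nat.one_le_pow _ _ (by omega)
      _ = (m + 2) ^ (s + 1) := by ring

theorem mem_pats (m : ℕ) : ∀ (s : ℕ) (z : List ℕ), z.length < s → (∀ x ∈ z, x ≤ m) → z ∈ pats m s
  | 0, z, h, _ => by omega
  | s + 1, [], _, _ => by simp [pats]
  | s + 1, x :: z, h, hz => by
    unfold pats
    refine mem_insert_of_mem (mem_image.2 ⟨(x, z), mem_product.2 ⟨?_, ?_⟩, rfl⟩)
    · have := hz x (by simp)
      simp only [mem_range]
      omega
    · refine mem_pats m s z ?_ (fun y hy => hz y (by simp [hy]))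
      simp only [List.length_cons] at h
      omega

theorem way_length (t : List ℕ → ℕ) : ∀ (g : ℕ) (l : List ℕ), (way t g l).length = g
  | 0, l => rfl
  | g + 1, l => by
    simp [way, way_length t g l.tail]

theorem way_mem (t : List ℕ → ℕ) : ∀ (g : ℕ) (l : List ℕ) (x : ℕ), x ∈ way t g l → ∃ l', x = t l'
  | 0, l, x, h => by simp [way] at h
  | g + 1, l, x, h => by
    simp only [way, List.mem_append, List.mem_singleton] at h
    rcases h with h | h
    · exact way_mem t g _ x h
    · exact ⟨l, h⟩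

theorem Anti.mono {V : Type} {β κ : V → ℕ} {F F' : Finset (V × V)} (h : Anti β κ F)
    (hs : F' ⊆ F) : Anti β κ F' := fun e he f hf hef => h e (hs he) f (hs hf) hef

theorem Anti.swap {V : Type} {β : V → ℕ} {F : Finset (V × V)} (h : Anti β β F) :
    Anti β β (F.image Prod.swap) := by
  intro e he f hf hef
  obtain ⟨e', he', rfl⟩ := mem_image.1 he
  obtain ⟨f', hf', rfl⟩ := mem_image.1 hf
  have hne : e' ≠ f' := fun h' => hef (by rw [h'])
  rcases h e' he' f' hf' hne with ⟨h1, h2⟩ | ⟨h1, h2⟩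
  · exact Or.inr ⟨h2, h1⟩
  · exact Or.inl ⟨h2, h1⟩

section

variable {V : Type} [Fintype V] {G : SimpleGraph V} {A B : Finset V}
  {m s qq s1 s2 s3 m0 n : ℕ} {X : Blk G (A ∪ B) m s qq s1 s2 s3} {t ρ : List ℕ → ℕ}
  {τ id : V → ℕ} {lab : V → Fin m0}

/-- the families of edges with the older end first -/
theorem older (hi : StFI) (hh : StFH) (fr : Frm G A B m s qq s1 s2 s3 m0 n X t ρ τ id lab)
    (A' C : Finset V) (hAC : (A' = A ∧ C = A) ∨ (A' = A ∧ C = B) ∨ (A' = B ∧ C = A))
    (F : Finset (V × V)) (hF : ∀ e ∈ F, G.Adj e.1 e.2 ∧ e.1 ∈ A' ∧ e.2 ∈ C ∧ X.h e.1 ≠ X.h e.2 ∧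
      (X.h e.1).length ≤ (X.h e.2).length)
    (ha : Anti (key ρ qq m0 n X.h X.b (fun u => (lab u : ℕ)) id)
      (key ρ qq m0 n X.h X.b (fun u => (lab u : ℕ)) id) F) :
    F.card ≤ ((qq + 1) ^ 2 * m0 + s3) * (m + 2) ^ s + 2 ^ m * (s2 + s3) * (m + 2) ^ s := by
  have hA : A' ⊆ A ∪ B := by
    rcases hAC with ⟨h, _⟩ | ⟨h, _⟩ | ⟨h, _⟩ <;> rw [h]
    · exact subset_union_left
    · exact subset_union_left
    · exact subset_union_right
  have hC : C ⊆ A ∪ B := by
    rcases hAC with ⟨_, h⟩ | ⟨_, h⟩ | ⟨_, h⟩ <;> rw [h]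
    · exact subset_union_left
    · exact subset_union_right
    · exact subset_union_left
  set F1 := F.filter (fun e => X.h e.2 <:+ X.b e.1) with hF1
  set F2 := F.filter (fun e => ¬ X.h e.2 <:+ X.b e.1) with hF2
  have hsum : F.card = F1.card + F2.card := (card_filter_add_card_filter_not _).symm
  have hedge : ∀ e ∈ F, X.h e.1 <:+ X.h e.2 ∧ X.h e.1 ≠ X.h e.2 ∧
      (X.h e.2 <:+ X.b e.1 ∨ e.1 ∈ X.hub (X.h e.2)) := by
    intro e he
    obtain ⟨h1, h2, h3, h4, h5⟩ := hF e he
    rcases X.edge e.1 (hA h2) e.2 (hC h3) h1 h5 with h | h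
    · exact absurd h h4
    · exact h
  have h1 : F1.card ≤ ((qq + 1) ^ 2 * m0 + s3) * (m + 2) ^ s := by
    have h1' : F1.card ≤ ((qq + 1) ^ 2 * m0 + s3) * (pats m s).card := by
      refine card_le_mul_card_image_of_maps_to
        (f := fun e => way t ((X.h e.2).length - (X.h e.1).length) (X.h e.2)) ?_ _ ?_
      · intro e he
        obtain ⟨he, hb⟩ := mem_filter.1 he
        refine mem_pats m s _ ?_ ?_
        · rw [way_length]
          have h2 := hb.length_le
          have h3 := X.len e.1 (hA (hF e he).2.1)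
          have h4 := (hF e he).2.2.2.2
          omega
        · intro x hx
          obtain ⟨l', rfl⟩ := way_mem _ _ _ _ hx
          exact fr.ord.tm l'
      · intro z _
        refine hi V G A B m s qq s1 s2 s3 m0 n X t ρ τ id lab fr A' C hAC z _ ?_
          (Anti.mono ha ((filter_subset _ _).trans (filter_subset _ _)))
        intro e he
        obtain ⟨he, hz⟩ := mem_filter.1 he
        obtain ⟨he, hb⟩ := mem_filter.1 he
        obtain ⟨h1, h2, h3, h4, h5⟩ := hF e he
        exact ⟨h1, h2, h3, h4, (hedge e he).1, hb, hz⟩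
    exact h1'.trans (Nat.mul_le_mul_left _ (card_pats m s))
  have h2 : F2.card ≤ 2 ^ m * (s2 + s3) * (m + 2) ^ s := by
    have h2' : F2.card ≤ 2 ^ m * (s2 + s3) * (pats m s).card := by
      refine card_le_mul_card_image_of_maps_to
        (f := fun e => way t ((X.b e.1).length - (X.h e.1).length) (X.b e.1)) ?_ _ ?_
      · intro e he
        obtain ⟨he, hb⟩ := mem_filter.1 he
        refine mem_pats m s _ ?_ ?_
        · rw [way_length]
          have h3 := X.len e.1 (hA (hF e he).2.1)
          have h4 := (X.hb e.1 (hA (hF e he).2.1)).length_le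
          omega
        · intro x hx
          obtain ⟨l', rfl⟩ := way_mem _ _ _ _ hx
          exact fr.ord.tm l'
      · intro z _
        refine hh V G A B m s qq s1 s2 s3 m0 n X t ρ τ id lab fr z _ ?_
          (Anti.mono ha ((filter_subset _ _).trans (filter_subset _ _)))
        intro e he
        obtain ⟨he, hz⟩ := mem_filter.1 he
        obtain ⟨he, hb⟩ := mem_filter.1 he
        refine ⟨hA (hF e he).2.1, hC (hF e he).2.2.1, ?_, hz⟩
        exact (hedge e he).2.2.resolve_left hb
    exact h2'.trans (Nat.mul_le_mul_left _ (card_pats m s))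
  omega

/-- all the families of edges between different blocks -/
theorem differ (hi : StFI) (hh : StFH) (fr : Frm G A B m s qq s1 s2 s3 m0 n X t ρ τ id lab)
    (C : Finset V) (hC : C = A ∨ C = B)
    (F : Finset (V × V)) (hF : ∀ e ∈ F, G.Adj e.1 e.2 ∧ e.1 ∈ A ∧ e.2 ∈ C ∧ X.h e.1 ≠ X.h e.2)
    (ha : Anti (key ρ qq m0 n X.h X.b (fun u => (lab u : ℕ)) id)
      (key ρ qq m0 n X.h X.b (fun u => (lab u : ℕ)) id) F) :
    F.card ≤ 2 * (((qq + 1) ^ 2 * m0 + s3) * (m + 2) ^ s + 2 ^ m * (s2 + s3) * (m + 2) ^ s) := by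
  set F1 := F.filter (fun e => (X.h e.1).length ≤ (X.h e.2).length) with hF1
  set F2 := F.filter (fun e => ¬ (X.h e.1).length ≤ (X.h e.2).length) with hF2
  have hsum : F.card = F1.card + F2.card := (card_filter_add_card_filter_not _).symm
  have h1 : F1.card ≤ ((qq + 1) ^ 2 * m0 + s3) * (m + 2) ^ s + 2 ^ m * (s2 + s3) * (m + 2) ^ s := by
    refine older hi hh fr A C ?_ F1 ?_ (Anti.mono ha (filter_subset _ _))
    · rcases hC with h | h
      · exact Or.inl ⟨rfl, h⟩
      · exact Or.inr (Or.inl ⟨rfl, h⟩)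
    · intro e he
      obtain ⟨he, hl⟩ := mem_filter.1 he
      obtain ⟨h1, h2, h3, h4⟩ := hF e he
      exact ⟨h1, h2, h3, h4, hl⟩
  have h2 : F2.card ≤ ((qq + 1) ^ 2 * m0 + s3) * (m + 2) ^ s + 2 ^ m * (s2 + s3) * (m + 2) ^ s := by
    have hcard : (F2.image Prod.swap).card = F2.card :=
      card_image_of_injective _ Prod.swap_injective
    rw [← hcard]
    refine older hi hh fr C A ?_ (F2.image Prod.swap) ?_
      (Anti.swap (Anti.mono ha (filter_subset _ _)))
    · rcases hC with h | h
      · exact Or.inl ⟨h, rfl⟩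
      · exact Or.inr (Or.inr ⟨h, rfl⟩)
    · intro e' he'
      obtain ⟨e, he, rfl⟩ := mem_image.1 he'
      obtain ⟨he, hl⟩ := mem_filter.1 he
      obtain ⟨h1, h2, h3, h4⟩ := hF e he
      refine ⟨h1.symm, h3, h2, h4.symm, ?_⟩
      simp only [Prod.fst_swap, Prod.snd_swap]
      omega
  omega

end

theorem stWin2 (hl : StLab2) (ho : StOrd) (hc : StCol) (h0 : StF0) (hi : StFI) (hh : StFH)
    (h3 : StF3) : StWin2 := by
  intro V _ G A B m s qq s1 s2 s3 t0 m0 X τ hqq hs hdis hden hm0
  -- the names and the bound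
  let id : V → ℕ := fun v => (Fintype.equivFin V v : ℕ)
  have hidi : Function.Injective id := by
    intro u v h
    exact (Fintype.equivFin V).injective (Fin.ext h)
  set n : ℕ := Fintype.card V + ∑ v : V, (X.b v).length with hn
  have hidn : ∀ v, id v < n := by
    intro v
    have : id v < Fintype.card V := (Fintype.equivFin V v).isLt
    omega
  obtain ⟨t, ρ, hord⟩ := ho V X.hub X.b m qq n hqq ⟨X.hubm, X.hublt, X.hubmono⟩
  obtain ⟨lab, hlab⟩ := hl V G A B m s qq s1 s2 s3 t0 m0 n X ρ τ id hdis hden hm0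
  have fr : Frm G A B m s qq s1 s2 s3 m0 n X t ρ τ id lab := by
    refine ⟨hqq, hdis, ?_, hord, hidn, hidi, hlab⟩
    intro v hv
    refine ⟨?_, X.idx v hv⟩
    have : (X.b v).length ≤ ∑ v : V, (X.b v).length :=
      single_le_sum (f := fun v => (X.b v).length) (fun _ _ => Nat.zero_le _) (mem_univ v)
    omega
  -- the colours
  let adj : List ℕ → Finset (List ℕ) := fun l =>
    (((range (s - 1)).image (fun g => l.drop (g + 1))) ∪ (X.hub l).image X.h).filter
      (fun l' => l'.length < l.length)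
  have hadj : ∀ l, (adj l).card < s + m := by
    intro l
    calc (adj l).card ≤ (((range (s - 1)).image (fun g => l.drop (g + 1))) ∪
          (X.hub l).image X.h).card := card_filter_le _ _
      _ ≤ ((range (s - 1)).image (fun g => l.drop (g + 1))).card + ((X.hub l).image X.h).card :=
          card_union_le _ _
      _ ≤ (range (s - 1)).card + (X.hub l).card := add_le_add card_image_le card_image_le
      _ ≤ (s - 1) + m := by
          rw [card_range]
          exact Nat.add_le_add_left (X.hubm l) _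
      _ < s + m := by omega
  obtain ⟨col, hcol, hcol'⟩ := hc (s + m) adj hadj (fun l l' h => (mem_filter.1 h).2)
  have hproper : ∀ v ∈ A ∪ B, ∀ u ∈ A ∪ B, G.Adj v u → (X.h v).length ≤ (X.h u).length →
      X.h v ≠ X.h u → col (X.h v) ≠ col (X.h u) := by
    intro v hv u hu huv hlen hne
    rcases X.edge v hv u hu huv hlen with h | ⟨h1, _, h2⟩
    · exact absurd h hne
    have hlt : (X.h v).length < (X.h u).length := by
      rcases lt_or_eq_of_le hlen with h | h
      · exact h
      · exact absurd (h1.eq_of_length h) hne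
    refine hcol' _ _ (mem_filter.2 ⟨mem_union.2 ?_, hlt⟩)
    rcases h2 with h2 | h2
    · left
      refine mem_image.2 ⟨(X.h u).length - (X.h v).length - 1, ?_, ?_⟩
      · have h3 := X.len v hv
        have h4 := h2.length_le
        rw [mem_range]
        omega
      · have h5 : (X.h u).length - (X.h v).length - 1 + 1 = (X.h u).length - (X.h v).length := by
          omega
        rw [h5]
        exact (List.suffix_iff_eq_drop.1 h1).symm
    · right
      exact mem_image_of_mem _ h2
  have hproper' : ∀ v ∈ A ∪ B, ∀ u ∈ A ∪ B, G.Adj v u → X.h v ≠ X.h u →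
      col (X.h v) ≠ col (X.h u) := by
    intro v hv u hu huv hne
    rcases le_total (X.h v).length (X.h u).length with h | h
    · exact hproper v hv u hu huv h hne
    · exact (hproper u hu v hv huv.symm h hne.symm).symm
  have hP : 1 ≤ (m + 2) ^ s := Nat.one_le_pow _ _ (by omega)
  have hQ : 1 ≤ 2 ^ m := Nat.one_le_two_pow
  -- the numbers
  have key1 : (qq + 1) ^ 2 * m0 + 2 * (((qq + 1) ^ 2 * m0 + s3) * (m + 2) ^ s +
      2 ^ m * (s2 + s3) * (m + 2) ^ s) ≤ bnd m s qq s2 s3 m0 := by
    unfold bnd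
    generalize (qq + 1) ^ 2 * m0 = a at *
    generalize (m + 2) ^ s = P at *
    generalize 2 ^ m = Q at *
    have hPQ : P ≤ P * Q := Nat.le_mul_of_pos_right _ hQ
    have h1PQ : 1 ≤ P * Q := Nat.mul_pos hP hQ
    have e1 : a ≤ P * Q * a := Nat.le_mul_of_pos_left _ h1PQ
    have e2 : (a + s3) * P ≤ P * Q * (a + s3) := by
      rw [mul_comm]
      exact Nat.mul_le_mul_right _ hPQ
    have e3 : Q * (s2 + s3) * P = P * Q * (s2 + s3) := by ring
    rw [e3]
    have e4 : 8 * P * Q * (a + s2 + s3) = 8 * (P * Q * a) + 8 * (P * Q * s2) + 8 * (P * Q * s3) := by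
      ring
    have e5 : P * Q * (a + s3) = P * Q * a + P * Q * s3 := by ring
    have e6 : P * Q * (s2 + s3) = P * Q * s2 + P * Q * s3 := by ring
    rw [e4, e6]
    rw [e5] at e2
    omega
  refine ⟨key ρ qq m0 n X.h X.b (fun u => (lab u : ℕ)) id, fun v => col (X.h v), ?_,
    fun v => hcol _, ?_, ?_, ?_⟩
  · intro u v huv
    have hn0 : 0 < n := lt_of_le_of_lt (Nat.zero_le _) (hidn u)
    have h1 : id u = id v := by
      have h2 := congrArg (· % n) huv
      simp only [key] at h2
      rw [Nat.add_comm, Nat.add_mul_mod_self_right, Nat.add_comm, Nat.add_mul_mod_self_right,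
        Nat.mod_eq_of_lt (hidn u), Nat.mod_eq_of_lt (hidn v)] at h2
      exact h2
    exact hidi h1
  · intro F hF ha
    set F1 := F.filter (fun e => X.h e.1 = X.h e.2) with hF1
    set F2 := F.filter (fun e => ¬ X.h e.1 = X.h e.2) with hF2
    have hsum : F.card = F1.card + F2.card := (card_filter_add_card_filter_not _).symm
    have h1 : F1.card ≤ (qq + 1) ^ 2 * m0 := by
      refine h0 V G A B m s qq s1 s2 s3 m0 n X t ρ τ id lab fr F1 ?_
        (Anti.mono ha (filter_subset _ _))
      intro e he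
      obtain ⟨he, hl⟩ := mem_filter.1 he
      exact ⟨(hF e he).1, (hF e he).2.1, (hF e he).2.2, hl⟩
    have h2 := differ hi hh fr B (Or.inr rfl) F2 (by
      intro e he
      obtain ⟨he, hl⟩ := mem_filter.1 he
      exact ⟨(hF e he).1, (hF e he).2.1, (hF e he).2.2, hl⟩) (Anti.mono ha (filter_subset _ _))
    omega
  · intro F hF ha
    have h2 := differ hi hh fr A (Or.inl rfl) F (by
      intro e he
      obtain ⟨h1, h2, h3, h4⟩ := hF e he
      exact ⟨h1, h2, h3, fun h => h4 (congrArg col h)⟩) ha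
    omega
  · intro F hF hLC
    have h1 : F.card ≤ 2 * ((qq + 1) ^ 2 * m0) := by
      refine h3 V G A B m s qq s1 s2 s3 m0 n X t ρ τ id lab fr F ?_ hLC
      intro e he
      obtain ⟨h1, h2, h3, h4, h5⟩ := hF e he
      refine ⟨h1, h2, h3, ?_, h5⟩
      by_contra hne
      exact hproper' e.1 (mem_union_left _ h2) e.2 (mem_union_left _ h3) h1 hne h4
    have h2 : (qq + 1) ^ 2 * m0 ≤ ((qq + 1) ^ 2 * m0 + s3) * (m + 2) ^ s := by
      calc (qq + 1) ^ 2 * m0 ≤ (qq + 1) ^ 2 * m0 + s3 := Nat.le_add_right _ _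
        _ ≤ ((qq + 1) ^ 2 * m0 + s3) * (m + 2) ^ s := Nat.le_mul_of_pos_right _ hP
    omega

end

end Pool.Agent.Lib.MP_1fca17_co.F.Win32
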