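import Mathlib
import Pool.Agent.Lib.MP_1fca17_co.F.Main
import Pool.Agent.Lib.MP_1fca17_co.F.Sub
import Pool.Agent.Lib.MP_1fca17_co.F.Cut
import Pool.Agent.Lib.MP_1fca17_co.F.Rec
import Pool.Agent.Lib.MP_1fca17_co.F.Blk
import Pool.Agent.Lib.MP_1fca17_co.F.Deg
import Pool.Agent.Lib.MP_1fca17_co.F.Lab
import Pool.Agent.Lib.MP_1fca17_co.F.Win32
import Pool.Agent.Lib.MP_1fca17_co.F.Ord
import Pool.Agent.Lib.MP_1fca17_co.F.F03
import Pool.Agent.Lib.MP_1fca17_co.F.FH82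
import Pool.Agent.Lib.MP_1fca17_co.F.GN
import Pool.Agent.Lib.MP_1fca17_co.F.Num
import Pool.Agent.Lib.MP_1fca17_co.F.Kpl
import Pool.Agent.Lib.MP_1fca17_co.F.Col
import Pool.Agent.Lib.MP_1fca17_co.F.Asm
import Pool.Agent.Lib.MP_1fca17_co.Count
import Pool.Agent.Lib.MP_1fca17_co.Num

/-!
# MP_1fca17_co : k-planar graphs have straight-line drawings with `O(k^(13/14))` pairwise crossing
edges
-/

namespace Pool.Agent.Lib.MP_1fca17_co.F

theorem full : StFull :=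
  stFull stKpl2 (stRec stSub stCut) stBlk stDeg
    (stAsm2 (Win32.stWin2 (stLab2 stCount stNum1) stOrd stCol stF0 R82.stFI R82.stFH stF3)
      stGeomN) stNumF

end Pool.Agent.Lib.MP_1fca17_co.F
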