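import Pool.Agent.Lib.MP_1fca17_co.F.Defs

/-!
# MP_1fca17_co : row SUB (elementary facts on subtrees of a rooted tree)
-/

namespace Pool.Agent.Lib.MP_1fca17_co.F.Sub85

open Finset
open scoped Classical
open Pool.Agent.Lib.MP_1fca17_co.F

variable {I : Type}

/-- one step upwards -/
def Stp (T : RTree I) (a b : I) : Prop := a ≠ T.r ∧ b = T.par a

/-- `j` is below or equal `i` -/
def Up (T : RTree I) (j i : I) : Prop := Relation.ReflTransGen (Stp T) j i

theorem dep_stp (T : RTree I) {a b : I} (h : Stp T a b) : T.dep b + 1 = T.dep a := by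
  obtain ⟨h1, h2⟩ := h
  rw [h2]
  exact T.dep_par a h1

theorem up_dep (T : RTree I) {j i : I} (h : Up T j i) : j = i ∨ T.dep i < T.dep j := by
  unfold Up at h
  induction h with
  | refl => exact Or.inl rfl
  | @tail b c _ hbc ih =>
    have := dep_stp T hbc
    rcases ih with rfl | ih
    · right; omega
    · right; omega

theorem adj_symm (T : RTree I) {i j : I} (h : T.Adj i j) : T.Adj j i := by
  unfold RTree.Adj at *
  tauto

/-- adjacency inside `S` -/
def In (T : RTree I) (S : Set I) (x y : I) : Prop := x ∈ S ∧ y ∈ S ∧ T.Adj x y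

theorem in_symm (T : RTree I) (S : Set I) {x y : I} (h : In T S x y) : In T S y x :=
  ⟨h.2.1, h.1, adj_symm T h.2.2⟩

theorem rtg_symm (T : RTree I) (S : Set I) {x y : I} (h : Relation.ReflTransGen (In T S) x y) :
    Relation.ReflTransGen (In T S) y x := by
  induction h with
  | refl => exact Relation.ReflTransGen.refl
  | tail _ hbc ih => exact Relation.ReflTransGen.head (in_symm T S hbc) ih

theorem below_of_path (T : RTree I) (S : Set I) {i : I} (hi : i = T.r ∨ T.par i ∉ S) {j : I}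
    (h : Relation.ReflTransGen (In T S) i j) : Up T j i := by
  induction h with
  | refl => exact Relation.ReflTransGen.refl
  | @tail x y _ hxy ih =>
    obtain ⟨_, hy, ha⟩ := hxy
    rcases ha with ⟨h1, h2⟩ | ⟨h1, h2⟩
    · by_cases hxi : x = i
      · subst hxi
        rcases hi with hi | hi
        · exact absurd hi h1
        · exact absurd (h2 ▸ hy) hi
      · rcases Relation.ReflTransGen.cases_head ih with h | ⟨c, hc, hci⟩
        · exact absurd h hxi
        · have : c = y := by rw [hc.2, h2]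
          rw [← this]
          exact hci
    · exact Relation.ReflTransGen.head ⟨h1, h2⟩ ih

theorem sub_of_conn (T : RTree I) (S : Set I) (hne : S.Nonempty)
    (hc : ∀ i ∈ S, ∀ j ∈ S, Relation.ReflTransGen (In T S) i j) : T.Sub S := by
  have hex : ∃ n, ∃ i ∈ S, T.dep i = n := by
    obtain ⟨i, hi⟩ := hne
    exact ⟨T.dep i, i, hi, rfl⟩
  obtain ⟨t, ht, htd⟩ := Nat.find_spec hex
  have hmin : ∀ i ∈ S, T.dep t ≤ T.dep i := by
    intro i hi
    rw [htd]
    exact Nat.find_min' hex ⟨i, hi, rfl⟩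
  refine ⟨t, ht, ?_⟩
  intro i hi hit
  by_contra hcon
  have hi' : i = T.r ∨ T.par i ∉ S := by
    by_contra h
    push Not at h
    exact hcon h
  have hup := below_of_path T S hi' (hc i hi t ht)
  rcases up_dep T hup with h | h
  · exact hit h.symm
  · have := hmin i hi
    omega

theorem top_dep (T : RTree I) (S : Set I) {t : I}
    (ht : ∀ i ∈ S, i ≠ t → i ≠ T.r ∧ T.par i ∈ S) :
    ∀ n : ℕ, ∀ i ∈ S, T.dep i = n → i = t ∨ T.dep t < T.dep i := by
  intro n
  induction n using Nat.strong_induction_on with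
  | _ n ih =>
    intro i hi hin
    by_cases hit : i = t
    · exact Or.inl hit
    · right
      obtain ⟨h1, h2⟩ := ht i hi hit
      have h3 := T.dep_par i h1
      rcases ih (T.dep (T.par i)) (by omega) (T.par i) h2 rfl with h | h
      · rw [h] at h3
        omega
      · omega

theorem to_top (T : RTree I) (S : Set I) {t : I}
    (ht : ∀ i ∈ S, i ≠ t → i ≠ T.r ∧ T.par i ∈ S) :
    ∀ n : ℕ, ∀ i ∈ S, T.dep i = n → Relation.ReflTransGen (In T S) i t := by
  intro n
  induction n using Nat.strong_induction_on with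
  | _ n ih =>
    intro i hi hin
    by_cases hit : i = t
    · rw [hit]
    · obtain ⟨h1, h2⟩ := ht i hi hit
      have h3 := T.dep_par i h1
      refine Relation.ReflTransGen.head (b := T.par i) ⟨hi, h2, Or.inl ⟨h1, rfl⟩⟩ ?_
      exact ih (T.dep (T.par i)) (by omega) (T.par i) h2 rfl

theorem conn_of_sub (T : RTree I) (S : Set I) (hS : T.Sub S) :
    ∀ i ∈ S, ∀ j ∈ S, Relation.ReflTransGen (In T S) i j := by
  obtain ⟨t, _, ht⟩ := hS
  intro i hi j hj
  exact (to_top T S ht _ i hi rfl).trans (rtg_symm T S (to_top T S ht _ j hj rfl))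

theorem crossing (T : RTree I) (S : Set I) (p : I → Prop) (hS : T.Sub S)
    (h1 : ∃ i ∈ S, p i) (h2 : ∃ j ∈ S, ¬ p j) :
    ∃ i ∈ S, ∃ j ∈ S, T.Adj i j ∧ p i ∧ ¬ p j := by
  obtain ⟨i, hi, hpi⟩ := h1
  obtain ⟨j, hj, hpj⟩ := h2
  by_contra hcon
  push Not at hcon
  have key : ∀ y, Relation.ReflTransGen (In T S) i y → p y := by
    intro y hy
    induction hy with
    | refl => exact hpi
    | @tail b c _ hbc ih => exact hcon b hbc.1 c hbc.2.1 hbc.2.2 ih
  exact hpj (key j (conn_of_sub T S hS i hi j hj))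

theorem rtg_mono (T : RTree I) {S Y : Set I} (h : S ⊆ Y) {x y : I}
    (hp : Relation.ReflTransGen (In T S) x y) : Relation.ReflTransGen (In T Y) x y := by
  induction hp with
  | refl => exact Relation.ReflTransGen.refl
  | tail _ hab ih => exact ih.tail ⟨h hab.1, h hab.2.1, hab.2.2⟩

theorem sub_union (T : RTree I) (S : Set I) (U : Set (Set I)) (hS : T.Sub S)
    (hU : ∀ Y ∈ U, T.Sub Y ∧ (S ∩ Y).Nonempty) : T.Sub (S ∪ ⋃₀ U) := by
  obtain ⟨t, htS, ht⟩ := hS
  have hS' : T.Sub S := ⟨t, htS, ht⟩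
  have hto : ∀ i ∈ S ∪ ⋃₀ U, Relation.ReflTransGen (In T (S ∪ ⋃₀ U)) i t := by
    intro i hi
    rcases hi with hi | hi
    · exact rtg_mono T Set.subset_union_left (conn_of_sub T S hS' i hi t htS)
    · obtain ⟨Y, hY, hiY⟩ := hi
      obtain ⟨hYs, z, hzS, hzY⟩ := hU Y hY
      have hsub : Y ⊆ S ∪ ⋃₀ U := fun a ha => Or.inr ⟨Y, hY, ha⟩
      exact (rtg_mono T hsub (conn_of_sub T Y hYs i hiY z hzY)).trans
        (rtg_mono T Set.subset_union_left (conn_of_sub T S hS' z hzS t htS))
  refine sub_of_conn T _ ⟨t, Or.inl htS⟩ ?_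
  intro i hi j hj
  exact (hto i hi).trans (rtg_symm T _ (hto j hj))

theorem sub_inter (T : RTree I) (S Y : Set I) (hS : T.Sub S) (hY : T.Sub Y)
    (hne : (S ∩ Y).Nonempty) : T.Sub (S ∩ Y) := by
  obtain ⟨a, haS, ha⟩ := hS
  obtain ⟨b, hbY, hb⟩ := hY
  have hex : ∃ n, ∃ i ∈ S ∩ Y, T.dep i = n := by
    obtain ⟨i, hi⟩ := hne
    exact ⟨T.dep i, i, hi, rfl⟩
  obtain ⟨t, ht, htd⟩ := Nat.find_spec hex
  have hmin : ∀ i ∈ S ∩ Y, T.dep t ≤ T.dep i := by
    intro i hi
    rw [htd]
    exact Nat.find_min' hex ⟨i, hi, rfl⟩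
  refine ⟨t, ht, ?_⟩
  intro i hi hit
  have hia : i ≠ a := by
    rintro rfl
    rcases top_dep T S ha _ t ht.1 rfl with h | h
    · exact hit h.symm
    · have := hmin i hi
      omega
  have hib : i ≠ b := by
    rintro rfl
    rcases top_dep T Y hb _ t ht.2 rfl with h | h
    · exact hit h.symm
    · have := hmin i hi
      omega
  obtain ⟨h1, h2⟩ := ha i hi.1 hia
  obtain ⟨_, h4⟩ := hb i hi.2 hib
  exact ⟨h1, h2, h4⟩

theorem stSub : StSub := by
  intro I _ T
  exact ⟨fun S hne hc => sub_of_conn T S hne hc, fun S hS => conn_of_sub T S hS,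
    fun S p hS h1 h2 => crossing T S p hS h1 h2, fun S U hS hU => sub_union T S U hS hU,
    fun S Y hS hY hne => sub_inter T S Y hS hY hne⟩

end Pool.Agent.Lib.MP_1fca17_co.F.Sub85

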