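import Mathlib
import Pool.Agent.Lib.MP_1fca17_co.Q.MapDefs

/-!
# MP_1fca17_co : the layered tree decomposition of a plane map with weights on the vertices

helper4, after helper64 and helper92 (`Q/MConn.lean`, `Q/MCount.lean`, `Q/Bfs.lean`).
-/

namespace Pool.Agent.Lib.MP_1fca17_co.Q

open Finset
open scoped Classical

noncomputable section

/-- search data of a plane map with weights: the distance of a vertex is the weight of the cheapest
path from the root to it (without the weight of the root), and `pd x` is the first dart of a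
cheapest path back to the root -/
structure WB {X D : Type} [Fintype X] [Fintype D] (M : PlaneMap X D) (w : X → ℕ) where
  r : X
  dist : X → ℕ
  pd : X → D
  pd_tail : ∀ x, x ≠ r → M.vert (pd x) = x
  pd_head : ∀ x, x ≠ r → dist (M.vert (M.α (pd x))) + w x = dist x
  lip : ∀ x y, M.Adj x y → dist y ≤ dist x + w y
  pos : ∀ x, 1 ≤ w x

variable {X D : Type} [Fintype X] [Fintype D] {M : PlaneMap X D} {w : X → ℕ}

/-- the parent of a vertex -/
def WB.up (S : WB M w) (x : X) : X := M.vert (M.α (S.pd x))

/-- `x` lies on the path from `y` to the root -/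
def WB.On (S : WB M w) (x y : X) : Prop :=
  Relation.ReflTransGen (fun a b => a ≠ S.r ∧ b = S.up a) y x

/-- the darts of the tree -/
def WB.tree (S : WB M w) (d : D) : Prop := ∃ x, x ≠ S.r ∧ (d = S.pd x ∨ d = M.α (S.pd x))

/-- the bag of a dart: the three root paths -/
def bagW (S : WB M w) (b : BaseD M) (d : D) : Finset X :=
  univ.filter (fun x => S.On x (M.vert d) ∨ S.On x (M.vert (M.α d)) ∨ S.On x (M.vert (b.base d)))

/-- the tree on the darts -/
def linkW (S : WB M w) (b : BaseD M) : SimpleGraph D where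
  Adj d d' := d ≠ d' ∧ ((d' = M.σ (M.α d) ∧ b.base d' ≠ d') ∨ (d = M.σ (M.α d') ∧ b.base d ≠ d) ∨
    (d' = M.α d ∧ ¬ S.tree d))
  symm := ⟨by
    rintro d d' ⟨h, h1 | h1 | h1⟩
    · exact ⟨h.symm, Or.inr (Or.inl h1)⟩
    · exact ⟨h.symm, Or.inl h1⟩
    · refine ⟨h.symm, Or.inr (Or.inr ⟨?_, ?_⟩)⟩
      · rw [h1.1, M.invol]
      · rintro ⟨x, hx, h2 | h2⟩
        · exact h1.2 ⟨x, hx, Or.inr (by rw [← h2, h1.1, M.invol])⟩
        · exact h1.2 ⟨x, hx, Or.inl (by
            have := congrArg M.α h2
            rwa [h1.1, M.invol, M.invol] at this)⟩⟩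
  loopless := ⟨fun d h => h.1 rfl⟩

namespace WC4

variable {X D : Type} [Fintype X] [Fintype D] {M : PlaneMap X D} {w : X → ℕ} {S : WB M w} {b : BaseD M}

/-- connected inside the darts whose bag contains `x` -/
def C (S : WB M w) (b : BaseD M) (x : X) (d d' : D) : Prop :=
  Relation.ReflTransGen (fun e f => x ∈ bagW S b e ∧ x ∈ bagW S b f ∧ (linkW S b).Adj e f) d d'

lemma C_symm {x : X} {d d' : D} (h : C S b x d d') : C S b x d' d := by
  unfold C at h ⊢
  induction h with
  | refl => exact Relation.ReflTransGen.refl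
  | tail _ h2 ih =>
    exact Relation.ReflTransGen.head ⟨h2.2.1, h2.1, h2.2.2.symm⟩ ih

lemma C_trans {x : X} {d d' d'' : D} (h : C S b x d d') (h' : C S b x d' d'') :
    C S b x d d'' := Relation.ReflTransGen.trans h h'

lemma mem_bag {x : X} {d : D} : x ∈ bagW S b d ↔
    (S.On x (M.vert d) ∨ S.On x (M.vert (M.α d)) ∨ S.On x (M.vert (b.base d))) := by
  simp [bagW]

lemma on_refl (x : X) : S.On x x := Relation.ReflTransGen.refl

lemma on_up {x z y : X} (hz : z ≠ S.r) (hx : S.up z = x) (h : S.On z y) : S.On x y :=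
  Relation.ReflTransGen.tail h ⟨hz, hx.symm⟩

lemma mem_up {x z : X} {d : D} (hz : z ≠ S.r) (hx : S.up z = x) (h : z ∈ bagW S b d) :
    x ∈ bagW S b d := by
  rw [mem_bag] at h ⊢
  rcases h with h | h | h
  · exact Or.inl (on_up hz hx h)
  · exact Or.inr (Or.inl (on_up hz hx h))
  · exact Or.inr (Or.inr (on_up hz hx h))

lemma C_up {x z : X} {d d' : D} (hz : z ≠ S.r) (hx : S.up z = x) (h : C S b z d d') :
    C S b x d d' :=
  Relation.ReflTransGen.mono
    (fun _ _ hef => ⟨mem_up hz hx hef.1, mem_up hz hx hef.2.1, hef.2.2⟩) _ _ h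

lemma mem_tail {x : X} {d : D} (h : S.On x (M.vert d)) : x ∈ bagW S b d := mem_bag.2 (Or.inl h)

lemma mem_head {x : X} {d : D} (h : S.On x (M.vert d)) : x ∈ bagW S b (M.α d) :=
  mem_bag.2 (Or.inr (Or.inl (by rw [M.invol]; exact h)))

lemma base_base (d : D) : b.base (b.base d) = b.base d := (b.const _ _ (b.same d)).symm

/-- all the darts of a face are connected to the base dart if the face is inside -/
lemma face {x : X} {d : D} (h : S.On x (M.vert (b.base d))) : C S b x (b.base d) d := by
  have hin : ∀ e, (M.σ * M.α).SameCycle (b.base d) e → x ∈ bagW S b e := by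
    intro e he
    have h1 := b.const _ _ he
    rw [base_base] at h1
    exact mem_bag.2 (Or.inr (Or.inr (by rw [← h1]; exact h)))
  have hpow : ∀ n : ℕ, C S b x (b.base d) (((M.σ * M.α) ^ n) (b.base d)) := by
    intro n
    induction n with
    | zero => exact Relation.ReflTransGen.refl
    | succ n ih =>
      obtain ⟨e, he⟩ : ∃ e, e = ((M.σ * M.α) ^ n) (b.base d) := ⟨_, rfl⟩
      have hs : ((M.σ * M.α) ^ (n + 1)) (b.base d) = M.σ (M.α e) := by
        rw [pow_succ', he]; rfl
      have hc1 : (M.σ * M.α).SameCycle (b.base d) e := by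
        rw [he]; exact Equiv.Perm.sameCycle_pow_right.2 (Equiv.Perm.SameCycle.refl _ _)
      have hc2 : (M.σ * M.α).SameCycle (b.base d) (M.σ (M.α e)) := by
        rw [← hs]; exact Equiv.Perm.sameCycle_pow_right.2 (Equiv.Perm.SameCycle.refl _ _)
      rw [← he] at ih
      rw [hs]
      by_cases h1 : M.σ (M.α e) = b.base d
      · rw [h1]; exact Relation.ReflTransGen.refl
      · by_cases h2 : e = M.σ (M.α e)
        · rw [← h2]; exact ih
        · refine Relation.ReflTransGen.tail ih ⟨hin _ hc1, hin _ hc2, h2, Or.inl ⟨rfl, ?_⟩⟩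
          have h3 := b.const _ _ hc2
          rw [base_base] at h3
          rw [← h3]
          exact fun h4 => h1 h4.symm
  obtain ⟨n, hn⟩ := (b.same d).symm.exists_nat_pow_eq
  have h1 := hpow n
  rw [hn] at h1
  exact h1

/-- consecutive darts at a vertex -/
lemma r1 {x : X} {d : D} (h : S.On x (M.vert d)) : C S b x (M.α d) (M.σ d) := by
  have hv : M.vert (M.σ d) = M.vert d :=
    ((M.orbit (M.σ d) d).2 (Equiv.Perm.sameCycle_apply_left.2 (Equiv.Perm.SameCycle.refl _ _)))
  have hφ : (M.σ * M.α) (M.α d) = M.σ d := by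
    rw [Equiv.Perm.mul_apply, M.invol]
  by_cases hb : b.base (M.σ d) = M.σ d
  · have h1 : b.base (M.α d) = M.σ d := by
      refine (b.const _ _ ?_).trans hb
      rw [← hφ]
      exact Equiv.Perm.sameCycle_apply_right.2 (Equiv.Perm.SameCycle.refl _ _)
    have h2 : C S b x (b.base (M.α d)) (M.α d) := face (by rw [h1, hv]; exact h)
    rw [h1] at h2
    exact C_symm h2
  · by_cases he : M.α d = M.σ d
    · rw [he]; exact Relation.ReflTransGen.refl
    · refine Relation.ReflTransGen.single ⟨mem_head h, mem_tail (by rw [hv]; exact h), he,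
        Or.inl ⟨?_, hb⟩⟩
      rw [M.invol]

theorem main (N : ℕ) (hN : ∀ y, S.dist y ≤ N) : ∀ (m : ℕ) (x : X), N - S.dist x = m →
    ∀ d d', x ∈ bagW S b d → x ∈ bagW S b d' → C S b x d d' := by
  intro m
  induction m using Nat.strong_induction_on with
  | _ m ih =>
  intro x hm
  have hz : ∀ z, z ≠ S.r → S.up z = x → ∀ d d', z ∈ bagW S b d → z ∈ bagW S b d' →
      C S b x d d' := by
    intro z hzr hzx d d' hd hd'
    have h1 : S.dist x + w z = S.dist z := by
      rw [← hzx]; exact S.pd_head z hzr
    have h1' := S.pos z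
    have h2 := hN z
    exact C_up hzr hzx (ih (N - S.dist z) (by omega) z rfl d d' hd hd')
  -- the reference dart
  obtain ⟨d0, hd0, hd0'⟩ : ∃ d0, M.vert d0 = x ∧ (x ≠ S.r → d0 = S.pd x) := by
    by_cases hr : x = S.r
    · obtain ⟨d0, h0⟩ := M.surj x
      exact ⟨d0, h0, fun h => absurd hr h⟩
    · exact ⟨S.pd x, S.pd_tail x hr, fun _ => rfl⟩
  have hE : ∀ e, M.vert e = x → e ≠ d0 → C S b x e (M.α e) := by
    intro e he hne
    by_cases ht : S.tree e
    · obtain ⟨y, hy, h1 | h1⟩ := ht
      · exfalso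
        have h2 : y = x := by rw [← he, h1, S.pd_tail y hy]
        rw [h2] at hy h1
        exact hne (by rw [h1, hd0' hy])
      · have h2 : S.up y = x := by rw [← he, h1]; rfl
        refine hz y hy h2 _ _ ?_ ?_
        · rw [h1]
          exact mem_head (by rw [S.pd_tail y hy]; exact on_refl y)
        · rw [h1, M.invol]
          exact mem_tail (by rw [S.pd_tail y hy]; exact on_refl y)
    · refine Relation.ReflTransGen.single ⟨mem_tail (by rw [he]; exact on_refl x),
        mem_head (by rw [he]; exact on_refl x), (M.nofix e).symm, Or.inr (Or.inr ⟨rfl, ht⟩)⟩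
  have hQ : ∀ n : ℕ, M.vert ((M.σ ^ (n + 1)) d0) = x ∧ C S b x (M.α d0) ((M.σ ^ (n + 1)) d0) ∧
      C S b x (M.α d0) (M.α ((M.σ ^ (n + 1)) d0)) := by
    have hstep : ∀ e, M.vert e = x → C S b x (M.α d0) (M.α e) →
        M.vert (M.σ e) = x ∧ C S b x (M.α d0) (M.σ e) ∧ C S b x (M.α d0) (M.α (M.σ e)) := by
      intro e he hc
      have hv : M.vert (M.σ e) = x := by
        rw [← he]
        exact (M.orbit (M.σ e) e).2
          (Equiv.Perm.sameCycle_apply_left.2 (Equiv.Perm.SameCycle.refl _ _))
      have h1 : C S b x (M.α d0) (M.σ e) := C_trans hc (r1 (by rw [he]; exact on_refl x))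
      refine ⟨hv, h1, ?_⟩
      by_cases h2 : M.σ e = d0
      · rw [h2]; exact Relation.ReflTransGen.refl
      · exact C_trans h1 (hE _ hv h2)
    intro n
    induction n with
    | zero =>
      have h1 := hstep d0 hd0 Relation.ReflTransGen.refl
      simpa using h1
    | succ n ihn =>
      have h1 := hstep _ ihn.1 ihn.2.2
      rw [pow_succ' M.σ (n + 1), Equiv.Perm.mul_apply]
      exact h1
  have hA : ∀ e, M.vert e = x → C S b x (M.α d0) e ∧ C S b x (M.α d0) (M.α e) := by
    intro e he
    have h1 : M.σ.SameCycle d0 e := (M.orbit d0 e).1 (by rw [hd0, he])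
    obtain ⟨n, hn0, _, hn⟩ := h1.exists_pow_eq
    obtain ⟨k, rfl⟩ : ∃ k, n = k + 1 := ⟨n - 1, by omega⟩
    have h2 := hQ k
    rw [hn] at h2
    exact h2.2
  have hB : ∀ e, S.On x (M.vert e) → C S b x (M.α d0) e ∧ C S b x (M.α d0) (M.α e) := by
    intro e he
    rcases Relation.ReflTransGen.cases_tail he with h1 | ⟨z, h1, h2, h3⟩
    · exact hA e h1.symm
    · have h4 : C S b x (M.α d0) (S.pd z) := by
        have h5 := (hA (M.α (S.pd z)) h3.symm).2
        rwa [M.invol] at h5
      have h6 : z ∈ bagW S b (S.pd z) := mem_tail (by rw [S.pd_tail z h2]; exact on_refl z)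
      exact ⟨C_trans h4 (hz z h2 h3.symm _ _ h6 (mem_tail h1)),
        C_trans h4 (hz z h2 h3.symm _ _ h6 (mem_head h1))⟩
  have hAll : ∀ e, x ∈ bagW S b e → C S b x (M.α d0) e := by
    intro e he
    rcases mem_bag.1 he with h1 | h1 | h1
    · exact (hB e h1).1
    · have h2 := (hB (M.α e) h1).2
      rwa [M.invol] at h2
    · exact C_trans (hB _ h1).1 (face h1)
  intro d d' hd hd'
  exact C_trans (C_symm (hAll d hd)) (hAll d' hd')

end WC4


namespace WN4

variable {X D : Type} [Fintype X] [Fintype D] {M : PlaneMap X D} {w : X → ℕ} {S : WB M w} {b : BaseD M}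

lemma base_base (d : D) : b.base (b.base d) = b.base d := (b.const _ _ (b.same d)).symm

/-- there are at least as many base darts as faces -/
lemma card_base (b : BaseD M) : Nat.card (Quotient (Equiv.Perm.SameCycle.setoid (M.σ * M.α))) ≤
    (univ.filter (fun d => b.base d = d)).card := by
  have h : Nat.card (Quotient (Equiv.Perm.SameCycle.setoid (M.σ * M.α))) ≤
      Nat.card {d // b.base d = d} := by
    refine Nat.card_le_card_of_injective
      (fun q : Quotient (Equiv.Perm.SameCycle.setoid (M.σ * M.α)) =>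
        (⟨b.base q.out, base_base q.out⟩ : {d // b.base d = d})) ?_
    intro q q' hq
    have h1 : b.base q.out = b.base q'.out := by
      have := congrArg Subtype.val hq
      exact this
    have h2 : (M.σ * M.α).SameCycle q.out q'.out := by
      refine (b.same q.out).trans ?_
      rw [h1]
      exact (b.same q'.out).symm
    rw [← Quotient.out_eq q, ← Quotient.out_eq q']
    exact Quotient.sound h2
  refine h.trans (le_of_eq ?_)
  rw [Nat.card_eq_fintype_card, Fintype.card_subtype]

/-- there are enough tree darts -/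
lemma card_tree (S : WB M w) : 2 * (Fintype.card X - 1) ≤
    (univ.filter (fun d => S.tree d)).card := by
  have hinj : ∀ x y, x ≠ S.r → y ≠ S.r → S.pd x ≠ M.α (S.pd y) := by
    intro x y hx hy h
    have h1 : x = M.vert (M.α (S.pd y)) := by rw [← h, S.pd_tail x hx]
    have h2 : M.vert (M.α (S.pd x)) = y := by rw [h, M.invol, S.pd_tail y hy]
    have h3 := S.pd_head x hx
    have h4 := S.pd_head y hy
    have h5 := S.pos x
    have h6 := S.pos y
    rw [h2] at h3
    rw [← h1] at h4
    omega
  have h1 : ((univ.erase S.r) ×ˢ (univ : Finset Bool)).card ≤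
      (univ.filter (fun d => S.tree d)).card := by
    refine Finset.card_le_card_of_injOn
      (fun p => if p.2 then S.pd p.1 else M.α (S.pd p.1)) ?_ ?_
    · rintro ⟨x, c⟩ hx
      simp only [mem_coe, mem_product, mem_erase, mem_univ, and_true] at hx
      simp only [mem_coe, mem_filter, mem_univ, true_and]
      refine ⟨x, hx, ?_⟩
      cases c
      · exact Or.inr rfl
      · exact Or.inl rfl
    · rintro ⟨x, c⟩ hx ⟨y, c'⟩ hy h
      simp only [mem_coe, mem_product, mem_erase, mem_univ, and_true] at hx hy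
      have hpd : S.pd x = S.pd y → x = y := by
        intro h5
        rw [← S.pd_tail x hx, ← S.pd_tail y hy, h5]
      cases c <;> cases c' <;> simp only [if_true, if_false, Bool.false_eq_true] at h
      · rw [hpd (M.α.injective h)]
      · exact absurd h.symm (hinj y x hy hx)
      · exact absurd h (hinj x y hx hy)
      · rw [hpd h]
  rw [Finset.card_product, Finset.card_erase_of_mem (mem_univ _), Finset.card_univ,
    Finset.card_univ, Fintype.card_bool] at h1
  omega

lemma tree_alpha {d : D} (h : S.tree (M.α d)) : S.tree d := by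
  obtain ⟨x, hx, h1 | h1⟩ := h
  · exact ⟨x, hx, Or.inr (by rw [← h1, M.invol])⟩
  · exact ⟨x, hx, Or.inl (M.α.injective h1)⟩

lemma card_non (S : WB M w) : 2 * ((univ.filter (fun d => ¬ S.tree d)).image
    (fun d => s(d, M.α d))).card ≤ (univ.filter (fun d => ¬ S.tree d)).card := by
  refine Finset.mul_card_image_le_card _ 2 ?_
  intro e he
  obtain ⟨d, hd, rfl⟩ := Finset.mem_image.1 he
  simp only [mem_filter, mem_univ, true_and] at hd
  have h1 : ({d, M.α d} : Finset D).card = 2 := Finset.card_pair (M.nofix d).symm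
  rw [← h1]
  refine Finset.card_le_card ?_
  intro f hf
  simp only [mem_insert, mem_singleton] at hf
  simp only [mem_filter, mem_univ, true_and]
  rcases hf with rfl | rfl
  · exact ⟨hd, rfl⟩
  · refine ⟨fun h => hd (tree_alpha h), ?_⟩
    rw [M.invol]
    exact Sym2.eq_swap

end WN4


open WN4 in
/-- MCOUNT -/
theorem count (S : WB M w) (b : BaseD M) :
    Set.ncard (linkW S b).edgeSet + 1 ≤ Fintype.card D := by
  obtain ⟨A, hA⟩ : ∃ A : Finset (Sym2 D), A = (univ.filter (fun d => b.base d ≠ d)).image
      (fun d => s((M.σ * M.α).symm d, d)) := ⟨_, rfl⟩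
  obtain ⟨B, hB⟩ : ∃ B : Finset (Sym2 D), B = (univ.filter (fun d => ¬ S.tree d)).image
      (fun d => s(d, M.α d)) := ⟨_, rfl⟩
  have hsub : (linkW S b).edgeSet ⊆ ((A ∪ B : Finset (Sym2 D)) : Set (Sym2 D)) := by
    intro e
    induction e using Sym2.ind with
    | _ d d' =>
      intro he
      rw [SimpleGraph.mem_edgeSet] at he
      obtain ⟨_, h1 | h1 | h1⟩ := he
      · rw [mem_coe, mem_union, hA]
        refine Or.inl (Finset.mem_image.2 ⟨d', by simpa using h1.2, ?_⟩)
        have h2 : (M.σ * M.α).symm d' = d := by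
          rw [Equiv.symm_apply_eq, h1.1]; rfl
        rw [h2]
      · rw [mem_coe, mem_union, hA]
        refine Or.inl (Finset.mem_image.2 ⟨d, by simpa using h1.2, ?_⟩)
        have h2 : (M.σ * M.α).symm d = d' := by
          rw [Equiv.symm_apply_eq]
          exact h1.1
        rw [h2]
        exact Sym2.eq_swap
      · rw [mem_coe, mem_union, hB]
        refine Or.inr (Finset.mem_image.2 ⟨d, by simpa using h1.2, ?_⟩)
        rw [h1.1]
  have h1 : Set.ncard (linkW S b).edgeSet ≤ (A ∪ B).card := by
    have := Set.ncard_le_ncard hsub (Finset.finite_toSet _)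
    rwa [Set.ncard_coe_finset] at this
  have h2 := Finset.card_union_le A B
  have h3 : A.card ≤ (univ.filter (fun d => b.base d ≠ d)).card := by
    rw [hA]; exact Finset.card_image_le
  have h4 : 2 * B.card ≤ (univ.filter (fun d => ¬ S.tree d)).card := by
    rw [hB]; exact card_non S
  have h5 := card_base b
  have h6 := card_tree S
  have h7 : (univ.filter (fun d => b.base d = d)).card +
      (univ.filter (fun d => b.base d ≠ d)).card = Fintype.card D := by
    have := Finset.card_filter_add_card_filter_not (s := (univ : Finset D))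
      (fun d => b.base d = d)
    rwa [Finset.card_univ] at this
  have h8 : (univ.filter (fun d => S.tree d)).card +
      (univ.filter (fun d => ¬ S.tree d)).card = Fintype.card D := by
    have := Finset.card_filter_add_card_filter_not (s := (univ : Finset D))
      (fun d => S.tree d)
    rwa [Finset.card_univ] at this
  have h9 := M.euler
  have h10 : 0 < Fintype.card X := Fintype.card_pos_iff.2 ⟨S.r⟩
  omega


/-! ### existence of the search data -/

/-- `n` is the weight of a path from `r` to `x` -/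
inductive Cost (M : PlaneMap X D) (w : X → ℕ) (r : X) : X → ℕ → Prop
  | nil : Cost M w r r 0
  | step {x y : X} {n : ℕ} : Cost M w r x n → M.Adj x y → Cost M w r y (n + w y)

theorem cost_ex (M : PlaneMap X D) (w : X → ℕ) (r x : X) : ∃ n, Cost M w r x n := by
  have h := M.conn r x
  induction h with
  | refl => exact ⟨0, Cost.nil⟩
  | tail _ h2 ih =>
    obtain ⟨n, hn⟩ := ih
    exact ⟨_, Cost.step hn h2⟩

theorem exists_WB (M : PlaneMap X D) (w : X → ℕ) (hw : ∀ x, 1 ≤ w x) : Nonempty (WB M w) := by
  obtain ⟨r⟩ : Nonempty X := by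
    by_contra hX
    rw [not_nonempty_iff] at hX
    have hD : IsEmpty D := ⟨fun d => hX.elim (M.vert d)⟩
    have h := M.euler
    have h1 : Fintype.card X = 0 := Fintype.card_eq_zero
    have h2 : Fintype.card D = 0 := Fintype.card_eq_zero
    have h3 : Nat.card (Quotient (Equiv.Perm.SameCycle.setoid (M.σ * M.α))) = 0 := by
      have : IsEmpty (Quotient (Equiv.Perm.SameCycle.setoid (M.σ * M.α))) :=
        ⟨fun q => hD.elim (Quotient.out q)⟩
      exact Nat.card_of_isEmpty
    omega
  let dist : X → ℕ := fun x => Nat.find (cost_ex M w r x)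
  have hd : ∀ x, Cost M w r x (dist x) := fun x => Nat.find_spec (cost_ex M w r x)
  have hmin : ∀ x n, Cost M w r x n → dist x ≤ n := fun x n h =>
    Nat.find_min' (cost_ex M w r x) h
  have lip : ∀ x y, M.Adj x y → dist y ≤ dist x + w y := fun x y hxy =>
    hmin y _ (Cost.step (hd x) hxy)
  have hex : ∀ x, x ≠ r → ∃ d, M.vert d = x ∧ dist (M.vert (M.α d)) + w x = dist x := by
    intro x hx
    have h := hd x
    generalize hn : dist x = n at h
    cases h with
    | nil => exact absurd rfl hx
    | @step y _ n hy hyx =>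
      have h1 := hmin y _ hy
      have h2 := lip y x hyx
      obtain ⟨d, hd1, hd2⟩ := hyx
      refine ⟨M.α d, hd2, ?_⟩
      rw [M.invol, hd1]
      omega
  obtain ⟨d0, _⟩ := M.surj r
  refine ⟨{
    r := r
    dist := dist
    pd := fun x => if h : x ≠ r then (hex x h).choose else d0
    pd_tail := ?_
    pd_head := ?_
    lip := lip
    pos := hw }⟩
  · intro x hx
    simp only [dif_pos hx]
    exact (hex x hx).choose_spec.1
  · intro x hx
    simp only [dif_pos hx]
    exact (hex x hx).choose_spec.2

/-! ### root paths -/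

theorem WB.on_le (S : WB M w) {x y : X} (h : S.On x y) : S.dist x ≤ S.dist y := by
  unfold WB.On at h
  induction h with
  | refl => exact le_rfl
  | @tail a c _ h7 ih =>
    have h8 := S.pd_head a h7.1
    have h9 : S.dist c + w a = S.dist a := by rw [h7.2]; exact h8
    omega

theorem WB.on_dist (S : WB M w) {x y : X} (h : S.On x y) (hne : x ≠ y) :
    S.dist x + w y ≤ S.dist y := by
  rcases Relation.ReflTransGen.cases_head h with h1 | ⟨z, ⟨hz1, hz2⟩, h2⟩
  · exact absurd h1.symm hne
  · have h3 := S.pd_head y hz1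
    have h4 : S.dist z + w y = S.dist y := by rw [hz2]; exact h3
    have h5 : S.On x z := h2
    have := S.on_le h5
    omega

theorem WB.on_total (S : WB M w) {x x' y : X} (h : S.On x y) (h' : S.On x' y) :
    S.On x x' ∨ S.On x' x := by
  have hu : Relator.RightUnique (fun a b => a ≠ S.r ∧ b = S.up a) := by
    rintro a b c ⟨_, hb⟩ ⟨_, hc⟩
    rw [hb, hc]
  rcases Relation.ReflTransGen.total_of_right_unique hu h h' with h1 | h1
  · exact Or.inr h1
  · exact Or.inl h1

theorem WB.on_root (S : WB M w) : ∀ (n : ℕ) (y : X), S.dist y ≤ n → S.On S.r y := by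
  intro n
  induction n with
  | zero =>
    intro y hy
    by_cases h : y = S.r
    · subst h
      exact Relation.ReflTransGen.refl
    · have := S.pd_head y h
      have := S.pos y
      omega
  | succ n ih =>
    intro y hy
    by_cases h : y = S.r
    · rw [h]
      exact Relation.ReflTransGen.refl
    · have h1 := S.pd_head y h
      have h1' := S.pos y
      have h2 : S.On S.r (S.up y) := ih (S.up y) (by
        change S.dist (M.vert (M.α (S.pd y))) ≤ n
        omega)
      exact Relation.ReflTransGen.head ⟨h, rfl⟩ h2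

/-- every dart has at most three links -/
theorem link_deg (S : WB M w) (b : BaseD M) (d : D) :
    ((univ : Finset D).filter (fun e => (linkW S b).Adj d e)).card ≤ 3 := by
  have h : (univ : Finset D).filter (fun e => (linkW S b).Adj d e) ⊆
      {M.σ (M.α d), M.α (M.σ.symm d), M.α d} := by
    intro e he
    rw [mem_filter] at he
    simp only [mem_insert, mem_singleton]
    rcases he.2.2 with h1 | h1 | h1
    · exact Or.inl h1.1
    · refine Or.inr (Or.inl ?_)
      rw [h1.1, Equiv.symm_apply_apply, M.invol]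
    · exact Or.inr (Or.inr h1.1)
  exact (card_le_card h).trans card_le_three

/-- MAP with weights: `P 0 d`, `P 1 d`, `P 2 d` are the three root paths of the dart `d` -/
theorem wmap (M : PlaneMap X D) (w : X → ℕ) (hw : ∀ x, 1 ≤ w x) (hba : StBase) :
    ∃ (dist : X → ℕ) (T : SimpleGraph D) (P : Fin 3 → D → Finset X),
      (∀ x y, M.Adj x y → dist y ≤ dist x + w y) ∧
      T.Connected ∧ Set.ncard T.edgeSet + 1 ≤ Fintype.card D ∧
      (∀ d, (univ.filter (fun e => T.Adj d e)).card ≤ 3) ∧
      (∀ d, M.vert d ∈ P 0 d ∧ M.vert (M.α d) ∈ P 1 d) ∧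
      (∀ i d, ∀ x ∈ P i d, ∀ y ∈ P i d, x ≠ y → dist x + w y ≤ dist y ∨ dist y + w x ≤ dist x) ∧
      ∀ x, ∀ d d', (∃ i, x ∈ P i d) → (∃ i, x ∈ P i d') →
        Relation.ReflTransGen (fun e f => (∃ i, x ∈ P i e) ∧ (∃ i, x ∈ P i f) ∧ T.Adj e f) d d' := by
  obtain ⟨S⟩ := exists_WB M w hw
  obtain ⟨b⟩ := hba X D M
  let e : Fin 3 → D → X := fun i d => if i = 0 then M.vert d else if i = 1 then M.vert (M.α d)
    else M.vert (b.base d)
  have he0 : ∀ d, e 0 d = M.vert d := fun d => rfl
  have he1 : ∀ d, e 1 d = M.vert (M.α d) := fun d => rfl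
  have he2 : ∀ d, e 2 d = M.vert (b.base d) := fun d => rfl
  have hP : ∀ x d, (∃ i, x ∈ univ.filter (fun x => S.On x (e i d))) ↔ x ∈ bagW S b d := by
    intro x d
    rw [Fin.exists_fin_succ, Fin.exists_fin_two]
    simp only [bagW, mem_filter, mem_univ, true_and]
    exact Iff.rfl
  have hconn : ∀ x d d', x ∈ bagW S b d → x ∈ bagW S b d' → Relation.ReflTransGen
      (fun e f => x ∈ bagW S b e ∧ x ∈ bagW S b f ∧ (linkW S b).Adj e f) d d' := by
    intro x d d' hd hd'
    exact WC4.main (univ.sup S.dist) (fun y => Finset.le_sup (mem_univ y)) _ x rfl d d' hd hd'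
  refine ⟨S.dist, linkW S b, fun i d => univ.filter (fun x => S.On x (e i d)), S.lip, ?_,
    count S b, link_deg S b, ?_, ?_, ?_⟩
  · obtain ⟨d0, _⟩ := M.surj S.r
    have : Nonempty D := ⟨d0⟩
    refine ⟨fun d d' => ?_⟩
    have hr : ∀ e, S.r ∈ bagW S b e := by
      intro e
      unfold bagW
      rw [Finset.mem_filter]
      exact ⟨mem_univ _, Or.inl (S.on_root _ _ le_rfl)⟩
    have h := hconn S.r d d' (hr d) (hr d')
    induction h with
    | refl => exact SimpleGraph.Reachable.refl _
    | tail _ h2 ih => exact ih.trans h2.2.2.reachable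
  · intro d
    rw [mem_filter, mem_filter]
    exact ⟨⟨mem_univ _, Relation.ReflTransGen.refl⟩, ⟨mem_univ _, Relation.ReflTransGen.refl⟩⟩
  · intro i d x hx y hy hne
    rw [mem_filter] at hx hy
    rcases S.on_total hx.2 hy.2 with h | h
    · exact Or.inl (S.on_dist h hne)
    · exact Or.inr (S.on_dist h hne.symm)
  · intro x d d' hd hd'
    rw [hP] at hd hd'
    have := hconn x d d' hd hd'
    refine Relation.ReflTransGen.mono ?_ _ _ this
    rintro a c ⟨h1, h2, h3⟩
    exact ⟨(hP x a).2 h1, (hP x c).2 h2, h3⟩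

end

end Pool.Agent.Lib.MP_1fca17_co.Q
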